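import Mathlib

set_option autoImplicit false

/-!
# Ranks of principal submatrices over `ZMod 2`
-/

namespace Pool.Agent.Helper16.Knotoid

open scoped symmDiff

variable {ι : Type*} [Fintype ι] [DecidableEq ι]

/-- a principal submatrix -/
def psub (M : Matrix ι ι (ZMod 2)) (U : Finset ι) :
    Matrix {x // x ∈ U} {x // x ∈ U} (ZMod 2) :=
  M.submatrix (fun x : {x // x ∈ U} => x.1) (fun x : {x // x ∈ U} => x.1)

omit [Fintype ι] [DecidableEq ι] in
theorem psub_apply (M : Matrix ι ι (ZMod 2)) (U : Finset ι) (e f : {x // x ∈ U}) :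
    psub M U e f = M e.1 f.1 := rfl

/-- rank of a principal submatrix -/
noncomputable def rk (M : Matrix ι ι (ZMod 2)) (U : Finset ι) : ℕ :=
  (psub M U).rank

theorem zmod2_cases (a : ZMod 2) : a = 0 ∨ a = 1 := by
  fin_cases a
  · exact Or.inl rfl
  · exact Or.inr rfl

theorem zmod2_ne_zero {a : ZMod 2} : a ≠ 0 ↔ a = 1 := by
  rcases zmod2_cases a with h | h <;> simp [h]

theorem zmod2_ne_one {a : ZMod 2} : a ≠ 1 ↔ a = 0 := by
  rcases zmod2_cases a with h | h <;> simp [h]

section Lower

variable {M : Matrix ι ι (ZMod 2)} {U : Finset ι}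

theorem rk_mono {V : Finset ι} (h : U ⊆ V) : rk M U ≤ rk M V := by
  unfold rk
  have := Matrix.rank_submatrix_le (psub M V)
    (fun x : {x // x ∈ U} => (⟨x.1, h x.2⟩ : {x // x ∈ V}))
    (fun x : {x // x ∈ U} => (⟨x.1, h x.2⟩ : {x // x ∈ V}))
  exact this

theorem minor_le {k : ℕ} (r c : Fin k → ι) (hr : ∀ i, r i ∈ U) (hc : ∀ i, c i ∈ U)
    (hdet : (M.submatrix r c).det ≠ 0) : k ≤ rk M U := by
  have h1 := Matrix.rank_of_det_ne_zero hdet
  rw [Fintype.card_fin] at h1
  rw [← h1]
  exact Matrix.rank_submatrix_le (psub M U)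
    (fun i => (⟨r i, hr i⟩ : {x // x ∈ U})) (fun i => (⟨c i, hc i⟩ : {x // x ∈ U}))

theorem one_le_rk {e f : ι} (he : e ∈ U) (hf : f ∈ U) (h : M e f ≠ 0) : 1 ≤ rk M U := by
  refine minor_le ![e] ![f] ?_ ?_ ?_
  · intro i; fin_cases i; exact he
  · intro i; fin_cases i; exact hf
  · rw [Matrix.det_fin_one]
    simpa using h

theorem two_le_rk {a b c d : ι} (ha : a ∈ U) (hb : b ∈ U) (hc : c ∈ U) (hd : d ∈ U)
    (h : M a c * M b d - M a d * M b c ≠ 0) : 2 ≤ rk M U := by
  refine minor_le ![a, b] ![c, d] ?_ ?_ ?_
  · intro i; fin_cases i <;> assumption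
  · intro i; fin_cases i <;> assumption
  · rw [Matrix.det_fin_two]
    simpa using h

theorem three_le_rk {a b c x y z : ι} (ha : a ∈ U) (hb : b ∈ U) (hc : c ∈ U)
    (hx : x ∈ U) (hy : y ∈ U) (hz : z ∈ U)
    (h : M a x * M b y * M c z - M a x * M b z * M c y - M a y * M b x * M c z
      + M a y * M b z * M c x + M a z * M b x * M c y - M a z * M b y * M c x ≠ 0) :
    3 ≤ rk M U := by
  refine minor_le ![a, b, c] ![x, y, z] ?_ ?_ ?_
  · intro i; fin_cases i <;> assumption
  · intro i; fin_cases i <;> assumption
  · rw [Matrix.det_fin_three]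
    simpa using h

theorem rk_eq_zero_of (h : ∀ e ∈ U, ∀ f ∈ U, M e f = 0) : rk M U = 0 := by
  have : psub M U = 0 := by
    ext e f
    simp [psub_apply, h e.1 e.2 f.1 f.2]
  rw [rk, this, Matrix.rank_zero]

theorem rk_le_one_of (u v : ι → ZMod 2) (h : ∀ e ∈ U, ∀ f ∈ U, M e f = u e * v f) :
    rk M U ≤ 1 := by
  have : psub M U =
      Matrix.vecMulVec (fun e : {x // x ∈ U} => u e) (fun f : {x // x ∈ U} => v f) := by
    ext e f
    simp [psub_apply, h e.1 e.2 f.1 f.2, Matrix.vecMulVec_apply]
  rw [rk, this]
  exact Matrix.rank_vecMulVec_le _ _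

theorem rk_le_two_of (u v u' v' : ι → ZMod 2)
    (h : ∀ e ∈ U, ∀ f ∈ U, M e f = u e * v f + u' e * v' f) : rk M U ≤ 2 := by
  have : psub M U =
      (Matrix.of fun (e : {x // x ∈ U}) (i : Fin 2) => (![u e, u' e] : Fin 2 → ZMod 2) i) *
      (Matrix.of fun (i : Fin 2) (f : {x // x ∈ U}) => (![v f, v' f] : Fin 2 → ZMod 2) i) := by
    ext e f
    simp [psub_apply, h e.1 e.2 f.1 f.2, Matrix.mul_apply, Fin.sum_univ_two]
  rw [rk, this]
  refine (Matrix.rank_mul_le_left _ _).trans ?_
  refine (Matrix.rank_le_card_width _).trans ?_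
  simp

theorem rk_le_card : rk M U ≤ U.card := by
  unfold rk
  refine (Matrix.rank_le_card_width _).trans ?_
  simp

end Lower

/-- The data of the linear algebra of an adapted single-arc state. -/
structure Adapted (M : Matrix ι ι (ZMod 2)) (T : Finset ι) : Prop where
  symm : ∀ e f, M e f = M f e
  tree : ∀ s ∈ T, ∀ t ∈ T, M s t = 0
  adeq : ∀ e ∉ T, M e e = 1 ∨ ∃ t ∈ T, M t e = 1
  planar₀ : ∀ t ∈ T, ∀ e f, e ≠ f → M t e = 1 → M t f = 1 → M e e = 0 → M f f = 0 → M e f = 0
  planar₁ : ∀ t ∈ T, ∃ s : ι → ZMod 2, ∀ e f, e ≠ f → M t e = 1 → M t f = 1 → M e e = 1 →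
    M f f = 1 → M e f = 1 + s e + s f

/-- the defect of a set of crossings -/
noncomputable def defect (M : Matrix ι ι (ZMod 2)) (T S : Finset ι) : ℕ :=
  2 * (S ∩ T).card + rk M (T ∆ S)

/-- the parallelism class of a crossing -/
def key (M : Matrix ι ι (ZMod 2)) (T : Finset ι) (e : ι) : Finset ι × ZMod 2 :=
  if e ∈ T then ({e}, 0) else (T.filter (fun t => M t e = 1), M e e)

/-- the crossings joining the arc to itself -/
def loops (M : Matrix ι ι (ZMod 2)) (T : Finset ι) : Finset ι :=
  Finset.univ.filter fun e => e ∉ T ∧ ∀ t ∈ T, M t e = 0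

variable {M : Matrix ι ι (ZMod 2)} {T S : Finset ι}

theorem symmDiff_card (T S : Finset ι) : (T ∆ S).card + 2 * (S ∩ T).card = T.card + S.card := by
  have h1 : T ∆ S = (T \ S) ∪ (S \ T) := rfl
  rw [h1, Finset.card_union_of_disjoint (disjoint_sdiff_sdiff)]
  have h2 := Finset.card_sdiff_add_card_inter T S
  have h3 := Finset.card_sdiff_add_card_inter S T
  rw [Finset.inter_comm T S] at h2
  omega

namespace Adapted

variable (hA : Adapted M T)
include hA

theorem defect_empty : defect M T ∅ = 0 := by
  unfold defect
  rw [Finset.empty_inter, Finset.card_empty]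
  have : T ∆ (∅ : Finset ι) = T := by ext x; simp [Finset.mem_symmDiff]
  rw [this, rk_eq_zero_of hA.tree]

theorem one_le_defect (hS : S.Nonempty) : 1 ≤ defect M T S := by
  unfold defect
  by_cases h : (S ∩ T).Nonempty
  · have := Finset.card_pos.2 h
    omega
  · rw [Finset.not_nonempty_iff_eq_empty] at h
    obtain ⟨e, he⟩ := hS
    have heT : e ∉ T := fun h' => by
      have : e ∈ S ∩ T := Finset.mem_inter.2 ⟨he, h'⟩
      rw [h] at this
      simp at this
    have hU : e ∈ T ∆ S := Finset.mem_symmDiff.2 (Or.inr ⟨he, heT⟩)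
    rcases hA.adeq e heT with h1 | ⟨t, ht, h1⟩
    · have := one_le_rk (M := M) hU hU (by rw [h1]; simp)
      omega
    · have htS : t ∉ S := fun h' => by
        have : t ∈ S ∩ T := Finset.mem_inter.2 ⟨h', ht⟩
        rw [h] at this
        simp at this
      have hU' : t ∈ T ∆ S := Finset.mem_symmDiff.2 (Or.inl ⟨ht, htS⟩)
      have := one_le_rk (M := M) hU' hU (by rw [h1]; simp)
      omega

theorem defect_eq_zero : defect M T S = 0 ↔ S = ∅ := by
  constructor
  · intro h
    by_contra h'
    have := hA.one_le_defect (Finset.nonempty_iff_ne_empty.2 h')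
    omega
  · rintro rfl
    exact hA.defect_empty

/-- sets of defect one are the cliques of loops -/
theorem defect_eq_one : defect M T S = 1 ↔
    S.Nonempty ∧ S ⊆ loops M T ∧ ∀ e ∈ S, ∀ f ∈ S, M e f = 1 := by
  constructor
  · intro h
    have hne : S.Nonempty := by
      by_contra h'
      rw [Finset.not_nonempty_iff_eq_empty] at h'
      rw [h', hA.defect_empty] at h
      omega
    have hcard : (S ∩ T).card = 0 := by
      unfold defect at h
      omega
    have hrk : rk M (T ∆ S) = 1 := by
      unfold defect at h
      omega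
    have hdis : ∀ e ∈ S, e ∉ T := fun e he heT => by
      have : e ∈ S ∩ T := Finset.mem_inter.2 ⟨he, heT⟩
      rw [Finset.card_eq_zero.1 hcard] at this
      simp at this
    have hS : ∀ e ∈ S, e ∈ T ∆ S := fun e he => Finset.mem_symmDiff.2 (Or.inr ⟨he, hdis e he⟩)
    have hT : ∀ t ∈ T, t ∈ T ∆ S := fun t ht =>
      Finset.mem_symmDiff.2 (Or.inl ⟨ht, fun h' => hdis t h' ht⟩)
    have hloop : ∀ e ∈ S, ∀ t ∈ T, M t e = 0 := by
      intro e he t ht
      by_contra h1
      rw [← ne_eq, zmod2_ne_zero] at h1
      have h2 := two_le_rk (M := M) (hT t ht) (hS e he) (hS e he) (hT t ht) (by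
        rw [hA.symm e t, h1, hA.tree t ht t ht]
        simp)
      omega
    have hdiag : ∀ e ∈ S, M e e = 1 := by
      intro e he
      rcases hA.adeq e (hdis e he) with h1 | ⟨t, ht, h1⟩
      · exact h1
      · rw [hloop e he t ht] at h1
        simp at h1
    refine ⟨hne, fun e he => ?_, fun e he f hf => ?_⟩
    · simp only [loops, Finset.mem_filter, Finset.mem_univ, true_and]
      exact ⟨hdis e he, hloop e he⟩
    · by_contra h1
      rw [← ne_eq, zmod2_ne_one] at h1
      have h2 := two_le_rk (M := M) (hS e he) (hS f hf) (hS e he) (hS f hf) (by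
        rw [hA.symm f e, h1, hdiag e he, hdiag f hf]
        simp)
      omega
  · rintro ⟨hne, hsub, hcl⟩
    have hloop : ∀ e ∈ S, e ∉ T ∧ ∀ t ∈ T, M t e = 0 := fun e he => by
      have := hsub he
      simpa only [loops, Finset.mem_filter, Finset.mem_univ, true_and] using this
    have h0 : S ∩ T = ∅ := by
      ext e
      simp only [Finset.mem_inter, Finset.notMem_empty, iff_false, not_and]
      exact fun he => (hloop e he).1
    have h1 : rk M (T ∆ S) ≤ 1 := by
      refine rk_le_one_of (fun e => if e ∈ S then 1 else 0) (fun e => if e ∈ S then 1 else 0) ?_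
      intro e he f hf
      rw [Finset.mem_symmDiff] at he hf
      rcases he with ⟨he, he'⟩ | ⟨he, he'⟩ <;> rcases hf with ⟨hf, hf'⟩ | ⟨hf, hf'⟩
      · simp [he', hA.tree e he f hf]
      · simp [he', (hloop f hf).2 e he]
      · rw [hA.symm e f]
        simp [hf', (hloop e he).2 f hf]
      · simp [he, hf, hcl e he f hf]
    have h2 := hA.one_le_defect hne
    unfold defect at h2 ⊢
    rw [h0, Finset.card_empty] at h2 ⊢
    omega

theorem key_of_mem {e : ι} (he : e ∈ T) : key M T e = ({e}, 0) := by simp [key, he]

theorem key_of_notMem {e : ι} (he : e ∉ T) :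
    key M T e = (T.filter (fun t => M t e = 1), M e e) := by simp [key, he]

theorem two_le_defect (hL : loops M T = ∅) (hS : S.Nonempty) : 2 ≤ defect M T S := by
  have h1 := hA.one_le_defect hS
  have h2 : defect M T S ≠ 1 := fun h => by
    obtain ⟨hne, hsub, -⟩ := hA.defect_eq_one.1 h
    rw [hL, Finset.subset_empty] at hsub
    exact hne.ne_empty hsub
  omega

/-- without loops, the nonempty sets of defect two are those contained in a parallelism class -/
theorem defect_eq_two (hL : loops M T = ∅) : defect M T S = 2 ↔
    S.Nonempty ∧ ∀ e ∈ S, ∀ f ∈ S, key M T e = key M T f := by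
  have hnl : ∀ e ∉ T, ∃ t ∈ T, M t e = 1 := by
    intro e he
    by_contra h
    push Not at h
    have : e ∈ loops M T := by
      simp only [loops, Finset.mem_filter, Finset.mem_univ, true_and]
      exact ⟨he, fun t ht => zmod2_ne_one.1 (h t ht)⟩
    rw [hL] at this
    simp at this
  constructor
  · intro h
    have hne : S.Nonempty := by
      by_contra h'
      rw [Finset.not_nonempty_iff_eq_empty] at h'
      rw [h', hA.defect_empty] at h
      omega
    refine ⟨hne, ?_⟩
    have hcard : (S ∩ T).card ≤ 1 := by
      unfold defect at h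
      omega
    rcases Nat.lt_or_ge (S ∩ T).card 1 with h0 | h1
    · -- no tree crossing in S
      have h0' : (S ∩ T).card = 0 := by omega
      have hrk : rk M (T ∆ S) = 2 := by
        unfold defect at h
        omega
      have hdis : ∀ e ∈ S, e ∉ T := fun e he heT => by
        have : e ∈ S ∩ T := Finset.mem_inter.2 ⟨he, heT⟩
        rw [Finset.card_eq_zero.1 h0'] at this
        simp at this
      have hS : ∀ e ∈ S, e ∈ T ∆ S := fun e he => Finset.mem_symmDiff.2 (Or.inr ⟨he, hdis e he⟩)
      have hT : ∀ t ∈ T, t ∈ T ∆ S := fun t ht =>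
        Finset.mem_symmDiff.2 (Or.inl ⟨ht, fun h' => hdis t h' ht⟩)
      -- tree neighbours agree
      have hsub : ∀ e ∈ S, ∀ f ∈ S, ∀ t ∈ T, M t e = 1 → M t f = 1 := by
        intro e he f hf t ht h1
        by_contra h2
        rw [← ne_eq, zmod2_ne_one] at h2
        obtain ⟨t', ht', h3⟩ := hnl f (hdis f hf)
        have h4 := three_le_rk (M := M) (hT t ht) (hT t' ht') (hS e he) (hS e he) (hS f hf)
          (hT t ht) (by
            rw [h1, h2, h3, hA.symm e t, h1, hA.tree t ht t ht, hA.tree t' ht' t ht]
            simp)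
        omega
      have hdiag : ∀ e ∈ S, ∀ f ∈ S, M e e = 1 → M f f = 1 := by
        intro e he f hf h1
        by_contra h2
        rw [← ne_eq, zmod2_ne_one] at h2
        obtain ⟨t, ht, h3⟩ := hnl e (hdis e he)
        have h4 := hsub e he f hf t ht h3
        have h5 := three_le_rk (M := M) (hT t ht) (hS e he) (hS f hf) (hT t ht) (hS e he)
          (hS f hf) (by
            rw [hA.symm e t, hA.symm f t, h3, h4, h1, h2, hA.tree t ht t ht, hA.symm f e]
            rcases zmod2_cases (M e f) with h6 | h6 <;> rw [h6] <;> decide)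
        omega
      intro e he f hf
      rw [hA.key_of_notMem (hdis e he), hA.key_of_notMem (hdis f hf)]
      refine Prod.ext ?_ ?_
      · ext t
        simp only [Finset.mem_filter]
        exact ⟨fun h => ⟨h.1, hsub e he f hf t h.1 h.2⟩, fun h => ⟨h.1, hsub f hf e he t h.1 h.2⟩⟩
      · show M e e = M f f
        rcases zmod2_cases (M e e) with h1 | h1
        · rcases zmod2_cases (M f f) with h2 | h2
          · rw [h1, h2]
          · rw [hdiag f hf e he h2, h2]
        · rw [hdiag e he f hf h1, h1]
    · -- one tree crossing in S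
      have h1' : (S ∩ T).card = 1 := by omega
      have hrk : rk M (T ∆ S) = 0 := by
        unfold defect at h
        omega
      obtain ⟨t, ht⟩ := Finset.card_eq_one.1 h1'
      have htST : t ∈ S ∩ T := by rw [ht]; simp
      have htT : t ∈ T := (Finset.mem_inter.1 htST).2
      have hkey : ∀ e ∈ S, key M T e = ({t}, 0) := by
        intro e he
        by_cases heT : e ∈ T
        · have : e ∈ S ∩ T := Finset.mem_inter.2 ⟨he, heT⟩
          rw [ht, Finset.mem_singleton] at this
          rw [hA.key_of_mem heT, this]
        · have hU : e ∈ T ∆ S := Finset.mem_symmDiff.2 (Or.inr ⟨he, heT⟩)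
          rw [hA.key_of_notMem heT]
          have hsub : T.filter (fun s => M s e = 1) ⊆ {t} := by
            intro s hs
            rw [Finset.mem_filter] at hs
            by_contra hst
            rw [Finset.mem_singleton] at hst
            have hsS : s ∉ S := fun h' => by
              have : s ∈ S ∩ T := Finset.mem_inter.2 ⟨h', hs.1⟩
              rw [ht, Finset.mem_singleton] at this
              exact hst this
            have := one_le_rk (M := M) (Finset.mem_symmDiff.2 (Or.inl ⟨hs.1, hsS⟩)) hU
              (by rw [hs.2]; simp)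
            omega
          have hdiag : M e e = 0 := by
            by_contra h1
            have := one_le_rk (M := M) hU hU h1
            omega
          refine Prod.ext ?_ hdiag
          obtain ⟨s, hs, h1⟩ := hnl e heT
          refine Finset.Subset.antisymm hsub ?_
          have hs' : s ∈ T.filter (fun s => M s e = 1) := Finset.mem_filter.2 ⟨hs, h1⟩
          have := hsub hs'
          rw [Finset.mem_singleton] at this
          rw [← this, Finset.singleton_subset_iff]
          exact hs'
      intro e he f hf
      rw [hkey e he, hkey f hf]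
  · rintro ⟨hne, hkey⟩
    have h2 := hA.two_le_defect hL hne
    have hle : defect M T S ≤ 2 := by
      by_cases hST : (S ∩ T).Nonempty
      · obtain ⟨t, ht⟩ := hST
        rw [Finset.mem_inter] at ht
        have hk : ∀ e ∈ S, key M T e = ({t}, 0) := fun e he => by
          rw [hkey e he t ht.1, hA.key_of_mem ht.2]
        have h1 : S ∩ T = {t} := by
          ext e
          rw [Finset.mem_inter, Finset.mem_singleton]
          constructor
          · rintro ⟨he, heT⟩
            have h3 := hk e he
            rw [hA.key_of_mem heT, Prod.mk.injEq, Finset.singleton_inj] at h3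
            exact h3.1
          · rintro rfl
            exact ht
        have hrow : ∀ e ∈ S, e ∉ T → (∀ s ∈ T, s ≠ t → M s e = 0) ∧ M t e = 1 ∧ M e e = 0 := by
          intro e he heT
          have h3 := hk e he
          rw [hA.key_of_notMem heT, Prod.mk.injEq] at h3
          refine ⟨fun s hs hst => ?_, ?_, h3.2⟩
          · by_contra h4
            have : s ∈ T.filter (fun s => M s e = 1) :=
              Finset.mem_filter.2 ⟨hs, zmod2_ne_zero.1 h4⟩
            rw [h3.1, Finset.mem_singleton] at this
            exact hst this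
          · have : t ∈ T.filter (fun s => M s e = 1) := by rw [h3.1]; simp
            exact (Finset.mem_filter.1 this).2
        have h4 : rk M (T ∆ S) = 0 := by
          refine rk_eq_zero_of ?_
          intro e he f hf
          rw [Finset.mem_symmDiff] at he hf
          rcases he with ⟨he, he'⟩ | ⟨he, he'⟩ <;> rcases hf with ⟨hf, hf'⟩ | ⟨hf, hf'⟩
          · exact hA.tree e he f hf
          · exact (hrow f hf hf').1 e he (fun h => he' (h ▸ ht.1))
          · rw [hA.symm e f]
            exact (hrow e he he').1 f hf (fun h => hf' (h ▸ ht.1))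
          · by_cases hef : e = f
            · rw [← hef]
              exact (hrow e he he').2.2
            · exact hA.planar₀ t ht.2 e f hef (hrow e he he').2.1 (hrow f hf hf').2.1
                (hrow e he he').2.2 (hrow f hf hf').2.2
        unfold defect
        rw [h1, h4, Finset.card_singleton]
      · rw [Finset.not_nonempty_iff_eq_empty] at hST
        have hdis : ∀ e ∈ S, e ∉ T := fun e he heT => by
          have : e ∈ S ∩ T := Finset.mem_inter.2 ⟨he, heT⟩
          rw [hST] at this
          simp at this
        obtain ⟨e₀, he₀⟩ := hne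
        obtain ⟨t, ht, h1⟩ := hnl e₀ (hdis e₀ he₀)
        have hrow : ∀ e ∈ S, (∀ s ∈ T, M s e = M s e₀) ∧ M e e = M e₀ e₀ := by
          intro e he
          have h3 := hkey e he e₀ he₀
          rw [hA.key_of_notMem (hdis e he), hA.key_of_notMem (hdis e₀ he₀), Prod.mk.injEq] at h3
          refine ⟨fun s hs => ?_, h3.2⟩
          have h4 : s ∈ T.filter (fun t => M t e = 1) ↔ s ∈ T.filter (fun t => M t e₀ = 1) := by
            rw [h3.1]
          simp only [Finset.mem_filter, hs, true_and] at h4
          rcases zmod2_cases (M s e₀) with h5 | h5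
          · rw [h5, ← zmod2_ne_one]
            intro h6
            rw [h4.1 h6] at h5
            simp at h5
          · rw [h5, h4.2 h5]
        have hte : ∀ e ∈ S, M t e = 1 := fun e he => by rw [(hrow e he).1 t ht, h1]
        have hrk : rk M (T ∆ S) ≤ 2 := by
          rcases zmod2_cases (M e₀ e₀) with hd | hd
          · -- diagonal zero
            refine rk_le_two_of (fun e => if e ∈ S then 1 else 0)
              (fun f => if f ∈ S then 0 else M f e₀)
              (fun e => if e ∈ S then 0 else M e e₀) (fun f => if f ∈ S then 1 else 0) ?_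
            intro e he f hf
            rw [Finset.mem_symmDiff] at he hf
            rcases he with ⟨he, he'⟩ | ⟨he, he'⟩ <;> rcases hf with ⟨hf, hf'⟩ | ⟨hf, hf'⟩
            · simp [he', hf', hA.tree e he f hf]
            · simp [he', hf, (hrow f hf).1 e he]
            · rw [hA.symm e f]
              simp [he, hf', (hrow e he).1 f hf]
            · simp only [he, hf, if_true]
              by_cases hef : e = f
              · rw [← hef, (hrow e he).2, hd]
                simp
              · rw [hA.planar₀ t ht e f hef (hte e he) (hte f hf) (by rw [(hrow e he).2, hd])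
                  (by rw [(hrow f hf).2, hd])]
                simp
          · -- diagonal one
            obtain ⟨s, hs⟩ := hA.planar₁ t ht
            refine rk_le_two_of (fun e => if e ∈ S then 1 else 0)
              (fun f => if f ∈ S then 1 + s f else M f e₀)
              (fun e => if e ∈ S then s e else M e e₀) (fun f => if f ∈ S then 1 else 0) ?_
            intro e he f hf
            rw [Finset.mem_symmDiff] at he hf
            rcases he with ⟨he, he'⟩ | ⟨he, he'⟩ <;> rcases hf with ⟨hf, hf'⟩ | ⟨hf, hf'⟩
            · simp [he', hf', hA.tree e he f hf]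
            · simp [he', hf, (hrow f hf).1 e he]
            · rw [hA.symm e f]
              simp [he, hf', (hrow e he).1 f hf]
            · simp only [he, hf, if_true]
              by_cases hef : e = f
              · rw [← hef, (hrow e he).2, hd]
                rcases zmod2_cases (s e) with h6 | h6 <;> rw [h6] <;> decide
              · rw [hs e f hef (hte e he) (hte f hf) (by rw [(hrow e he).2, hd])
                  (by rw [(hrow f hf).2, hd])]
                ring
        unfold defect
        rw [hST, Finset.card_empty]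
        omega
    omega

end Adapted

end Pool.Agent.Helper16.Knotoid
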