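import Pool.Agent.Helper16.Knotoid.Kernel
import Pool.Agent.Helper16.Knotoid.Rank

set_option autoImplicit false

/-!
# Chords of an arc, drawn in the slit disc without crossings
-/

namespace Pool.Agent.Helper16.Knotoid

/-- interlacement of two pairs `a < b`, `c < d` -/
def Inter (a b c d : ℕ) : Prop := (a < c ∧ c < b ∧ b < d) ∨ (c < a ∧ a < d ∧ d < b)

/-- four comparisons, mod 2 -/
def quad (a b c d : ℕ) : ZMod 2 :=
  ((if c < a then 1 else 0) + (if d < a then 1 else 0)) +
    ((if c < b then 1 else 0) + (if d < b then 1 else 0))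

theorem quad_eq_one_iff {a b c d : ℕ} (hab : a < b) (hcd : c < d) (h1 : a ≠ c) (h2 : a ≠ d)
    (h3 : b ≠ c) (h4 : b ≠ d) : quad a b c d = 1 ↔ Inter a b c d := by
  unfold quad
  by_cases h5 : c < a <;> by_cases h6 : d < a <;> by_cases h7 : c < b <;> by_cases h8 : d < b <;>
    simp only [h5, h6, h7, h8, if_true, if_false]
  all_goals first
    | (exfalso; omega)
    | (constructor
       · intro h
         first
           | (exfalso; revert h; decide)
           | (unfold Inter; omega)
       · intro h
         first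
           | (exfalso; unfold Inter at h; omega)
           | decide)

theorem quad_comm_left (a b c d : ℕ) : quad a b c d = quad b a c d := by
  unfold quad
  ring

theorem quad_comm_right (a b c d : ℕ) : quad a b c d = quad a b d c := by
  unfold quad
  ring

/-- Chords of an arc with junctions `0, …, N-1`: the ends of the chord `e` are at the junctions
`l e < r e`, on the sides `sl e`, `sr e` of the arc (`true` = left). -/
structure Slit (ι : Type*) (N : ℕ) where
  l : ι → Fin N
  r : ι → Fin N
  sl : ι → Bool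
  sr : ι → Bool
  lt : ∀ e, (l e : ℕ) < r e
  inj : Function.Injective (Sum.elim l r)

/-- coordinate on the boundary of the slit disc -/
def circ (N p : ℕ) (s : Bool) : ℕ := if s then p else 2 * N - p

namespace Slit

variable {ι : Type*} [Fintype ι] [DecidableEq ι] {N : ℕ} (C : Slit ι N)

/-- the chords do not cross in the slit disc -/
def Noncrossing : Prop := ∀ e f, e ≠ f →
  quad (circ N (C.l e) (C.sl e)) (circ N (C.r e) (C.sr e))
    (circ N (C.l f) (C.sl f)) (circ N (C.r f) (C.sr f)) = 0

/-- the matrix of the chords -/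
def mat : Matrix ι ι (ZMod 2) := arcMat C.l C.r (fun e => C.sl e != C.sr e)

omit [Fintype ι] [DecidableEq ι] in
theorem ne_ll {e f : ι} (h : e ≠ f) : (C.l e : ℕ) ≠ C.l f := fun h' => by
  have := @C.inj (Sum.inl e) (Sum.inl f) (Fin.ext h')
  exact h (by simpa using this)

omit [Fintype ι] [DecidableEq ι] in
theorem ne_rr {e f : ι} (h : e ≠ f) : (C.r e : ℕ) ≠ C.r f := fun h' => by
  have := @C.inj (Sum.inr e) (Sum.inr f) (Fin.ext h')
  exact h (by simpa using this)

omit [Fintype ι] [DecidableEq ι] in
theorem ne_lr (e f : ι) : (C.l e : ℕ) ≠ C.r f := fun h' => by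
  have := @C.inj (Sum.inl e) (Sum.inr f) (Fin.ext h')
  simp at this

omit [Fintype ι] [DecidableEq ι] in
theorem ne_rl (e f : ι) : (C.r e : ℕ) ≠ C.l f := fun h' => C.ne_lr f e h'.symm

omit [Fintype ι] [DecidableEq ι] in
theorem mat_of_ne {e f : ι} (h : e ≠ f) : C.mat e f = quad (C.l e) (C.r e) (C.l f) (C.r f) := by
  unfold mat arcMat cnt quad
  have h1 := C.ne_lr f e
  have h2 := C.ne_rr h
  have e1 : (if (C.l f : ℕ) < (if (C.sl e != C.sr e) = true then (C.r e : ℕ) else (C.r e : ℕ) + 1)
      then (1 : ZMod 2) else 0) = if (C.l f : ℕ) < C.r e then 1 else 0 := by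
    refine if_congr ?_ rfl rfl
    split_ifs <;> omega
  have e2 : (if (C.r f : ℕ) < (if (C.sl e != C.sr e) = true then (C.r e : ℕ) else (C.r e : ℕ) + 1)
      then (1 : ZMod 2) else 0) = if (C.r f : ℕ) < C.r e then 1 else 0 := by
    refine if_congr ?_ rfl rfl
    split_ifs <;> omega
  rw [e1, e2]

omit [Fintype ι] [DecidableEq ι] in
theorem mat_self (e : ι) : C.mat e e = if C.sl e = C.sr e then 0 else 1 := by
  unfold mat arcMat cnt
  beta_reduce
  have h := C.lt e
  by_cases h1 : C.sl e = C.sr e
  · have h2 : (C.sl e != C.sr e) = false := by simp [h1]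
    rw [h2, if_pos h1]
    have e1 : ¬ ((C.l e : ℕ) < C.l e) := by omega
    have e2 : ¬ ((C.r e : ℕ) < C.l e) := by omega
    have e3 : (C.l e : ℕ) < C.r e + 1 := by omega
    have e4 : (C.r e : ℕ) < C.r e + 1 := by omega
    simp only [e1, e2, e3, e4, if_true, if_false, Bool.false_eq_true]
    decide
  · have h2 : (C.sl e != C.sr e) = true := by simp [h1]
    rw [h2, if_neg h1]
    have e1 : ¬ ((C.l e : ℕ) < C.l e) := by omega
    have e2 : ¬ ((C.r e : ℕ) < C.l e) := by omega
    have e4 : ¬ ((C.r e : ℕ) < C.r e) := by omega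
    simp only [e1, e2, h, e4, if_true, if_false]
    decide

omit [Fintype ι] [DecidableEq ι] in
theorem mat_self_eq_one {e : ι} : C.mat e e = 1 ↔ C.sl e ≠ C.sr e := by
  rw [mat_self]
  by_cases h : C.sl e = C.sr e <;> simp [h]

omit [Fintype ι] [DecidableEq ι] in
theorem mat_self_eq_zero {e : ι} : C.mat e e = 0 ↔ C.sl e = C.sr e := by
  rw [mat_self]
  by_cases h : C.sl e = C.sr e <;> simp [h]

omit [Fintype ι] [DecidableEq ι] in
theorem mat_eq_one_iff {e f : ι} (h : e ≠ f) :
    C.mat e f = 1 ↔ Inter (C.l e) (C.r e) (C.l f) (C.r f) := by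
  rw [C.mat_of_ne h]
  exact quad_eq_one_iff (C.lt e) (C.lt f) (C.ne_ll h) (C.ne_lr e f) (C.ne_rl e f) (C.ne_rr h)

omit [Fintype ι] in
theorem mat_symm (e f : ι) : C.mat e f = C.mat f e := by
  by_cases h : e = f
  · rw [h]
  · rcases zmod2_cases (C.mat f e) with h1 | h1
    · rw [h1, ← zmod2_ne_one, ne_eq, C.mat_eq_one_iff h]
      rw [← zmod2_ne_one, ne_eq, C.mat_eq_one_iff (Ne.symm h)] at h1
      unfold Inter at h1 ⊢
      omega
    · rw [h1, C.mat_eq_one_iff h]
      rw [C.mat_eq_one_iff (Ne.symm h)] at h1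
      unfold Inter at h1 ⊢
      omega

variable {C}

omit [Fintype ι] [DecidableEq ι] in
/-- the noncrossing condition in terms of the ends -/
theorem Noncrossing.not_inter (hC : C.Noncrossing) {e f : ι} (h : e ≠ f) :
    ∀ x y z w : ℕ, (x = circ N (C.l e) (C.sl e) ∧ y = circ N (C.r e) (C.sr e) ∨
      y = circ N (C.l e) (C.sl e) ∧ x = circ N (C.r e) (C.sr e)) →
      (z = circ N (C.l f) (C.sl f) ∧ w = circ N (C.r f) (C.sr f) ∨
      w = circ N (C.l f) (C.sl f) ∧ z = circ N (C.r f) (C.sr f)) →
      x < y → z < w → ¬ Inter x y z w := by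
  intro x y z w hxy hzw h1 h2
  have h0 := hC e f h
  have hxz : x ≠ z ∧ x ≠ w ∧ y ≠ z ∧ y ≠ w := by
    have a1 := C.ne_ll h
    have a2 := C.ne_lr e f
    have a3 := C.ne_rl e f
    have a4 := C.ne_rr h
    have b1 := (C.l e).2
    have b2 := (C.r e).2
    have b3 := (C.l f).2
    have b4 := (C.r f).2
    unfold circ at hxy hzw
    rcases hxy with ⟨rfl, rfl⟩ | ⟨rfl, rfl⟩ <;> rcases hzw with ⟨rfl, rfl⟩ | ⟨rfl, rfl⟩ <;>
      split_ifs <;> omega
  have h3 : quad x y z w = 0 := by
    rcases hxy with ⟨rfl, rfl⟩ | ⟨rfl, rfl⟩ <;> rcases hzw with ⟨rfl, rfl⟩ | ⟨rfl, rfl⟩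
    · exact h0
    · rw [quad_comm_right]; exact h0
    · rw [quad_comm_left]; exact h0
    · rw [quad_comm_left, quad_comm_right]; exact h0
  rw [← quad_eq_one_iff h1 h2 hxz.1 hxz.2.1 hxz.2.2.1 hxz.2.2.2, h3]
  simp

omit [Fintype ι] [DecidableEq ι] in
theorem Noncrossing.cases (hC : C.Noncrossing) {e f : ι} (h : e ≠ f) :
    ¬ Inter (if C.sl e then C.l e else if C.sr e then C.r e else 2 * N - C.r e)
      (if C.sr e then (if C.sl e then C.r e else 2 * N - C.l e) else
        (if C.sl e then 2 * N - C.r e else 2 * N - C.l e))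
      (if C.sl f then C.l f else if C.sr f then C.r f else 2 * N - C.r f)
      (if C.sr f then (if C.sl f then C.r f else 2 * N - C.l f) else
        (if C.sl f then 2 * N - C.r f else 2 * N - C.l f)) := by
  have b1 := (C.l e).2
  have b2 := (C.r e).2
  have b3 := (C.l f).2
  have b4 := (C.r f).2
  have a1 := C.lt e
  have a2 := C.lt f
  apply hC.not_inter h
  · unfold circ
    rcases C.sl e <;> rcases C.sr e <;> simp
  · unfold circ
    rcases C.sl f <;> rcases C.sr f <;> simp
  · rcases C.sl e <;> rcases C.sr e <;> simp <;> omega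
  · rcases C.sl f <;> rcases C.sr f <;> simp <;> omega

omit [Fintype ι] [DecidableEq ι] in
/-- an end of a chord inside a one-sided interlaced chord is on the other side -/
theorem Noncrossing.side_l (hC : C.Noncrossing) {t e : ι} (h : t ≠ e) (ht : C.sl t = C.sr t)
    (h1 : (C.l t : ℕ) < C.l e) (h2 : (C.l e : ℕ) < C.r t) (h3 : (C.r t : ℕ) < C.r e) :
    C.sl e ≠ C.sl t := by
  have c := hC.cases h
  have b1 := (C.l t).2
  have b2 := (C.r t).2
  have b3 := (C.l e).2
  have b4 := (C.r e).2
  intro hs
  rw [hs, ← ht] at c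
  unfold Inter at c
  rcases hst : C.sl t <;> rcases hre : C.sr e <;>
    simp only [hst, hre, if_true, if_false, Bool.false_eq_true] at c <;> omega

omit [Fintype ι] [DecidableEq ι] in
theorem Noncrossing.side_r (hC : C.Noncrossing) {t e : ι} (h : t ≠ e) (ht : C.sl t = C.sr t)
    (h1 : (C.l e : ℕ) < C.l t) (h2 : (C.l t : ℕ) < C.r e) (h3 : (C.r e : ℕ) < C.r t) :
    C.sr e ≠ C.sl t := by
  have c := hC.cases h
  have b1 := (C.l t).2
  have b2 := (C.r t).2
  have b3 := (C.l e).2
  have b4 := (C.r e).2
  intro hs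
  rw [hs, ← ht] at c
  unfold Inter at c
  rcases hst : C.sl t <;> rcases hse : C.sl e <;>
    simp only [hst, hse, if_true, if_false, Bool.false_eq_true] at c <;> omega

omit [Fintype ι] [DecidableEq ι] in
/-- chords on one side of the arc, the same for both, are not interlaced -/
theorem Noncrossing.same_side (hC : C.Noncrossing) {e f : ι} (h : e ≠ f) (he : C.sl e = C.sr e)
    (hf : C.sl f = C.sr f) (hef : C.sl e = C.sl f) :
    ¬ Inter (C.l e) (C.r e) (C.l f) (C.r f) := by
  have c := hC.cases h
  have b1 := (C.l e).2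
  have b2 := (C.r e).2
  have b3 := (C.l f).2
  have b4 := (C.r f).2
  intro h1
  rw [← he, ← hf, ← hef] at c
  unfold Inter at c h1
  rcases hse : C.sl e <;> simp only [hse, if_true, if_false, Bool.false_eq_true] at c <;> omega

omit [Fintype ι] [DecidableEq ι] in
/-- chords with ends on both sides of the arc -/
theorem Noncrossing.lr_order (hC : C.Noncrossing) {e f : ι} (h : e ≠ f) (he : C.sl e ≠ C.sr e)
    (hf : C.sl f ≠ C.sr f) (h1 : (C.l e : ℕ) < C.l f) : (C.r e : ℕ) < C.r f := by
  have c := hC.cases h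
  have b1 := (C.l e).2
  have b2 := (C.r e).2
  have b3 := (C.l f).2
  have b4 := (C.r f).2
  have a1 := C.lt e
  have a2 := C.lt f
  have a3 := C.ne_rr h
  unfold Inter at c
  rcases hse : C.sl e <;> rcases hre : C.sr e <;> rcases hsf : C.sl f <;> rcases hrf : C.sr f <;>
    simp only [hse, hre, hsf, hrf, if_true, if_false, Bool.false_eq_true, ne_eq,
      not_true_eq_false] at c he hf <;>
    omega

theorem Noncrossing.planar₀ (hC : C.Noncrossing) {t e f : ι} (htt : C.mat t t = 0) (hef : e ≠ f)
    (hte : C.mat t e = 1) (htf : C.mat t f = 1) (hee : C.mat e e = 0) (hff : C.mat f f = 0) :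
    C.mat e f = 0 := by
  have h1 : t ≠ e := fun h => by rw [← h, htt] at hte; simp at hte
  have h2 : t ≠ f := fun h => by rw [← h, htt] at htf; simp at htf
  rw [C.mat_self_eq_zero] at htt hee hff
  rw [C.mat_eq_one_iff h1] at hte
  rw [C.mat_eq_one_iff h2] at htf
  have key : ∀ x, t ≠ x → C.sl x = C.sr x → Inter (C.l t) (C.r t) (C.l x) (C.r x) →
      C.sl x ≠ C.sl t := by
    intro x hx hxx hI
    unfold Inter at hI
    rcases hI with ⟨a1, a2, a3⟩ | ⟨a1, a2, a3⟩
    · exact hC.side_l hx htt a1 a2 a3
    · rw [hxx]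
      exact hC.side_r hx htt a1 a2 a3
  have k1 := key e h1 hee hte
  have k2 := key f h2 hff htf
  have k3 : C.sl e = C.sl f := by
    revert k1 k2
    generalize C.sl e = a
    generalize C.sl f = b
    generalize C.sl t = c
    revert a b c
    decide
  rw [← zmod2_ne_one, ne_eq, C.mat_eq_one_iff hef]
  exact hC.same_side hef hee hff k3

theorem Noncrossing.planar₁ (hC : C.Noncrossing) {t : ι} (htt : C.mat t t = 0) {e f : ι}
    (hef : e ≠ f)
    (hte : C.mat t e = 1) (htf : C.mat t f = 1) (hee : C.mat e e = 1) (hff : C.mat f f = 1) :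
    C.mat e f = 1 + (if (C.r t : ℕ) < C.r e then 1 else 0) +
      (if (C.r t : ℕ) < C.r f then 1 else 0) := by
  have h1 : t ≠ e := fun h => by rw [← h, htt] at hte; simp at hte
  have h2 : t ≠ f := fun h => by rw [← h, htt] at htf; simp at htf
  rw [C.mat_self_eq_zero] at htt
  rw [C.mat_self_eq_one] at hee hff
  rw [C.mat_eq_one_iff h1] at hte
  rw [C.mat_eq_one_iff h2] at htf
  have o1 := fun h => hC.lr_order hef hee hff h
  have o2 := fun h => hC.lr_order (Ne.symm hef) hff hee h
  have a1 := C.lt e
  have a2 := C.lt f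
  have a3 := C.ne_ll hef
  have a4 := C.ne_rr hef
  unfold Inter at hte htf
  by_cases h3 : (C.r t : ℕ) < C.r e
  · by_cases h4 : (C.r t : ℕ) < C.r f
    · rw [if_pos h3, if_pos h4]
      have : C.mat e f = 1 := by
        rw [C.mat_eq_one_iff hef]
        unfold Inter
        omega
      rw [this]
      decide
    · rw [if_pos h3, if_neg h4]
      have : C.mat e f = 0 := by
        rw [← zmod2_ne_one, ne_eq, C.mat_eq_one_iff hef]
        -- sides
        have s1 := hC.side_l h1 htt (by omega) (by omega) (by omega)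
        have s2 := hC.side_r h2 htt (by omega) (by omega) (by omega)
        intro hI
        unfold Inter at hI
        have c := hC.cases hef
        unfold Inter at c
        have b1 := (C.l e).2
        have b2 := (C.r e).2
        have b3 := (C.l f).2
        have b4 := (C.r f).2
        rcases hst : C.sl t <;> rcases hse : C.sl e <;> rcases hre : C.sr e <;>
          rcases hsf : C.sl f <;> rcases hrf : C.sr f <;>
          simp only [hst, hse, hre, hsf, hrf, if_true, if_false, Bool.false_eq_true, ne_eq,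
            not_true_eq_false, Bool.true_eq_false] at c hee hff s1 s2 <;>
          omega
      rw [this]
      decide
  · by_cases h4 : (C.r t : ℕ) < C.r f
    · rw [if_neg h3, if_pos h4]
      have : C.mat e f = 0 := by
        rw [← zmod2_ne_one, ne_eq, C.mat_eq_one_iff hef]
        have s1 := hC.side_r h1 htt (by omega) (by omega) (by omega)
        have s2 := hC.side_l h2 htt (by omega) (by omega) (by omega)
        intro hI
        unfold Inter at hI
        have c := hC.cases hef
        unfold Inter at c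
        have b1 := (C.l e).2
        have b2 := (C.r e).2
        have b3 := (C.l f).2
        have b4 := (C.r f).2
        rcases hst : C.sl t <;> rcases hse : C.sl e <;> rcases hre : C.sr e <;>
          rcases hsf : C.sl f <;> rcases hrf : C.sr f <;>
          simp only [hst, hse, hre, hsf, hrf, if_true, if_false, Bool.false_eq_true, ne_eq,
            not_true_eq_false, Bool.true_eq_false] at c hee hff s1 s2 <;>
          omega
      rw [this]
      decide
    · rw [if_neg h3, if_neg h4]
      have : C.mat e f = 1 := by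
        rw [C.mat_eq_one_iff hef]
        unfold Inter
        omega
      rw [this]
      decide

/-- the ordering property of the chords joining the two sides -/
theorem Noncrossing.chain (hC : C.Noncrossing) {e f m : ι} (hee : C.mat e e = 1)
    (hff : C.mat f f = 1) (h1 : (C.l e : ℕ) < C.l f)
    (h2 : (C.l f : ℕ) < C.l m) (h3 : C.mat e m = 1) : C.mat e f = 1 := by
  have n1 : e ≠ f := fun h => by rw [h] at h1; omega
  have n2 : e ≠ m := fun h => by rw [h] at h1; omega
  rw [C.mat_self_eq_one] at hee hff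
  rw [C.mat_eq_one_iff n2] at h3
  rw [C.mat_eq_one_iff n1]
  have o1 := hC.lr_order n1 hee hff h1
  unfold Inter at h3 ⊢
  omega

/-- a noncrossing slit with a tree of pairwise non-interlaced one-sided chords -/
theorem Noncrossing.adapted (hC : C.Noncrossing) {T : Finset ι}
    (hT : ∀ s ∈ T, ∀ t ∈ T, C.mat s t = 0)
    (hadeq : ∀ e ∉ T, C.mat e e = 1 ∨ ∃ t ∈ T, C.mat t e = 1) : Adapted C.mat T where
  symm := C.mat_symm
  tree := hT
  adeq := hadeq
  planar₀ := fun t ht _ _ hef hte htf hee hff => hC.planar₀ (hT t ht t ht) hef hte htf hee hff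
  planar₁ := fun t ht => ⟨fun x => if (C.r t : ℕ) < C.r x then 1 else 0,
    fun _ _ hef hte htf hee hff => hC.planar₁ (hT t ht t ht) hef hte htf hee hff⟩

end Slit

end Pool.Agent.Helper16.Knotoid
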