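import Pool.Agent.Helper16.Knotoid.Defs
import Pool.Agent.Helper16.Knotoid.Chords

set_option autoImplicit false

/-!
# The interlacement matrix of a Gauss diagram; finding a state with one component
-/

namespace Pool.Agent.Helper16.Knotoid

open Module

namespace GaussDiagram

variable {n : ℕ} (D : GaussDiagram n)

/-- the matrix of a state -/
def gmat (s : Fin n → Bool) : Matrix (Fin n) (Fin n) (ZMod 2) :=
  arcMat D.overPass D.underPass (fun c => s c != D.sign c)

theorem pass_inj : Function.Injective (Sum.elim D.overPass D.underPass) := by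
  rintro (a | a) (b | b) h
  · have := D.pos.injective h
    simp only [Prod.mk.injEq, and_true] at this
    rw [this]
  · have := D.pos.injective h
    simp at this
  · have := D.pos.injective h
    simp at this
  · have := D.pos.injective h
    simp only [Prod.mk.injEq, and_true] at this
    rw [this]

theorem over_ne_under (e f : Fin n) : (D.overPass e : ℕ) ≠ D.underPass f := fun h' => by
  have := D.pass_inj (a₁ := Sum.inl e) (a₂ := Sum.inr f) (Fin.ext h')
  simp at this

theorem over_ne_over {e f : Fin n} (h : e ≠ f) : (D.overPass e : ℕ) ≠ D.overPass f :=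
  fun h' => by
  have := D.pass_inj (a₁ := Sum.inl e) (a₂ := Sum.inl f) (Fin.ext h')
  simp at this
  exact h this

theorem under_ne_under {e f : Fin n} (h : e ≠ f) : (D.underPass e : ℕ) ≠ D.underPass f :=
  fun h' => by
  have := D.pass_inj (a₁ := Sum.inr e) (a₂ := Sum.inr f) (Fin.ext h')
  simp at this
  exact h this

theorem pass_surj (p : Fin (2 * n)) : (∃ c, D.overPass c = p) ∨ ∃ c, D.underPass c = p := by
  obtain ⟨⟨c, b⟩, h⟩ := D.pos.surjective p
  cases b
  · exact Or.inr ⟨c, h⟩
  · exact Or.inl ⟨c, h⟩

theorem compat_join (s : Fin n → Bool) : compat (D.Join s) =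
    arcCond D.overPass D.underPass (fun c => s c != D.sign c) := by
  apply le_antisymm
  · intro φ hφ
    rw [mem_compat] at hφ
    refine ⟨fun j hP hQ => ?_, fun c => ?_⟩
    · rcases D.pass_surj j with ⟨c, hc⟩ | ⟨c, hc⟩
      · exact absurd hc (hP c)
      · exact absurd hc (hQ c)
    · by_cases h : s c = D.sign c
      · have h1 : ¬ ((s c != D.sign c) = true) := by simp [h]
        rw [if_neg h1]
        exact ⟨hφ _ _ (Join.oriented₁ c h), (hφ _ _ (Join.oriented₂ c h)).symm⟩
      · have h1 : (s c != D.sign c) = true := by simp [h]
        rw [if_pos h1]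
        exact ⟨hφ _ _ (Join.unoriented₁ c h), hφ _ _ (Join.unoriented₂ c h)⟩
  · rintro φ ⟨-, hφ⟩ a b hab
    cases hab with
    | oriented₁ c h =>
      have h2 := hφ c
      have h1 : ¬ ((s c != D.sign c) = true) := by simp [h]
      rw [if_neg h1] at h2
      exact h2.1
    | oriented₂ c h =>
      have h2 := hφ c
      have h1 : ¬ ((s c != D.sign c) = true) := by simp [h]
      rw [if_neg h1] at h2
      exact h2.2.symm
    | unoriented₁ c h =>
      have h2 := hφ c
      have h1 : (s c != D.sign c) = true := by simp [h]
      rw [if_pos h1] at h2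
      exact h2.1
    | unoriented₂ c h =>
      have h2 := hφ c
      have h1 : (s c != D.sign c) = true := by simp [h]
      rw [if_pos h1] at h2
      exact h2.2

theorem comps_eq_finrank (s : Fin n → Bool) :
    D.comps s = finrank (ZMod 2) (compat (D.Join s)) := (finrank_compat _).symm

theorem comps_eq (s : Fin n → Bool) :
    D.comps s = 1 + finrank (ZMod 2) (LinearMap.ker (D.gmat s).mulVecLin) := by
  rw [comps_eq_finrank, compat_join, finrank_arcCond D.pass_inj]
  rfl

theorem comps_add_rank (s : Fin n → Bool) :
    D.comps s + (D.gmat s).rank = 1 + n := by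
  rw [comps_eq_finrank, compat_join]
  have := finrank_arcCond_add_rank D.pass_inj (fun c => s c != D.sign c)
  rw [Fintype.card_fin] at this
  exact this

theorem comps_pos (s : Fin n → Bool) : 1 ≤ D.comps s := by
  rw [comps_eq]
  omega

theorem gmat_of_ne (s : Fin n → Bool) {e f : Fin n} (h : e ≠ f) :
    D.gmat s e f = quad (D.overPass e) (D.underPass e) (D.overPass f) (D.underPass f) := by
  unfold gmat arcMat cnt quad
  have h1 := D.over_ne_under f e
  have h2 := D.under_ne_under h
  have e1 : (if (D.overPass f : ℕ) < (if (s e != D.sign e) = true then (D.underPass e : ℕ) else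
      (D.underPass e : ℕ) + 1) then (1 : ZMod 2) else 0) =
      if (D.overPass f : ℕ) < D.underPass e then 1 else 0 := by
    refine if_congr ?_ rfl rfl
    split_ifs <;> omega
  have e2 : (if (D.underPass f : ℕ) < (if (s e != D.sign e) = true then (D.underPass e : ℕ) else
      (D.underPass e : ℕ) + 1) then (1 : ZMod 2) else 0) =
      if (D.underPass f : ℕ) < D.underPass e then 1 else 0 := by
    refine if_congr ?_ rfl rfl
    split_ifs <;> omega
  rw [e1, e2]

theorem gmat_self (s : Fin n → Bool) (e : Fin n) :
    D.gmat s e e = if s e = D.sign e then 0 else 1 := by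
  unfold gmat arcMat cnt
  beta_reduce
  have h0 := D.over_ne_under e e
  have a1 : ¬ ((D.overPass e : ℕ) < D.overPass e) := by omega
  have a2 : (D.underPass e : ℕ) < D.underPass e + 1 := by omega
  have a3 : ¬ ((D.underPass e : ℕ) < D.underPass e) := by omega
  by_cases h1 : s e = D.sign e
  · have h2 : (s e != D.sign e) = false := by simp [h1]
    rw [h2, if_pos h1]
    rcases Nat.lt_or_gt_of_ne h0 with h | h
    · have b1 : ¬ ((D.underPass e : ℕ) < D.overPass e) := by omega
      have b2 : (D.overPass e : ℕ) < D.underPass e + 1 := by omega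
      simp only [a1, a2, b1, b2, if_true, if_false, Bool.false_eq_true]
      decide
    · have b2 : ¬ ((D.overPass e : ℕ) < D.underPass e + 1) := by omega
      simp only [a1, a2, h, b2, if_true, if_false, Bool.false_eq_true]
      decide
  · have h2 : (s e != D.sign e) = true := by simp [h1]
    rw [h2, if_neg h1]
    rcases Nat.lt_or_gt_of_ne h0 with h | h
    · have b1 : ¬ ((D.underPass e : ℕ) < D.overPass e) := by omega
      simp only [a1, a3, b1, h, if_true, if_false]
      decide
    · have b2 : ¬ ((D.overPass e : ℕ) < D.underPass e) := by omega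
      simp only [a1, a3, h, b2, if_true, if_false]
      decide

theorem quad_symm {a b c d : ℕ} (h1 : a ≠ c) (h2 : a ≠ d) (h3 : b ≠ c) (h4 : b ≠ d) :
    quad a b c d = quad c d a b := by
  unfold quad
  have key : ∀ x y : ℕ, x ≠ y → (if y < x then (1 : ZMod 2) else 0) =
      1 + (if x < y then 1 else 0) := by
    intro x y hxy
    rcases Nat.lt_or_gt_of_ne hxy with h | h
    · have : ¬ y < x := by omega
      simp only [h, this, if_true, if_false]
      decide
    · have : ¬ x < y := by omega
      simp only [h, this, if_true, if_false]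
      decide
  rw [key a c h1, key a d h2, key b c h3, key b d h4]
  generalize (if a < c then (1 : ZMod 2) else 0) = x
  generalize (if a < d then (1 : ZMod 2) else 0) = y
  generalize (if b < c then (1 : ZMod 2) else 0) = z
  generalize (if b < d then (1 : ZMod 2) else 0) = w
  revert x y z w
  decide

theorem gmat_symm (s : Fin n → Bool) (e f : Fin n) : D.gmat s e f = D.gmat s f e := by
  by_cases h : e = f
  · rw [h]
  · rw [D.gmat_of_ne s h, D.gmat_of_ne s (Ne.symm h)]
    exact quad_symm (D.over_ne_over h) (D.over_ne_under e f) (D.over_ne_under f e).symm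
      (D.under_ne_under h)

/-- switch the smoothings of a state at the crossings of `S` -/
def sw (s : Fin n → Bool) (S : Finset (Fin n)) : Fin n → Bool :=
  fun c => if c ∈ S then !(s c) else s c

omit D in
theorem sw_empty (s : Fin n → Bool) : sw s ∅ = s := by
  funext c
  simp [sw]

open scoped symmDiff in
omit D in
theorem sw_sw (s : Fin n → Bool) (S T : Finset (Fin n)) : sw (sw s S) T = sw s (S ∆ T) := by
  funext c
  simp only [sw, Finset.mem_symmDiff]
  by_cases h1 : c ∈ S <;> by_cases h2 : c ∈ T <;> simp [h1, h2]

/-- a state with more than one component can be switched at one crossing so as to have fewer -/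
theorem exists_switch (s : Fin n → Bool) (h : 1 < D.comps s) :
    ∃ c, D.comps (sw s {c}) < D.comps s := by
  rw [comps_eq] at h
  have hne : LinearMap.ker (D.gmat s).mulVecLin ≠ ⊥ := by
    intro h'
    rw [h', finrank_bot] at h
    omega
  obtain ⟨x, hx, hx0⟩ := Submodule.exists_mem_ne_zero_of_ne_bot hne
  obtain ⟨c, hc⟩ : ∃ c, x c ≠ 0 := by
    by_contra h'
    push Not at h'
    exact hx0 (funext h')
  rw [zmod2_ne_zero] at hc
  rw [LinearMap.mem_ker, Matrix.mulVecLin_apply] at hx
  refine ⟨c, ?_⟩
  rw [comps_eq, comps_eq]
  refine Nat.add_lt_add_left ?_ 1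
  -- the new matrix
  have hnew : ∀ e f, D.gmat (sw s {c}) e f = D.gmat s e f + (if e = c ∧ f = c then 1 else 0) := by
    intro e f
    by_cases hef : e = f
    · subst hef
      rw [gmat_self, gmat_self]
      by_cases hec : e = c
      · subst hec
        simp only [sw, Finset.mem_singleton, if_true, and_self]
        rcases s e <;> rcases D.sign e <;> simp <;> decide
      · simp only [sw, Finset.mem_singleton, hec, if_false, false_and, add_zero]
    · rw [gmat_of_ne _ _ hef, gmat_of_ne _ _ hef, if_neg, add_zero]
      rintro ⟨rfl, rfl⟩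
      exact hef rfl
  have hmul : ∀ y : Fin n → ZMod 2, ∀ e, (D.gmat (sw s {c})).mulVec y e =
      (D.gmat s).mulVec y e + (if e = c then y c else 0) := by
    intro y e
    unfold Matrix.mulVec dotProduct
    simp only [hnew, add_mul, Finset.sum_add_distrib]
    congr 1
    by_cases hec : e = c
    · simp [hec]
    · simp [hec]
  have hsub : ∀ y ∈ LinearMap.ker (D.gmat (sw s {c})).mulVecLin, y c = 0 ∧
      (D.gmat s).mulVec y = 0 := by
    intro y hy
    rw [LinearMap.mem_ker, Matrix.mulVecLin_apply] at hy
    have h1 : ∀ e, (D.gmat s).mulVec y e = if e = c then y c else 0 := by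
      intro e
      have := congrFun hy e
      rw [hmul, Pi.zero_apply] at this
      rw [← CharTwo.sub_eq_add, sub_eq_zero] at this
      exact this
    have h2 : dotProduct x ((D.gmat s).mulVec y) = 0 := by
      rw [Matrix.dotProduct_mulVec]
      have : Matrix.vecMul x (D.gmat s) = (D.gmat s).mulVec x := by
        funext e
        unfold Matrix.vecMul Matrix.mulVec dotProduct
        refine Finset.sum_congr rfl fun f _ => ?_
        beta_reduce
        rw [D.gmat_symm s f e, mul_comm]
      rw [this, hx, zero_dotProduct]
    have h3 : y c = 0 := by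
      have h4 : dotProduct x ((D.gmat s).mulVec y) = x c * y c := by
        unfold dotProduct
        simp only [h1]
        simp
      rw [h4, hc, one_mul] at h2
      exact h2
    refine ⟨h3, funext fun e => ?_⟩
    rw [h1, h3]
    simp
  apply Submodule.finrank_lt_finrank_of_lt
  refine lt_of_le_of_ne (fun y hy => ?_) (fun h' => ?_)
  · rw [LinearMap.mem_ker, Matrix.mulVecLin_apply]
    exact (hsub y hy).2
  · have hx' : x ∈ LinearMap.ker (D.gmat (sw s {c})).mulVecLin := by
      rw [h', LinearMap.mem_ker, Matrix.mulVecLin_apply]
      exact hx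
    have := (hsub x hx').1
    rw [hc] at this
    simp at this

theorem exists_tree (s : Fin n → Bool) :
    ∃ T : Finset (Fin n), T.card + 1 ≤ D.comps s ∧ D.comps (sw s T) = 1 := by
  classical
  generalize hk : D.comps s = k
  induction k using Nat.strong_induction_on generalizing s with
  | _ k ih =>
    have hpos := D.comps_pos s
    by_cases h1 : k = 1
    · refine ⟨∅, by simp; omega, ?_⟩
      rw [sw_empty, hk, h1]
    · obtain ⟨c, hc⟩ := D.exists_switch s (by omega)
      obtain ⟨T, hT, hT1⟩ := ih (D.comps (sw s {c})) (by omega) (sw s {c}) rfl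
      refine ⟨symmDiff {c} T, ?_, ?_⟩
      · have h2 : (symmDiff {c} T).card ≤ T.card + 1 := by
          have h3 : symmDiff {c} T ⊆ insert c T := by
            intro x hx
            rw [Finset.mem_symmDiff, Finset.mem_singleton] at hx
            rw [Finset.mem_insert]
            tauto
          exact (Finset.card_le_card h3).trans (Finset.card_insert_le _ _)
        omega
      · rw [← sw_sw]
        exact hT1

end GaussDiagram

end Pool.Agent.Helper16.Knotoid
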