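import Pool.Agent.Helper16.Knotoid.Gauss

set_option autoImplicit false

/-!
# Gauss words without interlaced letters reduce to the empty word
-/

namespace Pool.Agent.Helper16.Knotoid

section Words

variable {α : Type*}

theorem R1Trivial.wrap {m : List α} (hm : R1Trivial m) {rest : List α} (hr : R1Trivial rest)
    (x : α) : R1Trivial (x :: (m ++ x :: rest)) := by
  induction hm with
  | nil => simpa using R1Trivial.insert [] rest x (by simpa using hr)
  | insert u v a _ ih =>
    have h1 := R1Trivial.insert (x :: u) (v ++ x :: rest) a (by simpa using ih)
    simpa using h1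

theorem r1_of_noncrossing [DecidableEq α] (L : List α)
    (hcount : ∀ x, L.count x = 0 ∨ L.count x = 2)
    (hnc : ∀ x y, x ≠ y → ¬ List.Sublist [x, y, x, y] L) : R1Trivial L := by
  generalize hk : L.length = k
  induction k using Nat.strong_induction_on generalizing L with
  | _ k ih =>
    cases L with
    | nil => exact R1Trivial.nil
    | cons x L' =>
      have h1 : L'.count x = 1 := by
        have h2 := hcount x
        rw [List.count_cons_self] at h2
        omega
      have hmem : x ∈ L' := by
        rw [← List.one_le_count_iff, h1]
      obtain ⟨m, rest, hL', hxm⟩ := List.eq_append_cons_of_mem hmem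
      subst hL'
      have hlen : m.length < k ∧ rest.length < k := by
        simp only [List.length_cons, List.length_append] at hk
        omega
      have hm0 : m.count x = 0 := List.count_eq_zero.2 hxm
      have hr0 : rest.count x = 0 := by
        rw [List.count_append, List.count_cons_self] at h1
        omega
      have hcnt : ∀ y, y ≠ x → m.count y + rest.count y = 0 ∨ m.count y + rest.count y = 2 := by
        intro y hy
        have h2 := hcount y
        rw [List.count_cons_of_ne (Ne.symm hy), List.count_append,
          List.count_cons_of_ne (Ne.symm hy)] at h2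
        exact h2
      have hne1 : ∀ y, y ≠ x → m.count y ≠ 1 := by
        intro y hy h2
        have h3 : rest.count y = 1 := by
          have := hcnt y hy
          omega
        have hy1 : y ∈ m := by rw [← List.one_le_count_iff, h2]
        have hy2 : y ∈ rest := by rw [← List.one_le_count_iff, h3]
        apply hnc x y (Ne.symm hy)
        have s1 : List.Sublist [y] m := List.singleton_sublist.2 hy1
        have s2 : List.Sublist [y] rest := List.singleton_sublist.2 hy2
        have s3 : List.Sublist ([y] ++ x :: [y]) (m ++ x :: rest) :=
          List.Sublist.append s1 (List.Sublist.cons_cons x s2)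
        exact List.Sublist.cons_cons x s3
      have hm : R1Trivial m := by
        refine ih m.length hlen.1 m ?_ ?_ rfl
        · intro y
          by_cases hy : y = x
          · rw [hy]; exact Or.inl hm0
          · have a1 := hcnt y hy
            have a2 := hne1 y hy
            omega
        · intro a b hab hs
          refine hnc a b hab (hs.trans ?_)
          exact (List.sublist_append_left m (x :: rest)).trans (List.sublist_cons_self x _)
      have hr : R1Trivial rest := by
        refine ih rest.length hlen.2 rest ?_ ?_ rfl
        · intro y
          by_cases hy : y = x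
          · rw [hy]; exact Or.inl hr0
          · have a1 := hcnt y hy
            have a2 := hne1 y hy
            omega
        · intro a b hab hs
          refine hnc a b hab (hs.trans ?_)
          exact ((List.sublist_cons_self x rest).trans
            (List.sublist_append_right m (x :: rest))).trans (List.sublist_cons_self x _)
      exact hm.wrap hr x

end Words

namespace GaussDiagram

variable {n : ℕ} (D : GaussDiagram n)

theorem word_count (c : Fin n) : D.word.count c = 2 := by
  classical
  have h1 : D.word.count c =
      (Finset.univ.filter (fun p : Fin (2 * n) => c = (D.pos.symm p).1)).card := by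
    unfold word
    rw [List.ofFn_eq_map, ← Multiset.coe_count, ← Multiset.map_coe, Multiset.count_map]
    rfl
  have h2 : Finset.univ.filter (fun p : Fin (2 * n) => c = (D.pos.symm p).1) =
      {D.overPass c, D.underPass c} := by
    ext p
    simp only [Finset.mem_filter, Finset.mem_univ, true_and, Finset.mem_insert,
      Finset.mem_singleton]
    constructor
    · intro h
      obtain ⟨⟨c', b⟩, rfl⟩ := D.pos.surjective p
      rw [Equiv.symm_apply_apply] at h
      simp only at h
      subst h
      cases b
      · exact Or.inr rfl
      · exact Or.inl rfl
    · rintro (rfl | rfl)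
      · unfold overPass
        rw [Equiv.symm_apply_apply]
      · unfold underPass
        rw [Equiv.symm_apply_apply]
  rw [h1, h2, Finset.card_pair]
  intro h
  exact D.over_ne_under c c (by rw [h])

theorem r1_of_gmat (s : Fin n → Bool) (h : ∀ e f, e ≠ f → D.gmat s e f = 0) :
    R1Trivial D.word := by
  refine r1_of_noncrossing D.word (fun c => Or.inr (D.word_count c)) ?_
  intro x y hxy hs
  obtain ⟨f, hf⟩ := List.sublist_iff_exists_fin_orderEmbedding_get_eq.1 hs
  have hlen : D.word.length = 2 * n := by
    unfold word
    exact List.length_ofFn
  -- the four passages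
  set q : Fin 4 → Fin (2 * n) := fun i => Fin.cast hlen (f i) with hq
  have hqlt : ∀ i j : Fin 4, i < j → (q i : ℕ) < q j := by
    intro i j hij
    have : f i < f j := f.strictMono hij
    exact this
  have hqv : ∀ i : Fin 4, (D.pos.symm (q i)).1 = [x, y, x, y].get i := by
    intro i
    rw [hf i]
    simp only [word, List.get_eq_getElem, List.getElem_ofFn, hq]
    rfl
  have hpass : ∀ i : Fin 4, q i = D.overPass ([x, y, x, y].get i) ∨
      q i = D.underPass ([x, y, x, y].get i) := by
    intro i
    rw [← hqv i]
    obtain ⟨⟨c, b⟩, hcb⟩ := D.pos.surjective (q i)
    rw [← hcb, Equiv.symm_apply_apply]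
    cases b
    · exact Or.inr rfl
    · exact Or.inl rfl
  have p0 : q 0 = D.overPass x ∨ q 0 = D.underPass x := hpass 0
  have p1 : q 1 = D.overPass y ∨ q 1 = D.underPass y := hpass 1
  have p2 : q 2 = D.overPass x ∨ q 2 = D.underPass x := hpass 2
  have p3 : q 3 = D.overPass y ∨ q 3 = D.underPass y := hpass 3
  have l01 := hqlt 0 1 (by decide)
  have l12 := hqlt 1 2 (by decide)
  have l23 := hqlt 2 3 (by decide)
  have h02 : (q 0 : ℕ) ≠ q 2 := by omega
  have h13 : (q 1 : ℕ) ≠ q 3 := by omega
  have key : quad (q 0) (q 2) (q 1) (q 3) = 1 := by
    rw [quad_eq_one_iff (by omega) (by omega) (by omega) (by omega) (by omega) (by omega)]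
    unfold Inter
    omega
  have hxy' := h x y hxy
  rw [D.gmat_of_ne s hxy] at hxy'
  rcases p0 with p0 | p0 <;> rcases p2 with p2 | p2
  · exact h02 (by rw [p0, p2])
  · rcases p1 with p1 | p1 <;> rcases p3 with p3 | p3
    · exact h13 (by rw [p1, p3])
    · rw [p0, p1, p2, p3, hxy'] at key
      simp at key
    · rw [p0, p1, p2, p3, quad_comm_right, hxy'] at key
      simp at key
    · exact h13 (by rw [p1, p3])
  · rcases p1 with p1 | p1 <;> rcases p3 with p3 | p3
    · exact h13 (by rw [p1, p3])
    · rw [p0, p1, p2, p3, quad_comm_left, hxy'] at key
      simp at key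
    · rw [p0, p1, p2, p3, quad_comm_left, quad_comm_right, hxy'] at key
      simp at key
    · exact h13 (by rw [p1, p3])
  · exact h02 (by rw [p0, p2])

end GaussDiagram

end Pool.Agent.Helper16.Knotoid
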