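import Pool.Agent.Helper16.Knotoid.OddWrithe

set_option autoImplicit false

/-!
# The normalized bracket of a diagram of large canonical genus and few crossings of one sign
-/

namespace Pool.Agent.Helper16.Knotoid

open LaurentPolynomial Module

namespace GaussDiagram

variable {n : ℕ} (D : GaussDiagram n)

/-- the unoriented smoothings of a state -/
def Us (s : Fin n → Bool) : Finset (Fin n) := Finset.univ.filter fun c => s c ≠ D.sign c

theorem quad_zero {n : ℕ} {M : Fin n → Fin n → ZMod 2} (hs : ∀ a b, M a b = M b a)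
    (hd : ∀ a, M a a = 0) (x : Fin n → ZMod 2) : ∑ c, x c * Lv M x c = 0 := by
  have h := handshake (M := fun c f => x c * M c f * x f)
    (fun a b => by rw [hs a b]; ring) (fun a => by rw [hd]; ring)
  rw [← h]
  refine Finset.sum_congr rfl fun c _ => ?_
  unfold Lv
  rw [Finset.mul_sum]
  refine Finset.sum_congr rfl fun f _ => ?_
  simp only [Pi.one_apply, mul_one, mul_assoc]

theorem mem_ker_gmat (s : Fin n → Bool) (x : Fin n → ZMod 2) :
    x ∈ LinearMap.ker (D.gmat s).mulVecLin ↔
      ∀ c, Lv D.lam x c + (if s c = D.sign c then 0 else x c) = 0 := by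
  rw [LinearMap.mem_ker, Matrix.mulVecLin_apply]
  constructor
  · intro h c
    rw [← gmat_mulVec, h]
    rfl
  · intro h
    funext c
    rw [gmat_mulVec]
    exact h c

/-- the sum over the unoriented smoothings of an element of the kernel -/
theorem sum_ker (s : Fin n → Bool) {x : Fin n → ZMod 2}
    (hx : x ∈ LinearMap.ker (D.gmat s).mulVecLin) : ∑ c ∈ D.Us s, x c = 0 := by
  rw [mem_ker_gmat] at hx
  have h1 := quad_zero D.lam_symm D.lam_self x
  rw [← h1]
  unfold Us
  rw [Finset.sum_filter]
  refine Finset.sum_congr rfl fun c _ => ?_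
  have h2 := hx c
  have key : ∀ a b : ZMod 2, a + b = 0 → a = b := by decide
  rw [key _ _ h2]
  by_cases h : s c = D.sign c
  · rw [if_neg (by simpa using h), if_pos h, mul_zero]
  · rw [if_pos h, if_neg h]
    generalize x c = y
    revert y
    decide

theorem comps_bound (s : Fin n → Bool) {c₀ : Fin n} (h0 : s c₀ ≠ D.sign c₀) :
    D.comps s + 1 ≤ D.comps D.sign + (D.Us s).card := by
  classical
  rw [comps_eq, comps_eq]
  have hc0 : c₀ ∈ D.Us s := Finset.mem_filter.2 ⟨Finset.mem_univ _, h0⟩
  set K := LinearMap.ker (D.gmat s).mulVecLin with hK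
  set K0 := LinearMap.ker (D.gmat D.sign).mulVecLin with hK0
  -- restriction to the unoriented smoothings other than `c₀`
  let R : K →ₗ[ZMod 2] ({c // c ∈ (D.Us s).erase c₀} → ZMod 2) :=
    { toFun := fun x c => x.1 c.1
      map_add' := fun x y => rfl
      map_smul' := fun a x => rfl }
  have h1 := LinearMap.finrank_range_add_finrank_ker R
  have h2 : finrank (ZMod 2) (LinearMap.range R) ≤ (D.Us s).card - 1 := by
    have := Submodule.finrank_le (LinearMap.range R)
    rw [finrank_fintype_fun_eq_card, Fintype.card_coe, Finset.card_erase_of_mem hc0] at this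
    exact this
  have h3 : finrank (ZMod 2) (LinearMap.ker R) ≤ finrank (ZMod 2) K0 := by
    have hmem : ∀ x : LinearMap.ker R, x.1.1 ∈ K0 := by
      intro x
      have hx1 : x.1.1 ∈ K := x.1.2
      have hx2 : ∀ c ∈ (D.Us s).erase c₀, x.1.1 c = 0 := by
        intro c hc
        have := LinearMap.mem_ker.1 x.2
        exact congrFun this ⟨c, hc⟩
      have hx3 : x.1.1 c₀ = 0 := by
        have h4 := D.sum_ker s hx1
        rw [← Finset.add_sum_erase _ _ hc0, Finset.sum_eq_zero hx2, add_zero] at h4
        exact h4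
      have hx1' := (D.mem_ker_gmat s x.1.1).1 hx1
      refine (D.mem_ker_gmat D.sign x.1.1).2 fun c => ?_
      rw [if_pos rfl, add_zero]
      have h5 := hx1' c
      by_cases h : s c = D.sign c
      · rw [if_pos h, add_zero] at h5
        exact h5
      · rw [if_neg h] at h5
        have h6 : x.1.1 c = 0 := by
          by_cases hcc : c = c₀
          · rw [hcc]
            exact hx3
          · exact hx2 c (Finset.mem_erase.2 ⟨hcc, Finset.mem_filter.2 ⟨Finset.mem_univ _, h⟩⟩)
        rw [h6, add_zero] at h5
        exact h5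
    let J : LinearMap.ker R →ₗ[ZMod 2] K0 :=
      { toFun := fun x => ⟨x.1.1, hmem x⟩
        map_add' := fun x y => rfl
        map_smul' := fun a x => rfl }
    have hJ : Function.Injective J := by
      intro x y hxy
      have h7 : x.1.1 = y.1.1 := congrArg (fun z : K0 => z.1) hxy
      exact Subtype.ext (Subtype.ext h7)
    exact LinearMap.finrank_le_finrank_of_injective hJ
  have h4 : 1 ≤ (D.Us s).card := Finset.card_pos.2 ⟨c₀, hc0⟩
  omega

theorem coeff_dd_pow_of_gt (m : ℕ) : ∀ j : ℤ, j < -(2 * (m : ℤ)) → (dd ^ m).coeff j = 0 := by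
  induction m with
  | zero =>
    intro j hj
    rw [coeff_dd_pow_zero, if_neg]
    rintro rfl
    simp at hj
  | succ m ih =>
    intro j hj
    push_cast at hj
    rw [coeff_dd_pow_succ, ih _ (by linarith), ih _ (by linarith)]
    simp

/-- the exponent of a state -/
def ex (s : Fin n → Bool) : ℤ := ∑ c, if s c = D.sign c then 2 * D.sgn c else 4 * D.sgn c

theorem ex_eq (s : Fin n → Bool) : 3 * D.writhe - stateSign s = D.ex s := by
  unfold ex stateSign
  rw [writhe_eq, Finset.mul_sum, ← Finset.sum_sub_distrib]
  refine Finset.sum_congr rfl fun c _ => ?_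
  unfold sgn
  cases s c <;> cases D.sign c <;> simp

theorem coeff_zero_term (s : Fin n → Bool) (m : ℕ)
    (h : 2 * (m : ℤ) < D.ex s ∨ D.ex s < -(2 * (m : ℤ))) :
    ((∏ c, D.wt c (s c)) * dd ^ m).coeff 0 = 0 := by
  have h1 : (∏ c, D.wt c (s c)) * dd ^ m =
      C ((-1) ^ D.writhe.natAbs) * (T (-D.ex s) * dd ^ m) := by
    rw [prod_wt, ← ex_eq, map_pow, map_neg, map_one]
    have h2 : (T (-3 * D.writhe) * T (stateSign s) : LaurentPolynomial ℤ) =
        T (-(3 * D.writhe - stateSign s)) := by
      rw [← T_add]
      congr 1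
      ring
    rw [← h2]
    ring
  have h3 : (T (-D.ex s) * dd ^ m).coeff 0 = 0 := by
    rw [coeff_T_mul, zero_sub, neg_neg]
    rcases h with h | h
    · exact coeff_dd_pow_of_lt m _ h
    · exact coeff_dd_pow_of_gt m _ h
  rw [h1]
  have h4 : ∀ (a : ℤ) (q : LaurentPolynomial ℤ), (C a * q).coeff 0 = a * q.coeff 0 := by
    intro a q
    rw [← smul_eq_C_mul]
    rfl
  rw [h4, h3, mul_zero]

/-- the sum of the signs of the unoriented smoothings -/
theorem ex_eq' (s : Fin n → Bool) : D.ex s = 2 * ∑ c, D.sgn c + 2 * ∑ c ∈ D.Us s, D.sgn c := by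
  unfold ex Us
  rw [Finset.sum_filter, Finset.mul_sum, Finset.mul_sum, ← Finset.sum_add_distrib]
  refine Finset.sum_congr rfl fun c _ => ?_
  by_cases h : s c = D.sign c
  · rw [if_pos h, if_neg (by simpa using h)]
    ring
  · rw [if_neg h, if_pos h]
    ring

/-- crossings of a given sign -/
def ofSign (b : Bool) : Finset (Fin n) := Finset.univ.filter fun c => D.sign c = b

theorem sum_sgn_ge (U : Finset (Fin n)) :
    (U.card : ℤ) - 2 * ((D.ofSign false).card : ℤ) ≤ ∑ c ∈ U, D.sgn c := by
  have h1 : ∀ c, D.sgn c = 1 - 2 * (if D.sign c = false then 1 else 0) := by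
    intro c
    unfold sgn
    cases D.sign c <;> simp
  simp only [h1]
  rw [Finset.sum_sub_distrib, ← Finset.mul_sum, Finset.sum_boole]
  have h2 : (U.filter fun c => D.sign c = false).card ≤ (D.ofSign false).card :=
    Finset.card_le_card (Finset.filter_subset_filter _ (Finset.subset_univ _))
  simp only [Finset.sum_const, nsmul_eq_mul, mul_one]
  have h3 : ((U.filter fun c => D.sign c = false).card : ℤ) ≤ ((D.ofSign false).card : ℤ) := by
    exact_mod_cast h2
  linarith

theorem sum_sgn_le (U : Finset (Fin n)) :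
    ∑ c ∈ U, D.sgn c ≤ 2 * ((D.ofSign true).card : ℤ) - (U.card : ℤ) := by
  have h1 : ∀ c, D.sgn c = 2 * (if D.sign c = true then 1 else 0) - 1 := by
    intro c
    unfold sgn
    cases D.sign c <;> simp
  simp only [h1]
  rw [Finset.sum_sub_distrib, ← Finset.mul_sum, Finset.sum_boole]
  have h2 : (U.filter fun c => D.sign c = true).card ≤ (D.ofSign true).card :=
    Finset.card_le_card (Finset.filter_subset_filter _ (Finset.subset_univ _))
  simp only [Finset.sum_const, nsmul_eq_mul, mul_one]
  have h3 : ((U.filter fun c => D.sign c = true).card : ℤ) ≤ ((D.ofSign true).card : ℤ) := by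
    exact_mod_cast h2
  linarith

theorem not_one_of_few {b : Bool} (h : 4 * (D.ofSign b).card + D.comps D.sign ≤ n + 1)
    (h2 : D.comps D.sign ≤ n) : D.normalizedBracket ≠ 1 := by
  intro hf
  have h0 : D.normalizedBracket.coeff 0 = 0 := by
    rw [f_eq, coeff_sum_apply]
    refine Finset.sum_eq_zero fun s _ => D.coeff_zero_term s _ ?_
    rw [ex_eq']
    have hcs := D.comps_pos s
    have hc0 := D.comps_pos D.sign
    have hm : ((D.comps s - 1 : ℕ) : ℤ) = (D.comps s : ℤ) - 1 := by
      push_cast [hcs]
      ring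
    rw [hm]
    have e1 := D.sum_sgn_ge Finset.univ
    have e2 := D.sum_sgn_ge (D.Us s)
    have e3 := D.sum_sgn_le Finset.univ
    have e4 := D.sum_sgn_le (D.Us s)
    rw [Finset.card_univ, Fintype.card_fin] at e1 e3
    by_cases hU : ∃ c, s c ≠ D.sign c
    · obtain ⟨c, hc⟩ := hU
      have h3 := D.comps_bound s hc
      cases b
      · left
        omega
      · right
        omega
    · push Not at hU
      have hs : s = D.sign := funext hU
      have hUs : D.Us s = ∅ := by
        unfold Us
        rw [Finset.filter_eq_empty_iff]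
        intro c _
        rw [hU c]
        simp
      rw [hUs, Finset.sum_empty, hs]
      cases b
      · left
        omega
      · right
        omega
  rw [hf, ← T_zero, T_apply] at h0
  simp at h0

end GaussDiagram

end Pool.Agent.Helper16.Knotoid
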