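import Pool.Agent.Helper16.Knotoid.Even
import Pool.Agent.Helper16.Knotoid.Bound

set_option autoImplicit false

/-!
# Switching a smoothing of a knot diagram changes the number of state components by one
-/

namespace Pool.Agent.Helper16.Knotoid

open Module

/-- for a symmetric matrix the range is the orthogonal complement of the kernel -/
theorem exists_of_orthogonal {m : ℕ} (N : Matrix (Fin m) (Fin m) (ZMod 2))
    (hN : ∀ a b, N a b = N b a) (w : Fin m → ZMod 2)
    (h : ∀ x, N.mulVec x = 0 → ∑ f, w f * x f = 0) : ∃ x, N.mulVec x = w := by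
  -- the functional of `w` vanishes on the kernel
  let φ : Dual (ZMod 2) (Fin m → ZMod 2) :=
    { toFun := fun x => ∑ f, w f * x f
      map_add' := fun x y => by
        rw [← Finset.sum_add_distrib]
        exact Finset.sum_congr rfl fun f _ => by simp only [Pi.add_apply]; ring
      map_smul' := fun a x => by
        simp only [Pi.smul_apply, smul_eq_mul, RingHom.id_apply]
        rw [Finset.mul_sum]
        exact Finset.sum_congr rfl fun f _ => by ring }
  have h1 : φ ∈ (LinearMap.ker N.mulVecLin).dualAnnihilator := by
    rw [Submodule.mem_dualAnnihilator]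
    intro x hx
    exact h x hx
  rw [← LinearMap.range_dualMap_eq_dualAnnihilator_ker] at h1
  obtain ⟨ψ, hψ⟩ := h1
  refine ⟨fun i => ψ (Pi.single i 1), ?_⟩
  funext j
  have h2 : ψ (N.mulVecLin (Pi.single j 1)) = φ (Pi.single j 1) := by
    rw [← hψ]
    rfl
  have h3 : φ (Pi.single j 1) = w j := by
    show ∑ f, w f * (Pi.single j 1 : Fin m → ZMod 2) f = w j
    rw [Finset.sum_eq_single j]
    · simp
    · intro b _ hb
      rw [Pi.single_eq_of_ne hb, mul_zero]
    · simp
  have h4 : N.mulVecLin (Pi.single j 1) = ∑ i, N i j • (Pi.single i 1 : Fin m → ZMod 2) := by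
    funext k
    rw [Matrix.mulVecLin_apply, Finset.sum_apply]
    simp [Pi.single_apply]
  rw [h4, map_sum] at h2
  rw [← h3, ← h2]
  show ∑ i, N j i * ψ (Pi.single i 1) = _
  refine Finset.sum_congr rfl fun i _ => ?_
  rw [map_smul, hN j i, smul_eq_mul]

namespace GaussDiagram

variable {n : ℕ} (D : GaussDiagram n)

/-- the kernel of the matrix of a state -/
abbrev Kz (z : Fin n → Bool) : Submodule (ZMod 2) (Fin n → ZMod 2) :=
  LinearMap.ker (D.gmat z).mulVecLin

/-- the elements of the kernel vanishing at `c` -/
def K0 (z : Fin n → Bool) (c : Fin n) : Submodule (ZMod 2) (Fin n → ZMod 2) :=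
  D.Kz z ⊓ LinearMap.ker (LinearMap.proj c : (Fin n → ZMod 2) →ₗ[ZMod 2] ZMod 2)

theorem mem_K0 (z : Fin n → Bool) (c : Fin n) (x : Fin n → ZMod 2) :
    x ∈ D.K0 z c ↔ x ∈ D.Kz z ∧ x c = 0 := by
  unfold K0
  rw [Submodule.mem_inf]
  rfl

/-- the state switched at `c` -/
def swc {n : ℕ} (z : Fin n → Bool) (c : Fin n) : Fin n → Bool := Function.update z c (!z c)

theorem K0_swc (z : Fin n → Bool) (c : Fin n) : D.K0 (swc z c) c = D.K0 z c := by
  ext x
  rw [mem_K0, mem_K0, mem_ker_gmat, mem_ker_gmat]
  constructor
  · rintro ⟨h1, h2⟩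
    refine ⟨fun f => ?_, h2⟩
    have h3 := h1 f
    by_cases hf : f = c
    · subst hf
      rw [h2] at h3 ⊢
      simpa using h3
    · unfold swc at h3
      rwa [Function.update_of_ne hf] at h3
  · rintro ⟨h1, h2⟩
    refine ⟨fun f => ?_, h2⟩
    have h3 := h1 f
    by_cases hf : f = c
    · subst hf
      rw [h2] at h3 ⊢
      simpa using h3
    · unfold swc
      rwa [Function.update_of_ne hf]

theorem finrank_K (z : Fin n → Bool) (c : Fin n) :
    finrank (ZMod 2) (D.Kz z) = finrank (ZMod 2) (D.K0 z c) ∧ (∀ x ∈ D.Kz z, x c = 0) ∨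
    finrank (ZMod 2) (D.Kz z) = finrank (ZMod 2) (D.K0 z c) + 1 ∧ ∃ x ∈ D.Kz z, x c = 1 := by
  by_cases h : ∀ x ∈ D.Kz z, x c = 0
  · left
    refine ⟨?_, h⟩
    have : D.K0 z c = D.Kz z := by
      ext x
      rw [mem_K0]
      exact ⟨fun h' => h'.1, fun h' => ⟨h', h x h'⟩⟩
    rw [this]
  · right
    push Not at h
    obtain ⟨x, hx, hxc⟩ := h
    rw [zmod2_ne_zero] at hxc
    refine ⟨?_, x, hx, hxc⟩
    let L : D.Kz z →ₗ[ZMod 2] ZMod 2 :=
      (LinearMap.proj c : (Fin n → ZMod 2) →ₗ[ZMod 2] ZMod 2).comp (D.Kz z).subtype
    have h1 := LinearMap.finrank_range_add_finrank_ker L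
    have h2 : LinearMap.range L = ⊤ := by
      rw [LinearMap.range_eq_top]
      intro t
      refine ⟨t • ⟨x, hx⟩, ?_⟩
      show t * x c = t
      rw [hxc, mul_one]
    have h3 : finrank (ZMod 2) (LinearMap.ker L) = finrank (ZMod 2) (D.K0 z c) := by
      have e : LinearMap.ker L ≃ₗ[ZMod 2] D.K0 z c :=
        { toFun := fun y => ⟨y.1.1, (D.mem_K0 z c _).2 ⟨y.1.2, y.2⟩⟩
          map_add' := fun _ _ => rfl
          map_smul' := fun _ _ => rfl
          invFun := fun y => ⟨⟨y.1, ((D.mem_K0 z c _).1 y.2).1⟩, ((D.mem_K0 z c _).1 y.2).2⟩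
          left_inv := fun _ => rfl
          right_inv := fun _ => rfl }
      exact e.finrank_eq
    rw [h2, finrank_top, finrank_self, h3] at h1
    omega

/-- exactly one of the two states has an element of the kernel not vanishing at `c` -/
theorem switch_dim (hD : D.Planar) (hR : D.tailRegion = D.headRegion) (z : Fin n → Bool)
    (c : Fin n) :
    (D.comps z = finrank (ZMod 2) (D.K0 z c) + 1 ∧
      D.comps (swc z c) = finrank (ZMod 2) (D.K0 z c) + 2) ∨
    (D.comps z = finrank (ZMod 2) (D.K0 z c) + 2 ∧
      D.comps (swc z c) = finrank (ZMod 2) (D.K0 z c) + 1) := by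
  have hno : ∀ x : Fin n → ZMod 2, x c = 0 →
      ¬ ∀ f, Lv D.lam x f + (if z f = D.sign f then 0 else x f) = if f = c then 1 else 0 := by
    intro x hx h
    refine D.no_unit hD hR c (fun f => if z f = D.sign f then 0 else 1) x hx fun f => ?_
    rw [← h f]
    congr 1
    split_ifs <;> simp
  have c1 : D.comps z = 1 + finrank (ZMod 2) (D.Kz z) := D.comps_eq z
  have c2 : D.comps (swc z c) = 1 + finrank (ZMod 2) (D.Kz (swc z c)) := D.comps_eq _
  have k1 := D.finrank_K z c
  have k2 := D.finrank_K (swc z c) c
  rw [K0_swc] at k2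
  have hsz : (swc z c c = D.sign c) ↔ ¬ (z c = D.sign c) := by
    unfold swc
    rw [Function.update_self]
    cases z c <;> cases D.sign c <;> simp
  have hszf : ∀ f, f ≠ c → swc z c f = z f := fun f hf => by
    unfold swc
    rw [Function.update_of_ne hf]
  rcases k1 with ⟨a1, b1⟩ | ⟨a1, x, hx, hxc⟩
  · rcases k2 with ⟨a2, b2⟩ | ⟨a2, -⟩
    · -- both vanish: duality
      exfalso
      obtain ⟨w, hw⟩ := exists_of_orthogonal (D.gmat z) (D.gmat_symm z) (Pi.single c 1)
        (fun x hx => by
          rw [Finset.sum_eq_single c]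
          · rw [b1 x hx, mul_zero]
          · intro b _ hb
            rw [Pi.single_eq_of_ne hb, zero_mul]
          · simp)
      have hw' : ∀ f, Lv D.lam w f + (if z f = D.sign f then 0 else w f) =
          if f = c then 1 else 0 := by
        intro f
        rw [← gmat_mulVec, hw, Pi.single_apply]
      rcases zmod2_cases (w c) with h0 | h0
      · exact hno w h0 hw'
      · have hmem : w ∈ D.Kz (swc z c) := by
          rw [mem_ker_gmat]
          intro f
          by_cases hf : f = c
          · subst hf
            have h2 := hw' f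
            rw [if_pos rfl] at h2
            by_cases hz : z f = D.sign f
            · rw [if_pos hz, add_zero] at h2
              rw [if_neg (fun h => (hsz.1 h) hz), h2, h0]
              decide
            · rw [if_neg hz, h0] at h2
              rw [if_pos (hsz.2 hz), add_zero]
              generalize Lv D.lam w f = s at h2 ⊢
              revert s
              decide
          · rw [hszf f hf]
            have h2 := hw' f
            rw [if_neg hf] at h2
            exact h2
        have := b2 w hmem
        rw [h0] at this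
        exact absurd this (by decide)
    · left
      omega
  · rcases k2 with ⟨a2, -⟩ | ⟨a2, y, hy, hyc⟩
    · right
      omega
    · exfalso
      rw [mem_ker_gmat] at hx hy
      refine hno (fun f => x f + y f) (by rw [hxc, hyc]; decide) fun f => ?_
      have h1 := hx f
      have h2 := hy f
      have h3 : Lv D.lam (fun f => x f + y f) f = Lv D.lam x f + Lv D.lam y f := by
        unfold Lv
        rw [← Finset.sum_add_distrib]
        exact Finset.sum_congr rfl fun g _ => by ring
      rw [h3]
      by_cases hf : f = c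
      · subst hf
        rw [if_pos rfl]
        rw [hxc] at h1
        rw [hyc] at h2
        simp only [hxc, hyc]
        by_cases hz : z f = D.sign f
        · rw [if_pos hz] at h1 ⊢
          rw [if_neg (fun h => (hsz.1 h) hz)] at h2
          generalize Lv D.lam x f = s at h1 ⊢
          generalize Lv D.lam y f = t at h2 ⊢
          revert s t
          decide
        · rw [if_neg hz] at h1 ⊢
          rw [if_pos (hsz.2 hz)] at h2
          generalize Lv D.lam x f = s at h1 ⊢
          generalize Lv D.lam y f = t at h2 ⊢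
          revert s t
          decide
      · rw [if_neg hf]
        rw [hszf f hf] at h2
        by_cases hz : z f = D.sign f
        · rw [if_pos hz] at h1 h2 ⊢
          generalize Lv D.lam x f = s at h1 ⊢
          generalize Lv D.lam y f = t at h2 ⊢
          revert s t
          decide
        · rw [if_neg hz] at h1 h2 ⊢
          generalize Lv D.lam x f = s at h1 ⊢
          generalize Lv D.lam y f = t at h2 ⊢
          generalize x f = p at h1 ⊢
          generalize y f = q at h2 ⊢
          revert s t p q
          decide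

end GaussDiagram

end Pool.Agent.Helper16.Knotoid
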