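import Mathlib

set_option autoImplicit false

/-!
# Extreme coefficients of a state sum
-/

namespace Pool.Agent.Helper16.Knotoid

open LaurentPolynomial

theorem coeff_T_mul (s j : ℤ) (p : LaurentPolynomial ℤ) :
    (T s * p).coeff j = p.coeff (j - s) := by
  unfold T
  rw [AddMonoidAlgebra.coeff_single_mul_eq_mul_coeff (j - s) (fun m' _ => by omega), one_mul]

/-- the value of a circle -/
noncomputable def dd : LaurentPolynomial ℤ := -T 2 - T (-2)

theorem coeff_dd_pow_succ (m : ℕ) (j : ℤ) :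
    (dd ^ (m + 1)).coeff j = -(dd ^ m).coeff (j - 2) - (dd ^ m).coeff (j + 2) := by
  have h : dd ^ (m + 1) = -(T 2 * dd ^ m) - T (-2) * dd ^ m := by
    rw [pow_succ, dd]
    ring
  have h2 : ∀ p q : LaurentPolynomial ℤ, (p - q).coeff j = p.coeff j - q.coeff j := by
    intro p q
    rfl
  have h3 : ∀ p : LaurentPolynomial ℤ, (-p).coeff j = -p.coeff j := by
    intro p
    rfl
  rw [h, h2, h3, coeff_T_mul, coeff_T_mul, sub_neg_eq_add]

theorem coeff_dd_pow_zero (j : ℤ) : (dd ^ 0).coeff j = if j = 0 then 1 else 0 := by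
  rw [pow_zero, ← T_zero, T_apply]
  simp only [eq_comm]

theorem coeff_dd_pow_of_lt (m : ℕ) : ∀ j : ℤ, 2 * (m : ℤ) < j → (dd ^ m).coeff j = 0 := by
  induction m with
  | zero =>
    intro j hj
    rw [coeff_dd_pow_zero, if_neg]
    rintro rfl
    simp at hj
  | succ m ih =>
    intro j hj
    push_cast at hj
    rw [coeff_dd_pow_succ, ih _ (by linarith), ih _ (by linarith)]
    simp

theorem coeff_dd_pow_top (m : ℕ) : (dd ^ m).coeff (2 * (m : ℤ)) = (-1) ^ m := by
  induction m with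
  | zero =>
    rw [coeff_dd_pow_zero]
    simp
  | succ m ih =>
    have e1 : 2 * ((m + 1 : ℕ) : ℤ) - 2 = 2 * (m : ℤ) := by push_cast; ring
    rw [coeff_dd_pow_succ, e1, ih, coeff_dd_pow_of_lt m _ (by push_cast; linarith), pow_succ]
    ring

theorem coeff_dd_pow_two (m : ℕ) : (dd ^ m).coeff (2 * (m : ℤ) - 2) = 0 := by
  induction m with
  | zero =>
    rw [coeff_dd_pow_zero]
    simp
  | succ m ih =>
    have e1 : 2 * ((m + 1 : ℕ) : ℤ) - 2 - 2 = 2 * (m : ℤ) - 2 := by push_cast; ring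
    rw [coeff_dd_pow_succ, e1, ih, coeff_dd_pow_of_lt m _ (by push_cast; linarith)]
    ring

theorem coeff_dd_pow_four (m : ℕ) : (dd ^ m).coeff (2 * (m : ℤ) - 4) = (-1) ^ m * m := by
  induction m with
  | zero =>
    rw [coeff_dd_pow_zero]
    simp
  | succ m ih =>
    have e1 : 2 * ((m + 1 : ℕ) : ℤ) - 4 - 2 = 2 * (m : ℤ) - 4 := by push_cast; ring
    have e2 : 2 * ((m + 1 : ℕ) : ℤ) - 4 + 2 = 2 * (m : ℤ) := by push_cast; ring
    rw [coeff_dd_pow_succ, e1, e2, ih, coeff_dd_pow_top, pow_succ]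
    push_cast
    ring

section StateSum

variable {ι : Type*} [Fintype ι] [DecidableEq ι]

/-- the state sum as a sum over sets of switched crossings -/
noncomputable def stateSum (c : Finset ι → ℕ) : LaurentPolynomial ℤ :=
  ∑ S : Finset ι, T ((Fintype.card ι : ℤ) - 2 * S.card) * dd ^ (c S - 1)

theorem coeff_sum_apply {α : Type*} (s : Finset α) (f : α → LaurentPolynomial ℤ) (j : ℤ) :
    (∑ i ∈ s, f i).coeff j = ∑ i ∈ s, (f i).coeff j := by
  rw [AddMonoidAlgebra.coeff_sum, Finsupp.finsetSum_apply]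

variable {c δ : Finset ι → ℕ} {k : ℕ}

theorem coeff_term (hc : ∀ S, 1 ≤ c S) (hcd : ∀ S, c S + δ S = 1 + k + S.card) (S : Finset ι)
    (i : ℕ) : (T ((Fintype.card ι : ℤ) - 2 * S.card) * dd ^ (c S - 1)).coeff
      ((Fintype.card ι : ℤ) + 2 * k - 2 * i) =
      (dd ^ (c S - 1)).coeff (2 * ((c S - 1 : ℕ) : ℤ) + 2 * δ S - 2 * i) := by
  rw [coeff_T_mul]
  congr 1
  have h1 := hc S
  have h2 := hcd S
  omega

theorem stateSum_coeff_top (hc : ∀ S, 1 ≤ c S) (hcd : ∀ S, c S + δ S = 1 + k + S.card)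
    (h0 : ∀ S, δ S = 0 ↔ S = ∅) :
    (stateSum c).coeff ((Fintype.card ι : ℤ) + 2 * k) = (-1) ^ k := by
  have e : (Fintype.card ι : ℤ) + 2 * k = (Fintype.card ι : ℤ) + 2 * k - 2 * (0 : ℕ) := by simp
  rw [e, stateSum, coeff_sum_apply, Finset.sum_eq_single ∅]
  · rw [coeff_term hc hcd, (h0 ∅).2 rfl]
    have h1 : c ∅ - 1 = k := by
      have := hcd ∅
      rw [(h0 ∅).2 rfl, Finset.card_empty] at this
      omega
    rw [h1]
    simpa using coeff_dd_pow_top k
  · intro S _ hS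
    rw [coeff_term hc hcd]
    refine coeff_dd_pow_of_lt _ _ ?_
    have : δ S ≠ 0 := fun h => hS ((h0 S).1 h)
    omega
  · simp

theorem stateSum_coeff_two (hc : ∀ S, 1 ≤ c S) (hcd : ∀ S, c S + δ S = 1 + k + S.card) :
    (stateSum c).coeff ((Fintype.card ι : ℤ) + 2 * k - 2) =
      -(-1) ^ k * ∑ S ∈ (Finset.univ : Finset (Finset ι)).filter (fun S => δ S = 1),
        (-1) ^ S.card := by
  have e : (Fintype.card ι : ℤ) + 2 * k - 2 = (Fintype.card ι : ℤ) + 2 * k - 2 * (1 : ℕ) := by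
    simp
  rw [e, stateSum, coeff_sum_apply, Finset.mul_sum, Finset.sum_filter]
  refine Finset.sum_congr rfl fun S _ => ?_
  rw [coeff_term hc hcd]
  have h1 := hc S
  have h2 := hcd S
  rcases Nat.lt_trichotomy (δ S) 1 with h | h | h
  · have h3 : δ S = 0 := by omega
    rw [if_neg (by omega), h3]
    simpa using coeff_dd_pow_two (c S - 1)
  · rw [if_pos h, h]
    have h4 := coeff_dd_pow_top (c S - 1)
    have e2 : 2 * ((c S - 1 : ℕ) : ℤ) + 2 * (1 : ℕ) - 2 * (1 : ℕ) = 2 * ((c S - 1 : ℕ) : ℤ) := by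
      ring
    rw [e2, h4]
    have h5 : k + S.card = (c S - 1) + 1 := by omega
    have h6 : (-1 : ℤ) ^ k * (-1) ^ S.card = (-1) ^ (c S - 1) * (-1) := by
      rw [← pow_add, h5, pow_succ]
    linarith
  · rw [if_neg (by omega)]
    exact coeff_dd_pow_of_lt _ _ (by omega)

theorem stateSum_coeff_four (hc : ∀ S, 1 ≤ c S) (hcd : ∀ S, c S + δ S = 1 + k + S.card)
    (h0 : ∀ S, δ S = 0 ↔ S = ∅) :
    (stateSum c).coeff ((Fintype.card ι : ℤ) + 2 * k - 4) =
      (-1) ^ k * (k + ∑ S ∈ (Finset.univ : Finset (Finset ι)).filter (fun S => δ S = 2),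
        (-1) ^ S.card) := by
  have e : (Fintype.card ι : ℤ) + 2 * k - 4 = (Fintype.card ι : ℤ) + 2 * k - 2 * (2 : ℕ) := by
    simp
  have hk : ∑ S : Finset ι, (if S = ∅ then (-1 : ℤ) ^ k * k else 0) = (-1) ^ k * k := by
    rw [Finset.sum_ite_eq' Finset.univ (∅ : Finset ι)]
    simp
  rw [e, stateSum, coeff_sum_apply, mul_add, ← hk, Finset.mul_sum, Finset.sum_filter,
    ← Finset.sum_add_distrib]
  refine Finset.sum_congr rfl fun S _ => ?_
  rw [coeff_term hc hcd]
  have h1 := hc S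
  have h2 := hcd S
  by_cases hS : S = ∅
  · have h3 : δ S = 0 := (h0 S).2 hS
    rw [if_pos hS, if_neg (by omega), h3, add_zero]
    have h4 : c S - 1 = k := by
      rw [h3, hS, Finset.card_empty, ← hS] at h2
      omega
    rw [h4]
    simpa using coeff_dd_pow_four k
  · have h3 : δ S ≠ 0 := fun h => hS ((h0 S).1 h)
    rw [if_neg hS, zero_add]
    rcases Nat.lt_trichotomy (δ S) 2 with h | h | h
    · have h4 : δ S = 1 := by omega
      rw [if_neg (by omega), h4]
      have := coeff_dd_pow_two (c S - 1)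
      have e2 : 2 * ((c S - 1 : ℕ) : ℤ) + 2 * (1 : ℕ) - 2 * (2 : ℕ) =
          2 * ((c S - 1 : ℕ) : ℤ) - 2 := by
        push_cast
        ring
      rw [e2, this]
    · rw [if_pos h, h]
      have h4 := coeff_dd_pow_top (c S - 1)
      have e2 : 2 * ((c S - 1 : ℕ) : ℤ) + 2 * (2 : ℕ) - 2 * (2 : ℕ) =
          2 * ((c S - 1 : ℕ) : ℤ) := by
        ring
      rw [e2, h4, ← pow_add]
      have h5 : k + S.card = (c S - 1) + 2 := by omega
      rw [h5, pow_add]
      simp
    · rw [if_neg (by omega)]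
      exact coeff_dd_pow_of_lt _ _ (by omega)

end StateSum

end Pool.Agent.Helper16.Knotoid
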