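import Mathlib

set_option autoImplicit false

/-!
# Two alternating sums
-/

namespace Pool.Agent.Helper16.Knotoid

variable {ι : Type*} [Fintype ι] [DecidableEq ι]

/-- alternating sum over the nonempty sets contained in a fibre -/
theorem sum_fibres {β : Type*} [DecidableEq β] (κ : ι → β) :
    ∑ S ∈ (Finset.univ : Finset (Finset ι)).filter
      (fun S => S.Nonempty ∧ ∀ e ∈ S, ∀ f ∈ S, κ e = κ f), (-1 : ℤ) ^ S.card =
      -((Finset.univ.image κ).card : ℤ) := by
  classical
  have h1 : (Finset.univ : Finset (Finset ι)).filter
      (fun S => S.Nonempty ∧ ∀ e ∈ S, ∀ f ∈ S, κ e = κ f) =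
      (Finset.univ.image κ).biUnion
        (fun k => (Finset.univ.filter (fun e => κ e = k)).powerset.erase ∅) := by
    ext S
    simp only [Finset.mem_filter, Finset.mem_univ, true_and, Finset.mem_biUnion,
      Finset.mem_image, Finset.mem_erase, Finset.mem_powerset, exists_exists_eq_and]
    constructor
    · rintro ⟨⟨e, he⟩, h⟩
      refine ⟨e, fun h' => by simp [h'] at he, fun f hf => ?_⟩
      simp [h f hf e he]
    · rintro ⟨e, hne, hsub⟩
      refine ⟨Finset.nonempty_iff_ne_empty.2 hne, fun a ha b hb => ?_⟩
      have h2 := hsub ha
      have h3 := hsub hb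
      simp only [Finset.mem_filter, Finset.mem_univ, true_and] at h2 h3
      rw [h2, h3]
  rw [h1, Finset.sum_biUnion]
  · have h2 : ∀ k ∈ Finset.univ.image κ,
        ∑ S ∈ (Finset.univ.filter (fun e => κ e = k)).powerset.erase ∅, (-1 : ℤ) ^ S.card =
          -1 := by
      intro k hk
      obtain ⟨e, -, rfl⟩ := Finset.mem_image.1 hk
      have h3 := Finset.sum_powerset_neg_one_pow_card (x := Finset.univ.filter (fun f => κ f = κ e))
      rw [if_neg, ← Finset.add_sum_erase _ _ (Finset.empty_mem_powerset _)] at h3
      · simp only [Finset.card_empty, pow_zero] at h3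
        linarith
      · intro h4
        have : e ∈ Finset.univ.filter (fun f => κ f = κ e) := by simp
        rw [h4] at this
        simp at this
    rw [Finset.sum_congr rfl h2]
    simp
  · intro k _ k' _ hkk'
    rw [Function.onFun, Finset.disjoint_left]
    intro S hS hS'
    rw [Finset.mem_erase, Finset.mem_powerset] at hS hS'
    obtain ⟨e, he⟩ := Finset.nonempty_iff_ne_empty.2 hS.1
    have h2 := hS.2 he
    have h3 := hS'.2 he
    simp only [Finset.mem_filter, Finset.mem_univ, true_and] at h2 h3
    exact hkk' (h2.symm.trans h3)

open Classical in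
/-- the nonempty cliques (for a relation given by a matrix) in `L` -/
noncomputable def cliques (M : Matrix ι ι (ZMod 2)) (L : Finset ι) : Finset (Finset ι) :=
  L.powerset.filter (fun S => S.Nonempty ∧ ∀ e ∈ S, ∀ f ∈ S, M e f = 1)

theorem sum_cliques (M : Matrix ι ι (ZMod 2)) (hsymm : ∀ e f, M e f = M f e) (l : ι → ℕ)
    (L : Finset ι) (hinj : ∀ e ∈ L, ∀ f ∈ L, l e = l f → e = f)
    (hdiag : ∀ e ∈ L, M e e = 1)
    (hch : ∀ e ∈ L, ∀ f ∈ L, ∀ m ∈ L, l e < l f → l f < l m → M e m = 1 → M f m = 1 → M e f = 1) :
    ∑ S ∈ cliques M L, (-1 : ℤ) ^ S.card ≤ if L = ∅ then 0 else -1 := by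
  induction L using Finset.induction_on_max_value l with
  | empty =>
    have : cliques M (∅ : Finset ι) = ∅ := by
      ext S
      simp only [cliques, Finset.powerset_empty, Finset.mem_filter, Finset.mem_singleton,
        Finset.notMem_empty, iff_false, not_and]
      rintro rfl h
      simp at h
    rw [this]
    simp
  | insert m L hm hmax ih =>
    have ih' := ih (fun e he f hf => hinj e (Finset.mem_insert_of_mem he) f
      (Finset.mem_insert_of_mem hf)) (fun e he => hdiag e (Finset.mem_insert_of_mem he))
      (fun e he f hf g hg => hch e (Finset.mem_insert_of_mem he) f (Finset.mem_insert_of_mem hf) g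
        (Finset.mem_insert_of_mem hg))
    have hlt : ∀ e ∈ L, l e < l m := fun e he => lt_of_le_of_ne (hmax e he) fun h => by
      have := hinj e (Finset.mem_insert_of_mem he) m (Finset.mem_insert_self _ _) h
      exact hm (this ▸ he)
    set P : Finset ι := L.filter (fun e => M e m = 1) with hP
    have hsplit : cliques M (insert m L) = cliques M L ∪ P.powerset.image (insert m) := by
      ext S
      simp only [cliques, Finset.mem_filter, Finset.mem_powerset, Finset.mem_union,
        Finset.mem_image]
      constructor
      · rintro ⟨hS, hne, hcl⟩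
        by_cases hmS : m ∈ S
        · right
          refine ⟨S.erase m, ?_, Finset.insert_erase hmS⟩
          intro e he
          rw [Finset.mem_erase] at he
          rw [hP, Finset.mem_filter]
          exact ⟨(Finset.mem_insert.1 (hS he.2)).resolve_left he.1, hcl e he.2 m hmS⟩
        · left
          refine ⟨fun e he => ?_, hne, hcl⟩
          exact (Finset.mem_insert.1 (hS he)).resolve_left (fun h => hmS (h ▸ he))
      · rintro (⟨hS, hne, hcl⟩ | ⟨Q, hQ, rfl⟩)
        · exact ⟨hS.trans (Finset.subset_insert _ _), hne, hcl⟩
        · have hQL : ∀ e ∈ Q, e ∈ L ∧ M e m = 1 := fun e he => by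
            have := hQ he
            rwa [hP, Finset.mem_filter] at this
          refine ⟨Finset.insert_subset_insert _ (fun e he => (hQL e he).1),
            Finset.insert_nonempty _ _, ?_⟩
          intro e he f hf
          rw [Finset.mem_insert] at he hf
          rcases he with rfl | he <;> rcases hf with rfl | hf
          · exact hdiag _ (Finset.mem_insert_self _ _)
          · rw [hsymm]
            exact (hQL f hf).2
          · exact (hQL e he).2
          · have h1 := hQL e he
            have h2 := hQL f hf
            rcases lt_trichotomy (l e) (l f) with h | h | h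
            · exact hch e (Finset.mem_insert_of_mem h1.1) f (Finset.mem_insert_of_mem h2.1) m
                (Finset.mem_insert_self _ _) h (hlt f h2.1) h1.2 h2.2
            · have := hinj e (Finset.mem_insert_of_mem h1.1) f (Finset.mem_insert_of_mem h2.1) h
              subst this
              exact hdiag _ (Finset.mem_insert_of_mem h1.1)
            · rw [hsymm]
              exact hch f (Finset.mem_insert_of_mem h2.1) e (Finset.mem_insert_of_mem h1.1) m
                (Finset.mem_insert_self _ _) h (hlt e h1.1) h2.2 h1.2
    have hdisj : Disjoint (cliques M L) (P.powerset.image (insert m)) := by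
      rw [Finset.disjoint_left]
      intro S hS hS'
      rw [Finset.mem_image] at hS'
      obtain ⟨Q, -, rfl⟩ := hS'
      simp only [cliques, Finset.mem_filter, Finset.mem_powerset] at hS
      exact hm (hS.1 (Finset.mem_insert_self _ _))
    have hmP : ∀ Q ∈ P.powerset, m ∉ Q := fun Q hQ h => by
      rw [Finset.mem_powerset] at hQ
      have := hQ h
      rw [hP, Finset.mem_filter] at this
      exact hm this.1
    have hsum : ∑ S ∈ P.powerset.image (insert m), (-1 : ℤ) ^ S.card =
        -(if P = ∅ then 1 else 0) := by
      rw [Finset.sum_image]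
      · rw [← Finset.sum_powerset_neg_one_pow_card, ← Finset.sum_neg_distrib]
        refine Finset.sum_congr rfl fun Q hQ => ?_
        rw [Finset.card_insert_of_notMem (hmP Q hQ), pow_succ]
        ring
      · intro Q hQ Q' hQ' h
        have h1 := Finset.erase_insert (hmP Q hQ)
        have h2 := Finset.erase_insert (hmP Q' hQ')
        rw [← h1, ← h2, h]
    rw [hsplit, Finset.sum_union hdisj, hsum, if_neg (Finset.insert_ne_empty _ _)]
    by_cases hL : L = ∅
    · rw [if_pos hL] at ih'
      have : P = ∅ := by rw [hP, hL]; rfl
      rw [if_pos this]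
      linarith
    · rw [if_neg hL] at ih'
      split_ifs <;> linarith

end Pool.Agent.Helper16.Knotoid
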