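import Pool.Agent.Helper16.Knotoid.Chords
import Pool.Agent.Helper16.Knotoid.Sums
import Pool.Agent.Helper16.Knotoid.Poly

set_option autoImplicit false

/-!
# The core argument, for chords of an arc
-/

namespace Pool.Agent.Helper16.Knotoid

open scoped symmDiff

variable {ι : Type*} [Fintype ι] [DecidableEq ι] {N : ℕ} {C : Slit ι N}

namespace Slit

/-- If the state sum is a monomial then there are no loops, every crossing is parallel to a
crossing of the tree, and the exponent is known. -/
theorem Noncrossing.monomial (hC : C.Noncrossing) {T : Finset ι}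
    (hT : ∀ s ∈ T, ∀ t ∈ T, C.mat s t = 0)
    (hadeq : ∀ e ∉ T, C.mat e e = 1 ∨ ∃ t ∈ T, C.mat t e = 1) (c : Finset ι → ℕ)
    (hc : ∀ S, c S + rk C.mat (T ∆ S) = 1 + (T ∆ S).card) (E ε : ℤ)
    (hmono : ∀ j, (stateSum c).coeff j = if j = E then ε else 0) :
    E = Fintype.card ι + 2 * T.card ∧
      ∀ e ∉ T, C.mat e e = 0 ∧ ∃ t ∈ T, C.mat t e = 1 ∧ ∀ s ∈ T, s ≠ t → C.mat s e = 0 := by
  classical
  have hA := hC.adapted hT hadeq
  have hc1 : ∀ S, 1 ≤ c S := fun S => by
    have h1 := hc S
    have h2 := rk_le_card (M := C.mat) (U := T ∆ S)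
    omega
  have hcd : ∀ S, c S + defect C.mat T S = 1 + T.card + S.card := fun S => by
    have h1 := hc S
    have h2 := symmDiff_card T S
    unfold defect
    omega
  have h0 : ∀ S, defect C.mat T S = 0 ↔ S = ∅ := fun S => hA.defect_eq_zero
  have htop := stateSum_coeff_top hc1 hcd h0
  have hE : (Fintype.card ι : ℤ) + 2 * T.card = E := by
    by_contra h
    rw [hmono, if_neg h] at htop
    have := pow_ne_zero T.card (show (-1 : ℤ) ≠ 0 by norm_num)
    exact this htop.symm
  refine ⟨hE.symm, ?_⟩
  -- no loops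
  have htwo := stateSum_coeff_two hc1 hcd
  rw [hmono, if_neg (by omega)] at htwo
  have hsum1 : ∑ S ∈ (Finset.univ : Finset (Finset ι)).filter
      (fun S => defect C.mat T S = 1), (-1 : ℤ) ^ S.card = 0 := by
    have := pow_ne_zero T.card (show (-1 : ℤ) ≠ 0 by norm_num)
    rcases mul_eq_zero.1 htwo.symm with h | h
    · exact absurd (neg_eq_zero.1 h) this
    · exact h
  have hcl : (Finset.univ : Finset (Finset ι)).filter (fun S => defect C.mat T S = 1) =
      cliques C.mat (loops C.mat T) := by
    ext S
    simp only [cliques, Finset.mem_filter, Finset.mem_univ, true_and, Finset.mem_powerset]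
    rw [hA.defect_eq_one]
    tauto
  have hloopdiag : ∀ e ∈ loops C.mat T, C.mat e e = 1 := fun e he => by
    simp only [loops, Finset.mem_filter, Finset.mem_univ, true_and] at he
    rcases hadeq e he.1 with h | ⟨t, ht, h⟩
    · exact h
    · rw [he.2 t ht] at h
      simp at h
  have hloops : loops C.mat T = ∅ := by
    by_contra hne
    have h1 := sum_cliques C.mat C.mat_symm (fun e => (C.l e : ℕ)) (loops C.mat T)
      (fun e _ f _ h => by
        by_contra hef
        exact C.ne_ll hef h) hloopdiag
      (fun e he f hf m _ hef hfm hem _ => hC.chain (hloopdiag e he) (hloopdiag f hf)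
        hef hfm hem)
    rw [if_neg hne, ← hcl, hsum1] at h1
    norm_num at h1
  -- the classes
  have hfour := stateSum_coeff_four hc1 hcd h0
  rw [hmono, if_neg (by omega)] at hfour
  have hsum2 : (T.card : ℤ) + ∑ S ∈ (Finset.univ : Finset (Finset ι)).filter
      (fun S => defect C.mat T S = 2), (-1 : ℤ) ^ S.card = 0 := by
    have := pow_ne_zero T.card (show (-1 : ℤ) ≠ 0 by norm_num)
    rcases mul_eq_zero.1 hfour.symm with h | h
    · exact absurd h this
    · exact h
  have hcl2 : (Finset.univ : Finset (Finset ι)).filter (fun S => defect C.mat T S = 2) =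
      (Finset.univ : Finset (Finset ι)).filter
      (fun S => S.Nonempty ∧ ∀ e ∈ S, ∀ f ∈ S, key C.mat T e = key C.mat T f) := by
    ext S
    simp only [Finset.mem_filter, Finset.mem_univ, true_and]
    exact hA.defect_eq_two hloops
  rw [hcl2, sum_fibres (key C.mat T)] at hsum2
  have hcard : (Finset.univ.image (key C.mat T)).card = T.card := by omega
  have himg : T.image (fun t => (({t} : Finset ι), (0 : ZMod 2))) =
      Finset.univ.image (key C.mat T) := by
    refine Finset.eq_of_subset_of_card_le ?_ ?_
    · intro x hx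
      obtain ⟨t, ht, rfl⟩ := Finset.mem_image.1 hx
      exact Finset.mem_image.2 ⟨t, Finset.mem_univ _, hA.key_of_mem ht⟩
    · rw [hcard, Finset.card_image_of_injective]
      intro a b hab
      simpa using hab
  intro e he
  have h1 : key C.mat T e ∈ T.image (fun t => (({t} : Finset ι), (0 : ZMod 2))) := by
    rw [himg]
    exact Finset.mem_image_of_mem _ (Finset.mem_univ _)
  obtain ⟨t, ht, hte⟩ := Finset.mem_image.1 h1
  rw [hA.key_of_notMem he, Prod.mk.injEq] at hte
  refine ⟨hte.2.symm, t, ht, ?_, ?_⟩
  · have : t ∈ T.filter (fun t => C.mat t e = 1) := by rw [← hte.1]; simp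
    exact (Finset.mem_filter.1 this).2
  · intro s hs hst
    by_contra h2
    have : s ∈ T.filter (fun t => C.mat t e = 1) :=
      Finset.mem_filter.2 ⟨hs, zmod2_ne_zero.1 h2⟩
    rw [← hte.1, Finset.mem_singleton] at this
    exact hst this

/-- comparison of the orientation with the nesting of the tree chords -/
theorem orient {T : Finset ι} (hT : ∀ s ∈ T, ∀ t ∈ T, C.mat s t = 0)
    (hpar : ∀ e ∉ T, C.mat e e = 0 ∧ ∃ t ∈ T, C.mat t e = 1 ∧ ∀ s ∈ T, s ≠ t → C.mat s e = 0)
    (θ : Fin (N + 1) → ZMod 2)
    (h1 : ∀ e, θ (C.r e).castSucc = θ (C.l e).castSucc + 1)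
    (h2 : ∀ e, θ (C.r e).succ = θ (C.l e).succ + 1)
    (hconn : ∀ ψ : Fin (N + 1) → ZMod 2, (∀ e, ψ (C.l e).castSucc = ψ (C.r e).castSucc) →
      (∀ e, ψ (C.l e).succ = ψ (C.r e).succ) → ∀ j k, ψ j = ψ k) (e : ι) :
    θ (C.l e).succ = θ (C.l e).castSucc + (if e ∈ T then 1 else 0) := by
  classical
  set x : ι → ZMod 2 := fun e => if e ∈ T then 1 else 0 with hx
  set ψ : Fin (N + 1) → ZMod 2 := fun k => θ k + arcFun C.l C.r 0 x k with hψ
  have hself : ∀ e, C.mat e e = 0 := fun e => by
    by_cases he : e ∈ T
    · exact hT e he e he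
    · exact (hpar e he).1
  -- the nesting function jumps like the orientation
  have hmul : ∀ e, (arcMat C.l C.r (fun e => C.sl e != C.sr e)).mulVec x e =
      if e ∈ T then 0 else 1 := by
    intro e
    have e1 : (arcMat C.l C.r (fun e => C.sl e != C.sr e)).mulVec x e =
        ∑ t ∈ T, C.mat e t := by
      unfold Matrix.mulVec dotProduct
      rw [← Finset.sum_filter_add_sum_filter_not Finset.univ (fun t => t ∈ T)]
      have : ∑ t ∈ Finset.univ.filter (fun t => ¬ t ∈ T),
          arcMat C.l C.r (fun e => C.sl e != C.sr e) e t * x t = 0 := by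
        refine Finset.sum_eq_zero fun t ht => ?_
        rw [Finset.mem_filter] at ht
        rw [hx]
        simp [ht.2]
      rw [this, add_zero]
      rw [Finset.filter_univ_mem]
      refine Finset.sum_congr rfl fun t ht => ?_
      rw [hx]
      simp only [ht, if_true, mul_one]
      rfl
    rw [e1]
    by_cases he : e ∈ T
    · rw [if_pos he]
      exact Finset.sum_eq_zero fun t ht => hT e he t ht
    · rw [if_neg he]
      obtain ⟨-, t, ht, h3, h4⟩ := hpar e he
      rw [Finset.sum_eq_single t]
      · rw [C.mat_symm, h3]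
      · intro s hs hst
        rw [C.mat_symm, h4 s hs hst]
      · exact fun h => absurd ht h
  have hval : ∀ e, arcFun C.l C.r 0 x (C.l e) + arcFun C.l C.r 0 x (C.r e + 1) =
      if e ∈ T then 0 else 1 := by
    intro e
    have h3 := mulVec_arcMat (P := C.l) (Q := C.r) (fun e => C.sl e != C.sr e) 0 x e
    rw [hmul e] at h3
    have h4 : (C.sl e != C.sr e) = false := by
      have := C.mat_self_eq_zero.1 (hself e)
      simp [this]
    rw [h4] at h3
    simp only [Bool.false_eq_true, if_false] at h3
    rw [h3, CharTwo.sub_eq_add]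
  have hP := fun e => arcFun_succ_P C.inj 0 x e
  have hQ := fun e => arcFun_succ_Q C.inj 0 x e
  have hval2 : ∀ e, arcFun C.l C.r 0 x (C.r e) = arcFun C.l C.r 0 x (C.l e) + 1 := by
    intro e
    have h3 := hval e
    rw [hQ e] at h3
    have h5 : x e = if e ∈ T then 1 else 0 := rfl
    rw [h5] at h3
    revert h3
    generalize arcFun C.l C.r 0 x (C.l e) = a
    generalize arcFun C.l C.r 0 x (C.r e) = b
    by_cases he : e ∈ T
    · simp only [he, if_true]
      revert a b
      decide
    · simp only [he, if_false]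
      revert a b
      decide
  have hψ1 : ∀ e, ψ (C.l e).castSucc = ψ (C.r e).castSucc := by
    intro e
    simp only [hψ, Fin.val_castSucc]
    rw [h1 e, hval2 e]
    generalize θ (C.l e).castSucc = a
    generalize arcFun C.l C.r 0 x (C.l e) = b
    revert a b
    decide
  have hψ2 : ∀ e, ψ (C.l e).succ = ψ (C.r e).succ := by
    intro e
    simp only [hψ, Fin.val_succ]
    rw [h2 e, hP e, hQ e, hval2 e]
    generalize θ (C.l e).succ = a
    generalize arcFun C.l C.r 0 x (C.l e) = b
    generalize x e = d
    revert a b d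
    decide
  have h3 := hconn ψ hψ1 hψ2 (C.l e).succ (C.l e).castSucc
  simp only [hψ, Fin.val_castSucc, Fin.val_succ] at h3
  rw [hP e] at h3
  have h5 : x e = if e ∈ T then 1 else 0 := rfl
  rw [h5] at h3
  revert h3
  generalize θ (C.l e).succ = a
  generalize θ (C.l e).castSucc = b
  generalize arcFun C.l C.r 0 x (C.l e) = d
  generalize (if e ∈ T then (1 : ZMod 2) else 0) = g
  revert a b d g
  decide

end Slit

end Pool.Agent.Helper16.Knotoid
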