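import Pool.Agent.Helper16.Knotoid.Terminal

set_option autoImplicit false

/-!
# Diagrams of knots: all crossings are even, and the interlacement matrix is nearly idempotent
-/

namespace Pool.Agent.Helper16.Knotoid

open Module

namespace GaussDiagram

variable {n : ℕ} (D : GaussDiagram n)

theorem sides_sum {ψ : Fin (2 * n + 1) × Bool → ZMod 2} (hψ : ψ ∈ compat D.Corner) :
    ψ (0, true) + ψ (Fin.last (2 * n), true) =
      ∑ c, Lv D.lam (fun c => jump ψ (D.overPass c).castSucc + jump ψ (D.overPass c).succ) c := by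
  set x : Fin n → ZMod 2 :=
    fun c => jump ψ (D.overPass c).castSucc + jump ψ (D.overPass c).succ with hx
  have h1 : ∑ p : Fin (2 * n), (ψ (p.castSucc, true) + ψ (p.succ, true)) =
      ψ (0, true) + ψ (Fin.last (2 * n), true) := by
    set g : ℕ → ZMod 2 := fun k => if hk : k < 2 * n + 1 then ψ (⟨k, hk⟩, true) else 0 with hg
    have h2 := telescope (2 * n) g
    rw [← Fin.sum_univ_eq_sum_range (fun k => g k + g (k + 1)) (2 * n)] at h2
    have h3 : g 0 = ψ (0, true) := by
      rw [hg]
      simp only
      rw [dif_pos (by omega)]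
      rfl
    have h4 : g (2 * n) = ψ (Fin.last (2 * n), true) := by
      rw [hg]
      simp only
      rw [dif_pos (by omega)]
      rfl
    rw [← h3, ← h4, ← h2]
    refine Finset.sum_congr rfl fun p _ => ?_
    rw [hg]
    simp only
    rw [dif_pos (by omega), dif_pos (by omega)]
    rfl
  rw [← h1]
  rw [← D.pos.sum_comp, Fintype.sum_prod_type]
  refine Finset.sum_congr rfl fun c _ => ?_
  rw [Fintype.sum_bool]
  refine (D.change_over_under hψ c).trans ?_
  have h3 := D.jump_eq hψ (D.overPass c) (by omega)
  have h4 := D.jump_eq hψ ((D.underPass c : ℕ) + 1) (by omega)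
  have h5 : (⟨(D.overPass c : ℕ), by omega⟩ : Fin (2 * n + 1)) = (D.overPass c).castSucc := rfl
  have h6 : (⟨(D.underPass c : ℕ) + 1, by omega⟩ : Fin (2 * n + 1)) = (D.underPass c).succ := rfl
  rw [← h5, ← h6, h3, h4]
  have h7 := mulVec_arcMat (P := D.overPass) (Q := D.underPass)
    (fun c => D.sign c != D.sign c) 0 x c
  have h8 : ¬ ((D.sign c != D.sign c) = true) := by simp
  rw [if_neg h8] at h7
  rw [CharTwo.sub_eq_add] at h7
  rw [← h7]
  rfl

/-- the crossings of a knot diagram are even -/
theorem even_of_region (hD : D.Planar) (hR : D.tailRegion = D.headRegion) (c : Fin n) :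
    Lv D.lam 1 c = 0 := by
  obtain ⟨ψ, hψ, hx⟩ := D.exists_face_function hD (Pi.single c 1)
  have h1 := D.sides_sum hψ
  rw [funext hx, sum_Lv D.lam_symm] at h1
  have h2 : ∑ f, Lv D.lam 1 f * (Pi.single c 1 : Fin n → ZMod 2) f = Lv D.lam 1 c := by
    rw [Finset.sum_eq_single c]
    · simp
    · intro b _ hb
      rw [Pi.single_eq_of_ne hb, mul_zero]
    · simp
  rw [h2] at h1
  have h3 : ψ (0, true) = ψ (Fin.last (2 * n), true) := by
    rw [mem_compat] at hψ
    let F : Quot D.Corner → ZMod 2 := Quot.lift ψ hψ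
    exact congrArg F hR
  rw [h3, CharTwo.add_self_eq_zero] at h1
  exact h1.symm

/-- the signs of the checkerboard pattern -/
def bb (c : Fin n) : ZMod 2 := D.bet' c + (D.lo c : ZMod 2)

theorem inn_mul_sum (c d : Fin n) :
    ∑ e : Fin n, (D.inn c (D.lo e) * D.inn d (D.lo e) + D.inn c (D.hi e) * D.inn d (D.hi e)) =
      ∑ p ∈ Finset.range (2 * n), D.inn c p * D.inn d p := by
  rw [← Fin.sum_univ_eq_sum_range (fun p => D.inn c p * D.inn d p) (2 * n), ← D.pos.sum_comp,
    Fintype.sum_prod_type]
  refine Finset.sum_congr rfl fun e _ => ?_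
  rw [Fintype.sum_bool]
  rcases D.lo_hi e with ⟨a, b⟩ | ⟨a, b⟩
  · unfold overPass at a
    unfold underPass at b
    rw [a, b]
  · unfold overPass at a
    unfold underPass at b
    rw [a, b, add_comm]

theorem card_Ioo_zmod {a b : ℕ} (h : a < b) : ((Finset.Ioo a b).card : ZMod 2) = a + b + 1 := by
  rw [Nat.card_Ioo, show b - a - 1 = b - (a + 1) by omega, Nat.cast_sub (by omega),
    CharTwo.sub_eq_add]
  push_cast
  ring

theorem sum_indicator {a b m : ℕ} (f : ℕ → ZMod 2)
    (hb : b ≤ m) (hf : ∀ p, f p = if a < p ∧ p < b then 1 else 0) (hab : a < b) :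
    ∑ p ∈ Finset.range m, f p = a + b + 1 := by
  rw [← card_Ioo_zmod hab]
  simp only [hf]
  rw [Finset.sum_boole]
  congr 2
  ext p
  simp only [Finset.mem_filter, Finset.mem_range, Finset.mem_Ioo]
  omega

/-- evenness of a crossing in terms of its passages -/
theorem lo_add_hi {c : Fin n} (h : Lv D.lam 1 c = 0) : ((D.lo c : ℕ) : ZMod 2) + D.hi c = 1 := by
  rw [Lv_one] at h
  push_cast at h
  rcases D.lo_hi c with ⟨a, b⟩ | ⟨a, b⟩
  · rw [a, b] at h
    generalize ((D.lo c : ℕ) : ZMod 2) = x at h ⊢
    generalize ((D.hi c : ℕ) : ZMod 2) = y at h ⊢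
    revert x y
    decide
  · rw [a, b] at h
    generalize ((D.lo c : ℕ) : ZMod 2) = x at h ⊢
    generalize ((D.hi c : ℕ) : ZMod 2) = y at h ⊢
    revert x y
    decide

theorem overlap {c d : Fin n} (hcd : c ≠ d) (hc : Lv D.lam 1 c = 0) (hd : Lv D.lam 1 d = 0) :
    ∑ p ∈ Finset.range (2 * n), D.inn c p * D.inn d p =
      D.lam c d * ((D.lo c : ZMod 2) + D.lo d) := by
  have hp := D.pos_ne hcd
  have cl := D.lo_lt_hi c
  have dl := D.lo_lt_hi d
  have ch := D.hi_lt c
  have dh := D.hi_lt d
  have ec := D.lo_add_hi hc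
  have ed := D.lo_add_hi hd
  have prod : ∀ p, D.inn c p * D.inn d p =
      if (D.lo c < p ∧ D.lo d < p) ∧ (p < D.hi c ∧ p < D.hi d) then 1 else 0 := by
    intro p
    unfold inn
    by_cases h1 : D.lo c < p ∧ p < D.hi c
    · by_cases h2 : D.lo d < p ∧ p < D.hi d
      · rw [if_pos h1, if_pos h2, if_pos (by omega), one_mul]
      · rw [if_neg h2, mul_zero, if_neg (by omega)]
    · rw [if_neg h1, zero_mul, if_neg (by omega)]
  have key : ∀ x y z w : ZMod 2, x + y = 1 → z + w = 1 → z + y + 1 = 1 * (x + z) := by decide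
  by_cases hil : D.Il c d
  · rw [(D.lam_one_iff hcd).2 hil]
    rcases hil with h | h
    · rw [sum_indicator (a := D.lo d) (b := D.hi c) _ (by omega) (fun p => ?_) (by omega)]
      · generalize ((D.lo c : ℕ) : ZMod 2) = x at ec ⊢
        generalize ((D.hi c : ℕ) : ZMod 2) = y at ec ⊢
        generalize ((D.lo d : ℕ) : ZMod 2) = z at ed ⊢
        generalize ((D.hi d : ℕ) : ZMod 2) = w at ed ⊢
        exact key x y z w ec ed
      · rw [prod]
        refine if_congr ?_ rfl rfl
        omega
    · rw [sum_indicator (a := D.lo c) (b := D.hi d) _ (by omega) (fun p => ?_) (by omega)]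
      · generalize ((D.lo c : ℕ) : ZMod 2) = x at ec ⊢
        generalize ((D.hi c : ℕ) : ZMod 2) = y at ec ⊢
        generalize ((D.lo d : ℕ) : ZMod 2) = z at ed ⊢
        generalize ((D.hi d : ℕ) : ZMod 2) = w at ed ⊢
        rw [add_comm x z]
        exact key z w x y ed ec
      · rw [prod]
        refine if_congr ?_ rfl rfl
        omega
  · rw [(D.lam_zero_iff hcd).2 hil, zero_mul]
    unfold Il at hil
    by_cases h1 : D.lo c < D.lo d ∧ D.hi d < D.hi c
    · rw [sum_indicator (a := D.lo d) (b := D.hi d) _ (by omega) (fun p => ?_) (by omega), ed]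
      · decide
      · rw [prod]
        refine if_congr ?_ rfl rfl
        omega
    · by_cases h2 : D.lo d < D.lo c ∧ D.hi c < D.hi d
      · rw [sum_indicator (a := D.lo c) (b := D.hi c) _ (by omega) (fun p => ?_) (by omega), ec]
        · decide
        · rw [prod]
          refine if_congr ?_ rfl rfl
          omega
      · refine Finset.sum_eq_zero fun p _ => ?_
        rw [prod, if_neg (by omega)]

theorem lam_eq' (c e : Fin n) : D.lam c e = D.inn c (D.lo e) + D.inn c (D.hi e) := by
  by_cases h : c = e
  · rw [h, lam_self, inn_self_lo, inn_self_hi, add_zero]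
  · exact D.lam_eq h

/-- the interlacement matrix of a knot diagram is idempotent up to its diagonal -/
theorem lam_mul (hD : D.Planar) (hR : D.tailRegion = D.headRegion) (c d : Fin n) :
    ∑ e, D.lam c e * D.lam e d = D.lam c d * (1 + D.bb c + D.bb d) := by
  by_cases hcd : c = d
  · subst hcd
    rw [lam_self, zero_mul]
    have h1 := D.even_of_region hD hR c
    rw [← h1]
    unfold Lv
    refine Finset.sum_congr rfl fun e _ => ?_
    rw [D.lam_symm e c, Pi.one_apply, mul_one]
    generalize D.lam c e = x
    revert x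
    decide
  · have h1 := D.planar_id hD hcd
    rw [D.NN_full (Finset.mem_univ c) (Finset.mem_univ d) hcd] at h1
    have h2 := D.overlap hcd (D.even_of_region hD hR c) (D.even_of_region hD hR d)
    rw [← D.inn_mul_sum c d] at h2
    have h3 : ∑ e, D.lam c e * D.lam e d = ∑ e, D.tt c d e +
        ∑ e : Fin n, (D.inn c (D.lo e) * D.inn d (D.lo e) + D.inn c (D.hi e) * D.inn d (D.hi e)) := by
      rw [← Finset.sum_add_distrib]
      refine Finset.sum_congr rfl fun e _ => ?_
      rw [D.lam_symm e d, D.lam_eq' c e, D.lam_eq' d e]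
      unfold tt
      ring
    rw [h3, h1, h2]
    unfold bb
    ring

/-- there is no solution of the system with right side a unit vector vanishing there -/
theorem no_unit (hD : D.Planar) (hR : D.tailRegion = D.headRegion) (c : Fin n)
    (U x : Fin n → ZMod 2) (hx : x c = 0) :
    ¬ ∀ f, Lv D.lam x f + U f * x f = if f = c then 1 else 0 := by
  intro h
  -- the idempotent matrix
  set P : (Fin n → ZMod 2) → Fin n → ZMod 2 := fun y f => Lv D.lam y f + D.bb f * y f with hP
  have hPP : ∀ y f, P (P y) f = P y f := by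
    intro y f
    have h1 : ∀ g, Lv D.lam (P y) g = Lv D.lam (Lv D.lam y) g +
        Lv D.lam (fun k => D.bb k * y k) g := by
      intro g
      unfold Lv
      rw [← Finset.sum_add_distrib]
      refine Finset.sum_congr rfl fun k _ => ?_
      simp only [hP, Lv]
      ring
    have h2 : Lv D.lam (Lv D.lam y) f = (1 + D.bb f) * Lv D.lam y f +
        Lv D.lam (fun k => D.bb k * y k) f := by
      have h3 : Lv D.lam (Lv D.lam y) f = ∑ d, (∑ e, D.lam f e * D.lam e d) * y d := by
        unfold Lv
        simp only [Finset.mul_sum, Finset.sum_mul]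
        rw [Finset.sum_comm]
        refine Finset.sum_congr rfl fun d _ => Finset.sum_congr rfl fun e _ => ?_
        ring
      rw [h3]
      unfold Lv
      rw [Finset.mul_sum, ← Finset.sum_add_distrib]
      refine Finset.sum_congr rfl fun d _ => ?_
      rw [D.lam_mul hD hR]
      ring
    have h4 : P (P y) f = Lv D.lam (P y) f + D.bb f * P y f := rfl
    have h5 : P y f = Lv D.lam y f + D.bb f * y f := rfl
    rw [h4, h1, h2, h5]
    generalize Lv D.lam (fun k => D.bb k * y k) f = r
    generalize Lv D.lam y f = s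
    generalize D.bb f = b
    generalize y f = t
    revert r s b t
    decide
  have hsymm : ∀ y z : Fin n → ZMod 2, ∑ f, P y f * z f = ∑ f, y f * P z f := by
    intro y z
    simp only [hP, Lv, add_mul, mul_add, Finset.sum_add_distrib, Finset.sum_mul, Finset.mul_sum]
    congr 1
    · rw [Finset.sum_comm]
      refine Finset.sum_congr rfl fun a _ => Finset.sum_congr rfl fun b _ => ?_
      rw [D.lam_symm b a]
      ring
    · refine Finset.sum_congr rfl fun a _ => ?_
      ring
  have hPadd : ∀ y z f, P (fun k => y k + z k) f = P y f + P z f := by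
    intro y z f
    simp only [hP, Lv, mul_add, Finset.sum_add_distrib]
    ring
  set y : Fin n → ZMod 2 := P x with hy
  have hyf : ∀ f, y f = (if f = c then 1 else 0) + (U f + D.bb f) * x f := by
    intro f
    rw [← h f, hy]
    simp only [hP]
    generalize Lv D.lam x f = s
    generalize D.bb f = b
    generalize x f = t
    generalize U f = u
    revert s b t u
    decide
  have hPy : ∀ f, P y f = y f := fun f => hPP x f
  have hPz : ∀ f, P (fun k => x k + y k) f = 0 := by
    intro f
    rw [hPadd, hPy f]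
    exact CharTwo.add_self_eq_zero _
  have h1 := hsymm y (fun k => x k + y k)
  have h2 : ∑ f, y f * P (fun k => x k + y k) f = 0 :=
    Finset.sum_eq_zero fun f _ => by rw [hPz, mul_zero]
  rw [h2] at h1
  have h3 : ∑ f, P y f * (x f + y f) = ∑ f, (if f = c then (1 : ZMod 2) else 0) := by
    refine Finset.sum_congr rfl fun f _ => ?_
    rw [hPy, hyf]
    by_cases hf : f = c
    · rw [if_pos hf, hf, hx]
      ring_nf
    · rw [if_neg hf]
      generalize D.bb f = b
      generalize x f = t
      generalize U f = u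
      revert b t u
      decide
  rw [h3] at h1
  simp at h1

end GaussDiagram

end Pool.Agent.Helper16.Knotoid
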