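import Mathlib

set_option autoImplicit false

/-!
# Counting classes by linear algebra over `ZMod 2`
-/

namespace Pool.Agent.Helper16.Knotoid

open Module

section Compat

variable {V : Type*}

/-- The functions to `ZMod 2` compatible with a relation. -/
def compat (r : V → V → Prop) : Submodule (ZMod 2) (V → ZMod 2) where
  carrier := {φ | ∀ a b, r a b → φ a = φ b}
  add_mem' := fun {φ ψ} h₁ h₂ a b hab => by simp [h₁ a b hab, h₂ a b hab]
  zero_mem' := fun _ _ _ => rfl
  smul_mem' := fun c φ h a b hab => by simp [h a b hab]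

theorem mem_compat {r : V → V → Prop} {φ : V → ZMod 2} :
    φ ∈ compat r ↔ ∀ a b, r a b → φ a = φ b := Iff.rfl

/-- compatible functions are functions on the quotient -/
def compatEquiv (r : V → V → Prop) : compat r ≃ₗ[ZMod 2] (Quot r → ZMod 2) where
  toFun φ := Quot.lift φ.1 φ.2
  map_add' φ ψ := by
    funext q
    induction q using Quot.ind
    rfl
  map_smul' c φ := by
    funext q
    induction q using Quot.ind
    rfl
  invFun ψ := ⟨fun v => ψ (Quot.mk r v), fun a b hab => congrArg ψ (Quot.sound hab)⟩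
  left_inv φ := rfl
  right_inv ψ := by
    funext q
    induction q using Quot.ind
    rfl

theorem finrank_compat [Finite V] (r : V → V → Prop) :
    finrank (ZMod 2) (compat r) = Nat.card (Quot r) := by
  classical
  have : Finite (Quot r) := Finite.of_surjective (Quot.mk r) Quot.mk_surjective
  have := Fintype.ofFinite (Quot r)
  rw [(compatEquiv r).finrank_eq, finrank_fintype_fun_eq_card, Nat.card_eq_fintype_card]

end Compat

section Arc

variable {ι : Type*} [Fintype ι] [DecidableEq ι] {N : ℕ}

/-- number (mod 2) of ends of the chord `f` before the segment `k` -/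
def cnt (P Q : ι → Fin N) (k : ℕ) (f : ι) : ZMod 2 :=
  (if (P f : ℕ) < k then 1 else 0) + (if (Q f : ℕ) < k then 1 else 0)

/-- The functions on the segments `0, …, N` of an arc, compatible with the surgeries along chords
with ends at the junctions `P e`, `Q e`. -/
def arcCond (P Q : ι → Fin N) (anti : ι → Bool) : Submodule (ZMod 2) (Fin (N + 1) → ZMod 2) where
  carrier := {φ | (∀ j : Fin N, (∀ e, P e ≠ j) → (∀ e, Q e ≠ j) → φ j.castSucc = φ j.succ) ∧
    ∀ e, if anti e then φ (P e).castSucc = φ (Q e).castSucc ∧ φ (P e).succ = φ (Q e).succ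
      else φ (P e).castSucc = φ (Q e).succ ∧ φ (P e).succ = φ (Q e).castSucc}
  add_mem' := fun {φ ψ} h₁ h₂ => by
    refine ⟨fun j hP hQ => by simp [h₁.1 j hP hQ, h₂.1 j hP hQ], fun e => ?_⟩
    have a₁ := h₁.2 e
    have a₂ := h₂.2 e
    split_ifs at a₁ a₂ ⊢ <;> simp [a₁.1, a₁.2, a₂.1, a₂.2]
  zero_mem' := ⟨fun _ _ _ => rfl, fun e => by split_ifs <;> simp⟩
  smul_mem' := fun c φ h => by
    refine ⟨fun j hP hQ => by simp [h.1 j hP hQ], fun e => ?_⟩
    have a := h.2 e
    split_ifs at a ⊢ <;> simp [a.1, a.2]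

/-- the matrix of the surgeries -/
def arcMat (P Q : ι → Fin N) (anti : ι → Bool) : Matrix ι ι (ZMod 2) :=
  fun e f => cnt P Q (P e) f + cnt P Q (if anti e then (Q e : ℕ) else (Q e : ℕ) + 1) f

/-- function on the segments determined by its value at `0` and its jumps -/
def arcFun (P Q : ι → Fin N) (c : ZMod 2) (x : ι → ZMod 2) (k : ℕ) : ZMod 2 :=
  c + ∑ f, x f * cnt P Q k f

variable {P Q : ι → Fin N}

theorem arcFun_zero (c : ZMod 2) (x : ι → ZMod 2) : arcFun P Q c x 0 = c := by
  simp [arcFun, cnt]

theorem cnt_succ (k : ℕ) (f : ι) : cnt P Q (k + 1) f =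
    cnt P Q k f + ((if (P f : ℕ) = k then 1 else 0) + (if (Q f : ℕ) = k then 1 else 0)) := by
  unfold cnt
  have h : ∀ a : ℕ, (if a < k + 1 then (1 : ZMod 2) else 0) =
      (if a < k then 1 else 0) + (if a = k then 1 else 0) := by
    intro a
    rcases lt_trichotomy a k with h | h | h
    · simp [h, h.ne, Nat.lt_succ_of_lt h]
    · simp [h]
    · have h1 : ¬ a < k + 1 := by omega
      have h2 : ¬ a < k := by omega
      have h3 : ¬ a = k := by omega
      simp [h1, h2, h3]
  rw [h, h]
  ring

theorem arcFun_succ (c : ZMod 2) (x : ι → ZMod 2) (k : ℕ) : arcFun P Q c x (k + 1) =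
    arcFun P Q c x k + ∑ f, x f * ((if (P f : ℕ) = k then 1 else 0) +
      (if (Q f : ℕ) = k then 1 else 0)) := by
  unfold arcFun
  rw [add_assoc, ← Finset.sum_add_distrib]
  congr 1
  refine Finset.sum_congr rfl fun f _ => ?_
  rw [cnt_succ]
  ring

theorem arcFun_succ_of_not (c : ZMod 2) (x : ι → ZMod 2) (k : ℕ) (hP : ∀ e, (P e : ℕ) ≠ k)
    (hQ : ∀ e, (Q e : ℕ) ≠ k) : arcFun P Q c x (k + 1) = arcFun P Q c x k := by
  rw [arcFun_succ]
  simp [hP, hQ]

theorem arcFun_succ_P (hinj : Function.Injective (Sum.elim P Q)) (c : ZMod 2) (x : ι → ZMod 2)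
    (e : ι) : arcFun P Q c x (P e + 1) = arcFun P Q c x (P e) + x e := by
  rw [arcFun_succ]
  congr 1
  rw [Finset.sum_eq_single e]
  · have : ¬ ((Q e : ℕ) = P e) := fun h => by
      have := @hinj (Sum.inr e) (Sum.inl e) (Fin.ext h)
      simp at this
    simp [this]
  · intro f _ hf
    have h1 : ¬ ((P f : ℕ) = P e) := fun h => by
      have := @hinj (Sum.inl f) (Sum.inl e) (Fin.ext h)
      simp at this
      exact hf this
    have h2 : ¬ ((Q f : ℕ) = P e) := fun h => by
      have := @hinj (Sum.inr f) (Sum.inl e) (Fin.ext h)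
      simp at this
    simp [h1, h2]
  · simp

theorem arcFun_succ_Q (hinj : Function.Injective (Sum.elim P Q)) (c : ZMod 2) (x : ι → ZMod 2)
    (e : ι) : arcFun P Q c x (Q e + 1) = arcFun P Q c x (Q e) + x e := by
  rw [arcFun_succ]
  congr 1
  rw [Finset.sum_eq_single e]
  · have : ¬ ((P e : ℕ) = Q e) := fun h => by
      have := @hinj (Sum.inl e) (Sum.inr e) (Fin.ext h)
      simp at this
    simp [this]
  · intro f _ hf
    have h1 : ¬ ((Q f : ℕ) = Q e) := fun h => by
      have := @hinj (Sum.inr f) (Sum.inr e) (Fin.ext h)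
      simp at this
      exact hf this
    have h2 : ¬ ((P f : ℕ) = Q e) := fun h => by
      have := @hinj (Sum.inl f) (Sum.inr e) (Fin.ext h)
      simp at this
    simp [h1, h2]
  · simp

theorem mulVec_arcMat (anti : ι → Bool) (c : ZMod 2) (x : ι → ZMod 2) (e : ι) :
    (arcMat P Q anti).mulVec x e = arcFun P Q c x (P e) -
      arcFun P Q c x (if anti e then (Q e : ℕ) else (Q e : ℕ) + 1) := by
  unfold arcMat arcFun Matrix.mulVec dotProduct
  rw [CharTwo.sub_eq_add]
  have hc : c + c = 0 := CharTwo.add_self_eq_zero c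
  have : ∀ a b : ZMod 2, c + a + (c + b) = (c + c) + (a + b) := by intros; ring
  rw [this, hc, zero_add, ← Finset.sum_add_distrib]
  refine Finset.sum_congr rfl fun f _ => ?_
  ring

/-- the parametrization of functions on the segments by the value at `0` and the jumps -/
def arcParam (P Q : ι → Fin N) : (ZMod 2 × (ι → ZMod 2)) →ₗ[ZMod 2] (Fin (N + 1) → ZMod 2) where
  toFun z := fun k => arcFun P Q z.1 z.2 k
  map_add' z w := by
    funext k
    simp only [arcFun, Prod.fst_add, Prod.snd_add, Pi.add_apply, add_mul, Finset.sum_add_distrib]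
    ring
  map_smul' a z := by
    funext k
    simp only [arcFun, Prod.smul_fst, Prod.smul_snd, Pi.smul_apply, smul_eq_mul, mul_add,
      Finset.mul_sum, RingHom.id_apply, mul_assoc]

theorem arcParam_apply (z : ZMod 2 × (ι → ZMod 2)) (k : Fin (N + 1)) :
    arcParam P Q z k = arcFun P Q z.1 z.2 k := rfl

theorem arcParam_injective (hinj : Function.Injective (Sum.elim P Q)) :
    Function.Injective (arcParam P Q) := by
  intro z w h
  have h0 : z.1 = w.1 := by
    have := congrFun h 0
    simpa [arcParam_apply, arcFun_zero] using this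
  refine Prod.ext h0 (funext fun e => ?_)
  have h1 : arcFun P Q z.1 z.2 (P e) = arcFun P Q w.1 w.2 (P e) := by
    have := congrFun h (P e).castSucc
    simpa [arcParam_apply] using this
  have h2 : arcFun P Q z.1 z.2 (P e + 1) = arcFun P Q w.1 w.2 (P e + 1) := by
    have := congrFun h (P e).succ
    simpa [arcParam_apply] using this
  rw [arcFun_succ_P hinj, arcFun_succ_P hinj, h1] at h2
  exact add_left_cancel h2

theorem arcCond_eq_map (hinj : Function.Injective (Sum.elim P Q)) (anti : ι → Bool) :
    arcCond P Q anti = Submodule.map (arcParam P Q)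
      (Submodule.prod ⊤ (LinearMap.ker (arcMat P Q anti).mulVecLin)) := by
  apply le_antisymm
  · intro φ hφ
    -- jumps
    have hjump : ∀ e, φ (Q e).succ - φ (Q e).castSucc = φ (P e).succ - φ (P e).castSucc := by
      intro e
      have := hφ.2 e
      split_ifs at this with h
      · rw [this.1, this.2]
      · rw [this.1, this.2, CharTwo.sub_eq_add, CharTwo.sub_eq_add, add_comm]
    set x : ι → ZMod 2 := fun e => φ (P e).succ - φ (P e).castSucc with hx
    have key : ∀ k : ℕ, ∀ hk : k < N + 1, φ ⟨k, hk⟩ = arcFun P Q (φ 0) x k := by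
      intro k
      induction k with
      | zero => intro hk; rw [arcFun_zero]; rfl
      | succ k ih =>
        intro hk
        have hk' : k < N := by omega
        have ih' := ih (by omega)
        by_cases h1 : ∃ e, P e = ⟨k, hk'⟩
        · obtain ⟨e, he⟩ := h1
          have hk1 : (P e : ℕ) = k := by rw [he]
          have := arcFun_succ_P hinj (φ 0) x e
          rw [hk1] at this
          rw [this, ← ih']
          have e1 : (⟨k, by omega⟩ : Fin (N + 1)) = (P e).castSucc := by rw [he]; rfl
          have e2 : (⟨k + 1, hk⟩ : Fin (N + 1)) = (P e).succ := by rw [he]; rfl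
          rw [e1, e2, hx]
          simp
        · by_cases h2 : ∃ e, Q e = ⟨k, hk'⟩
          · obtain ⟨e, he⟩ := h2
            have hk1 : (Q e : ℕ) = k := by rw [he]
            have := arcFun_succ_Q hinj (φ 0) x e
            rw [hk1] at this
            rw [this, ← ih']
            have e1 : (⟨k, by omega⟩ : Fin (N + 1)) = (Q e).castSucc := by rw [he]; rfl
            have e2 : (⟨k + 1, hk⟩ : Fin (N + 1)) = (Q e).succ := by rw [he]; rfl
            rw [e1, e2, hx]
            simp only
            rw [← hjump e]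
            simp
          · have h1' : ∀ e, P e ≠ ⟨k, hk'⟩ := fun e he => h1 ⟨e, he⟩
            have h2' : ∀ e, Q e ≠ ⟨k, hk'⟩ := fun e he => h2 ⟨e, he⟩
            have h3 := hφ.1 ⟨k, hk'⟩ h1' h2'
            rw [arcFun_succ_of_not (P := P) (Q := Q) (φ 0) x k
              (fun e he => h1' e (Fin.ext he)) (fun e he => h2' e (Fin.ext he)), ← ih']
            exact h3.symm
    refine ⟨(φ 0, x), ⟨Submodule.mem_top, ?_⟩, ?_⟩
    · rw [SetLike.mem_coe, LinearMap.mem_ker]
      funext e
      rw [Matrix.mulVecLin_apply, mulVec_arcMat anti (φ 0) x e, Pi.zero_apply, sub_eq_zero]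
      have := hφ.2 e
      have hP := key (P e) (by omega)
      split_ifs with h
      · have hQ := key (Q e) (by omega)
        rw [← hP, ← hQ]
        rw [if_pos h] at this
        exact this.1
      · have hQ := key (Q e + 1) (by omega)
        rw [← hP, ← hQ]
        rw [if_neg h] at this
        exact this.1
    · funext k
      rw [arcParam_apply]
      exact (key k k.2).symm
  · rintro _ ⟨⟨c, x⟩, ⟨-, hx⟩, rfl⟩
    rw [SetLike.mem_coe, LinearMap.mem_ker] at hx
    refine ⟨?_, ?_⟩
    · intro j hP hQ
      rw [arcParam_apply, arcParam_apply]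
      simp only [Fin.val_castSucc, Fin.val_succ]
      exact (arcFun_succ_of_not c x j (fun e he => hP e (Fin.ext he))
        (fun e he => hQ e (Fin.ext he))).symm
    · intro e
      have h := congrFun hx e
      rw [Matrix.mulVecLin_apply, mulVec_arcMat anti c x e, Pi.zero_apply, sub_eq_zero] at h
      simp only [arcParam_apply, Fin.val_castSucc, Fin.val_succ]
      have h1 := arcFun_succ_P hinj c x e
      have h2 := arcFun_succ_Q hinj c x e
      split_ifs at h ⊢ with ha
      · exact ⟨h, by rw [h1, h2, h]⟩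
      · refine ⟨h, ?_⟩
        rw [h1, h, h2, add_assoc, CharTwo.add_self_eq_zero, add_zero]

/-- the product of the line and a subspace -/
def topProdEquiv {V : Type*} [AddCommGroup V] [Module (ZMod 2) V] (K : Submodule (ZMod 2) V) :
    (Submodule.prod (⊤ : Submodule (ZMod 2) (ZMod 2)) K) ≃ₗ[ZMod 2] (ZMod 2 × K) where
  toFun z := (z.1.1, ⟨z.1.2, z.2.2⟩)
  map_add' _ _ := rfl
  map_smul' _ _ := rfl
  invFun w := ⟨(w.1, w.2.1), ⟨Submodule.mem_top, w.2.2⟩⟩
  left_inv _ := rfl
  right_inv _ := rfl

theorem finrank_arcCond (hinj : Function.Injective (Sum.elim P Q)) (anti : ι → Bool) :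
    finrank (ZMod 2) (arcCond P Q anti) =
      1 + finrank (ZMod 2) (LinearMap.ker (arcMat P Q anti).mulVecLin) := by
  rw [arcCond_eq_map hinj anti,
    ← (Submodule.equivMapOfInjective (arcParam P Q) (arcParam_injective hinj) _).finrank_eq,
    (topProdEquiv _).finrank_eq, finrank_prod, finrank_self]

theorem finrank_arcCond_add_rank (hinj : Function.Injective (Sum.elim P Q)) (anti : ι → Bool) :
    finrank (ZMod 2) (arcCond P Q anti) + (arcMat P Q anti).rank = 1 + Fintype.card ι := by
  have h := LinearMap.finrank_range_add_finrank_ker (arcMat P Q anti).mulVecLin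
  rw [finrank_fintype_fun_eq_card] at h
  rw [finrank_arcCond hinj anti, Matrix.rank]
  omega

end Arc

end Pool.Agent.Helper16.Knotoid
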