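import Pool.Agent.Helper16.Knotoid.Bridge

set_option autoImplicit false

/-!
# Planarity: the chords do not cross in the slit disc; orientation of the walk
-/

namespace Pool.Agent.Helper16.Knotoid

open Module

namespace GaussDiagram

variable {n : ℕ} {D : GaussDiagram n}

namespace Chain

variable {s : Fin n → Bool} (W : Chain D s)

/-- the boundary of the slit disc -/
noncomputable def bd (k : ℕ) : Half n := if k ≤ 2 * n then D.alp (W.w k) else W.w (4 * n + 1 - k)

theorem bd_surj (x : Half n) : ∃ k < 4 * n + 2, W.bd k = x := by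
  obtain ⟨j, hj, h | h⟩ := W.cover x
  · refine ⟨4 * n + 1 - j, by omega, ?_⟩
    unfold bd
    rw [if_neg (by omega), h]
    congr 1
    omega
  · refine ⟨j, by omega, ?_⟩
    unfold bd
    rw [if_pos (by omega), h]

/-- coordinate of the left end on the boundary of the slit disc -/
def cl (c : Fin n) : ℕ := circ (2 * n) (W.l c) (W.slit.sl c)

/-- coordinate of the right end on the boundary of the slit disc -/
def cr (c : Fin n) : ℕ := circ (2 * n) (W.r c) (W.slit.sr c)

theorem circ_lt {p : ℕ} (hp : p < 2 * n) (b : Bool) : circ (2 * n) p b < 4 * n + 1 := by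
  unfold circ
  split_ifs <;> omega

theorem circ_ne {p q : ℕ} (hp : p < 2 * n) (hq : q < 2 * n) (b b' : Bool) (h : p ≠ q) :
    circ (2 * n) p b ≠ circ (2 * n) q b' := by
  unfold circ
  split_ifs <;> omega

/-- chord ends as junctions of the boundary -/
def fcl (c : Fin n) : Fin (4 * n + 1) := ⟨W.cl c, circ_lt (W.l c).2 _⟩

/-- chord ends as junctions of the boundary -/
def fcr (c : Fin n) : Fin (4 * n + 1) := ⟨W.cr c, circ_lt (W.r c).2 _⟩

theorem fc_inj : Function.Injective (Sum.elim W.fcl W.fcr) := by
  have hll : ∀ {c c' : Fin n}, c ≠ c' → (W.l c : ℕ) ≠ W.l c' := fun h => W.slit.ne_ll h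
  have hrr : ∀ {c c' : Fin n}, c ≠ c' → (W.r c : ℕ) ≠ W.r c' := fun h => W.slit.ne_rr h
  have hlr : ∀ c c' : Fin n, (W.l c : ℕ) ≠ W.r c' := fun c c' => W.slit.ne_lr c c'
  rintro (c | c) (c' | c') h
  · by_contra hne
    have h1 : c ≠ c' := fun h' => hne (by rw [h'])
    exact circ_ne (W.l c).2 (W.l c').2 _ _ (hll h1) (congrArg Fin.val h)
  · exact absurd (congrArg Fin.val h) (circ_ne (W.l c).2 (W.r c').2 _ _ (hlr c c'))
  · exact absurd (congrArg Fin.val h) (circ_ne (W.r c).2 (W.l c').2 _ _ (hlr c' c).symm)
  · by_contra hne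
    have h1 : c ≠ c' := fun h' => hne (by rw [h'])
    exact circ_ne (W.r c).2 (W.r c').2 _ _ (hrr h1) (congrArg Fin.val h)

/-- the half-edges next to a junction, on the side of the chord: general form -/
theorem bd_circ {p : ℕ} (hp : p < 2 * n) {c : Fin n} {i : ZMod 4}
    (hw : W.w (p + 1) = Sum.inl (c, i)) (hi : i = kap (s c) - i + 1 ∨ kap (s c) - i = i + 1)
    {b : Bool} (hb : b = decide (2 * i = kap (s c) + 1)) :
    W.bd (circ (2 * n) p b) = Sum.inl (c, if b then kap (s c) - i else i) ∧
    W.bd (circ (2 * n) p b + 1) =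
      D.alp (Sum.inl (c, (if b then kap (s c) - i else i) + 1)) := by
  have hα : D.alp (W.w p) = Sum.inl (c, kap (s c) - i) := by
    rw [W.alp_w, hw]
    rfl
  have hα' : W.w p = D.alp (Sum.inl (c, kap (s c) - i)) := by
    rw [← hα, D.alp_alp]
  cases b
  · have hne : kap (s c) - i = i + 1 := by
      rcases hi with h | h
      · exfalso
        have : 2 * i = kap (s c) + 1 := by
          have h2 : i + i = kap (s c) + 1 := by
            nth_rewrite 1 [h]
            ring
          rw [two_mul]
          exact h2
        rw [decide_eq_true this] at hb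
        simp at hb
      · exact h
    unfold circ bd
    simp only [Bool.false_eq_true, if_false]
    rw [if_neg (by omega)]
    have e1 : 4 * n + 1 - (2 * (2 * n) - p) = p + 1 := by omega
    rw [e1, hw]
    refine ⟨rfl, ?_⟩
    rw [if_neg (by omega)]
    have e2 : 4 * n + 1 - (2 * (2 * n) - p + 1) = p := by omega
    rw [e2, hα', hne]
  · have hne : i = kap (s c) - i + 1 := by
      have h1 : 2 * i = kap (s c) + 1 := of_decide_eq_true hb.symm
      have h2 : i + i = kap (s c) + 1 := by rw [← two_mul]; exact h1
      calc i = (i + i) - i := by ring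
        _ = kap (s c) + 1 - i := by rw [h2]
        _ = kap (s c) - i + 1 := by ring
    unfold circ bd
    simp only [if_true]
    rw [if_pos (by omega)]
    refine ⟨hα, ?_⟩
    rw [if_pos (by omega), hw]
    congr 3

theorem succ_or (c : Fin n) (i : ZMod 4) :
    i = kap (s c) - i + 1 ∨ kap (s c) - i = i + 1 := by
  have key : ∀ (b : Bool) (i : ZMod 4), i = kap b - i + 1 ∨ kap b - i = i + 1 := by decide
  exact key _ _

/-- functions on the sides compatible with the corners satisfy the conditions of the chords on the
boundary of the slit disc -/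
theorem corner_cond {ψ : Fin (2 * n + 1) × Bool → ZMod 2} (hψ : ψ ∈ compat D.Corner) :
    (fun k : Fin (4 * n + 1 + 1) => ψ (D.E (W.bd k))) ∈ arcCond W.fcl W.fcr (fun _ => false) := by
  obtain ⟨h1, h2⟩ := D.corner_half hψ
  refine ⟨fun j hP hQ => ?_, fun c => ?_⟩
  · simp only [Fin.val_castSucc, Fin.val_succ]
    rcases Nat.lt_trichotomy (j : ℕ) (2 * n) with hj | hj | hj
    · -- left side
      obtain ⟨c, i, hw, hside⟩ : ∃ c i, W.w (j + 1) = Sum.inl (c, i) ∧
          ¬ (2 * i = kap (s c) + 1) := by
        obtain ⟨c, hc | hc⟩ := W.junction j hj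
        · refine ⟨c, W.il c, by rw [hc, W.wl], fun h => hP c ?_⟩
          apply Fin.ext
          show circ (2 * n) (W.l c) (decide (2 * W.il c = kap (s c) + 1)) = j
          rw [decide_eq_true h, hc]
          rfl
        · refine ⟨c, W.ir c, by rw [hc, W.wr], fun h => hQ c ?_⟩
          apply Fin.ext
          show circ (2 * n) (W.r c) (decide (2 * W.ir c = kap (s c) + 1)) = j
          rw [decide_eq_true h, hc]
          rfl
      have hne : kap (s c) - i = i + 1 := by
        rcases succ_or (s := s) c i with h | h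
        · exfalso
          apply hside
          nth_rewrite 1 [h]
          have key : ∀ (b : Bool) (i : ZMod 4), i = kap b - i + 1 →
              2 * (kap b - i + 1) = kap b + 1 := by decide
          exact key _ _ h
        · exact h
      have hα : D.alp (W.w j) = Sum.inl (c, i + 1) := by
        rw [W.alp_w, hw, ← hne]
        rfl
      unfold bd
      rw [if_pos (by omega), if_pos (by omega), hα, hw]
      exact (h1 c i).symm
    · -- the head
      unfold bd
      rw [if_pos (by omega), if_neg (by omega), hj]
      have e1 : 4 * n + 1 - (2 * n + 1) = 2 * n := by omega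
      rw [e1]
      have hα : D.alp (W.w (2 * n)) = Sum.inr true := by
        rw [W.alp_w, W.period]
        rfl
      have hα' : W.w (2 * n) = D.alp (Sum.inr true) := by rw [← hα, D.alp_alp]
      rw [hα, hα']
      exact h2.symm
    · -- right side
      have hj' := j.2
      set p : ℕ := 4 * n - j with hp
      have hpn : p < 2 * n := by omega
      obtain ⟨c, i, hw, hside⟩ : ∃ c i, W.w (p + 1) = Sum.inl (c, i) ∧
          (2 * i = kap (s c) + 1) := by
        obtain ⟨c, hc | hc⟩ := W.junction p hpn
        · refine ⟨c, W.il c, by rw [hc, W.wl], ?_⟩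
          by_contra h
          apply hP c
          apply Fin.ext
          show circ (2 * n) (W.l c) (decide (2 * W.il c = kap (s c) + 1)) = j
          rw [decide_eq_false h]
          unfold circ
          simp only [Bool.false_eq_true, if_false]
          omega
        · refine ⟨c, W.ir c, by rw [hc, W.wr], ?_⟩
          by_contra h
          apply hQ c
          apply Fin.ext
          show circ (2 * n) (W.r c) (decide (2 * W.ir c = kap (s c) + 1)) = j
          rw [decide_eq_false h]
          unfold circ
          simp only [Bool.false_eq_true, if_false]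
          omega
      have hne : i = kap (s c) - i + 1 := by
        have key : ∀ (b : Bool) (i : ZMod 4), 2 * i = kap b + 1 → i = kap b - i + 1 := by decide
        exact key _ _ hside
      have hα : W.w p = D.alp (Sum.inl (c, kap (s c) - i)) := by
        rw [← D.alp_alp (W.w p), W.alp_w, hw]
        rfl
      unfold bd
      rw [if_neg (by omega), if_neg (by omega)]
      have e1 : 4 * n + 1 - (j : ℕ) = p + 1 := by omega
      have e2 : 4 * n + 1 - ((j : ℕ) + 1) = p := by omega
      rw [e1, e2, hα, hw, h1 c, ← hne]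
  · simp only [Bool.false_eq_true, if_false, Fin.val_castSucc, Fin.val_succ]
    obtain ⟨a1, a2⟩ := W.bd_circ (W.l c).2 (W.wl c) (succ_or c _) (b := W.slit.sl c) rfl
    obtain ⟨b1, b2⟩ := W.bd_circ (W.r c).2 (W.wr c) (succ_or c _) (b := W.slit.sr c) rfl
    have hcl : (W.fcl c : ℕ) = circ (2 * n) (W.l c) (W.slit.sl c) := rfl
    have hcr : (W.fcr c : ℕ) = circ (2 * n) (W.r c) (W.slit.sr c) := rfl
    rw [hcl, hcr, a1, a2, b1, b2]
    have hab : (if W.slit.sr c then kap (s c) - W.ir c else W.ir c) =
        (if W.slit.sl c then kap (s c) - W.il c else W.il c) + 2 := by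
      have key : ∀ (b : Bool) (x y : ZMod 4), (y = x + 2 ∨ y = kap b - x + 2) →
          (if decide (2 * y = kap b + 1) = true then kap b - y else y) =
          (if decide (2 * x = kap b + 1) = true then kap b - x else x) + 2 := by decide
      exact key _ _ _ (W.arcs c)
    rw [hab]
    generalize (if W.slit.sl c then kap (s c) - W.il c else W.il c) = a
    have e1 : a + 2 + 1 + 1 = a := by
      revert a
      decide
    have e2 : a + 1 + 1 = a + 2 := by ring
    rw [h1 c (a + 2 + 1), h1 c (a + 1), e1, e2]
    exact ⟨rfl, rfl⟩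

/-- in a planar diagram the chords do not cross -/
theorem noncrossing (hD : D.Planar) : W.slit.Noncrossing := by
  have h1 : finrank (ZMod 2) (compat D.Corner) = n + 1 := by
    rw [finrank_compat]
    exact hD
  -- pull back along the boundary
  set F : (Fin (2 * n + 1) × Bool → ZMod 2) →ₗ[ZMod 2]
      (Fin (4 * n + 1 + 1) → ZMod 2) :=
    LinearMap.funLeft (ZMod 2) (ZMod 2) (fun k : Fin (4 * n + 1 + 1) => D.E (W.bd k)) with hF
  have hFinj : Function.Injective F := by
    apply LinearMap.funLeft_injective_of_surjective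
    intro x
    obtain ⟨k, hk, h⟩ := W.bd_surj (D.E.symm x)
    exact ⟨⟨k, hk⟩, by simp only [h, Equiv.apply_symm_apply]⟩
  have h2 : (compat D.Corner).map F ≤ arcCond W.fcl W.fcr (fun _ => false) := by
    rintro _ ⟨ψ, hψ, rfl⟩
    exact W.corner_cond hψ
  have h3 := Submodule.finrank_mono h2
  rw [← (Submodule.equivMapOfInjective F hFinj _).finrank_eq, h1] at h3
  have h4 := finrank_arcCond_add_rank W.fc_inj (fun _ => false)
  rw [Fintype.card_fin] at h4
  have h5 : (arcMat W.fcl W.fcr (fun _ => false)).rank = 0 := by omega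
  have h6 : arcMat W.fcl W.fcr (fun _ => false) = 0 := by
    have h7 : LinearMap.range (arcMat W.fcl W.fcr (fun _ => false)).mulVecLin = ⊥ :=
      Submodule.finrank_eq_zero.1 h5
    rw [LinearMap.range_eq_bot] at h7
    ext e f
    have h8 := congrArg (fun g => g (Pi.single f 1) e) h7
    simpa using h8
  intro e f hef
  have h7 := congrFun (congrFun h6 e) f
  rw [Matrix.zero_apply] at h7
  have hne1 : (W.fcl f : ℕ) ≠ W.fcr e := fun h => by
    have := W.fc_inj (a₁ := Sum.inl f) (a₂ := Sum.inr e) (Fin.ext h)
    simp at this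
  have hne2 : (W.fcr f : ℕ) ≠ W.fcr e := fun h => by
    have := W.fc_inj (a₁ := Sum.inr f) (a₂ := Sum.inr e) (Fin.ext h)
    simp only [Sum.inr.injEq] at this
    exact hef this.symm
  have e1 : (if (W.fcl f : ℕ) < (W.fcr e : ℕ) + 1 then (1 : ZMod 2) else 0) =
      if (W.fcl f : ℕ) < W.fcr e then 1 else 0 := by
    refine if_congr ?_ rfl rfl
    omega
  have e2 : (if (W.fcr f : ℕ) < (W.fcr e : ℕ) + 1 then (1 : ZMod 2) else 0) =
      if (W.fcr f : ℕ) < W.fcr e then 1 else 0 := by
    refine if_congr ?_ rfl rfl
    omega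
  unfold arcMat cnt at h7
  simp only [Bool.false_eq_true, if_false] at h7
  rw [e1, e2] at h7
  exact h7

/-- `0` if the walk runs along the edge in the direction of the knotoid, `1` otherwise -/
noncomputable def dir (j : Fin (2 * n + 1)) : ZMod 2 := if (D.E (W.w j)).2 then 1 else 0

theorem E_snd (c : Fin n) (i : ZMod 4) :
    (D.E (Sum.inl (c, i))).2 = !(outF (D.sign c) i) := by
  rw [E_apply]
  simp only [ends]
  cases outF (D.sign c) i <;> simp

theorem dir_l_succ (c : Fin n) :
    W.dir (W.l c).succ = if outF (D.sign c) (W.il c) then 0 else 1 := by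
  unfold dir
  rw [Fin.val_succ, W.wl, E_snd]
  cases outF (D.sign c) (W.il c) <;> simp

theorem dir_r_succ (c : Fin n) :
    W.dir (W.r c).succ = if outF (D.sign c) (W.ir c) then 0 else 1 := by
  unfold dir
  rw [Fin.val_succ, W.wr, E_snd]
  cases outF (D.sign c) (W.ir c) <;> simp

theorem dir_l_castSucc (c : Fin n) :
    W.dir (W.l c).castSucc = if outF (D.sign c) (kap (s c) - W.il c) then 1 else 0 := by
  unfold dir
  rw [Fin.val_castSucc, ← D.alp_alp (W.w (W.l c)), W.alp_wl, E_alp]
  simp only
  rw [E_snd, Bool.not_not]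

theorem dir_r_castSucc (c : Fin n) :
    W.dir (W.r c).castSucc = if outF (D.sign c) (kap (s c) - W.ir c) then 1 else 0 := by
  unfold dir
  rw [Fin.val_castSucc, ← D.alp_alp (W.w (W.r c)), W.alp_wr, E_alp]
  simp only
  rw [E_snd, Bool.not_not]

/-- the smoothing is oriented if and only if the walk does not change direction -/
theorem dir_change (c : Fin n) : W.dir (W.l c).succ = W.dir (W.l c).castSucc +
    (if s c = D.sign c then 0 else 1) := by
  rw [dir_l_succ, dir_l_castSucc]
  have key : ∀ (b t : Bool) (i : ZMod 4), (if outF t i then (0 : ZMod 2) else 1) =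
      (if outF t (kap b - i) then 1 else 0) + (if b = t then 0 else 1) := by decide
  exact key _ _ _

theorem dir_castSucc (hsame : ∀ c, W.slit.sl c = W.slit.sr c) (c : Fin n) :
    W.dir (W.r c).castSucc = W.dir (W.l c).castSucc + 1 := by
  have h := (W.sides c).1 (hsame c)
  rw [dir_r_castSucc, dir_l_castSucc, h]
  have key : ∀ (b t : Bool) (i : ZMod 4), (if outF t (kap b - (i + 2)) then (1 : ZMod 2) else 0) =
      (if outF t (kap b - i) then 1 else 0) + 1 := by decide
  exact key _ _ _

theorem dir_succ (hsame : ∀ c, W.slit.sl c = W.slit.sr c) (c : Fin n) :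
    W.dir (W.r c).succ = W.dir (W.l c).succ + 1 := by
  have h := (W.sides c).1 (hsame c)
  rw [dir_r_succ, dir_l_succ, h]
  have key : ∀ (t : Bool) (i : ZMod 4), (if outF t (i + 2) then (0 : ZMod 2) else 1) =
      (if outF t i then 0 else 1) + 1 := by decide
  exact key _ _

/-- the knotoid passes through all edges -/
theorem connected (hsame : ∀ c, W.slit.sl c = W.slit.sr c) (ψ : Fin (2 * n + 1) → ZMod 2)
    (h1 : ∀ c, ψ (W.l c).castSucc = ψ (W.r c).castSucc)
    (h2 : ∀ c, ψ (W.l c).succ = ψ (W.r c).succ) : ∀ j k, ψ j = ψ k := by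
  set φ : Fin (2 * n + 1) → ZMod 2 := fun k => ψ (W.reidx.symm k) with hφ
  have hφr : ∀ j, φ (W.reidx j) = ψ j := fun j => by simp [hφ]
  have hopp : ∀ c i, φ (D.edge (Sum.inl (c, i))) = φ (D.edge (Sum.inl (c, i + 2))) := by
    intro c i
    have h := (W.sides c).1 (hsame c)
    have a1 := h1 c
    have a2 := h2 c
    rw [← hφr, ← hφr, reidx_l_castSucc, reidx_r_castSucc, h] at a1
    rw [← hφr, ← hφr, reidx_l_succ, reidx_r_succ, h] at a2
    have hi := W.four c i
    rw [h] at hi
    rcases hi with rfl | rfl | rfl | rfl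
    · exact a2
    · rw [a1]
      congr 4
      generalize kap (s c) = x
      generalize W.il c = y
      revert x y
      decide
    · rw [← a2]
      congr 4
      generalize W.il c = y
      revert y
      decide
    · rw [← a1]
      congr 4
      ring
  have hstep : ∀ p : Fin (2 * n), φ p.castSucc = φ p.succ := by
    intro p
    rcases D.pass_surj p with ⟨c, rfl⟩ | ⟨c, rfl⟩
    · have := hopp c 0
      have e : (0 : ZMod 4) + 2 = 2 := by decide
      rw [e, edge_zero, edge_two] at this
      exact this.symm
    · have := hopp c 1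
      have e : (1 : ZMod 4) + 2 = 3 := by decide
      rw [e, edge_one, edge_three] at this
      cases hs : D.sign c
      · rw [hs] at this
        simpa using this
      · rw [hs] at this
        simpa using this.symm
  have hall : ∀ k : ℕ, ∀ hk : k < 2 * n + 1, φ ⟨k, hk⟩ = φ 0 := by
    intro k
    induction k with
    | zero => intro _; rfl
    | succ k ih =>
      intro hk
      rw [← ih (by omega)]
      exact (hstep ⟨k, by omega⟩).symm
  intro j k
  rw [← hφr j, ← hφr k]
  exact (hall _ (W.reidx j).2).trans (hall _ (W.reidx k).2).symm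

end Chain

end GaussDiagram

end Pool.Agent.Helper16.Knotoid
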