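import Pool.Agent.Helper16.Knotoid.Core
import Pool.Agent.Helper16.Knotoid.Planar
import Pool.Agent.Helper16.Knotoid.R1

set_option autoImplicit false

/-!
# Semi-adequate knotoid diagrams with trivial normalized bracket are trivial
-/

namespace Pool.Agent.Helper16.Knotoid

open LaurentPolynomial
open scoped symmDiff

namespace GaussDiagram

variable {n : ℕ} (D : GaussDiagram n)

theorem sw_bijective (X : Bool) :
    Function.Bijective (fun S : Finset (Fin n) => sw (fun _ => X) S) := by
  constructor
  · intro S S' h
    ext c
    have h1 := congrFun h c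
    simp only [sw] at h1
    by_cases h2 : c ∈ S <;> by_cases h3 : c ∈ S' <;> simp_all
  · intro s
    refine ⟨Finset.univ.filter (fun c => s c ≠ X), ?_⟩
    funext c
    simp only [sw, Finset.mem_filter, Finset.mem_univ, true_and]
    cases h : s c <;> cases X <;> simp

theorem stateSign_sw (X : Bool) (S : Finset (Fin n)) :
    stateSign (sw (fun _ => X) S) =
      (if X then 1 else -1) * ((Fintype.card (Fin n) : ℤ) - 2 * S.card) := by
  have h1 : stateSign (sw (fun _ => X) S) =
      ∑ c : Fin n, (if X then (1 : ℤ) else -1) * (1 - 2 * (if c ∈ S then 1 else 0)) := by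
    unfold stateSign
    refine Finset.sum_congr rfl fun c _ => ?_
    simp only [sw]
    by_cases hc : c ∈ S <;> cases X <;> simp [hc]
  rw [h1, ← Finset.mul_sum, Finset.sum_sub_distrib, ← Finset.mul_sum]
  simp

theorem invert_dd : invert dd = dd := by
  unfold dd
  rw [map_sub, map_neg, invert_T, invert_T, neg_neg]
  ring

theorem bracket_true : D.bracket = stateSum (fun S => D.comps (sw (fun _ => true) S)) := by
  unfold bracket stateSum
  rw [← (sw_bijective true).sum_comp]
  refine Finset.sum_congr rfl fun S _ => ?_
  rw [stateSign_sw]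
  simp [dd]

theorem bracket_false :
    D.bracket = invert (stateSum (fun S => D.comps (sw (fun _ => false) S))) := by
  unfold bracket stateSum
  rw [map_sum, ← (sw_bijective false).sum_comp]
  refine Finset.sum_congr rfl fun S _ => ?_
  rw [stateSign_sw, map_mul, map_pow, invert_dd, invert_T]
  simp [dd]

/-- if `f = 1` then the bracket is a monomial -/
theorem bracket_of_f (hf : D.normalizedBracket = 1) :
    ∃ ε : ℤ, ∀ j, D.bracket.coeff j = if j = 3 * D.writhe then ε else 0 := by
  unfold normalizedBracket at hf
  have h1 : D.bracket = (-1) ^ D.writhe.natAbs * T (3 * D.writhe) := by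
    have h2 : ((-1 : LaurentPolynomial ℤ) ^ D.writhe.natAbs) * (-1) ^ D.writhe.natAbs = 1 := by
      rw [← mul_pow]
      simp
    have h3 : (T (3 * D.writhe) : LaurentPolynomial ℤ) * T (-3 * D.writhe) = 1 := by
      rw [← T_add]
      have : 3 * D.writhe + -3 * D.writhe = 0 := by ring
      rw [this, T_zero]
    calc D.bracket = (((-1 : LaurentPolynomial ℤ) ^ D.writhe.natAbs) * (-1) ^ D.writhe.natAbs) *
          (T (3 * D.writhe) * T (-3 * D.writhe)) * D.bracket := by rw [h2, h3]; ring
      _ = (-1) ^ D.writhe.natAbs * T (3 * D.writhe) *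
          ((-1) ^ D.writhe.natAbs * T (-3 * D.writhe) * D.bracket) := by ring
      _ = (-1) ^ D.writhe.natAbs * T (3 * D.writhe) := by rw [hf, mul_one]
  rcases neg_one_pow_eq_or (LaurentPolynomial ℤ) D.writhe.natAbs with h | h
  · refine ⟨1, fun j => ?_⟩
    rw [h1, h, one_mul, T_apply]
    simp only [eq_comm]
  · refine ⟨-1, fun j => ?_⟩
    have h3 : ∀ p : LaurentPolynomial ℤ, (-p).coeff j = -p.coeff j := fun _ => rfl
    rw [h1, h, neg_one_mul, h3, T_apply]
    by_cases hj : j = 3 * D.writhe
    · rw [if_pos hj, if_pos hj.symm]
    · rw [if_neg hj, if_neg (Ne.symm hj)]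
      simp

/-- diagrams all of whose crossings have the same sign are adequate -/
theorem adequate_of_sign {X : Bool} (h : ∀ c, D.sign c = X) : D.Adequate X := by
  intro c
  have h6 : sw (fun _ => X) {c} = Function.update (fun _ => X) c (!X) := by
    funext d
    simp only [sw, Finset.mem_singleton, Function.update_apply]
  rw [← h6, comps_eq, comps_eq]
  refine Nat.add_le_add_left ?_ 1
  apply Submodule.finrank_mono
  intro y hy
  rw [LinearMap.mem_ker, Matrix.mulVecLin_apply] at hy ⊢
  -- the new matrix
  have hnew : ∀ e f, D.gmat (sw (fun _ => X) {c}) e f =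
      D.gmat (fun _ => X) e f + (if e = c ∧ f = c then 1 else 0) := by
    intro e f
    by_cases hef : e = f
    · subst hef
      rw [gmat_self, gmat_self, h e]
      by_cases hec : e = c
      · subst hec
        simp only [sw, Finset.mem_singleton, if_true, and_self]
        cases X <;> simp
      · simp only [sw, Finset.mem_singleton, hec, if_false, false_and, add_zero]
    · rw [gmat_of_ne _ _ hef, gmat_of_ne _ _ hef, if_neg, add_zero]
      rintro ⟨rfl, rfl⟩
      exact hef rfl
  have h1 : ∀ e, (D.gmat (fun _ => X)).mulVec y e = if e = c then y c else 0 := by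
    intro e
    have h2 := congrFun hy e
    rw [Pi.zero_apply] at h2
    have h3 : (D.gmat (sw (fun _ => X) {c})).mulVec y e =
        (D.gmat (fun _ => X)).mulVec y e + (if e = c then y c else 0) := by
      unfold Matrix.mulVec dotProduct
      simp only [hnew, add_mul, Finset.sum_add_distrib]
      congr 1
      by_cases hec : e = c
      · simp [hec]
      · simp [hec]
    rw [h3, ← CharTwo.sub_eq_add, sub_eq_zero] at h2
    exact h2
  -- the matrix is alternating
  have halt : ∑ e, ∑ f, y e * (D.gmat (fun _ => X) e f * y f) = 0 := by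
    rw [← Finset.sum_product']
    refine Finset.sum_involution (fun p _ => (p.2, p.1)) ?_ ?_ (fun _ _ => Finset.mem_product.2
      ⟨Finset.mem_univ _, Finset.mem_univ _⟩) (fun _ _ => rfl)
    · rintro ⟨e, f⟩ -
      simp only
      rw [D.gmat_symm _ f e]
      have : ∀ a b m : ZMod 2, a * (m * b) + b * (m * a) = 0 := by decide
      exact this _ _ _
    · rintro ⟨e, f⟩ - hne heq
      simp only [Prod.mk.injEq] at heq
      apply hne
      rw [heq.1, gmat_self, if_pos (h e).symm]
      simp
  have h4 : y c = 0 := by
    have h5 : ∑ e, ∑ f, y e * (D.gmat (fun _ => X) e f * y f) = y c * y c := by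
      have h7 : ∀ e, ∑ f, y e * (D.gmat (fun _ => X) e f * y f) =
          y e * (if e = c then y c else 0) := by
        intro e
        rw [← Finset.mul_sum, ← h1 e]
        rfl
      rw [Finset.sum_congr rfl fun e _ => h7 e]
      simp
    rw [h5] at halt
    rcases mul_eq_zero.1 halt with h8 | h8 <;> exact h8
  funext e
  rw [h1, h4]
  simp

/-- **Main theorem.** -/
theorem main (hD : D.Planar) (X : Bool) (hX : D.Adequate X)
    (hf : D.normalizedBracket = 1) : R1Trivial D.word := by
  classical
  set sX : Fin n → Bool := fun _ => X with hsX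
  obtain ⟨T, hT, hT1⟩ := D.exists_tree sX
  obtain ⟨W⟩ := D.exists_chain hT1
  have hnc := W.noncrossing hD
  set M := W.slit.mat with hM
  have hc : ∀ S, D.comps (sw sX S) + rk M (T ∆ S) = 1 + (T ∆ S).card := by
    intro S
    have h1 := W.comps_sw (T ∆ S)
    rw [sw_sw, symmDiff_symmDiff_cancel_left] at h1
    exact h1
  have hTcard : D.comps sX + rk M T = 1 + T.card := by
    have h1 := hc ∅
    have h2 : T ∆ (∅ : Finset (Fin n)) = T := by ext x; simp [Finset.mem_symmDiff]
    rw [h2, sw_empty] at h1
    exact h1
  have hrkT : rk M T = 0 := by omega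
  have htree : ∀ s ∈ T, ∀ t ∈ T, M s t = 0 := by
    intro s hs t ht
    by_contra h
    have := one_le_rk (M := M) hs ht h
    omega
  have hadeq : ∀ e ∉ T, M e e = 1 ∨ ∃ t ∈ T, M t e = 1 := by
    intro e he
    by_contra h
    push Not at h
    have h1 : M e e = 0 := zmod2_ne_one.1 h.1
    have h2 : ∀ t ∈ T, M t e = 0 := fun t ht => zmod2_ne_one.1 (h.2 t ht)
    have h3 := hc {e}
    have h4 : T ∆ {e} = insert e T := by
      ext x
      simp only [Finset.mem_symmDiff, Finset.mem_singleton, Finset.mem_insert]
      constructor
      · rintro (⟨h, -⟩ | ⟨h, -⟩)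
        · exact Or.inr h
        · exact Or.inl h
      · rintro (h | h)
        · exact Or.inr ⟨h, fun h' => he (h ▸ h')⟩
        · exact Or.inl ⟨h, fun h' => he (h' ▸ h)⟩
    have h5 : rk M (insert e T) = 0 := by
      apply rk_eq_zero_of
      intro a ha b hb
      rw [Finset.mem_insert] at ha hb
      rcases ha with rfl | ha <;> rcases hb with rfl | hb
      · exact h1
      · rw [hM, W.slit.mat_symm]; exact h2 b hb
      · exact h2 a ha
      · exact htree a ha b hb
    rw [h4, h5, Finset.card_insert_of_notMem he] at h3
    have h6 : sw sX {e} = Function.update sX e (!X) := by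
      funext c
      simp only [sw, Finset.mem_singleton, Function.update_apply, hsX]
    rw [h6] at h3
    have h7 : D.comps (Function.update sX e (!X)) ≤ D.comps sX := hX e
    omega
  -- the state sum is a monomial
  obtain ⟨ε, hε⟩ := D.bracket_of_f hf
  set c : Finset (Fin n) → ℕ := fun S => D.comps (sw sX S) with hcdef
  set E : ℤ := (if X then 1 else -1) * (3 * D.writhe) with hE
  have hmono : ∀ j, (stateSum c).coeff j = if j = E then ε else 0 := by
    intro j
    rcases hXc : X
    · have h1 : stateSum c = invert D.bracket := by
        rw [D.bracket_false]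
        have : (fun _ : Fin n => false) = sX := by rw [hsX, hXc]
        rw [this]
        exact (involutive_invert _).symm
      rw [h1, invert_apply, hε, hE, hXc]
      refine if_congr ?_ rfl rfl
      simp only [Bool.false_eq_true, if_false]
      constructor <;> intro h <;> linarith
    · have h1 : stateSum c = D.bracket := by
        rw [D.bracket_true]
        have : (fun _ : Fin n => true) = sX := by rw [hsX, hXc]
        rw [this]
      rw [h1, hε, hE, hXc]
      simp
  obtain ⟨hE1, hpar⟩ := hnc.monomial htree hadeq c hc E ε hmono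
  -- all chords are one-sided
  have hself : ∀ e, M e e = 0 := fun e => by
    by_cases he : e ∈ T
    · exact htree e he e he
    · exact (hpar e he).1
  have hsame : ∀ e, W.slit.sl e = W.slit.sr e := fun e => W.slit.mat_self_eq_zero.1 (hself e)
  -- all crossings have the same sign
  have hor := Slit.orient (C := W.slit) htree hpar W.dir (W.dir_castSucc hsame)
    (W.dir_succ hsame) (W.connected hsame)
  have hsign : ∀ e, D.sign e = X := by
    intro e
    have h1 := hor e
    have h2 := W.dir_change e
    have h3 : (W.slit.l e) = W.l e := rfl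
    rw [h3, h2] at h1
    have h4 := add_left_cancel h1
    have h5 : sw sX T e = if e ∈ T then !X else X := rfl
    rw [h5] at h4
    by_cases he : e ∈ T
    · rw [if_pos he, if_pos he] at h4
      by_contra h6
      have h7 : (!X) = D.sign e := by
        revert h6
        cases D.sign e <;> cases X <;> simp
      rw [if_pos h7] at h4
      simp at h4
    · rw [if_neg he, if_neg he] at h4
      by_contra h6
      rw [if_neg (Ne.symm h6)] at h4
      simp at h4
  -- hence the tree consists of all crossings
  have hw : E = 3 * n := by
    have h1 : D.writhe = ∑ _c : Fin n, (if X then (1 : ℤ) else -1) := by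
      unfold writhe
      refine Finset.sum_congr rfl fun e _ => ?_
      rw [hsign e]
    rw [hE, h1]
    cases X <;> simp <;> ring
  have hcard : T.card = n := by
    rw [hw, Fintype.card_fin] at hE1
    omega
  have hrank : (D.gmat sX).rank = 0 := by
    have h1 := D.comps_add_rank sX
    omega
  have hzero : D.gmat sX = 0 := by
    have h7 : LinearMap.range (D.gmat sX).mulVecLin = ⊥ := Submodule.finrank_eq_zero.1 hrank
    rw [LinearMap.range_eq_bot] at h7
    ext e f
    have h8 := congrArg (fun g => g (Pi.single f 1) e) h7
    simpa using h8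
  refine D.r1_of_gmat sX fun e f _ => ?_
  rw [hzero]
  rfl

end GaussDiagram

end Pool.Agent.Helper16.Knotoid
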