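import Pool.Agent.Helper16.Knotoid.Half

set_option autoImplicit false

/-!
# From a planar Gauss diagram and a state with one component to chords in the slit disc
-/

namespace Pool.Agent.Helper16.Knotoid

open Module

namespace GaussDiagram

variable {n : ℕ} (D : GaussDiagram n)

/-- The walk along the interval of a state with one component, with the chords of the crossings:
the walk leaves the crossing `c` through the half-edges `(c, il c)` and `(c, ir c)`, after the
junctions `l c < r c`. -/
structure Chain (s : Fin n → Bool) where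
  w : ℕ → Half n
  w_zero : w 0 = Sum.inr false
  w_succ : ∀ j, w (j + 1) = bet s (D.alp (w j))
  inj : ∀ i < 2 * n + 1, ∀ j < 2 * n + 1, w i = w j → i = j
  disj : ∀ i j, w i ≠ D.alp (w j)
  cover : ∀ x, ∃ j < 2 * n + 1, x = w j ∨ x = D.alp (w j)
  period : w (2 * n + 1) = Sum.inr false
  l : Fin n → Fin (2 * n)
  r : Fin n → Fin (2 * n)
  il : Fin n → ZMod 4
  ir : Fin n → ZMod 4
  lt : ∀ c, (l c : ℕ) < r c
  wl : ∀ c, w (l c + 1) = Sum.inl (c, il c)
  wr : ∀ c, w (r c + 1) = Sum.inl (c, ir c)
  arcs : ∀ c, ir c = il c + 2 ∨ ir c = kap (s c) - il c + 2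

theorem exists_chain {s : Fin n → Bool} (hs : D.comps s = 1) : Nonempty (Chain D s) := by
  classical
  -- the walk
  have hconn : ∀ S : Set (Half n), (Sum.inr false : Half n) ∈ S → (∀ x ∈ S, D.alp x ∈ S) →
      (∀ x ∈ S, bet s x ∈ S) → ∀ x, x ∈ S := by
    intro S h0 hα hβ
    have hedge : ∀ x y : Half n, D.edge x = D.edge y → (x ∈ S ↔ y ∈ S) := by
      intro x y hxy
      rcases D.eq_or_eq_alp hxy with rfl | rfl
      · rfl
      · exact ⟨fun h => by simpa [D.alp_alp y] using hα _ h, fun h => hα _ h⟩
    set φ : Fin (2 * n + 1) → ZMod 2 := fun k => if D.E.symm (k, false) ∈ S then 1 else 0 with hφ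
    have hφe : ∀ x : Half n, φ (D.edge x) = if x ∈ S then 1 else 0 := by
      intro x
      have h1 : D.edge (D.E.symm (D.edge x, false)) = D.edge x := by
        unfold edge
        rw [Equiv.apply_symm_apply]
      simp only [hφ]
      rw [if_congr (hedge _ _ h1) rfl rfl]
    have hφc : φ ∈ compat (D.Join s) := by
      rw [mem_compat_join]
      intro c i
      rw [hφe, hφe]
      refine if_congr ⟨fun h => hβ _ h, fun h => ?_⟩ rfl rfl
      have := hβ _ h
      simpa [bet] using this
    have hsub : Subsingleton (Quot (D.Join s)) := by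
      have h1 : Nat.card (Quot (D.Join s)) = 1 := hs
      exact (Nat.card_eq_one_iff_unique.1 h1).1
    have hconst : ∀ a b, φ a = φ b := by
      intro a b
      have h1 : Quot.mk (D.Join s) a = Quot.mk (D.Join s) b := Subsingleton.elim _ _
      exact congrArg (Quot.lift φ hφc) h1
    intro x
    have h1 := hconst (D.edge x) (D.edge (Sum.inr false))
    rw [hφe, hφe, if_pos h0] at h1
    by_contra h2
    rw [if_neg h2] at h1
    simp at h1
  obtain ⟨w, hw0, hws, hinj, hdis, hcov, hper⟩ := exists_walk D.alp (bet s) D.alp_alp (bet_bet s)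
    D.alp_ne (bet_ne s) (Sum.inr false) hconn card_half
  -- the junctions of a crossing
  have hex : ∀ (c : Fin n) (i : ZMod 4), ∃ j : Fin (2 * n), ∃ i' : ZMod 4,
      (i' = i ∨ i' = kap (s c) - i) ∧ w (j + 1) = Sum.inl (c, i') := by
    intro c i
    obtain ⟨j, hj, h | h⟩ := hcov (Sum.inl (c, i))
    · rcases Nat.eq_zero_or_pos j with h0 | h0
      · rw [h0, hw0] at h
        simp at h
      · refine ⟨⟨j - 1, by omega⟩, i, Or.inl rfl, ?_⟩
        rw [h]
        congr 1
        simp only
        omega
    · have h1 : w (j + 1) = Sum.inl (c, kap (s c) - i) := by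
        rw [hws, ← h]
        rfl
      have h2 : j ≠ 2 * n := by
        intro h3
        rw [h3, hper] at h1
        simp at h1
      exact ⟨⟨j, by omega⟩, kap (s c) - i, Or.inr rfl, h1⟩
  have hex2 : ∀ c : Fin n, ∃ l r : Fin (2 * n), ∃ il ir : ZMod 4, (l : ℕ) < r ∧
      w (l + 1) = Sum.inl (c, il) ∧ w (r + 1) = Sum.inl (c, ir) ∧
      (ir = il + 2 ∨ ir = kap (s c) - il + 2) := by
    intro c
    obtain ⟨p, ip, hip, hp⟩ := hex c 0
    obtain ⟨q, iq, hiq, hq⟩ := hex c 2
    have harc1 : ∀ (b : Bool) (i j : ZMod 4), (i = 0 ∨ i = kap b - 0) → (j = 2 ∨ j = kap b - 2) →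
        (j = i + 2 ∨ j = kap b - i + 2) := by decide
    have harc2 : ∀ (b : Bool) (i j : ZMod 4), (i = 0 ∨ i = kap b - 0) → (j = 2 ∨ j = kap b - 2) →
        (i = j + 2 ∨ i = kap b - j + 2) := by decide
    have harc3 : ∀ (b : Bool) (i j : ZMod 4), (i = 0 ∨ i = kap b - 0) → (j = 2 ∨ j = kap b - 2) →
        i ≠ j := by decide
    rcases Nat.lt_trichotomy p q with h | h | h
    · exact ⟨p, q, ip, iq, h, hp, hq, harc1 _ _ _ hip hiq⟩
    · rw [h, hq] at hp
      simp only [Sum.inl.injEq, Prod.mk.injEq, true_and] at hp
      exact absurd hp.symm (harc3 _ _ _ hip hiq)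
    · exact ⟨q, p, iq, ip, h, hq, hp, harc2 _ _ _ hip hiq⟩
  choose l r il ir hlt hwl hwr harc using hex2
  exact ⟨⟨w, hw0, hws, hinj, hdis, hcov, hper, l, r, il, ir, hlt, hwl, hwr, harc⟩⟩

namespace Chain

variable {D} {s : Fin n → Bool} (W : Chain D s)

theorem alp_w (j : ℕ) : D.alp (W.w j) = bet s (W.w (j + 1)) := by
  rw [W.w_succ, bet_bet]

theorem alp_wl (c : Fin n) : D.alp (W.w (W.l c)) = Sum.inl (c, kap (s c) - W.il c) := by
  rw [W.alp_w, W.wl]
  rfl

theorem alp_wr (c : Fin n) : D.alp (W.w (W.r c)) = Sum.inl (c, kap (s c) - W.ir c) := by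
  rw [W.alp_w, W.wr]
  rfl

theorem il_ne_ir (c : Fin n) : W.il c ≠ W.ir c := by
  intro h
  have h1 : W.w (W.l c + 1) = W.w (W.r c + 1) := by rw [W.wl, W.wr, h]
  have h2 := W.inj _ (by omega) _ (by omega) h1
  have h3 := W.lt c
  omega

theorem lr_inj : Function.Injective (Sum.elim W.l W.r) := by
  have h1 : ∀ (i j : Fin (2 * n)) (c c' : Fin n) (a a' : ZMod 4), i = j →
      W.w (i + 1) = Sum.inl (c, a) → W.w (j + 1) = Sum.inl (c', a') → c = c' ∧ a = a' := by
    rintro i j c c' a a' rfl h1 h2
    rw [h1] at h2
    simpa using h2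
  rintro (c | c) (c' | c') h
  · rw [(h1 _ _ _ _ _ _ h (W.wl c) (W.wl c')).1]
  · obtain ⟨rfl, h3⟩ := h1 _ _ _ _ _ _ h (W.wl c) (W.wr c')
    exact absurd h3 (W.il_ne_ir c)
  · obtain ⟨rfl, h3⟩ := h1 _ _ _ _ _ _ h (W.wr c) (W.wl c')
    exact absurd h3.symm (W.il_ne_ir c)
  · rw [(h1 _ _ _ _ _ _ h (W.wr c) (W.wr c')).1]

theorem four (c : Fin n) (i : ZMod 4) : i = W.il c ∨ i = kap (s c) - W.il c ∨ i = W.ir c ∨
    i = kap (s c) - W.ir c := by
  have key : ∀ (b : Bool) (x y i : ZMod 4), (y = x + 2 ∨ y = kap b - x + 2) →
      i = x ∨ i = kap b - x ∨ i = y ∨ i = kap b - y := by decide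
  exact key _ _ _ _ (W.arcs c)

/-- every junction is an end of a chord -/
theorem junction (j : ℕ) (hj : j < 2 * n) : ∃ c, j = W.l c ∨ j = W.r c := by
  have h0 : W.w (j + 1) ≠ Sum.inr false := by
    intro h
    have := W.inj (j + 1) (by omega) 0 (by omega) (by rw [h, W.w_zero])
    omega
  have h1 : W.w (j + 1) ≠ Sum.inr true := by
    intro h
    apply W.disj (j + 1) (2 * n)
    rw [h, W.alp_w, W.period]
    rfl
  rcases h2 : W.w (j + 1) with ⟨c, i⟩ | b
  · refine ⟨c, ?_⟩
    rcases W.four c i with h | h | h | h
    · left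
      have := W.inj (j + 1) (by omega) (W.l c + 1) (by omega) (by rw [h2, W.wl, h])
      omega
    · exfalso
      apply W.disj (j + 1) (W.l c)
      rw [h2, W.alp_wl, h]
    · right
      have := W.inj (j + 1) (by omega) (W.r c + 1) (by omega) (by rw [h2, W.wr, h])
      omega
    · exfalso
      apply W.disj (j + 1) (W.r c)
      rw [h2, W.alp_wr, h]
  · exfalso
    cases b
    · exact h0 h2
    · exact h1 h2

/-- the chords in the slit disc -/
def slit : Slit (Fin n) (2 * n) where
  l := W.l
  r := W.r
  sl := fun c => decide (2 * W.il c = kap (s c) + 1)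
  sr := fun c => decide (2 * W.ir c = kap (s c) + 1)
  lt := W.lt
  inj := W.lr_inj

/-- the two sides are the same if and only if the leaving half-edges are opposite -/
theorem sides (c : Fin n) : (W.slit.sl c = W.slit.sr c) ↔ W.ir c = W.il c + 2 := by
  have key : ∀ (b : Bool) (x y : ZMod 4), (y = x + 2 ∨ y = kap b - x + 2) →
      (decide (2 * x = kap b + 1) = decide (2 * y = kap b + 1) ↔ y = x + 2) := by decide
  exact key _ _ _ (W.arcs c)

/-- the reindexing of the edges along the walk -/
theorem edge_bij : Function.Bijective (fun j : Fin (2 * n + 1) => D.edge (W.w j)) := by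
  rw [Fintype.bijective_iff_injective_and_card]
  refine ⟨fun i j h => ?_, rfl⟩
  rcases D.eq_or_eq_alp h with h1 | h1
  · exact Fin.ext (W.inj _ i.2 _ j.2 h1)
  · exact absurd h1 (W.disj _ _)

/-- the reindexing of the edges along the walk -/
noncomputable def reidx : Fin (2 * n + 1) ≃ Fin (2 * n + 1) := Equiv.ofBijective _ W.edge_bij

theorem reidx_apply (j : Fin (2 * n + 1)) : W.reidx j = D.edge (W.w j) := rfl

theorem reidx_l_castSucc (c : Fin n) :
    W.reidx (W.l c).castSucc = D.edge (Sum.inl (c, kap (s c) - W.il c)) := by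
  rw [reidx_apply, ← W.alp_wl, edge_alp]
  rfl

theorem reidx_l_succ (c : Fin n) : W.reidx (W.l c).succ = D.edge (Sum.inl (c, W.il c)) := by
  rw [reidx_apply, ← W.wl]
  rfl

theorem reidx_r_castSucc (c : Fin n) :
    W.reidx (W.r c).castSucc = D.edge (Sum.inl (c, kap (s c) - W.ir c)) := by
  rw [reidx_apply, ← W.alp_wr, edge_alp]
  rfl

theorem reidx_r_succ (c : Fin n) : W.reidx (W.r c).succ = D.edge (Sum.inl (c, W.ir c)) := by
  rw [reidx_apply, ← W.wr]
  rfl

/-- the chords of a set of crossings -/
def cond (U : Finset (Fin n)) : Submodule (ZMod 2) (Fin (2 * n + 1) → ZMod 2) :=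
  arcCond (fun c : {c // c ∈ U} => W.l c.1) (fun c : {c // c ∈ U} => W.r c.1)
    (fun c : {c // c ∈ U} => W.slit.sl c.1 != W.slit.sr c.1)

theorem mem_cond_iff {U : Finset (Fin n)} {ψ : Fin (2 * n + 1) → ZMod 2} : ψ ∈ W.cond U ↔
    (∀ c ∉ U, ψ (W.l c).castSucc = ψ (W.l c).succ ∧ ψ (W.r c).castSucc = ψ (W.r c).succ) ∧
    (∀ c ∈ U, if W.slit.sl c = W.slit.sr c
      then ψ (W.l c).castSucc = ψ (W.r c).succ ∧ ψ (W.l c).succ = ψ (W.r c).castSucc
      else ψ (W.l c).castSucc = ψ (W.r c).castSucc ∧ ψ (W.l c).succ = ψ (W.r c).succ) := by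
  constructor
  · rintro ⟨h1, h2⟩
    refine ⟨fun c hc => ⟨?_, ?_⟩, fun c hc => ?_⟩
    · refine h1 (W.l c) (fun e he => ?_) (fun e he => ?_)
      · have := W.lr_inj (a₁ := Sum.inl e.1) (a₂ := Sum.inl c) he
        simp only [Sum.inl.injEq] at this
        exact hc (this ▸ e.2)
      · have := W.lr_inj (a₁ := Sum.inr e.1) (a₂ := Sum.inl c) he
        simp at this
    · refine h1 (W.r c) (fun e he => ?_) (fun e he => ?_)
      · have := W.lr_inj (a₁ := Sum.inl e.1) (a₂ := Sum.inr c) he
        simp at this
      · have := W.lr_inj (a₁ := Sum.inr e.1) (a₂ := Sum.inr c) he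
        simp only [Sum.inr.injEq] at this
        exact hc (this ▸ e.2)
    · have h3 := h2 ⟨c, hc⟩
      simp only at h3
      by_cases h4 : W.slit.sl c = W.slit.sr c
      · have h5 : ¬ ((W.slit.sl c != W.slit.sr c) = true) := by simp [h4]
        rw [if_neg h5] at h3
        rw [if_pos h4]
        exact h3
      · have h5 : (W.slit.sl c != W.slit.sr c) = true := by simp [h4]
        rw [if_pos h5] at h3
        rw [if_neg h4]
        exact h3
  · rintro ⟨h1, h2⟩
    refine ⟨fun j hP hQ => ?_, fun c => ?_⟩
    · obtain ⟨c, hc⟩ := W.junction j j.2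
      have hcU : c ∉ U := by
        intro hcU
        rcases hc with hc | hc
        · exact hP ⟨c, hcU⟩ (Fin.ext hc.symm)
        · exact hQ ⟨c, hcU⟩ (Fin.ext hc.symm)
      rcases hc with hc | hc
      · have : j = W.l c := Fin.ext hc
        rw [this]
        exact (h1 c hcU).1
      · have : j = W.r c := Fin.ext hc
        rw [this]
        exact (h1 c hcU).2
    · have h3 := h2 c.1 c.2
      by_cases h4 : W.slit.sl c.1 = W.slit.sr c.1
      · have h5 : ¬ ((W.slit.sl c.1 != W.slit.sr c.1) = true) := by simp [h4]
        simp only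
        rw [if_neg h5]
        rw [if_pos h4] at h3
        exact h3
      · have h5 : (W.slit.sl c.1 != W.slit.sr c.1) = true := by simp [h4]
        simp only
        rw [if_pos h5]
        rw [if_neg h4] at h3
        exact h3

theorem kap_not : ∀ b : Bool, kap (!b) = kap b + 2 := by decide

/-- compatibility with the state obtained by switching `U` is the condition of the chords of
`U` -/
theorem mem_compat_iff (U : Finset (Fin n)) (φ : Fin (2 * n + 1) → ZMod 2) :
    φ ∈ compat (D.Join (sw s U)) ↔ (fun j => φ (W.reidx j)) ∈ W.cond U := by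
  rw [mem_compat_join, mem_cond_iff]
  simp only [reidx_l_castSucc, reidx_l_succ, reidx_r_castSucc, reidx_r_succ]
  constructor
  · intro h
    refine ⟨fun c hc => ⟨?_, ?_⟩, fun c hc => ?_⟩
    · have := h c (W.il c)
      simp only [sw, hc, if_false] at this
      exact this.symm
    · have := h c (W.ir c)
      simp only [sw, hc, if_false] at this
      exact this.symm
    · have h1 := h c (W.il c)
      have h2 := h c (kap (s c) - W.il c)
      simp only [sw, hc, if_true, kap_not] at h1 h2
      by_cases h4 : W.slit.sl c = W.slit.sr c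
      · rw [if_pos h4]
        rw [W.sides] at h4
        have e1 : kap (s c) + 2 - W.il c = kap (s c) - W.ir c := by
          rw [h4]
          generalize kap (s c) = a
          generalize W.il c = b
          revert a b
          decide
        have e2 : kap (s c) + 2 - (kap (s c) - W.il c) = W.ir c := by
          rw [h4]
          ring
        rw [e1] at h1
        rw [e2] at h2
        exact ⟨h2, h1⟩
      · rw [if_neg h4]
        rw [W.sides] at h4
        have h5 := (W.arcs c).resolve_left h4
        have e1 : kap (s c) + 2 - W.il c = W.ir c := by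
          rw [h5]
          ring
        have e2 : kap (s c) + 2 - (kap (s c) - W.il c) = kap (s c) - W.ir c := by
          rw [h5]
          generalize kap (s c) = a
          generalize W.il c = b
          revert a b
          decide
        rw [e1] at h1
        rw [e2] at h2
        exact ⟨h2, h1⟩
  · rintro ⟨h1, h2⟩ c i
    by_cases hc : c ∈ U
    · have h3 := h2 c hc
      simp only [sw, hc, if_true, kap_not]
      by_cases h4 : W.slit.sl c = W.slit.sr c
      · rw [if_pos h4] at h3
        rw [W.sides] at h4
        have hi := W.four c i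
        rw [h4] at h3 hi
        rcases hi with rfl | rfl | rfl | rfl
        · have e1 : kap (s c) + 2 - W.il c = kap (s c) - (W.il c + 2) := by
            generalize kap (s c) = a
            generalize W.il c = b
            revert a b
            decide
          rw [e1]
          exact h3.2
        · have e1 : kap (s c) + 2 - (kap (s c) - W.il c) = W.il c + 2 := by ring
          rw [e1]
          exact h3.1
        · have e1 : kap (s c) + 2 - (W.il c + 2) = kap (s c) - W.il c := by ring
          rw [e1]
          exact h3.1.symm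
        · have e1 : kap (s c) + 2 - (kap (s c) - (W.il c + 2)) = W.il c := by
            generalize kap (s c) = a
            generalize W.il c = b
            revert a b
            decide
          rw [e1]
          exact h3.2.symm
      · rw [if_neg h4] at h3
        rw [W.sides] at h4
        have h5 := (W.arcs c).resolve_left h4
        have hi := W.four c i
        rw [h5] at h3 hi
        rcases hi with rfl | rfl | rfl | rfl
        · have e1 : kap (s c) + 2 - W.il c = kap (s c) - W.il c + 2 := by ring
          rw [e1]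
          exact h3.2
        · have e1 : kap (s c) + 2 - (kap (s c) - W.il c) =
              kap (s c) - (kap (s c) - W.il c + 2) := by
            generalize kap (s c) = a
            generalize W.il c = b
            revert a b
            decide
          rw [e1]
          exact h3.1
        · have e1 : kap (s c) + 2 - (kap (s c) - W.il c + 2) = W.il c := by ring
          rw [e1]
          exact h3.2.symm
        · have e1 : kap (s c) + 2 - (kap (s c) - (kap (s c) - W.il c + 2)) =
              kap (s c) - W.il c := by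
            generalize kap (s c) = a
            generalize W.il c = b
            revert a b
            decide
          rw [e1]
          exact h3.1.symm
    · have h3 := h1 c hc
      simp only [sw, hc, if_false]
      rcases W.four c i with rfl | rfl | rfl | rfl
      · exact h3.1.symm
      · rw [sub_sub_cancel]
        exact h3.1
      · exact h3.2.symm
      · rw [sub_sub_cancel]
        exact h3.2

/-- the number of components in terms of the matrix of the chords -/
theorem comps_sw (U : Finset (Fin n)) :
    D.comps (sw s U) + rk W.slit.mat U = 1 + U.card := by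
  have h1 : finrank (ZMod 2) (compat (D.Join (sw s U))) = finrank (ZMod 2) (W.cond U) := by
    have h2 : (compat (D.Join (sw s U))).map
        (LinearEquiv.funCongrLeft (ZMod 2) (ZMod 2) W.reidx : _ →ₗ[ZMod 2] _) = W.cond U := by
      ext ψ
      rw [Submodule.mem_map]
      constructor
      · rintro ⟨φ, hφ, rfl⟩
        exact (W.mem_compat_iff U φ).1 hφ
      · intro hψ
        refine ⟨fun k => ψ (W.reidx.symm k), ?_, ?_⟩
        · rw [W.mem_compat_iff]
          simpa using hψ
        · funext j
          simp [LinearEquiv.funCongrLeft]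
    rw [← h2]
    exact (LinearEquiv.finrank_map_eq _ _).symm
  rw [comps_eq_finrank, h1]
  have hinj : Function.Injective (Sum.elim (fun c : {c // c ∈ U} => W.l c.1)
      (fun c : {c // c ∈ U} => W.r c.1)) := by
    rintro (c | c) (c' | c') h
    · have := W.lr_inj (a₁ := Sum.inl c.1) (a₂ := Sum.inl c'.1) h
      simp only [Sum.inl.injEq] at this
      rw [Subtype.ext this]
    · have := W.lr_inj (a₁ := Sum.inl c.1) (a₂ := Sum.inr c'.1) h
      simp at this
    · have := W.lr_inj (a₁ := Sum.inr c.1) (a₂ := Sum.inl c'.1) h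
      simp at this
    · have := W.lr_inj (a₁ := Sum.inr c.1) (a₂ := Sum.inr c'.1) h
      simp only [Sum.inr.injEq] at this
      rw [Subtype.ext this]
  have h3 := finrank_arcCond_add_rank hinj
    (fun c : {c // c ∈ U} => W.slit.sl c.1 != W.slit.sr c.1)
  have h4 : Fintype.card {c // c ∈ U} = U.card := by simp
  rw [h4] at h3
  exact h3

end Chain

end GaussDiagram

end Pool.Agent.Helper16.Knotoid
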