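import Pool.Agent.Helper16.Knotoid.Dual

set_option autoImplicit false

/-!
# Number of kernel vectors of a symmetric matrix whose off-diagonal part has rank at most two
-/

namespace Pool.Agent.Helper16.Knotoid

/-- vectors of length two over `ZMod 2` -/
abbrev V2 := ZMod 2 × ZMod 2

/-- the determinant -/
def wdg (a b : V2) : ZMod 2 := a.1 * b.2 + a.2 * b.1

theorem wdg_add (a b c : V2) : wdg a (b + c) = wdg a b + wdg a c := by
  unfold wdg
  simp only [Prod.fst_add, Prod.snd_add]
  ring

theorem sum_sg_wdg : ∀ y : V2, ∑ τ : V2, sg (wdg τ y) = if y = 0 then 4 else 0 := by decide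

section Count

variable {ι : Type*} [Fintype ι] [DecidableEq ι]

/-- the weighted sum of the vectors -/
def vsum (v : ι → V2) (x : ι → ZMod 2) : V2 := (∑ f, x f * (v f).1, ∑ f, x f * (v f).2)

omit [DecidableEq ι] in
theorem Lv_eq_wdg (v : ι → V2) {M : ι → ι → ZMod 2} (hM : ∀ c f, M c f = wdg (v c) (v f))
    (x : ι → ZMod 2) (c : ι) : Lv M x c = wdg (v c) (vsum v x) := by
  unfold Lv vsum
  simp only [hM, wdg]
  rw [Finset.mul_sum, Finset.mul_sum, ← Finset.sum_add_distrib]
  refine Finset.sum_congr rfl fun f _ => ?_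
  ring

omit [DecidableEq ι] in
theorem wdg_vsum (v : ι → V2) (x : ι → ZMod 2) (τ : V2) :
    wdg τ (vsum v x) = ∑ f, x f * wdg τ (v f) := by
  unfold vsum wdg
  simp only
  rw [Finset.mul_sum, Finset.mul_sum, ← Finset.sum_add_distrib]
  refine Finset.sum_congr rfl fun f _ => ?_
  ring

/-- the local factor of the double sum -/
def Gf (o : Bool) (w σ τ : V2) : ℤ :=
  if o then (if wdg w σ = 0 ∧ wdg w τ = 0 then 2 else 0) else sg (wdg w σ * wdg w τ)

theorem Gf_eq : ∀ (o : Bool) (w σ τ : V2), ∑ b : ZMod 2,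
    sg (b * wdg τ w) * (if wdg w σ + (if o then 0 else b) = 0 then (1 : ℤ) else 0) =
      Gf o w σ τ := by decide

theorem four_mul_count (v : ι → V2) {M : ι → ι → ZMod 2} (hM : ∀ c f, M c f = wdg (v c) (v f))
    (o : ι → Bool) :
    4 * ∑ x : ι → ZMod 2, ∏ c, (if Lv M x c + (if o c then 0 else x c) = 0 then (1 : ℤ) else 0) =
      ∑ σ : V2, ∑ τ : V2, sg (wdg τ σ) * ∏ c, Gf (o c) (v c) σ τ := by
  have h1 : ∀ x : ι → ZMod 2,
      4 * ∏ c, (if Lv M x c + (if o c then 0 else x c) = 0 then (1 : ℤ) else 0) =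
      ∑ σ : V2, ∑ τ : V2, sg (wdg τ σ) * ∏ c, (sg (x c * wdg τ (v c)) *
        (if wdg (v c) σ + (if o c then 0 else x c) = 0 then (1 : ℤ) else 0)) := by
    intro x
    have h2 : ∀ σ : V2, ∑ τ : V2, sg (wdg τ σ) * ∏ c, (sg (x c * wdg τ (v c)) *
        (if wdg (v c) σ + (if o c then 0 else x c) = 0 then (1 : ℤ) else 0)) =
        (if σ = vsum v x then 4 else 0) *
        ∏ c, (if wdg (v c) σ + (if o c then 0 else x c) = 0 then (1 : ℤ) else 0) := by
      intro σ
      have h3 : ∀ τ : V2, sg (wdg τ σ) * ∏ c, (sg (x c * wdg τ (v c)) *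
        (if wdg (v c) σ + (if o c then 0 else x c) = 0 then (1 : ℤ) else 0)) =
          sg (wdg τ (σ + vsum v x)) *
          ∏ c, (if wdg (v c) σ + (if o c then 0 else x c) = 0 then (1 : ℤ) else 0) := by
        intro τ
        rw [Finset.prod_mul_distrib, prod_sg, ← wdg_vsum, wdg_add, sg_add, mul_assoc]
      simp only [h3]
      rw [← Finset.sum_mul, sum_sg_wdg]
      congr 1
      refine if_congr ?_ rfl rfl
      have key : ∀ a b : V2, a + b = 0 ↔ a = b := by decide
      exact key _ _
    simp only [h2]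
    simp only [ite_mul, zero_mul, Finset.sum_ite_eq', Finset.mem_univ, if_true]
    congr 1
    refine Finset.prod_congr rfl fun c _ => ?_
    rw [Lv_eq_wdg v hM]
  rw [Finset.mul_sum]
  simp only [h1]
  rw [Finset.sum_comm]
  refine Finset.sum_congr rfl fun σ _ => ?_
  rw [Finset.sum_comm]
  refine Finset.sum_congr rfl fun τ _ => ?_
  rw [← Finset.mul_sum]
  congr 1
  have h3 := Finset.prod_univ_sum (fun _ : ι => (Finset.univ : Finset (ZMod 2)))
    (fun c b => sg (b * wdg τ (v c)) *
      (if wdg (v c) σ + (if o c then 0 else b) = 0 then (1 : ℤ) else 0))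
  rw [Fintype.piFinset_univ] at h3
  rw [← h3]
  refine Finset.prod_congr rfl fun c _ => ?_
  exact Gf_eq _ _ _ _

/-- the three nonzero vectors -/
def ev : Fin 3 → V2 := ![(1, 0), (0, 1), (1, 1)]

theorem ev_cases : ∀ w : V2, w = 0 ∨ w = ev 0 ∨ w = ev 1 ∨ w = ev 2 := by decide

/-- the class of chords -/
def cla (v : ι → V2) (i : Fin 3) : Finset ι := Finset.univ.filter fun c => v c = ev i

/-- whether all members of a class are unoriented -/
def allU (v : ι → V2) (o : ι → Bool) (i : Fin 3) : Bool := decide (∀ c ∈ cla v i, o c = false)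

theorem allU_iff {v : ι → V2} {o : ι → Bool} {i : Fin 3} :
    allU v o i = true ↔ ∀ c ∈ cla v i, o c = false := by
  unfold allU
  rw [decide_eq_true_iff]

/-- the reduced factor -/
def Gr (o : Bool) (w σ τ : V2) : ℤ :=
  if o then (if wdg w σ = 0 ∧ wdg w τ = 0 then 1 else 0) else sg (wdg w σ * wdg w τ)

omit [DecidableEq ι] in
theorem prod_Gf (v : ι → V2) (o : ι → Bool) (σ τ : V2) :
    ∏ c, Gf (o c) (v c) σ τ =
      2 ^ (Finset.univ.filter fun c => o c = true).card * ∏ c, Gr (o c) (v c) σ τ := by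
  have h : ∀ c, Gf (o c) (v c) σ τ = (if o c = true then 2 else 1) * Gr (o c) (v c) σ τ := by
    intro c
    unfold Gf Gr
    cases o c
    · simp
    · simp only [if_true]
      split_ifs <;> simp
  simp only [h]
  rw [Finset.prod_mul_distrib, Finset.prod_ite, Finset.prod_const, Finset.prod_const_one, mul_one]

/-- the product over a class -/
def Gc (z par : Bool) (e σ τ : V2) : ℤ :=
  if z then (if par then sg (wdg e σ * wdg e τ) else 1)
  else (if wdg e σ = 0 ∧ wdg e τ = 0 then 1 else 0)

theorem sg_pow (a : ZMod 2) (k : ℕ) : sg a ^ k = if decide (Odd k) then sg a else 1 := by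
  have h : sg a = 1 ∨ sg a = -1 := by
    unfold sg
    split_ifs
    · exact Or.inl rfl
    · exact Or.inr rfl
  by_cases hk : Odd k
  · rw [decide_eq_true hk]
    rcases h with h | h
    · simp [h]
    · rw [h, hk.neg_one_pow]
      rfl
  · rw [decide_eq_false hk]
    rcases h with h | h
    · simp [h]
    · rw [h, (Nat.not_odd_iff_even.1 hk).neg_one_pow]
      rfl

theorem prod_cla (v : ι → V2) (o : ι → Bool) (σ τ : V2) (i : Fin 3) :
    ∏ c ∈ cla v i, Gr (o c) (v c) σ τ =
      Gc (allU v o i) (decide (Odd (cla v i).card)) (ev i) σ τ := by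
  have hv : ∀ c ∈ cla v i, v c = ev i := fun c hc => (Finset.mem_filter.1 hc).2
  by_cases hz : ∀ c ∈ cla v i, o c = false
  · have h1 : allU v o i = true := decide_eq_true hz
    rw [h1]
    have h2 : ∀ c ∈ cla v i, Gr (o c) (v c) σ τ = sg (wdg (ev i) σ * wdg (ev i) τ) := by
      intro c hc
      rw [hv c hc, hz c hc]
      rfl
    rw [Finset.prod_congr rfl h2, Finset.prod_const, sg_pow]
    rfl
  · have h1 : allU v o i = false := decide_eq_false hz
    rw [h1]
    push Not at hz
    obtain ⟨c, hc, hoc⟩ := hz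
    rw [ne_eq, Bool.not_eq_false] at hoc
    unfold Gc
    rw [if_neg (by simp)]
    by_cases h2 : wdg (ev i) σ = 0 ∧ wdg (ev i) τ = 0
    · rw [if_pos h2]
      refine Finset.prod_eq_one fun d hd => ?_
      rw [hv d hd]
      unfold Gr
      rw [if_pos h2, h2.1, zero_mul]
      cases o d <;> simp [sg]
    · rw [if_neg h2]
      refine Finset.prod_eq_zero hc ?_
      rw [hv c hc, hoc]
      unfold Gr
      rw [if_pos rfl, if_neg h2]

theorem prod_Gr (v : ι → V2) (o : ι → Bool) (σ τ : V2) :
    ∏ c, Gr (o c) (v c) σ τ =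
      ∏ i : Fin 3, Gc (allU v o i) (decide (Odd (cla v i).card)) (ev i) σ τ := by
  have h0 : ∏ c ∈ Finset.univ.filter (fun c => v c = 0), Gr (o c) (v c) σ τ = 1 := by
    refine Finset.prod_eq_one fun c hc => ?_
    rw [(Finset.mem_filter.1 hc).2]
    have key : ∀ (b : Bool) (σ τ : V2), Gr b 0 σ τ = 1 := by decide
    exact key _ _ _
  have hne : ∀ i, ev i ≠ 0 := by decide
  have hinj : Function.Injective ev := by decide
  -- split the product
  have h1 : (Finset.univ : Finset ι) =
      (Finset.univ.filter (fun c => v c = 0)) ∪ Finset.univ.biUnion (cla v) := by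
    ext c
    simp only [Finset.mem_univ, Finset.mem_union, Finset.mem_filter, true_and, Finset.mem_biUnion,
      cla, true_iff]
    rcases ev_cases (v c) with h | h | h | h
    · exact Or.inl h
    · exact Or.inr ⟨0, h⟩
    · exact Or.inr ⟨1, h⟩
    · exact Or.inr ⟨2, h⟩
  rw [h1, Finset.prod_union, h0, one_mul, Finset.prod_biUnion]
  · exact Finset.prod_congr rfl fun i _ => prod_cla v o σ τ i
  · intro i _ j _ hij
    rw [Function.onFun, Finset.disjoint_left]
    intro c hc hc'
    exact hij (hinj ((Finset.mem_filter.1 hc).2.symm.trans (Finset.mem_filter.1 hc').2))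
  · rw [Finset.disjoint_left]
    intro c hc hc'
    rw [Finset.mem_biUnion] at hc'
    obtain ⟨i, -, hi⟩ := hc'
    exact hne i ((Finset.mem_filter.1 hi).2.symm.trans (Finset.mem_filter.1 hc).2)

/-- the exponent of a pair of classes -/
def mpair (p q : Bool) : ℕ := if p = q then 2 else 1

/-- the exponent of all classes -/
def mtriple (p q r : Bool) : ℕ :=
  if p && q && r then 4 else if (p && q) || (p && r) || (q && r) then 3 else 2

/-- the exponent -/
def mex (z p : Fin 3 → Bool) : ℕ :=
  if z 0 && z 1 && z 2 then mtriple (p 0) (p 1) (p 2)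
  else if z 0 && z 1 then mpair (p 0) (p 1)
  else if z 0 && z 2 then mpair (p 0) (p 2)
  else if z 1 && z 2 then mpair (p 1) (p 2)
  else 0

theorem double_sum : ∀ a b c p q r : Bool, ∑ σ : V2, ∑ τ : V2, sg (wdg τ σ) *
    (Gc a p (ev 0) σ τ * Gc b q (ev 1) σ τ * Gc c r (ev 2) σ τ) =
    2 ^ mex ![a, b, c] ![p, q, r] := by decide

/-- the parity of the classes -/
def parv (v : ι → V2) (i : Fin 3) : Bool := decide (Odd (cla v i).card)

theorem count_eq (v : ι → V2) {M : ι → ι → ZMod 2} (hM : ∀ c f, M c f = wdg (v c) (v f))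
    (o : ι → Bool) :
    4 * ∑ x : ι → ZMod 2, ∏ c, (if Lv M x c + (if o c then 0 else x c) = 0 then (1 : ℤ) else 0) =
      2 ^ ((Finset.univ.filter fun c => o c = true).card + mex (allU v o) (parv v)) := by
  rw [four_mul_count v hM]
  simp only [prod_Gf, prod_Gr]
  have h1 : ∀ σ τ : V2, sg (wdg τ σ) * (2 ^ (Finset.univ.filter fun c => o c = true).card *
      ∏ i : Fin 3, Gc (allU v o i) (decide (Odd (cla v i).card)) (ev i) σ τ) =
      2 ^ (Finset.univ.filter fun c => o c = true).card * (sg (wdg τ σ) *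
        (Gc (allU v o 0) (parv v 0) (ev 0) σ τ * Gc (allU v o 1) (parv v 1) (ev 1) σ τ *
          Gc (allU v o 2) (parv v 2) (ev 2) σ τ)) := by
    intro σ τ
    rw [Fin.prod_univ_three]
    unfold parv
    ring
  simp only [h1]
  simp only [← Finset.mul_sum]
  rw [double_sum, pow_add]
  have e1 : ![allU v o 0, allU v o 1, allU v o 2] = allU v o := by
    funext i
    fin_cases i <;> rfl
  have e2 : ![parv v 0, parv v 1, parv v 2] = parv v := by
    funext i
    fin_cases i <;> rfl
  rw [e1, e2]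

end Count

end Pool.Agent.Helper16.Knotoid
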