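import Mathlib

set_option autoImplicit false

/-!
# Knotoid diagrams in `S²` as planar Gauss diagrams, and their normalized bracket polynomial

A knotoid diagram with `n` crossings is recorded by its signed Gauss diagram: the path from tail
to head goes `2n` times through a crossing (the passages `0, …, 2n-1`), each crossing having one
over-passage and one under-passage, and every crossing has a sign.  The passages cut the path into
`2n+1` edges `0, …, 2n`: passage `p` comes after edge `p` (`p.castSucc`) and before edge `p+1`
(`p.succ`).  The diagram so described lies in `S²` if and only if its faces, computed from the
rotation system at the crossings, number `n+1` (Euler's formula with `n+2` vertices and `2n+1`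
edges).
-/

namespace Pool.Agent.Helper16.Knotoid

open LaurentPolynomial

/-- The signed Gauss diagram of a knotoid diagram with `n` crossings. -/
structure GaussDiagram (n : ℕ) where
  /-- `pos (c, true)` / `pos (c, false)`: the passage (number `0, …, 2n-1` along the path from
  tail to head) at which the path runs over / under at crossing `c`. -/
  pos : Fin n × Bool ≃ Fin (2 * n)
  /-- `true` if the crossing is positive, `false` if it is negative -/
  sign : Fin n → Bool

namespace GaussDiagram

variable {n : ℕ} (D : GaussDiagram n)

/-- The passage at which the over-strand goes through crossing `c`. -/
def overPass (c : Fin n) : Fin (2 * n) := D.pos (c, true)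

/-- The passage at which the under-strand goes through crossing `c`. -/
def underPass (c : Fin n) : Fin (2 * n) := D.pos (c, false)

/-- `D.Join s a b`: the state `s` (`true` = `A`-smoothing, `false` = `B`-smoothing) joins an end of
edge `a` to an end of edge `b` at some crossing.  At a positive crossing the `A`-smoothing, at a
negative crossing the `B`-smoothing, is the one respecting the orientation: it joins the edge
arriving at one passage to the edge leaving the other passage.  The other smoothing joins the two
arriving edges, and the two leaving edges. -/
inductive Join (s : Fin n → Bool) : Fin (2 * n + 1) → Fin (2 * n + 1) → Prop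
  | oriented₁ (c : Fin n) (h : s c = D.sign c) : Join s (D.overPass c).castSucc (D.underPass c).succ
  | oriented₂ (c : Fin n) (h : s c = D.sign c) : Join s (D.underPass c).castSucc (D.overPass c).succ
  | unoriented₁ (c : Fin n) (h : s c ≠ D.sign c) : Join s (D.overPass c).castSucc (D.underPass c).castSucc
  | unoriented₂ (c : Fin n) (h : s c ≠ D.sign c) : Join s (D.overPass c).succ (D.underPass c).succ

/-- The number `|s|` of components (the interval and the circles) of the state `s`. -/
noncomputable def comps (s : Fin n → Bool) : ℕ := Nat.card (Quot (D.Join s))

/-- `σ(s)`: the number of `A`-smoothings minus the number of `B`-smoothings. -/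
def stateSign {n : ℕ} (s : Fin n → Bool) : ℤ := ∑ c, if s c then 1 else -1

/-- The bracket polynomial `⟨D⟩ = ∑_s A^{σ(s)} (-A²-A⁻²)^{|s|-1}`, with `A = T 1`. -/
noncomputable def bracket : LaurentPolynomial ℤ :=
  ∑ s : Fin n → Bool, T (stateSign s) * (-T 2 - T (-2)) ^ (D.comps s - 1)

/-- The writhe, the sum of the crossing signs. -/
def writhe : ℤ := ∑ c, if D.sign c then 1 else -1

/-- The normalized bracket polynomial `f = (-A³)^{-w} ⟨D⟩`. -/
noncomputable def normalizedBracket : LaurentPolynomial ℤ :=
  (-1) ^ D.writhe.natAbs * T (-3 * D.writhe) * D.bracket

/-- The passage of crossing `c` which is crossed from right to left by the other passage: the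
over-passage if the crossing is positive, the under-passage if it is negative. -/
def fst (c : Fin n) : Fin (2 * n) := D.pos (c, D.sign c)

/-- The passage of crossing `c` which is crossed from left to right by the other passage. -/
def snd (c : Fin n) : Fin (2 * n) := D.pos (c, !D.sign c)

/-- Sides of edges: `(k, true)` is the left side and `(k, false)` the right side of edge `k`.
`D.Corner x y`: the sides `x` and `y` meet at a corner of the diagram (at a crossing, or at the
tail, or at the head). Heading north at the passage `fst c`, the other strand `snd c` goes from
east to west; the four corners are SW, NW, NE, SE in this order. -/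
inductive Corner : Fin (2 * n + 1) × Bool → Fin (2 * n + 1) × Bool → Prop
  | tail : Corner (0, true) (0, false)
  | head : Corner (Fin.last (2 * n), true) (Fin.last (2 * n), false)
  | sw (c : Fin n) : Corner ((D.fst c).castSucc, true) ((D.snd c).succ, true)
  | nw (c : Fin n) : Corner ((D.fst c).succ, true) ((D.snd c).succ, false)
  | ne (c : Fin n) : Corner ((D.fst c).succ, false) ((D.snd c).castSucc, false)
  | se (c : Fin n) : Corner ((D.fst c).castSucc, false) ((D.snd c).castSucc, true)

/-- The number of faces of the diagram. -/
noncomputable def faces : ℕ := Nat.card (Quot D.Corner)

/-- The Gauss diagram is that of a knotoid diagram in `S²` (Euler characteristic `2`). -/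
def Planar : Prop := D.faces = n + 1

/-- The diagram is `A`-adequate (`X = true`) or `B`-adequate (`X = false`), in the weak sense:
switching the smoothing of one crossing in the state all of whose smoothings are of type `X` does
not increase the number of components. -/
def Adequate (X : Bool) : Prop :=
  ∀ c, D.comps (Function.update (fun _ => X) c (!X)) ≤ D.comps (fun _ => X)

/-- The Gauss word: the crossings in the order in which the path goes through them. -/
def word : List (Fin n) := List.ofFn fun p : Fin (2 * n) => (D.pos.symm p).1

end GaussDiagram

/-- A word is `R1Trivial` if it is obtained from the empty word by inserting successively pairs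
`a a` of equal adjacent letters.  For the word of a Gauss diagram this says that the diagram is
obtained from the crossingless one by Reidemeister moves of type I. -/
inductive R1Trivial {α : Type*} : List α → Prop
  | nil : R1Trivial []
  | insert (u v : List α) (a : α) : R1Trivial (u ++ v) → R1Trivial (u ++ a :: a :: v)

end Pool.Agent.Helper16.Knotoid
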