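import Mathlib

set_option autoImplicit false

/-!
# A sum over vectors of `ZMod 2` to first order
-/

namespace Pool.Agent.Helper16.Knotoid

section Eps

variable {R : Type*} [CommRing R] {ι : Type*}

theorem prod_one_add_eps {ε : R} (hε : ε * ε = 0) (s : Finset ι) (a : ι → R) :
    ∏ c ∈ s, (1 + a c * ε) = 1 + (∑ c ∈ s, a c) * ε := by
  classical
  induction s using Finset.induction_on with
  | empty => simp
  | insert c s hc ih =>
    rw [Finset.prod_insert hc, Finset.sum_insert hc, ih]
    linear_combination (a c * ∑ c ∈ s, a c) * hε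

/-- the sign character of `ZMod 2` -/
def sg (z : ZMod 2) : ℤ := if z = 0 then 1 else -1

theorem sg_add : ∀ a b : ZMod 2, sg (a + b) = sg a * sg b := by decide

theorem prod_sg (s : Finset ι) (v : ι → ZMod 2) : ∏ c ∈ s, sg (v c) = sg (∑ c ∈ s, v c) := by
  classical
  induction s using Finset.induction_on with
  | empty => simp [sg]
  | insert c s hc ih => rw [Finset.prod_insert hc, Finset.sum_insert hc, ih, sg_add]

theorem prod_sg_mul {ε : R} (hε : ε * ε = 0) (s : Finset ι) (v : ι → ZMod 2) (a : ι → R) :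
    ∏ c ∈ s, ((sg (v c) : R) * (1 + a c * ε)) =
      (sg (∑ c ∈ s, v c) : R) * (1 + (∑ c ∈ s, a c) * ε) := by
  rw [Finset.prod_mul_distrib, prod_one_add_eps hε, ← prod_sg]
  push_cast
  rfl

end Eps

section Sum

variable {R : Type*} [CommRing R] {ι : Type*} [Fintype ι] [DecidableEq ι]

/-- the matrix product -/
def Lv (M : ι → ι → ZMod 2) (x : ι → ZMod 2) (c : ι) : ZMod 2 := ∑ f, M c f * x f

omit [DecidableEq ι] in
theorem handshake {M : ι → ι → ZMod 2} (hs : ∀ a b, M a b = M b a) (hd : ∀ a, M a a = 0) :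
    ∑ c, Lv M 1 c = 0 := by
  unfold Lv
  simp only [Pi.one_apply, mul_one]
  rw [← Finset.univ.sum_product' Finset.univ (fun c f => M c f)]
  refine Finset.sum_involution (fun p _ => (p.2, p.1)) ?_ ?_ ?_ ?_
  · intro p _
    rw [hs p.2 p.1]
    exact CharTwo.add_self_eq_zero _
  · intro p _ hp h
    apply hp
    have h1 : p.2 = p.1 := congrArg Prod.fst h
    rw [h1]
    exact hd _
  · intro p _
    simp
  · intro p _
    rfl

omit [DecidableEq ι] in
theorem sum_Lv {M : ι → ι → ZMod 2} (hs : ∀ a b, M a b = M b a) (x : ι → ZMod 2) :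
    ∑ c, Lv M x c = ∑ f, Lv M 1 f * x f := by
  unfold Lv
  rw [Finset.sum_comm]
  refine Finset.sum_congr rfl fun f _ => ?_
  rw [Finset.sum_mul]
  refine Finset.sum_congr rfl fun c _ => ?_
  rw [hs c f, Pi.one_apply, mul_one]

theorem Lv_update {M : ι → ι → ZMod 2} (e c : ι) :
    Lv M (Function.update 1 e 0) c = Lv M 1 c + M c e := by
  unfold Lv
  have h : ∀ f, M c f * (Function.update (1 : ι → ZMod 2) e 0) f =
      M c f * (1 : ι → ZMod 2) f + (if f = e then M c f else 0) := by
    intro f
    by_cases hf : f = e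
    · subst hf
      simp [CharTwo.add_self_eq_zero]
    · simp [hf]
  simp only [h, Finset.sum_add_distrib]
  simp

/-- the local factor -/
def Hf (M : ι → ι → ZMod 2) (w : ι → R) (ε : R) (x : ι → ZMod 2) (c : ι) : R :=
  if x c = 0 then (if Lv M x c = 0 then -(w c * ε) else 0)
  else (if Lv M x c = 0 then 1 + w c * ε else -(1 + 2 * w c * ε))

omit [DecidableEq ι] in
theorem Hf_of_one (M : ι → ι → ZMod 2) (w : ι → R) (ε : R) (x : ι → ZMod 2) (c : ι)
    (h : x c ≠ 0) : Hf M w ε x c =
      (sg (Lv M x c) : R) * (1 + (if Lv M x c = 0 then w c else 2 * w c) * ε) := by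
  unfold Hf sg
  rw [if_neg h]
  split_ifs <;> push_cast <;> ring

theorem prod_Hf_one {M : ι → ι → ZMod 2} (hs : ∀ a b, M a b = M b a) (hd : ∀ a, M a a = 0)
    (w : ι → R) {ε : R} (hε : ε * ε = 0) :
    ∏ c, Hf M w ε 1 c = 1 + (∑ c, if Lv M 1 c = 0 then w c else 2 * w c) * ε := by
  have h : ∀ c, Hf M w ε 1 c =
      (sg (Lv M 1 c) : R) * (1 + (if Lv M 1 c = 0 then w c else 2 * w c) * ε) :=
    fun c => Hf_of_one M w ε 1 c (by simp)
  simp only [h]
  rw [prod_sg_mul hε, handshake hs hd]
  simp [sg]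

theorem prod_Hf_update {M : ι → ι → ZMod 2} (hs : ∀ a b, M a b = M b a) (hd : ∀ a, M a a = 0)
    (w : ι → R) {ε : R} (hε : ε * ε = 0) (e : ι) :
    ∏ c, Hf M w ε (Function.update 1 e 0) c = if Lv M 1 e = 0 then -(w e * ε) else 0 := by
  have he : Lv M (Function.update 1 e 0) e = Lv M 1 e := by rw [Lv_update, hd, add_zero]
  rw [← Finset.mul_prod_erase _ _ (Finset.mem_univ e)]
  have h1 : Hf M w ε (Function.update 1 e 0) e = if Lv M 1 e = 0 then -(w e * ε) else 0 := by
    unfold Hf
    rw [he]
    simp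
  rw [h1]
  split_ifs with h0
  · have h2 : ∏ c ∈ Finset.univ.erase e, Hf M w ε (Function.update 1 e 0) c =
        ∏ c ∈ Finset.univ.erase e, ((sg (Lv M (Function.update 1 e 0) c) : R) *
          (1 + (if Lv M (Function.update 1 e 0) c = 0 then w c else 2 * w c) * ε)) := by
      refine Finset.prod_congr rfl fun c hc => ?_
      apply Hf_of_one
      rw [Function.update_of_ne (Finset.ne_of_mem_erase hc)]
      simp
    rw [h2, prod_sg_mul hε]
    have h3 : ∑ c ∈ Finset.univ.erase e, Lv M (Function.update 1 e 0) c = 0 := by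
      have h4 := Finset.add_sum_erase Finset.univ (fun c => Lv M (Function.update 1 e 0) c)
        (Finset.mem_univ e)
      rw [he, h0, zero_add] at h4
      rw [h4, sum_Lv hs]
      have h5 : ∀ f, Lv M 1 f * (Function.update (1 : ι → ZMod 2) e 0) f = Lv M 1 f := by
        intro f
        by_cases hf : f = e
        · subst hf
          simp [h0]
        · simp [hf]
      simp only [h5]
      exact handshake hs hd
    rw [h3]
    simp only [sg, if_true, Int.cast_one, one_mul]
    linear_combination (-(w e) * (∑ x ∈ Finset.univ.erase e,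
      if Lv M (Function.update 1 e 0) x = 0 then w x else 2 * w x)) * hε
  · rw [zero_mul]

theorem zmod2_ne {a : ZMod 2} (h : a ≠ 1) : a = 0 := by
  revert a
  decide

theorem prod_Hf_zero (M : ι → ι → ZMod 2) (w : ι → R) {ε : R} (hε : ε * ε = 0)
    (x : ι → ZMod 2) {a b : ι} (hab : a ≠ b) (ha : x a = 0) (hb : x b = 0) :
    ∏ c, Hf M w ε x c = 0 := by
  rw [← Finset.mul_prod_erase _ _ (Finset.mem_univ a),
    ← Finset.mul_prod_erase _ _ (Finset.mem_erase.2 ⟨Ne.symm hab, Finset.mem_univ b⟩), ← mul_assoc]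
  have h : Hf M w ε x a * Hf M w ε x b = 0 := by
    unfold Hf
    rw [if_pos ha, if_pos hb]
    split_ifs
    · linear_combination (w a * w b) * hε
    · ring
    · ring
    · ring
  rw [h, zero_mul]

/-- the sum to first order -/
theorem sum_prod_Hf {M : ι → ι → ZMod 2} (hs : ∀ a b, M a b = M b a) (hd : ∀ a, M a a = 0)
    (w : ι → R) {ε : R} (hε : ε * ε = 0) :
    ∑ x : ι → ZMod 2, ∏ c, Hf M w ε x c =
      1 + 2 * (∑ c, if Lv M 1 c = 0 then 0 else w c) * ε := by
  classical
  have hsub : ∑ x : ι → ZMod 2, ∏ c, Hf M w ε x c =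
      ∑ x ∈ insert (1 : ι → ZMod 2) (Finset.univ.image
        (fun e => Function.update (1 : ι → ZMod 2) e 0)), ∏ c, Hf M w ε x c := by
    symm
    refine Finset.sum_subset (Finset.subset_univ _) fun x _ hx => ?_
    rw [Finset.mem_insert, not_or, Finset.mem_image] at hx
    obtain ⟨h1, h2⟩ := hx
    obtain ⟨a, ha⟩ : ∃ a, x a ≠ 1 := by
      by_contra h
      push Not at h
      exact h1 (funext h)
    obtain ⟨b, hb⟩ : ∃ b, x b ≠ (Function.update (1 : ι → ZMod 2) a 0) b := by
      by_contra h
      push Not at h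
      exact h2 ⟨a, Finset.mem_univ a, (funext h).symm⟩
    have hab : a ≠ b := by
      rintro rfl
      rw [Function.update_self] at hb
      exact hb (zmod2_ne ha)
    rw [Function.update_of_ne (Ne.symm hab)] at hb
    exact prod_Hf_zero M w hε x hab (zmod2_ne ha) (zmod2_ne hb)
  rw [hsub, Finset.sum_insert, Finset.sum_image]
  · rw [prod_Hf_one hs hd w hε]
    simp only [prod_Hf_update hs hd w hε]
    have h1 : ∑ c, (if Lv M 1 c = 0 then w c else 2 * w c) +
        ∑ c, (if Lv M 1 c = 0 then -(w c) else 0) =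
        2 * ∑ c, (if Lv M 1 c = 0 then 0 else w c) := by
      rw [← Finset.sum_add_distrib, Finset.mul_sum]
      refine Finset.sum_congr rfl fun c _ => ?_
      split_ifs <;> ring
    have h2 : ∑ x, (if Lv M 1 x = 0 then -(w x * ε) else 0) =
        (∑ c, (if Lv M 1 c = 0 then -(w c) else 0)) * ε := by
      rw [Finset.sum_mul]
      refine Finset.sum_congr rfl fun c _ => ?_
      split_ifs <;> ring
    rw [h2, ← h1]
    ring
  · intro a _ b _ hab
    by_contra h
    have := congrFun hab a
    beta_reduce at this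
    rw [Function.update_self, Function.update_of_ne h] at this
    simp at this
  · intro h
    rw [Finset.mem_image] at h
    obtain ⟨e, -, he⟩ := h
    have := congrFun he e
    rw [Function.update_self] at this
    simp at this

end Sum

end Pool.Agent.Helper16.Knotoid
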