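import Pool.Agent.Helper16.Knotoid.OddDefs

set_option autoImplicit false

/-!
# Joining the endpoints of a knotoid diagram of height at most one
-/

namespace Pool.Agent.Helper16.Knotoid

namespace GaussDiagram

variable {n : ℕ} (D : GaussDiagram n)

/-- The passages of the diagram in which the path is continued beyond the head and crosses the edge
`e` (of the given diagram) at a new crossing `n`: the passages before the edge `e` keep their
number, the number of the others increases by one, the path first goes through the new crossing at
passage `e` and finally at the last passage `2n+1`, over if `o = true` and under if `o = false`. -/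
def extendFun (e : Fin (2 * n + 1)) (o : Bool) (z : Fin (n + 1) × Bool) : Fin (2 * (n + 1)) :=
  if h : (z.1 : ℕ) < n then
    (if (D.pos (⟨z.1, h⟩, z.2) : ℕ) < e then ⟨D.pos (⟨z.1, h⟩, z.2), by omega⟩
      else ⟨D.pos (⟨z.1, h⟩, z.2) + 1, by omega⟩)
  else (if z.2 = o then ⟨2 * n + 1, by omega⟩ else ⟨e, by omega⟩)

theorem extendFun_injective (e : Fin (2 * n + 1)) (o : Bool) :
    Function.Injective (D.extendFun e o) := by
  rintro ⟨c, b⟩ ⟨d, b'⟩ h
  have h' := congrArg Fin.val h
  unfold extendFun at h'
  simp only at h'
  have hc := c.isLt
  have hd := d.isLt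
  by_cases hcn : (c : ℕ) < n
  · have p1 := (D.pos (⟨c, hcn⟩, b)).isLt
    by_cases hdn : (d : ℕ) < n
    · rw [dif_pos hcn, dif_pos hdn] at h'
      have h1 : (D.pos (⟨c, hcn⟩, b) : ℕ) = D.pos (⟨d, hdn⟩, b') := by
        split_ifs at h' <;> simp only at h' <;> omega
      have h2 := D.pos.injective (Fin.ext h1)
      simp only [Prod.mk.injEq, Fin.mk.injEq] at h2
      exact Prod.ext (Fin.ext h2.1) h2.2
    · exfalso
      rw [dif_pos hcn, dif_neg hdn] at h'
      split_ifs at h' <;> simp only at h' <;> omega
  · by_cases hdn : (d : ℕ) < n
    · exfalso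
      have p1 := (D.pos (⟨d, hdn⟩, b')).isLt
      rw [dif_neg hcn, dif_pos hdn] at h'
      split_ifs at h' <;> simp only at h' <;> omega
    · rw [dif_neg hcn, dif_neg hdn] at h'
      have hcd : c = d := Fin.ext (by omega)
      have he := e.isLt
      have hb : b = b' := by
        cases b <;> cases b' <;> cases o <;> simp at h' ⊢ <;> omega
      rw [hcd, hb]

/-- The path continued beyond the head across the edge `e`, over (`o = true`) or under (`o = false`)
this edge; `ε` is the sign of the new crossing. -/
noncomputable def extend (e : Fin (2 * n + 1)) (o ε : Bool) : GaussDiagram (n + 1) where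
  pos := Equiv.ofBijective (D.extendFun e o)
    ((Fintype.bijective_iff_injective_and_card _).2 ⟨D.extendFun_injective e o, by
      simp only [Fintype.card_prod, Fintype.card_fin, Fintype.card_bool]
      omega⟩)
  sign c := if h : (c : ℕ) < n then D.sign ⟨c, h⟩ else ε

end GaussDiagram

end Pool.Agent.Helper16.Knotoid
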