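import Pool.Agent.Helper16.Knotoid.OddDefs
import Pool.Agent.Helper16.Knotoid.Dual
import Pool.Agent.Helper16.Knotoid.Gauss
import Pool.Agent.Helper16.Knotoid.Poly

set_option autoImplicit false

/-!
# The normalized bracket to first order at `A² = -1`
-/

namespace Pool.Agent.Helper16.Knotoid

open LaurentPolynomial Module

namespace GaussDiagram

variable {n : ℕ} (D : GaussDiagram n)

/-- the sign as an integer -/
def sgn (c : Fin n) : ℤ := if D.sign c then 1 else -1

/-- the interlacement matrix -/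
def lam (c f : Fin n) : ZMod 2 := D.gmat D.sign c f

theorem lam_symm (c f : Fin n) : D.lam c f = D.lam f c := D.gmat_symm _ _ _

theorem lam_self (c : Fin n) : D.lam c c = 0 := by
  unfold lam
  rw [gmat_self, if_pos rfl]

theorem sum_cnt (k : ℕ) (hk : k ≤ 2 * n) :
    ∑ f, cnt D.overPass D.underPass k f = (k : ZMod 2) := by
  have h1 : ∑ f, cnt D.overPass D.underPass k f =
      ∑ z : Fin n × Bool, (if (D.pos z : ℕ) < k then (1 : ZMod 2) else 0) := by
    rw [Fintype.sum_prod_type]
    refine Finset.sum_congr rfl fun f _ => ?_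
    rw [Fintype.sum_bool]
    rfl
  rw [h1, D.pos.sum_comp (fun p : Fin (2 * n) => if (p : ℕ) < k then (1 : ZMod 2) else 0),
    Fin.sum_univ_eq_sum_range (fun p => if p < k then (1 : ZMod 2) else 0) (2 * n),
    ← Finset.sum_filter]
  have h2 : (Finset.range (2 * n)).filter (fun p => p < k) = Finset.range k := by
    ext p
    simp only [Finset.mem_filter, Finset.mem_range]
    omega
  rw [h2]
  simp

theorem Lv_one (c : Fin n) :
    Lv D.lam 1 c = ((D.overPass c : ℕ) : ZMod 2) + ((D.underPass c : ℕ) + 1 : ℕ) := by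
  have h : ∀ f, D.lam c f = cnt D.overPass D.underPass (D.overPass c) f +
      cnt D.overPass D.underPass ((D.underPass c : ℕ) + 1) f := by
    intro f
    unfold lam gmat arcMat
    simp
  unfold Lv
  simp only [h, Pi.one_apply, mul_one, Finset.sum_add_distrib]
  rw [D.sum_cnt _ (by omega), D.sum_cnt _ (by omega)]

theorem Lv_one_eq_zero_iff (c : Fin n) : Lv D.lam 1 c = 0 ↔ ¬ D.OddCrossing c := by
  rw [Lv_one]
  unfold OddCrossing
  have h0 := D.over_ne_under c c
  rw [Fin.card_Ioo]
  have h1 : ((D.overPass c : ℕ) : ZMod 2) + ((D.underPass c : ℕ) + 1 : ℕ) =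
      (((D.overPass c : ℕ) + ((D.underPass c : ℕ) + 1) : ℕ) : ZMod 2) := by push_cast; ring
  rw [h1, ZMod.natCast_eq_zero_iff_even, Nat.not_odd_iff_even]
  rcases Nat.lt_or_gt_of_ne h0 with h | h
  · have h2 : D.overPass c < D.underPass c := h
    rw [min_eq_left h2.le, max_eq_right h2.le, Nat.even_iff, Nat.even_iff]
    omega
  · have h2 : D.underPass c < D.overPass c := h
    rw [min_eq_right h2.le, max_eq_left h2.le, Nat.even_iff, Nat.even_iff]
    omega

/-- the local weight -/
noncomputable def wt (c : Fin n) (b : Bool) : LaurentPolynomial ℤ :=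
  if b = D.sign c then -T (-2 * D.sgn c) else -T (-4 * D.sgn c)

theorem prod_T {ι : Type*} (s : Finset ι) (a : ι → ℤ) :
    ∏ c ∈ s, (T (a c) : LaurentPolynomial ℤ) = T (∑ c ∈ s, a c) := by
  classical
  induction s using Finset.induction_on with
  | empty => simp
  | insert c s hc ih => rw [Finset.prod_insert hc, Finset.sum_insert hc, ih, T_add]

theorem writhe_eq : D.writhe = ∑ c, D.sgn c := rfl

theorem neg_one_pow_writhe : (-1 : LaurentPolynomial ℤ) ^ D.writhe.natAbs = (-1) ^ n := by
  have h : Even D.writhe.natAbs ↔ Even n := by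
    rw [Int.natAbs_even, ← Int.even_coe_nat n, ← ZMod.intCast_eq_zero_iff_even,
      ← ZMod.intCast_eq_zero_iff_even, writhe_eq]
    push_cast
    have h1 : ∀ c, ((D.sgn c : ℤ) : ZMod 2) = 1 := by
      intro c
      unfold sgn
      cases D.sign c
      · simp
      · simp
    simp [h1]
  by_cases hn : Even n
  · rw [(h.2 hn).neg_one_pow, hn.neg_one_pow]
  · have h2 : Odd n := Nat.not_even_iff_odd.1 hn
    have h3 : Odd D.writhe.natAbs := Nat.not_even_iff_odd.1 fun h' => hn (h.1 h')
    rw [h3.neg_one_pow, h2.neg_one_pow]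

theorem prod_wt (s : Fin n → Bool) :
    ∏ c, D.wt c (s c) = (-1) ^ D.writhe.natAbs * T (-3 * D.writhe) * T (stateSign s) := by
  have h : ∀ c, D.wt c (s c) = -1 * (T (-3 * D.sgn c + (if s c then 1 else -1))) := by
    intro c
    unfold wt sgn
    cases hs : s c <;> cases hd : D.sign c <;> simp
  rw [Finset.prod_congr rfl fun c _ => h c, Finset.prod_mul_distrib, prod_T, neg_one_pow_writhe,
    Finset.sum_add_distrib, ← Finset.mul_sum, ← writhe_eq, T_add]
  simp only [Finset.prod_const, Finset.card_univ, Fintype.card_fin]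
  rw [mul_assoc]
  rfl

theorem f_eq : D.normalizedBracket =
    ∑ s : Fin n → Bool, (∏ c, D.wt c (s c)) * dd ^ (D.comps s - 1) := by
  unfold normalizedBracket bracket
  rw [Finset.mul_sum]
  refine Finset.sum_congr rfl fun s _ => ?_
  rw [prod_wt, ← mul_assoc]
  rfl

section Eval

variable {R : Type*} [CommRing R] (φ : LaurentPolynomial ℤ →+* R)

theorem phi_T_neg {ε : R} (hε : ε * ε = 0) (hφ : φ (T 2) = ε - 1) : φ (T (-2)) = -1 - ε := by
  have h1 : φ (T 2) * φ (T (-2)) = 1 := by
    rw [← map_mul, ← T_add]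
    simp
  rw [hφ] at h1
  linear_combination (-1 - ε) * h1 + φ (T (-2)) * hε

theorem phi_wt {ε : R} (hε : ε * ε = 0) (hφ : φ (T 2) = ε - 1) (c : Fin n) (b : Bool) :
    φ (D.wt c b) = if b = D.sign c then 1 + (D.sgn c : R) * ε else -(1 + 2 * (D.sgn c : R) * ε) := by
  have h2 := phi_T_neg φ hε hφ
  have h4 : φ (T 4) = 1 - 2 * ε := by
    have : (T 4 : LaurentPolynomial ℤ) = T 2 * T 2 := by
      rw [← T_add]
      norm_num
    rw [this, map_mul, hφ]
    linear_combination hε
  have h4' : φ (T (-4)) = 1 + 2 * ε := by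
    have : (T (-4) : LaurentPolynomial ℤ) = T (-2) * T (-2) := by
      rw [← T_add]
      norm_num
    rw [this, map_mul, h2]
    linear_combination hε
  unfold wt sgn
  by_cases hb : b = D.sign c
  · rw [if_pos hb, if_pos hb, map_neg]
    cases D.sign c
    · simp [hφ]
      ring
    · simp [h2]
      ring
  · rw [if_neg hb, if_neg hb, map_neg]
    cases D.sign c
    · simp [h4]
      ring
    · simp [h4']

theorem phi_dd {ε : R} (hε : ε * ε = 0) (hφ : φ (T 2) = ε - 1) : φ dd = 2 := by
  have h2 := phi_T_neg φ hε hφ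
  unfold dd
  rw [map_sub, map_neg, hφ, h2]
  ring

theorem gmat_mulVec (s : Fin n → Bool) (x : Fin n → ZMod 2) (c : Fin n) :
    (D.gmat s).mulVec x c = Lv D.lam x c + (if s c = D.sign c then 0 else x c) := by
  unfold Matrix.mulVec dotProduct Lv
  have h : ∀ f, D.gmat s c f * x f = D.lam c f * x f +
      (if f = c then (if s c = D.sign c then 0 else x c) else 0) := by
    intro f
    by_cases hf : f = c
    · subst hf
      rw [lam_self, gmat_self, if_pos rfl]
      split_ifs <;> ring
    · rw [if_neg hf, add_zero]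
      unfold lam
      rw [gmat_of_ne _ _ (Ne.symm hf), gmat_of_ne _ _ (Ne.symm hf)]
  simp only [h, Finset.sum_add_distrib]
  simp

theorem two_pow_comps (s : Fin n → Bool) : (2 : R) ^ (D.comps s - 1) =
    ∑ x : Fin n → ZMod 2,
      ∏ c, (if Lv D.lam x c + (if s c = D.sign c then 0 else x c) = 0 then (1 : R) else 0) := by
  classical
  have h1 : D.comps s - 1 = finrank (ZMod 2) (LinearMap.ker (D.gmat s).mulVecLin) := by
    rw [comps_eq]
    omega
  have h2 : Fintype.card (LinearMap.ker (D.gmat s).mulVecLin) =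
      2 ^ finrank (ZMod 2) (LinearMap.ker (D.gmat s).mulVecLin) := by
    have := Module.card_eq_pow_finrank (K := ZMod 2) (V := LinearMap.ker (D.gmat s).mulVecLin)
    rw [ZMod.card] at this
    exact this
  have h3 : Fintype.card (LinearMap.ker (D.gmat s).mulVecLin) =
      (Finset.univ.filter (fun x : Fin n → ZMod 2 =>
        x ∈ LinearMap.ker (D.gmat s).mulVecLin)).card := by
    rw [← Fintype.card_subtype]
  have h4 : ∀ x : Fin n → ZMod 2,
      (∏ c, (if Lv D.lam x c + (if s c = D.sign c then 0 else x c) = 0 then (1 : R) else 0)) =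
      if x ∈ LinearMap.ker (D.gmat s).mulVecLin then 1 else 0 := by
    intro x
    rw [Finset.prod_ite_zero]
    simp only [Finset.prod_const_one]
    refine if_congr ?_ rfl rfl
    rw [LinearMap.mem_ker, Matrix.mulVecLin_apply]
    constructor
    · intro h
      funext c
      rw [gmat_mulVec]
      exact h c (Finset.mem_univ c)
    · intro h c _
      rw [← gmat_mulVec, h]
      rfl
  simp only [h4]
  rw [Finset.sum_boole, h1, ← h3, h2]
  push_cast
  rfl

theorem phi_f {ε : R} (hε : ε * ε = 0) (hφ : φ (T 2) = ε - 1) :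
    φ D.normalizedBracket = 1 + 2 * (D.oddWrithe : R) * ε := by
  classical
  rw [f_eq, map_sum]
  have h1 : ∀ s : Fin n → Bool, φ ((∏ c, D.wt c (s c)) * dd ^ (D.comps s - 1)) =
      ∑ x : Fin n → ZMod 2, ∏ c, ((if s c = D.sign c then 1 + (D.sgn c : R) * ε
        else -(1 + 2 * (D.sgn c : R) * ε)) *
        (if Lv D.lam x c + (if s c = D.sign c then 0 else x c) = 0 then (1 : R) else 0)) := by
    intro s
    rw [map_mul, map_pow, phi_dd φ hε hφ, map_prod, two_pow_comps, Finset.mul_sum]
    refine Finset.sum_congr rfl fun x _ => ?_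
    rw [← Finset.prod_mul_distrib]
    refine Finset.prod_congr rfl fun c _ => ?_
    rw [D.phi_wt φ hε hφ]
  simp only [h1]
  rw [Finset.sum_comm]
  have h2 : ∀ x : Fin n → ZMod 2,
      (∑ s : Fin n → Bool, ∏ c, ((if s c = D.sign c then 1 + (D.sgn c : R) * ε
        else -(1 + 2 * (D.sgn c : R) * ε)) *
        (if Lv D.lam x c + (if s c = D.sign c then 0 else x c) = 0 then (1 : R) else 0))) =
      ∏ c, Hf D.lam (fun c => (D.sgn c : R)) ε x c := by
    intro x
    have h3 := Finset.prod_univ_sum (fun _ : Fin n => (Finset.univ : Finset Bool))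
      (fun c b => ((if b = D.sign c then 1 + (D.sgn c : R) * ε
        else -(1 + 2 * (D.sgn c : R) * ε)) *
        (if Lv D.lam x c + (if b = D.sign c then 0 else x c) = 0 then (1 : R) else 0)))
    rw [Fintype.piFinset_univ] at h3
    rw [← h3]
    refine Finset.prod_congr rfl fun c _ => ?_
    have h4 : ∀ g : Bool → R, ∑ b : Bool, g b = g (D.sign c) + g (!D.sign c) := by
      intro g
      rw [Fintype.sum_bool]
      cases D.sign c
      · exact add_comm _ _
      · rfl
    rw [h4]
    have h5 : ¬ ((!D.sign c) = D.sign c) := by simp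
    rw [if_pos rfl, if_pos rfl, if_neg h5, if_neg h5, add_zero]
    unfold Hf
    generalize Lv D.lam x c = y
    generalize x c = z
    by_cases hz0 : z = 0
    · subst hz0
      rw [if_pos rfl, add_zero]
      by_cases hy : y = 0
      · rw [if_pos hy]
        rw [if_pos hy]
        ring
      · rw [if_neg hy]
        rw [if_neg hy]
        ring
    · have hz1 : z = 1 := by
        revert hz0
        revert z
        decide
      subst hz1
      by_cases hy : y = 0
      · subst hy
        simp
      · have hy1 : y = 1 := by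
          revert hy
          revert y
          decide
        subst hy1
        have e : (1 : ZMod 2) + 1 = 0 := by decide
        simp [e]
  simp only [h2]
  rw [sum_prod_Hf D.lam_symm D.lam_self _ hε]
  have h6 : ∑ c, (if Lv D.lam 1 c = 0 then (0 : R) else (D.sgn c : R)) = (D.oddWrithe : R) := by
    unfold oddWrithe
    rw [Int.cast_sum]
    refine Finset.sum_congr rfl fun c _ => ?_
    by_cases hc : D.OddCrossing c
    · have h7 : ¬ Lv D.lam 1 c = 0 := fun h => (D.Lv_one_eq_zero_iff c).1 h hc
      rw [if_neg h7, if_pos hc]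
      rfl
    · have h7 : Lv D.lam 1 c = 0 := (D.Lv_one_eq_zero_iff c).2 hc
      rw [if_pos h7, if_neg hc]
      simp
  rw [h6]

end Eval

/-- the normalized bracket to first order at `A² = -1` -/
theorem f_congr : (T 2 + 1) ^ 2 ∣ D.normalizedBracket - 1 - C (2 * D.oddWrithe) * (T 2 + 1) := by
  set I : Ideal (LaurentPolynomial ℤ) := Ideal.span {(T 2 + 1) ^ 2} with hI
  rw [← Ideal.mem_span_singleton, ← hI, ← Ideal.Quotient.eq_zero_iff_mem]
  have hε : (Ideal.Quotient.mk I (T 2 + 1)) * (Ideal.Quotient.mk I (T 2 + 1)) = 0 := by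
    rw [← map_mul, ← pow_two, Ideal.Quotient.eq_zero_iff_mem, hI]
    exact Ideal.mem_span_singleton_self _
  have hφ : (Ideal.Quotient.mk I) (T 2) = Ideal.Quotient.mk I (T 2 + 1) - 1 := by
    rw [map_add, map_one]
    ring
  rw [map_sub, map_sub, D.phi_f _ hε hφ, map_mul]
  have h1 : (Ideal.Quotient.mk I) (C (2 * D.oddWrithe)) = 2 * (D.oddWrithe : _) := by
    rw [eq_intCast (C : ℤ →+* LaurentPolynomial ℤ), map_intCast]
    push_cast
    ring
  rw [h1, map_one]
  ring

/-- if the normalized bracket is `1` then the odd writhe vanishes -/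
theorem oddWrithe_eq_zero (hf : D.normalizedBracket = 1) : D.oddWrithe = 0 := by
  obtain ⟨g, hg⟩ := D.f_congr
  rw [hf, sub_self, zero_sub] at hg
  have hne : (T 2 + 1 : LaurentPolynomial ℤ) ≠ 0 := by
    intro h
    have h1 : (T 2 + 1 : LaurentPolynomial ℤ).coeff 2 = 1 := by
      have h2 : ∀ p q : LaurentPolynomial ℤ, (p + q).coeff 2 = p.coeff 2 + q.coeff 2 :=
        fun _ _ => rfl
      rw [h2, T_apply, ← T_zero, T_apply]
      simp
    rw [h] at h1
    exact absurd h1 (by simp)
  have h3 : (T 2 + 1) * (-C (2 * D.oddWrithe)) = (T 2 + 1) * ((T 2 + 1) * g) := by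
    linear_combination hg
  have h4 := mul_left_cancel₀ hne h3
  have hI : Complex.I * -Complex.I = 1 := by
    rw [mul_neg, Complex.I_mul_I, neg_neg]
  have hI' : -Complex.I * Complex.I = 1 := by
    rw [mul_comm, hI]
  have h5 := congrArg (eval₂ (Int.castRingHom ℂ) (⟨Complex.I, -Complex.I, hI, hI'⟩ : ℂˣ)) h4
  rw [map_neg, eval₂_C, map_mul, map_mul, map_add, eval₂_T, map_one] at h5
  have h6 : (((⟨Complex.I, -Complex.I, hI, hI'⟩ : ℂˣ) ^ (2 : ℤ) : ℂˣ) : ℂ) = -1 := by
    have h7 : ((⟨Complex.I, -Complex.I, hI, hI'⟩ : ℂˣ) ^ (2 : ℤ) : ℂˣ) =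
      (⟨Complex.I, -Complex.I, hI, hI'⟩ : ℂˣ) ^ (2 : ℕ) := by
      rw [← zpow_natCast]
      rfl
    rw [h7, Units.val_pow_eq_pow_val]
    exact Complex.I_sq
  rw [h6, neg_add_cancel, zero_mul, neg_eq_zero] at h5
  simpa using h5

end GaussDiagram

end Pool.Agent.Helper16.Knotoid
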