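import Pool.Agent.Helper16.Knotoid.Count
import Pool.Agent.Helper16.Knotoid.OddWrithe

set_option autoImplicit false

/-!
# The normalized bracket of a diagram of canonical genus one
-/

namespace Pool.Agent.Helper16.Knotoid

open LaurentPolynomial Module

namespace GaussDiagram

variable {n : ℕ} (D : GaussDiagram n)

/-- whether the smoothing is the oriented one -/
def orr (s : Fin n → Bool) (c : Fin n) : Bool := decide (s c = D.sign c)

theorem comps_mex {v : Fin n → V2} (hv : ∀ c f, D.lam c f = wdg (v c) (v f)) (s : Fin n → Bool) :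
    (D.comps s - 1) + 2 = (Finset.univ.filter fun c => D.orr s c = true).card +
      mex (allU v (D.orr s)) (parv v) := by
  have h1 := D.two_pow_comps (R := ℤ) s
  have h2 := count_eq v hv (D.orr s)
  have h3 : ∀ x : Fin n → ZMod 2,
      (∏ c, (if Lv D.lam x c + (if s c = D.sign c then 0 else x c) = 0 then (1 : ℤ) else 0)) =
      ∏ c, (if Lv D.lam x c + (if D.orr s c then 0 else x c) = 0 then (1 : ℤ) else 0) := by
    intro x
    refine Finset.prod_congr rfl fun c _ => ?_
    unfold orr
    simp only [decide_eq_true_eq]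
  simp only [h3] at h1
  rw [← h1] at h2
  have h4 : (2 : ℤ) ^ ((D.comps s - 1) + 2) = 2 ^ ((Finset.univ.filter fun c =>
      D.orr s c = true).card + mex (allU v (D.orr s)) (parv v)) := by
    rw [← h2, pow_add]
    ring
  have h5 : (2 : ℕ) ^ ((D.comps s - 1) + 2) = 2 ^ ((Finset.univ.filter fun c =>
      D.orr s c = true).card + mex (allU v (D.orr s)) (parv v)) := by exact_mod_cast h4
  exact Nat.pow_right_injective (le_refl 2) h5

/-- the weight of the unoriented smoothing -/
noncomputable def nw (c : Fin n) : LaurentPolynomial ℤ := -T (-4 * D.sgn c)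

theorem wt_un (c : Fin n) : D.wt c (!D.sign c) = D.nw c := by
  unfold wt nw
  rw [if_neg (by simp)]

theorem wt_or (c : Fin n) : D.wt c (D.sign c) * dd = 1 - D.nw c := by
  have h : (T (-2) * T 2 : LaurentPolynomial ℤ) = 1 := by
    rw [← T_add]
    simp
  have h2 : (T 2 * T 2 : LaurentPolynomial ℤ) = T 4 := by
    rw [← T_add]
    norm_num
  have h3 : (T (-2) * T (-2) : LaurentPolynomial ℤ) = T (-4) := by
    rw [← T_add]
    norm_num
  unfold wt nw sgn dd
  rw [if_pos rfl]
  cases D.sign c
  · simp only [Bool.false_eq_true, if_false]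
    have e1 : (-2 * -1 : ℤ) = 2 := by norm_num
    have e2 : (-4 * -1 : ℤ) = 4 := by norm_num
    rw [e1, e2, ← h2]
    linear_combination h
  · simp only [if_true]
    rw [mul_one, mul_one, ← h3]
    linear_combination h

/-- the value of the indicator of a set of unoriented smoothings -/
noncomputable def ind (s : Fin n → Bool) (A : Finset (Fin n)) : LaurentPolynomial ℤ :=
  if ∀ c ∈ A, D.orr s c = false then 1 else 0

/-- the combined local weight -/
noncomputable def lw (c : Fin n) (b : Bool) : LaurentPolynomial ℤ :=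
  if b = D.sign c then 1 - D.nw c else D.nw c

theorem sum_lw_ind (A : Finset (Fin n)) :
    ∑ s : Fin n → Bool, (∏ c, D.lw c (s c)) * D.ind s A = ∏ c ∈ A, D.nw c := by
  classical
  have h1 : ∀ s : Fin n → Bool, (∏ c, D.lw c (s c)) * D.ind s A =
      ∏ c, (D.lw c (s c) * (if c ∈ A ∧ s c = D.sign c then 0 else 1)) := by
    intro s
    rw [Finset.prod_mul_distrib]
    congr 1
    unfold ind
    by_cases h : ∀ c ∈ A, D.orr s c = false
    · rw [if_pos h]
      symm
      refine Finset.prod_eq_one fun c _ => ?_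
      rw [if_neg]
      rintro ⟨hc, hs⟩
      have := h c hc
      unfold orr at this
      rw [decide_eq_false_iff_not] at this
      exact this hs
    · rw [if_neg h]
      push Not at h
      obtain ⟨c, hc, hs⟩ := h
      symm
      refine Finset.prod_eq_zero (Finset.mem_univ c) ?_
      rw [if_pos]
      refine ⟨hc, ?_⟩
      unfold orr at hs
      rw [ne_eq, decide_eq_false_iff_not, not_not] at hs
      exact hs
  simp only [h1]
  have h3 := Finset.prod_univ_sum (fun _ : Fin n => (Finset.univ : Finset Bool))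
    (fun c b => D.lw c b * (if c ∈ A ∧ b = D.sign c then (0 : LaurentPolynomial ℤ) else 1))
  rw [Fintype.piFinset_univ] at h3
  rw [← h3, ← Finset.prod_filter_mul_prod_filter_not Finset.univ (fun c => c ∈ A)]
  have h4 : ∀ g : Fin n → Bool → LaurentPolynomial ℤ, ∀ c,
      ∑ b : Bool, g c b = g c (D.sign c) + g c (!D.sign c) := by
    intro g c
    rw [Fintype.sum_bool]
    cases D.sign c
    · exact add_comm _ _
    · rfl
  have h5 : ∀ c, ∑ b : Bool, D.lw c b * (if c ∈ A ∧ b = D.sign c then (0 : LaurentPolynomial ℤ)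
      else 1) = if c ∈ A then D.nw c else 1 := by
    intro c
    rw [h4 (fun c b => D.lw c b * (if c ∈ A ∧ b = D.sign c then (0 : LaurentPolynomial ℤ)
      else 1)) c]
    have h6 : ¬ ((!D.sign c) = D.sign c) := by simp
    unfold lw
    by_cases hc : c ∈ A
    · simp [hc]
    · simp [hc]
  simp only [h5]
  have h7 : ∏ x ∈ Finset.univ.filter (fun c => ¬ c ∈ A), (if x ∈ A then D.nw x else 1) = 1 := by
    refine Finset.prod_eq_one fun c hc => ?_
    rw [if_neg (Finset.mem_filter.1 hc).2]
  rw [h7, mul_one]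
  have h8 : Finset.univ.filter (fun c => c ∈ A) = A := by
    ext c
    simp
  rw [h8]
  exact Finset.prod_congr rfl fun c hc => if_pos hc

/-- the product of the weights of a class -/
noncomputable def uu (v : Fin n → V2) (i : Fin 3) : LaurentPolynomial ℤ := ∏ c ∈ cla v i, D.nw c

theorem f_mul_dd_sq {v : Fin n → V2} (hv : ∀ c f, D.lam c f = wdg (v c) (v f)) :
    D.normalizedBracket * dd ^ 2 =
      ∑ s : Fin n → Bool, (∏ c, D.lw c (s c)) * dd ^ mex (allU v (D.orr s)) (parv v) := by
  rw [f_eq, Finset.sum_mul]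
  refine Finset.sum_congr rfl fun s _ => ?_
  rw [mul_assoc, ← pow_add, D.comps_mex hv s, pow_add, ← mul_assoc]
  congr 1
  rw [← Finset.prod_const]
  have h1 : (∏ _x ∈ Finset.univ.filter (fun c => D.orr s c = true), dd) =
      ∏ c : Fin n, (if D.orr s c = true then dd else 1) := by
    rw [Finset.prod_filter]
  rw [h1, ← Finset.prod_mul_distrib]
  refine Finset.prod_congr rfl fun c _ => ?_
  unfold orr lw
  by_cases h : s c = D.sign c
  · rw [if_pos (decide_eq_true h), if_pos h, h]
    exact D.wt_or c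
  · have h2 : s c = !D.sign c := by
      revert h
      cases s c <;> cases D.sign c <;> simp
    rw [if_neg (by simpa using h), if_neg h, mul_one, h2]
    exact D.wt_un c

theorem ind_eq (v : Fin n → V2) (s : Fin n → Bool) (i : Fin 3) :
    D.ind s (cla v i) = if allU v (D.orr s) i then 1 else 0 := by
  unfold ind
  exact if_congr allU_iff.symm rfl rfl

theorem ind_union (s : Fin n → Bool) (A B : Finset (Fin n)) :
    D.ind s (A ∪ B) = D.ind s A * D.ind s B := by
  unfold ind
  by_cases h1 : ∀ c ∈ A, D.orr s c = false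
  · by_cases h2 : ∀ c ∈ B, D.orr s c = false
    · rw [if_pos h1, if_pos h2, if_pos, mul_one]
      intro c hc
      rcases Finset.mem_union.1 hc with h | h
      · exact h1 c h
      · exact h2 c h
    · rw [if_pos h1, if_neg h2, if_neg, mul_zero]
      intro h
      exact h2 fun c hc => h c (Finset.mem_union_right _ hc)
  · rw [if_neg h1, if_neg, zero_mul]
    intro h
    exact h1 fun c hc => h c (Finset.mem_union_left _ hc)

theorem dd_mex (z p : Fin 3 → Bool) : dd ^ mex z p =
    1 + (dd ^ mpair (p 0) (p 1) - 1) * ((if z 0 then 1 else 0) * (if z 1 then 1 else 0)) +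
      (dd ^ mpair (p 0) (p 2) - 1) * ((if z 0 then 1 else 0) * (if z 2 then 1 else 0)) +
      (dd ^ mpair (p 1) (p 2) - 1) * ((if z 1 then 1 else 0) * (if z 2 then 1 else 0)) +
      (dd ^ mtriple (p 0) (p 1) (p 2) - 1 - (dd ^ mpair (p 0) (p 1) - 1) -
        (dd ^ mpair (p 0) (p 2) - 1) - (dd ^ mpair (p 1) (p 2) - 1)) *
        ((if z 0 then 1 else 0) * (if z 1 then 1 else 0) * (if z 2 then 1 else 0)) := by
  unfold mex
  cases z 0 <;> cases z 1 <;> cases z 2 <;> simp

theorem cla_disjoint (v : Fin n → V2) {i j : Fin 3} (h : i ≠ j) : Disjoint (cla v i) (cla v j) := by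
  have hinj : Function.Injective ev := by decide
  rw [Finset.disjoint_left]
  intro c hc hc'
  exact h (hinj ((Finset.mem_filter.1 hc).2.symm.trans (Finset.mem_filter.1 hc').2))

/-- the normalized bracket in canonical genus one -/
theorem f_genus_one {v : Fin n → V2} (hv : ∀ c f, D.lam c f = wdg (v c) (v f)) :
    D.normalizedBracket * dd ^ 2 =
    1 + (dd ^ mpair (parv v 0) (parv v 1) - 1) * (D.uu v 0 * D.uu v 1) +
      (dd ^ mpair (parv v 0) (parv v 2) - 1) * (D.uu v 0 * D.uu v 2) +
      (dd ^ mpair (parv v 1) (parv v 2) - 1) * (D.uu v 1 * D.uu v 2) +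
      (dd ^ mtriple (parv v 0) (parv v 1) (parv v 2) - 1 -
        (dd ^ mpair (parv v 0) (parv v 1) - 1) -
        (dd ^ mpair (parv v 0) (parv v 2) - 1) - (dd ^ mpair (parv v 1) (parv v 2) - 1)) *
        (D.uu v 0 * D.uu v 1 * D.uu v 2) := by
  rw [D.f_mul_dd_sq hv]
  have h1 : ∀ s : Fin n → Bool, (∏ c, D.lw c (s c)) * dd ^ mex (allU v (D.orr s)) (parv v) =
      (∏ c, D.lw c (s c)) * D.ind s ∅ +
      (dd ^ mpair (parv v 0) (parv v 1) - 1) *
        ((∏ c, D.lw c (s c)) * D.ind s (cla v 0 ∪ cla v 1)) +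
      (dd ^ mpair (parv v 0) (parv v 2) - 1) *
        ((∏ c, D.lw c (s c)) * D.ind s (cla v 0 ∪ cla v 2)) +
      (dd ^ mpair (parv v 1) (parv v 2) - 1) *
        ((∏ c, D.lw c (s c)) * D.ind s (cla v 1 ∪ cla v 2)) +
      (dd ^ mtriple (parv v 0) (parv v 1) (parv v 2) - 1 -
        (dd ^ mpair (parv v 0) (parv v 1) - 1) -
        (dd ^ mpair (parv v 0) (parv v 2) - 1) - (dd ^ mpair (parv v 1) (parv v 2) - 1)) *
        ((∏ c, D.lw c (s c)) * D.ind s (cla v 0 ∪ cla v 1 ∪ cla v 2)) := by
    intro s
    have h2 : D.ind s ∅ = 1 := by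
      unfold ind
      rw [if_pos (by simp)]
    rw [dd_mex, h2, ind_union, ind_union, ind_union, ind_union, ind_union, ind_eq, ind_eq, ind_eq]
    ring
  simp only [h1]
  rw [Finset.sum_add_distrib, Finset.sum_add_distrib, Finset.sum_add_distrib,
    Finset.sum_add_distrib, ← Finset.mul_sum, ← Finset.mul_sum, ← Finset.mul_sum,
    ← Finset.mul_sum, sum_lw_ind, sum_lw_ind, sum_lw_ind, sum_lw_ind, sum_lw_ind,
    Finset.prod_empty]
  have d01 := cla_disjoint v (i := 0) (j := 1) (by decide)
  have d02 := cla_disjoint v (i := 0) (j := 2) (by decide)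
  have d12 := cla_disjoint v (i := 1) (j := 2) (by decide)
  rw [Finset.prod_union d01, Finset.prod_union d02, Finset.prod_union d12, Finset.prod_union,
    Finset.prod_union d01]
  · rfl
  · rw [Finset.disjoint_union_left]
    exact ⟨d02, d12⟩

/-- the sum of the signs of a class -/
def asum (v : Fin n → V2) (i : Fin 3) : ℤ := ∑ c ∈ cla v i, D.sgn c

theorem uu_eq (v : Fin n → V2) (i : Fin 3) :
    D.uu v i = (if parv v i then -1 else 1) * T (-4 * D.asum v i) := by
  unfold uu nw asum parv
  have h1 : ∀ c, -T (-4 * D.sgn c) = (-1 : LaurentPolynomial ℤ) * T (-4 * D.sgn c) := by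
    intro c
    ring
  simp only [h1]
  rw [Finset.prod_mul_distrib, Finset.prod_const, prod_T, ← Finset.mul_sum]
  congr 1
  by_cases h : Odd (cla v i).card
  · rw [decide_eq_true h, h.neg_one_pow]
    rfl
  · rw [decide_eq_false h, (Nat.not_odd_iff_even.1 h).neg_one_pow]
    rfl

end GaussDiagram

end Pool.Agent.Helper16.Knotoid
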