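import Mathlib

set_option autoImplicit false

/-!
# Walking along a connected chain
-/

namespace Pool.Agent.Helper16.Knotoid

theorem exists_walk {H : Type*} [Fintype H] [DecidableEq H] (α β : H → H)
    (hα : Function.Involutive α) (hβ : Function.Involutive β)
    (hα' : ∀ x, α x ≠ x) (hβ' : ∀ x, β x ≠ x) (x₀ : H)
    (hconn : ∀ S : Set H, x₀ ∈ S → (∀ x ∈ S, α x ∈ S) → (∀ x ∈ S, β x ∈ S) → ∀ x, x ∈ S)
    {m : ℕ} (hcard : Fintype.card H = 2 * m) :
    ∃ w : ℕ → H, w 0 = x₀ ∧ (∀ j, w (j + 1) = β (α (w j))) ∧
      (∀ i < m, ∀ j < m, w i = w j → i = j) ∧ (∀ i j, w i ≠ α (w j)) ∧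
      (∀ x, ∃ j < m, x = w j ∨ x = α (w j)) ∧ w m = x₀ := by
  set φ : H → H := fun x => β (α x) with hφ
  set w : ℕ → H := fun j => φ^[j] x₀ with hw
  have hφinj : Function.Injective φ := hβ.injective.comp hα.injective
  have hw0 : w 0 = x₀ := rfl
  have hws : ∀ j, w (j + 1) = β (α (w j)) := fun j => by
    simp only [hw]
    rw [Function.iterate_succ_apply']
  have hdis : ∀ d i j, i = j + d → w i ≠ α (w j) := by
    intro d
    induction d using Nat.strong_induction_on with
    | _ d ih =>
      intro i j hij h
      rcases Nat.lt_or_ge d 2 with hd | hd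
      · rcases Nat.lt_or_ge d 1 with hd' | hd'
        · have : i = j := by omega
          rw [this] at h
          exact hα' _ h.symm
        · have : i = j + 1 := by omega
          rw [this, hws] at h
          exact hβ' _ h
      · obtain ⟨i', rfl⟩ : ∃ i', i = i' + 1 := ⟨i - 1, by omega⟩
        have h1 : w (j + 1) = α (w i') := by
          rw [hws j, ← h, hws i', hβ]
        have h2 : w i' = α (w (j + 1)) := by rw [h1, hα]
        exact ih (d - 2) (by omega) i' (j + 1) (by omega) h2
  have hdisj : ∀ i j, w i ≠ α (w j) := by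
    intro i j h
    rcases le_total j i with hij | hij
    · exact hdis (i - j) i j (by omega) h
    · refine hdis (j - i) j i (by omega) ?_
      rw [h, hα]
  have hper : x₀ ∈ Function.periodicPts φ := hφinj.mem_periodicPts x₀
  set N := Function.minimalPeriod φ x₀ with hN
  have hNpos : 0 < N := Function.minimalPeriod_pos_of_mem_periodicPts hper
  have hwN : w N = x₀ := Function.isPeriodicPt_minimalPeriod φ x₀
  have hmod : ∀ j, w (j % N) = w j := fun j => Function.iterate_mod_minimalPeriod_eq
  have hcov : ∀ x, ∃ j, x = w j ∨ x = α (w j) := by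
    refine hconn {x | ∃ j, x = w j ∨ x = α (w j)} ⟨0, Or.inl rfl⟩ ?_ ?_
    · rintro x ⟨j, rfl | rfl⟩
      · exact ⟨j, Or.inr rfl⟩
      · exact ⟨j, Or.inl (hα _)⟩
    · rintro x ⟨j, rfl | rfl⟩
      · have hj : ∃ j', w j = w (j' + 1) := by
          rcases Nat.eq_zero_or_pos j with rfl | hj
          · refine ⟨N - 1, ?_⟩
            have : N - 1 + 1 = N := by omega
            rw [this, hwN, hw0]
          · refine ⟨j - 1, ?_⟩
            have : j - 1 + 1 = j := by omega
            rw [this]
        obtain ⟨j', hj'⟩ := hj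
        refine ⟨j', Or.inr ?_⟩
        rw [hj', hws, hβ]
      · exact ⟨j + 1, Or.inl (hws j).symm⟩
  have hinj : ∀ i < N, ∀ j < N, w i = w j → i = j := by
    intro i hi j hj h
    exact Function.iterate_injOn_Iio_minimalPeriod hi hj h
  have hcov' : ∀ x, ∃ j < N, x = w j ∨ x = α (w j) := by
    intro x
    obtain ⟨j, hj⟩ := hcov x
    refine ⟨j % N, Nat.mod_lt _ hNpos, ?_⟩
    rw [hmod]
    exact hj
  have hNm : N = m := by
    have h1 : (Finset.univ : Finset H) =
        (Finset.range N).image w ∪ (Finset.range N).image (fun j => α (w j)) := by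
      ext x
      simp only [Finset.mem_univ, Finset.mem_union, Finset.mem_image, Finset.mem_range, true_iff]
      obtain ⟨j, hj, h | h⟩ := hcov' x
      · exact Or.inl ⟨j, hj, h.symm⟩
      · exact Or.inr ⟨j, hj, h.symm⟩
    have h2 : Disjoint ((Finset.range N).image w) ((Finset.range N).image (fun j => α (w j))) := by
      rw [Finset.disjoint_left]
      intro x hx hx'
      obtain ⟨i, -, rfl⟩ := Finset.mem_image.1 hx
      obtain ⟨j, -, h⟩ := Finset.mem_image.1 hx'
      exact hdisj i j h.symm
    have h3 : ((Finset.range N).image w).card = N := by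
      rw [Finset.card_image_of_injOn, Finset.card_range]
      intro i hi j hj h
      exact hinj i (by simpa using hi) j (by simpa using hj) h
    have h4 : ((Finset.range N).image (fun j => α (w j))).card = N := by
      rw [Finset.card_image_of_injOn, Finset.card_range]
      intro i hi j hj h
      exact hinj i (by simpa using hi) j (by simpa using hj) (hα.injective h)
    have h5 := Finset.card_union_of_disjoint h2
    rw [← h1, h3, h4, Finset.card_univ, hcard] at h5
    omega
  refine ⟨w, hw0, hws, ?_, hdisj, ?_, ?_⟩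
  · rw [← hNm]; exact hinj
  · rw [← hNm]; exact hcov'
  · rw [← hNm]; exact hwN

end Pool.Agent.Helper16.Knotoid
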