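import Pool.Agent.Helper16.Knotoid.Gauss
import Pool.Agent.Helper16.Knotoid.Walk

set_option autoImplicit false

/-!
# Half-edges of a Gauss diagram and the walk along a state with one component
-/

namespace Pool.Agent.Helper16.Knotoid

open Module

/-- half-edges: `(c, i)` the four half-edges at the crossing `c` in counterclockwise order, starting
with the outgoing end of the over-strand; the tail (`false`) and the head (`true`) -/
abbrev Half (n : ℕ) := (Fin n × ZMod 4) ⊕ Bool

/-- whether a half-edge is directed away from its crossing -/
def outF (s : Bool) (i : ZMod 4) : Bool :=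
  decide (i = 0) || (decide (i = 1) && s) || (decide (i = 3) && !s)

theorem outF_inj : ∀ (s : Bool) (i j : ZMod 4), outF s i = outF s j →
    decide (i = 0 ∨ i = 2) = decide (j = 0 ∨ j = 2) → i = j := by decide

theorem outF_add_two : ∀ (s : Bool) (i : ZMod 4), outF s (i + 2) = !outF s i := by decide

/-- the constant of the smoothing involution `i ↦ κ - i` -/
def kap (b : Bool) : ZMod 4 := if b then 3 else 1

theorem kap_sub_ne : ∀ (b : Bool) (i : ZMod 4), kap b - i ≠ i := by decide

theorem outF_kap : ∀ (s b : Bool) (i : ZMod 4), (outF s i = outF s (kap b - i)) ↔ b ≠ s := by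
  decide

/-- the smoothing involution on half-edges -/
def bet {n : ℕ} (s : Fin n → Bool) : Half n → Half n
  | Sum.inl (c, i) => Sum.inl (c, kap (s c) - i)
  | Sum.inr b => Sum.inr (!b)

theorem bet_bet {n : ℕ} (s : Fin n → Bool) : Function.Involutive (bet s) := by
  rintro (⟨c, i⟩ | b)
  · simp [bet]
  · simp [bet]

theorem bet_ne {n : ℕ} (s : Fin n → Bool) (x : Half n) : bet s x ≠ x := by
  rcases x with ⟨c, i⟩ | b
  · intro h
    simp only [bet, Sum.inl.injEq, Prod.mk.injEq, true_and] at h
    exact kap_sub_ne _ _ h
  · intro h
    simp only [bet, Sum.inr.injEq] at h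
    cases b <;> simp at h

namespace GaussDiagram

variable {n : ℕ} (D : GaussDiagram n)

/-- the passage of a half-edge -/
def pass (c : Fin n) (i : ZMod 4) : Fin (2 * n) := D.pos (c, decide (i = 0 ∨ i = 2))

/-- the end of an edge at a half-edge: `(k, false)` is the start and `(k, true)` the end of the
edge `k` -/
def ends : Half n → Fin (2 * n + 1) × Bool
  | Sum.inl (c, i) => if outF (D.sign c) i then ((D.pass c i).succ, false)
      else ((D.pass c i).castSucc, true)
  | Sum.inr false => (0, false)
  | Sum.inr true => (Fin.last (2 * n), true)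

theorem ends_injective : Function.Injective D.ends := by
  have hin : ∀ (c : Fin n) (i : ZMod 4), D.ends (Sum.inl (c, i)) ≠ (0, false) := by
    intro c i h
    simp only [ends] at h
    split_ifs at h
    · simp only [Prod.mk.injEq, and_true] at h
      exact Fin.succ_ne_zero _ h
    · simp at h
  have hout : ∀ (c : Fin n) (i : ZMod 4), D.ends (Sum.inl (c, i)) ≠ (Fin.last (2 * n), true) := by
    intro c i h
    simp only [ends] at h
    split_ifs at h
    · simp at h
    · simp only [Prod.mk.injEq, and_true] at h
      exact (Fin.castSucc_lt_last _).ne h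
  have hpass : ∀ (c c' : Fin n) (i i' : ZMod 4), outF (D.sign c) i = outF (D.sign c') i' →
      D.pass c i = D.pass c' i' → (c, i) = (c', i') := by
    intro c c' i i' h1 h2
    have h3 := D.pos.injective h2
    simp only [Prod.mk.injEq] at h3
    obtain ⟨rfl, h4⟩ := h3
    rw [outF_inj _ _ _ h1 h4]
  rintro (⟨c, i⟩ | b) (⟨c', i'⟩ | b') h
  · by_cases h1 : outF (D.sign c) i = true
    · by_cases h2 : outF (D.sign c') i' = true
      · simp only [ends, h1, h2, if_true, Prod.mk.injEq, and_true] at h
        rw [hpass c c' i i' (by rw [h1, h2]) (Fin.succ_injective _ h)]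
      · simp [ends, h1, h2] at h
    · by_cases h2 : outF (D.sign c') i' = true
      · simp [ends, h1, h2] at h
      · simp only [ends, h1, h2, if_false, Prod.mk.injEq, and_true, Bool.false_eq_true] at h
        rw [hpass c c' i i' (by rw [Bool.not_eq_true] at h1 h2; rw [h1, h2])
          (Fin.castSucc_injective _ h)]
  · cases b'
    · exact absurd h (hin c i)
    · exact absurd h (hout c i)
  · cases b
    · exact absurd h.symm (hin c' i')
    · exact absurd h.symm (hout c' i')
  · cases b <;> cases b' <;> simp [ends] at h <;> rfl

theorem card_half : Fintype.card (Half n) = 2 * (2 * n + 1) := by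
  simp [Half, ZMod.card]
  omega

theorem ends_bijective : Function.Bijective D.ends := by
  rw [Fintype.bijective_iff_injective_and_card]
  refine ⟨D.ends_injective, ?_⟩
  rw [card_half]
  simp
  ring

/-- half-edges as ends of edges -/
noncomputable def E : Half n ≃ Fin (2 * n + 1) × Bool := Equiv.ofBijective _ D.ends_bijective

theorem E_apply (x : Half n) : D.E x = D.ends x := rfl

/-- the other end of the edge -/
noncomputable def alp (x : Half n) : Half n := D.E.symm ((D.E x).1, !(D.E x).2)

/-- the edge of a half-edge -/
noncomputable def edge (x : Half n) : Fin (2 * n + 1) := (D.E x).1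

theorem E_alp (x : Half n) : D.E (D.alp x) = ((D.E x).1, !(D.E x).2) := by
  unfold alp
  rw [Equiv.apply_symm_apply]

theorem edge_alp (x : Half n) : D.edge (D.alp x) = D.edge x := by
  unfold edge
  rw [E_alp]

theorem alp_alp : Function.Involutive D.alp := by
  intro x
  apply D.E.injective
  rw [E_alp, E_alp]
  simp

theorem alp_ne (x : Half n) : D.alp x ≠ x := by
  intro h
  have h1 := congrArg D.E h
  rw [E_alp] at h1
  have h2 := congrArg Prod.snd h1
  simp at h2

theorem eq_or_eq_alp {x y : Half n} (h : D.edge x = D.edge y) : x = y ∨ x = D.alp y := by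
  by_cases h1 : (D.E x).2 = (D.E y).2
  · left
    exact D.E.injective (Prod.ext h h1)
  · right
    apply D.E.injective
    rw [E_alp]
    refine Prod.ext h ?_
    simp only
    revert h1
    cases (D.E x).2 <;> cases (D.E y).2 <;> simp

theorem edge_zero (c : Fin n) : D.edge (Sum.inl (c, 0)) = (D.overPass c).succ := rfl

theorem edge_two (c : Fin n) : D.edge (Sum.inl (c, 2)) = (D.overPass c).castSucc := by
  unfold edge
  rw [E_apply]
  have h1 : outF (D.sign c) 2 = false := by cases D.sign c <;> decide
  simp only [ends, h1, Bool.false_eq_true, if_false]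
  rfl

theorem edge_one (c : Fin n) : D.edge (Sum.inl (c, 1)) =
    if D.sign c then (D.underPass c).succ else (D.underPass c).castSucc := by
  unfold edge
  rw [E_apply]
  have h1 : outF (D.sign c) 1 = D.sign c := by cases D.sign c <;> decide
  simp only [ends, h1]
  split_ifs <;> rfl

theorem edge_three (c : Fin n) : D.edge (Sum.inl (c, 3)) =
    if D.sign c then (D.underPass c).castSucc else (D.underPass c).succ := by
  unfold edge
  rw [E_apply]
  have h1 : outF (D.sign c) 3 = !D.sign c := by cases D.sign c <;> decide
  simp only [ends, h1]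
  cases D.sign c <;> rfl

theorem zmod4_cases (i : ZMod 4) : i = 0 ∨ i = 1 ∨ i = 2 ∨ i = 3 := by
  revert i
  decide

/-- compatibility with a state in terms of half-edges -/
theorem mem_compat_join {s : Fin n → Bool} {φ : Fin (2 * n + 1) → ZMod 2} :
    φ ∈ compat (D.Join s) ↔
      ∀ c i, φ (D.edge (Sum.inl (c, i))) = φ (D.edge (Sum.inl (c, kap (s c) - i))) := by
  have k0 : (3 : ZMod 4) - 0 = 3 := by decide
  have k1 : (3 : ZMod 4) - 1 = 2 := by decide
  have k2 : (3 : ZMod 4) - 2 = 1 := by decide
  have k3 : (3 : ZMod 4) - 3 = 0 := by decide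
  have k0' : (1 : ZMod 4) - 0 = 1 := by decide
  have k1' : (1 : ZMod 4) - 1 = 0 := by decide
  have k2' : (1 : ZMod 4) - 2 = 3 := by decide
  have k3' : (1 : ZMod 4) - 3 = 2 := by decide
  constructor
  · intro hφ c i
    rw [mem_compat] at hφ
    rcases hs : s c <;> rcases hsc : D.sign c
    · -- oriented, negative
      have h1 := hφ _ _ (Join.oriented₁ c (by rw [hs, hsc]))
      have h2 := hφ _ _ (Join.oriented₂ c (by rw [hs, hsc]))
      rcases zmod4_cases i with rfl | rfl | rfl | rfl <;>
        simp only [kap, Bool.false_eq_true, if_false, k0', k1', k2', k3', edge_zero, edge_one,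
          edge_two, edge_three, hsc, h1, h2]
    · have h1 := hφ _ _ (Join.unoriented₁ c (by rw [hs, hsc]; simp))
      have h2 := hφ _ _ (Join.unoriented₂ c (by rw [hs, hsc]; simp))
      rcases zmod4_cases i with rfl | rfl | rfl | rfl <;>
        simp only [kap, Bool.false_eq_true, if_false, if_true, k0', k1', k2', k3', edge_zero,
          edge_one, edge_two, edge_three, hsc, h1, h2]
    · have h1 := hφ _ _ (Join.unoriented₁ c (by rw [hs, hsc]; simp))
      have h2 := hφ _ _ (Join.unoriented₂ c (by rw [hs, hsc]; simp))
      rcases zmod4_cases i with rfl | rfl | rfl | rfl <;>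
        simp only [kap, Bool.false_eq_true, if_false, if_true, k0, k1, k2, k3, edge_zero,
          edge_one, edge_two, edge_three, hsc, h1, h2]
    · have h1 := hφ _ _ (Join.oriented₁ c (by rw [hs, hsc]))
      have h2 := hφ _ _ (Join.oriented₂ c (by rw [hs, hsc]))
      rcases zmod4_cases i with rfl | rfl | rfl | rfl <;>
        simp only [kap, if_true, k0, k1, k2, k3, edge_zero, edge_one,
          edge_two, edge_three, hsc, h1, h2]
  · intro h a b hab
    cases hab with
    | oriented₁ c hc =>
      have h0 := h c 0
      have h2 := h c 2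
      rw [hc] at h0 h2
      rcases hsc : D.sign c
      · simp only [hsc, kap, Bool.false_eq_true, if_false, k0', k2', edge_zero, edge_one, edge_two,
          edge_three] at h0 h2
        exact h2
      · simp only [hsc, kap, if_true, k0, k2, edge_zero, edge_one, edge_two,
          edge_three] at h0 h2
        exact h2
    | oriented₂ c hc =>
      have h0 := h c 0
      rw [hc] at h0
      rcases hsc : D.sign c
      · simp only [hsc, kap, Bool.false_eq_true, if_false, k0', edge_zero, edge_one] at h0
        exact h0.symm
      · simp only [hsc, kap, if_true, k0, edge_zero, edge_three] at h0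
        exact h0.symm
    | unoriented₁ c hc =>
      have h2 := h c 2
      rcases hsc : D.sign c
      · have hs : s c = true := by rw [hsc] at hc; simpa using hc
        simp only [hs, hsc, kap, Bool.false_eq_true, if_false, if_true, k2, edge_one,
          edge_two] at h2
        exact h2
      · have hs : s c = false := by rw [hsc] at hc; simpa using hc
        simp only [hs, hsc, kap, Bool.false_eq_true, if_false, if_true, k2', edge_three,
          edge_two] at h2
        exact h2
    | unoriented₂ c hc =>
      have h0 := h c 0
      rcases hsc : D.sign c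
      · have hs : s c = true := by rw [hsc] at hc; simpa using hc
        simp only [hs, hsc, kap, Bool.false_eq_true, if_false, if_true, k0, edge_zero,
          edge_three] at h0
        exact h0
      · have hs : s c = false := by rw [hsc] at hc; simpa using hc
        simp only [hs, hsc, kap, Bool.false_eq_true, if_false, if_true, k0', edge_zero,
          edge_one] at h0
        exact h0

/-- compatibility with the corners in terms of half-edges: the side of an edge to the right when
leaving a crossing along a half-edge is identified with the half-edge -/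
theorem corner_half {ψ : Fin (2 * n + 1) × Bool → ZMod 2} (hψ : ψ ∈ compat D.Corner) :
    (∀ c i, ψ (D.E (D.alp (Sum.inl (c, i)))) = ψ (D.E (Sum.inl (c, i + 1)))) ∧
      ψ (D.E (D.alp (Sum.inr true))) = ψ (D.E (Sum.inr true)) := by
  rw [mem_compat] at hψ
  have o0 : ∀ s, outF s 0 = true := by decide
  have o1 : ∀ s, outF s 1 = s := by decide
  have o2 : ∀ s, outF s 2 = false := by decide
  have o3 : ∀ s, outF s 3 = !s := by decide
  have p0 : decide ((0 : ZMod 4) = 0 ∨ (0 : ZMod 4) = 2) = true := by decide
  have p1 : decide ((1 : ZMod 4) = 0 ∨ (1 : ZMod 4) = 2) = false := by decide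
  have p2 : decide ((2 : ZMod 4) = 0 ∨ (2 : ZMod 4) = 2) = true := by decide
  have p3 : decide ((3 : ZMod 4) = 0 ∨ (3 : ZMod 4) = 2) = false := by decide
  have a0 : (0 : ZMod 4) + 1 = 1 := by decide
  have a1 : (1 : ZMod 4) + 1 = 2 := by decide
  have a2 : (2 : ZMod 4) + 1 = 3 := by decide
  have a3 : (3 : ZMod 4) + 1 = 0 := by decide
  refine ⟨fun c i => ?_, ?_⟩
  · have h1 := hψ _ _ (Corner.sw c)
    have h2 := hψ _ _ (Corner.nw c)
    have h3 := hψ _ _ (Corner.ne c)
    have h4 := hψ _ _ (Corner.se c)
    unfold fst snd at h1 h2 h3 h4
    rw [E_alp]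
    simp only [E_apply]
    rcases hsc : D.sign c <;> rcases zmod4_cases i with rfl | rfl | rfl | rfl <;>
      simp only [ends, a0, a1, a2, a3, hsc, o0, o1, o2, o3, Bool.false_eq_true, if_false, if_true,
        pass, p0, p1, p2, p3, Bool.not_true, Bool.not_false] at h1 h2 h3 h4 ⊢ <;>
      first
      | exact h1
      | exact h2
      | exact h3
      | exact h4
      | exact h1.symm
      | exact h2.symm
      | exact h3.symm
      | exact h4.symm
  · rw [E_alp]
    simp only [E_apply, ends]
    exact (hψ _ _ Corner.head).symm

end GaussDiagram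

end Pool.Agent.Helper16.Knotoid
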