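import Pool.Agent.Helper16.Knotoid.HeightOne

set_option autoImplicit false

/-!
# The normalized bracket detects the Jones polynomials of both closures in height one
-/

namespace Pool.Agent.Helper16.Knotoid

open LaurentPolynomial Module

/-- the exponents are congruent to `r` modulo `4` -/
def Cls (r : ℤ) (p : LaurentPolynomial ℤ) : Prop := ∀ k, ¬ (4 : ℤ) ∣ k - r → p.coeff k = 0

theorem Cls.sum {α : Type*} {s : Finset α} {r : ℤ} {p : α → LaurentPolynomial ℤ}
    (h : ∀ a ∈ s, Cls r (p a)) : Cls r (∑ a ∈ s, p a) := by
  intro k hk
  rw [coeff_sum_apply]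
  exact Finset.sum_eq_zero fun a ha => h a ha k hk

theorem Cls.zero (r : ℤ) : Cls r 0 := fun _ _ => rfl

theorem coeff_dd_pow_mod (m : ℕ) : ∀ j : ℤ, ¬ (4 : ℤ) ∣ j - 2 * m → (dd ^ m).coeff j = 0 := by
  induction m with
  | zero =>
    intro j hj
    rw [coeff_dd_pow_zero, if_neg]
    rintro rfl
    simp at hj
  | succ m ih =>
    intro j hj
    push_cast at hj
    rw [coeff_dd_pow_succ, ih _ (by omega), ih _ (by omega)]
    simp

namespace GaussDiagram

variable {n : ℕ}

theorem ex_mod (D : GaussDiagram n) (s : Fin n → Bool) :
    (4 : ℤ) ∣ D.ex s - 2 * ((n : ℤ) - (D.Us s).card) := by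
  have h1 : 2 * ((n : ℤ) - (D.Us s).card) = ∑ c : Fin n, (if s c = D.sign c then 2 else 0) := by
    have h2 : ∀ c : Fin n, (if s c = D.sign c then (2 : ℤ) else 0) =
        2 * (1 - (if s c ≠ D.sign c then 1 else 0)) := by
      intro c
      by_cases h : s c = D.sign c
      · rw [if_pos h, if_neg (by simpa using h)]
        norm_num
      · rw [if_neg h, if_pos h]
        norm_num
    simp only [h2]
    rw [← Finset.mul_sum, Finset.sum_sub_distrib, Finset.sum_boole]
    simp only [Finset.sum_const, Finset.card_univ, Fintype.card_fin, nsmul_eq_mul, mul_one]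
    rfl
  rw [h1]
  unfold ex
  rw [← Finset.sum_sub_distrib]
  refine Finset.dvd_sum fun c _ => ?_
  unfold sgn
  by_cases h : s c = D.sign c
  · rw [if_pos h, if_pos h]
    cases D.sign c
    · norm_num
    · norm_num
  · rw [if_neg h, if_neg h]
    cases D.sign c
    · norm_num
    · norm_num

theorem coeff_term' (D : GaussDiagram n) (s : Fin n → Bool) (m : ℕ) (k : ℤ)
    (hk : ¬ (4 : ℤ) ∣ k + D.ex s - 2 * m) :
    ((∏ c, D.wt c (s c)) * dd ^ m).coeff k = 0 := by
  have h1 : (∏ c, D.wt c (s c)) * dd ^ m =
      C ((-1) ^ D.writhe.natAbs) * (T (-D.ex s) * dd ^ m) := by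
    rw [prod_wt, ← ex_eq, map_pow, map_neg, map_one]
    have h2 : (T (-3 * D.writhe) * T (stateSign s) : LaurentPolynomial ℤ) =
        T (-(3 * D.writhe - stateSign s)) := by
      rw [← T_add]
      congr 1
      ring
    rw [← h2]
    ring
  rw [h1]
  have h4 : ∀ (a : ℤ) (q : LaurentPolynomial ℤ), (C a * q).coeff k = a * q.coeff k := by
    intro a q
    rw [← smul_eq_C_mul]
    rfl
  rw [h4, coeff_T_mul, coeff_dd_pow_mod, mul_zero]
  have : k - -D.ex s - 2 * (m : ℤ) = k + D.ex s - 2 * m := by ring
  rw [this]
  exact hk

/-- the parity of the number of components of a state -/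
theorem parity (E : GaussDiagram n) (hD : E.Planar) (hR : E.tailRegion = E.headRegion)
    (z : Fin n → Bool) :
    ((E.comps z + (E.Us z).card : ℕ) : ZMod 2) = (E.comps E.sign : ZMod 2) := by
  generalize hk : (E.Us z).card = k
  induction k generalizing z with
  | zero =>
    have h1 : z = E.sign := by
      funext c
      by_contra hne
      have : c ∈ E.Us z := Finset.mem_filter.2 ⟨Finset.mem_univ c, hne⟩
      rw [Finset.card_eq_zero.1 hk] at this
      exact absurd this (Finset.notMem_empty c)
    rw [h1, add_zero]
  | succ k ih =>
    obtain ⟨c, hc⟩ : (E.Us z).Nonempty := Finset.card_pos.1 (by omega)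
    have hne : z c ≠ E.sign c := (Finset.mem_filter.1 hc).2
    have h1 : E.Us (swc z c) = (E.Us z).erase c := by
      ext f
      unfold Us swc
      rw [Finset.mem_erase, Finset.mem_filter, Finset.mem_filter]
      by_cases hf : f = c
      · subst hf
        rw [Function.update_self]
        constructor
        · rintro ⟨-, h⟩
          exfalso
          apply h
          revert hne
          cases z f <;> cases E.sign f <;> simp
        · rintro ⟨h, -⟩
          exact absurd rfl h
      · rw [Function.update_of_ne hf]
        simp [hf]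
    have h2 : (E.Us (swc z c)).card = k := by
      rw [h1, Finset.card_erase_of_mem hc, hk]
      rfl
    have h3 := ih (swc z c) h2
    rw [← h3]
    have h4 := E.switch_dim hD hR z c
    have h5 : E.comps z + (k + 1) = E.comps (swc z c) + k ∨
        E.comps z + (k + 1) = E.comps (swc z c) + k + 2 := by omega
    rcases h5 with h5 | h5
    · rw [h5]
    · rw [h5]
      push_cast
      have : (2 : ZMod 2) = 0 := by decide
      rw [this, add_zero]

/-- part of the state sum -/
noncomputable def F (D : GaussDiagram n) (q : (Fin n → Bool) → Bool) (j : Bool) :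
    LaurentPolynomial ℤ :=
  ∑ s, if q s = j then (∏ c, D.wt c (s c)) * dd ^ (D.comps s - 1) else 0

theorem f_eq_F (D : GaussDiagram n) (q : (Fin n → Bool) → Bool) :
    D.normalizedBracket = D.F q false + D.F q true := by
  rw [f_eq]
  unfold F
  rw [← Finset.sum_add_distrib]
  refine Finset.sum_congr rfl fun s _ => ?_
  cases q s
  · simp
  · simp

theorem f_ext_eq_F {D : GaussDiagram n} {E : GaussDiagram (n + 1)} (h : IsExt D E)
    (q : (Fin n → Bool) → Bool)
    (h1 : ∀ s, q s = true → E.comps (ext s (E.sign (Fin.last n))) = D.comps s ∧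
      E.comps (ext s (!E.sign (Fin.last n))) = D.comps s + 1)
    (h2 : ∀ s, q s = false → E.comps (ext s (E.sign (Fin.last n))) = D.comps s + 1 ∧
      E.comps (ext s (!E.sign (Fin.last n))) = D.comps s) :
    E.normalizedBracket = D.F q false + T (-6 * E.sgn (Fin.last n)) * D.F q true := by
  rw [f_ext h]
  unfold F
  rw [Finset.mul_sum, ← Finset.sum_add_distrib]
  refine Finset.sum_congr rfl fun s _ => ?_
  have hpos := D.comps_pos s
  have hk : D.comps s + 1 - 1 = (D.comps s - 1) + 1 := by omega
  cases hq : q s
  · obtain ⟨a, b⟩ := h2 s hq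
    rw [a, b, hk, last_or]
    simp
  · obtain ⟨a, b⟩ := h1 s hq
    rw [a, b, hk, last_un]
    simp only [Bool.true_eq_false, if_false, if_true]
    ring

theorem comps_congr {E E' : GaussDiagram n} (hl : ∀ c f, E'.lam c f = E.lam c f)
    {z z' : Fin n → Bool} (hz : ∀ c, z' c = E'.sign c ↔ z c = E.sign c) :
    E'.comps z' = E.comps z := by
  have h1 := E'.two_pow_comps (R := ℤ) z'
  have h2 := E.two_pow_comps (R := ℤ) z
  have h3 : ∀ x : Fin n → ZMod 2,
      (∏ c, (if Lv E'.lam x c + (if z' c = E'.sign c then 0 else x c) = 0 then (1 : ℤ) else 0)) =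
      ∏ c, (if Lv E.lam x c + (if z c = E.sign c then 0 else x c) = 0 then (1 : ℤ) else 0) := by
    intro x
    refine Finset.prod_congr rfl fun c _ => ?_
    have h4 : Lv E'.lam x c = Lv E.lam x c := by
      unfold Lv
      exact Finset.sum_congr rfl fun f _ => by rw [hl]
    have h5 : (if z' c = E'.sign c then (0 : ZMod 2) else x c) =
        if z c = E.sign c then 0 else x c := if_congr (hz c) rfl rfl
    rw [h4, h5]
  simp only [h3] at h1
  rw [← h2] at h1
  have h5 : (2 : ℕ) ^ (E'.comps z' - 1) = 2 ^ (E.comps z - 1) := by exact_mod_cast h1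
  have h6 := Nat.pow_right_injective (le_refl 2) h5
  have h7 := E'.comps_pos z'
  have h8 := E.comps_pos z
  omega

/-- the two extensions of a diagram by a last crossing differing by a crossing change -/
theorem height_one {D : GaussDiagram n} {E E' : GaussDiagram (n + 1)} (h : IsExt D E)
    (h' : IsExt D E') (hl : ∀ c f, E'.lam c f = E.lam c f)
    (hs : E'.sign (Fin.last n) = !E.sign (Fin.last n)) (hD : E.Planar)
    (hR : E.tailRegion = E.headRegion) :
    D.normalizedBracket = 1 ↔ E.normalizedBracket = 1 ∧ E'.normalizedBracket = 1 := by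
  set q : (Fin n → Bool) → Bool :=
    fun s => decide (E.comps (ext s (E.sign (Fin.last n))) = D.comps s) with hq
  have h1 : ∀ s, q s = true → E.comps (ext s (E.sign (Fin.last n))) = D.comps s ∧
      E.comps (ext s (!E.sign (Fin.last n))) = D.comps s + 1 := by
    intro s hqs
    have h2 : E.comps (ext s (E.sign (Fin.last n))) = D.comps s := of_decide_eq_true hqs
    have h3 := comps_ext h hD hR s (E.sign (Fin.last n))
    omega
  have h2 : ∀ s, q s = false → E.comps (ext s (E.sign (Fin.last n))) = D.comps s + 1 ∧
      E.comps (ext s (!E.sign (Fin.last n))) = D.comps s := by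
    intro s hqs
    have h2 : ¬ E.comps (ext s (E.sign (Fin.last n))) = D.comps s := of_decide_eq_false hqs
    have h3 := comps_ext h hD hR s (E.sign (Fin.last n))
    omega
  -- the states of `E'`
  have hc : ∀ s, E'.comps (ext s (E'.sign (Fin.last n))) =
      E.comps (ext s (E.sign (Fin.last n))) := by
    intro s
    refine comps_congr hl fun c => ?_
    refine Fin.lastCases ?_ (fun c => ?_) c
    · rw [ext_last, ext_last]
      simp
    · rw [ext_castSucc, ext_castSucc, h.sign, h'.sign]
  have hc' : ∀ s, E'.comps (ext s (!E'.sign (Fin.last n))) =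
      E.comps (ext s (!E.sign (Fin.last n))) := by
    intro s
    refine comps_congr hl fun c => ?_
    refine Fin.lastCases ?_ (fun c => ?_) c
    · rw [ext_last, ext_last]
      simp
    · rw [ext_castSucc, ext_castSucc, h.sign, h'.sign]
  have fE := f_ext_eq_F h q h1 h2
  have fE' := f_ext_eq_F h' q (fun s hqs => by rw [hc, hc']; exact h1 s hqs)
    (fun s hqs => by rw [hc, hc']; exact h2 s hqs)
  have fD := D.f_eq_F q
  have hsg : E'.sgn (Fin.last n) = -E.sgn (Fin.last n) := by
    unfold sgn
    rw [hs]
    cases E.sign (Fin.last n) <;> simp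
  constructor
  · intro hf
    -- classes of exponents
    set r : ℤ := 2 * ((E.comps E.sign : ℤ) - n) with hr
    have hcl : ∀ s, ∀ k : ℤ, ¬ (4 : ℤ) ∣ k - (r + if q s = true then 2 else 0) →
        ((∏ c, D.wt c (s c)) * dd ^ (D.comps s - 1)).coeff k = 0 := by
      intro s k hk
      refine D.coeff_term' s _ k ?_
      have hpos := D.comps_pos s
      have e1 := D.ex_mod s
      have hpar : (D.comps s + 1 + (D.Us s).card + (if q s = true then 1 else 0)) % 2 =
          E.comps E.sign % 2 := by
        cases hqs : q s
        · have h3 := E.parity hD hR (ext s (E.sign (Fin.last n)))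
          rw [(h2 s hqs).1, ZMod.natCast_eq_natCast_iff'] at h3
          have h4 : (E.Us (ext s (E.sign (Fin.last n)))).card = (D.Us s).card := by
            have : E.Us (ext s (E.sign (Fin.last n))) = (D.Us s).map Fin.castSuccEmb := by
              ext c
              unfold Us
              rw [Finset.mem_filter, Finset.mem_map]
              constructor
              · rintro ⟨-, hc⟩
                revert hc
                refine Fin.lastCases ?_ (fun c => ?_) c
                · intro hc
                  rw [ext_last] at hc
                  exact absurd rfl hc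
                · intro hc
                  rw [ext_castSucc, h.sign] at hc
                  exact ⟨c, Finset.mem_filter.2 ⟨Finset.mem_univ _, hc⟩, rfl⟩
              · rintro ⟨c, hc, rfl⟩
                refine ⟨Finset.mem_univ _, ?_⟩
                show ext s (E.sign (Fin.last n)) c.castSucc ≠ E.sign c.castSucc
                rw [ext_castSucc, h.sign]
                exact (Finset.mem_filter.1 hc).2
            rw [this, Finset.card_map]
          rw [h4] at h3
          simp only [Bool.false_eq_true, if_false]
          omega
        · have h3 := E.parity hD hR (ext s (!E.sign (Fin.last n)))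
          rw [(h1 s hqs).2, ZMod.natCast_eq_natCast_iff'] at h3
          have h4 : (E.Us (ext s (!E.sign (Fin.last n)))).card = (D.Us s).card + 1 := by
            have : E.Us (ext s (!E.sign (Fin.last n))) =
                insert (Fin.last n) ((D.Us s).map Fin.castSuccEmb) := by
              ext c
              unfold Us
              rw [Finset.mem_filter, Finset.mem_insert, Finset.mem_map]
              constructor
              · rintro ⟨-, hc⟩
                revert hc
                refine Fin.lastCases ?_ (fun c => ?_) c
                · intro _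
                  exact Or.inl rfl
                · intro hc
                  rw [ext_castSucc, h.sign] at hc
                  exact Or.inr ⟨c, Finset.mem_filter.2 ⟨Finset.mem_univ _, hc⟩, rfl⟩
              · rintro (rfl | ⟨c, hc, rfl⟩)
                · refine ⟨Finset.mem_univ _, ?_⟩
                  rw [ext_last]
                  simp
                · refine ⟨Finset.mem_univ _, ?_⟩
                  show ext s (!E.sign (Fin.last n)) c.castSucc ≠ E.sign c.castSucc
                  rw [ext_castSucc, h.sign]
                  exact (Finset.mem_filter.1 hc).2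
            rw [this, Finset.card_insert_of_notMem, Finset.card_map]
            intro hmem
            rw [Finset.mem_map] at hmem
            obtain ⟨c, -, hc⟩ := hmem
            exact (Fin.castSucc_lt_last c).ne hc
          rw [h4] at h3
          simp only [if_true]
          omega
      have hm : ((D.comps s - 1 : ℕ) : ℤ) = (D.comps s : ℤ) - 1 := by
        push_cast [hpos]
        ring
      rw [hm]
      rw [hr] at hk
      revert hk hpar
      split_ifs <;> intro hpar hk <;> omega
    have hF0 : Cls r (D.F q false) := by
      refine Cls.sum fun s _ k hk => ?_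
      by_cases hqs : q s = false
      · rw [if_pos hqs]
        refine hcl s k ?_
        rw [if_neg (by rw [hqs]; decide), add_zero]
        exact hk
      · rw [if_neg hqs]
        rfl
    have hF1 : Cls (r + 2) (D.F q true) := by
      refine Cls.sum fun s _ k hk => ?_
      by_cases hqs : q s = true
      · rw [if_pos hqs]
        refine hcl s k ?_
        rw [if_pos hqs]
        exact hk
      · rw [if_neg hqs]
        rfl
    rw [hf] at fD
    have hco : ∀ k : ℤ, (1 : LaurentPolynomial ℤ).coeff k = if (0 : ℤ) = k then 1 else 0 := by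
      intro k
      rw [← T_zero, T_apply]
    have hr4 : (4 : ℤ) ∣ r := by
      by_contra hr4
      -- then `F false = 0` and `F true = 1`
      have h0 : D.F q false = 0 := by
        ext k
        by_cases hk : (4 : ℤ) ∣ k - r
        · have h3 := congrArg (fun p : LaurentPolynomial ℤ => p.coeff k) fD
          simp only [co_add] at h3
          rw [hco, if_neg (by rintro rfl; omega), hF1 k (by omega), add_zero] at h3
          exact h3.symm
        · exact hF0 k hk
      rw [h0, zero_add] at fD fE
      rw [← fD, mul_one] at fE
      -- evaluate at `A = 2` in `ZMod 5`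
      have key : (T (-6 * E.sgn (Fin.last n)) : LaurentPolynomial ℤ) =
          T (2 * (-3 * E.sgn (Fin.last n))) := by
        congr 1
        ring
      let u : (ZMod 5)ˣ := ⟨2, 3, by decide, by decide⟩
      let φ : LaurentPolynomial ℤ →+* ZMod 5 :=
        LaurentPolynomial.eval₂ (Int.castRingHom (ZMod 5)) u
      have hφ : ∀ m : ℤ, φ (T m) = ((u ^ m : (ZMod 5)ˣ) : ZMod 5) := fun m =>
        LaurentPolynomial.eval₂_T _ _ m
      have h5 : φ (T 2) = 0 - 1 := by
        rw [hφ]
        decide
      have h6 := E.phi_f φ (ε := 0) (by ring) h5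
      rw [fE, mul_zero, add_zero, hφ] at h6
      unfold sgn at h6
      cases hsE : E.sign (Fin.last n)
      · rw [hsE] at h6
        revert h6
        decide
      · rw [hsE] at h6
        revert h6
        decide
    have h1' : D.F q true = 0 := by
      ext k
      by_cases hk : (4 : ℤ) ∣ k - (r + 2)
      · have h3 := congrArg (fun p : LaurentPolynomial ℤ => p.coeff k) fD
        simp only [co_add] at h3
        rw [hco, if_neg (by rintro rfl; omega), hF0 k (by omega), zero_add] at h3
        exact h3.symm
      · exact hF1 k hk
    rw [h1', add_zero] at fD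
    rw [fE, fE', h1', ← fD]
    simp
  · rintro ⟨hE, hE'⟩
    rw [hE] at fE
    rw [hE', hsg] at fE'
    have h3 : (T (-6 * E.sgn (Fin.last n)) - T (-6 * -E.sgn (Fin.last n))) * D.F q true = 0 := by
      linear_combination fE' - fE
    have h4 : (T (-6 * E.sgn (Fin.last n)) - T (-6 * -E.sgn (Fin.last n)) :
        LaurentPolynomial ℤ) ≠ 0 := by
      intro h0
      have h5 := congrArg (fun p : LaurentPolynomial ℤ => p.coeff (-6 * E.sgn (Fin.last n))) h0
      simp only [co_sub, co_T] at h5
      have h6 : E.sgn (Fin.last n) ≠ 0 := by
        unfold sgn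
        split_ifs <;> norm_num
      rw [if_neg (show ¬ (-6 * -E.sgn (Fin.last n) = -6 * E.sgn (Fin.last n)) by omega)] at h5
      simp at h5
    have h5 := (mul_eq_zero.1 h3).resolve_left h4
    rw [h5, mul_zero, add_zero] at fE
    rw [fD, h5, add_zero, ← fE]

section Extend

variable (D : GaussDiagram n) (e : Fin (2 * n + 1)) (o ε : Bool)

theorem extend_sign_castSucc (c : Fin n) : (D.extend e o ε).sign c.castSucc = D.sign c := by
  unfold extend
  simp only [Fin.val_castSucc]
  rw [dif_pos c.isLt]

theorem extend_sign_last : (D.extend e o ε).sign (Fin.last n) = ε := by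
  unfold extend
  simp only [Fin.val_last]
  rw [dif_neg (lt_irrefl n)]

/-- the new number of a passage -/
def sh (e p : ℕ) : ℕ := if p < e then p else p + 1

theorem extend_pos_castSucc (c : Fin n) (b : Bool) :
    ((D.extend e o ε).pos (c.castSucc, b) : ℕ) = sh e (D.pos (c, b)) := by
  show (D.extendFun e o (c.castSucc, b) : ℕ) = _
  unfold extendFun sh
  simp only [Fin.val_castSucc]
  rw [dif_pos c.isLt]
  split_ifs <;> rfl

theorem extend_pos_last (b : Bool) :
    ((D.extend e o ε).pos (Fin.last n, b) : ℕ) = if b = o then 2 * n + 1 else e := by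
  show (D.extendFun e o (Fin.last n, b) : ℕ) = _
  unfold extendFun
  simp only [Fin.val_last]
  rw [dif_neg (lt_irrefl n)]
  split_ifs <;> rfl

theorem extend_lo_castSucc (c : Fin n) : (D.extend e o ε).lo c.castSucc = sh e (D.lo c) := by
  unfold lo overPass underPass
  rw [extend_pos_castSucc, extend_pos_castSucc]
  unfold sh
  split_ifs <;> omega

theorem extend_hi_castSucc (c : Fin n) : (D.extend e o ε).hi c.castSucc = sh e (D.hi c) := by
  unfold hi overPass underPass
  rw [extend_pos_castSucc, extend_pos_castSucc]
  unfold sh
  split_ifs <;> omega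

theorem extend_lo_last : (D.extend e o ε).lo (Fin.last n) = e := by
  have he := e.isLt
  unfold lo overPass underPass
  rw [extend_pos_last, extend_pos_last]
  cases o <;> simp

theorem extend_hi_last : (D.extend e o ε).hi (Fin.last n) = 2 * n + 1 := by
  have he := e.isLt
  unfold hi overPass underPass
  rw [extend_pos_last, extend_pos_last]
  cases o <;> simp

theorem isExt_extend : IsExt D (D.extend e o ε) := by
  refine ⟨D.extend_sign_castSucc e o ε, fun c d => ?_⟩
  by_cases hcd : c = d
  · rw [hcd, lam_self, lam_self]
  · have hcd' : c.castSucc ≠ d.castSucc := fun h => hcd (Fin.castSucc_injective n h)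
    rw [lam_eq _ hcd', D.lam_eq hcd]
    unfold inn
    rw [extend_lo_castSucc, extend_lo_castSucc, extend_hi_castSucc, extend_hi_castSucc]
    have hp := D.pos_ne hcd
    congr 1
    · refine if_congr ?_ rfl rfl
      unfold sh
      split_ifs <;> omega
    · refine if_congr ?_ rfl rfl
      unfold sh
      split_ifs <;> omega

theorem extend_lam (o' ε' : Bool) (c f : Fin (n + 1)) :
    (D.extend e o' ε').lam c f = (D.extend e o ε).lam c f := by
  have hlo : ∀ c, (D.extend e o' ε').lo c = (D.extend e o ε).lo c := by
    intro c
    refine Fin.lastCases ?_ (fun c => ?_) c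
    · rw [extend_lo_last, extend_lo_last]
    · rw [extend_lo_castSucc, extend_lo_castSucc]
  have hhi : ∀ c, (D.extend e o' ε').hi c = (D.extend e o ε).hi c := by
    intro c
    refine Fin.lastCases ?_ (fun c => ?_) c
    · rw [extend_hi_last, extend_hi_last]
    · rw [extend_hi_castSucc, extend_hi_castSucc]
  by_cases hcf : c = f
  · rw [hcf, lam_self, lam_self]
  · rw [lam_eq _ hcf, lam_eq _ hcf]
    unfold inn
    rw [hlo, hlo, hhi, hhi]

end Extend

end GaussDiagram

end Pool.Agent.Helper16.Knotoid
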