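import Pool.Agent.Helper16.Knotoid.GenusPoly

set_option autoImplicit false

/-!
# Canonical genus one: the class sums when the normalized bracket is `1`
-/

namespace Pool.Agent.Helper16.Knotoid

open LaurentPolynomial

theorem co_add (p q : LaurentPolynomial ℤ) (k : ℤ) : (p + q).coeff k = p.coeff k + q.coeff k := rfl

theorem co_sub (p q : LaurentPolynomial ℤ) (k : ℤ) : (p - q).coeff k = p.coeff k - q.coeff k := rfl

theorem co_neg (p : LaurentPolynomial ℤ) (k : ℤ) : (-p).coeff k = -p.coeff k := rfl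

theorem co_T (n k : ℤ) : (T n : LaurentPolynomial ℤ).coeff k = if n = k then 1 else 0 :=
  T_apply _ _

theorem dd_sub_one_ne : (dd - 1 : LaurentPolynomial ℤ) ≠ 0 := by
  intro h
  have h1 := congrArg (fun p : LaurentPolynomial ℤ => p.coeff 2) h
  unfold dd at h1
  rw [← T_zero] at h1
  simp only [co_sub, co_neg, co_T] at h1
  norm_num at h1

theorem dd_sq_sub_one_ne : (dd ^ 2 - 1 : LaurentPolynomial ℤ) ≠ 0 := by
  intro h
  have h0 : (dd ^ 2 - 1 : LaurentPolynomial ℤ) = T 4 + T (-4) + T 0 := by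
    have e1 : (T 4 : LaurentPolynomial ℤ) = T 2 * T 2 := by rw [← T_add]; norm_num
    have e2 : (T (-4) : LaurentPolynomial ℤ) = T (-2) * T (-2) := by rw [← T_add]; norm_num
    have e3 : (T 2 * T (-2) : LaurentPolynomial ℤ) = 1 := by rw [← T_add]; simp
    rw [e1, e2, T_zero]
    unfold dd
    linear_combination 2 * e3
  have h1 := congrArg (fun p : LaurentPolynomial ℤ => p.coeff 4) (h0.symm.trans h)
  simp only [co_add, co_T] at h1
  norm_num at h1

theorem dd_sq : (dd ^ 2 - 2 : LaurentPolynomial ℤ) = T 4 + T (-4) := by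
  have e1 : (T 4 : LaurentPolynomial ℤ) = T 2 * T 2 := by rw [← T_add]; norm_num
  have e2 : (T (-4) : LaurentPolynomial ℤ) = T (-2) * T (-2) := by rw [← T_add]; norm_num
  have e3 : (T 2 * T (-2) : LaurentPolynomial ℤ) = 1 := by rw [← T_add]; simp
  rw [e1, e2]
  unfold dd
  linear_combination 2 * e3

section Solve

/-- indicator of an equality -/
def dl (x k : ℤ) : ℤ := if x = k then 1 else 0

theorem dl_self (k : ℤ) : dl k k = 1 := if_pos rfl

theorem dl_ne {x k : ℤ} (h : x ≠ k) : dl x k = 0 := if_neg h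

theorem dl_nonneg (x k : ℤ) : 0 ≤ dl x k := by
  unfold dl
  split_ifs <;> simp

theorem tri {p q x y z : ℤ}
    (h : ∀ k, dl 0 k + dl p k + dl q k = dl x k + dl y k + dl z k) :
    (x = 0 ∧ (y = p ∨ z = p)) ∨ (y = 0 ∧ (x = p ∨ z = p)) ∨ (z = 0 ∧ (x = p ∨ y = p)) := by
  have h0 := h 0
  have hp := h p
  rw [dl_self] at h0 hp
  have n1 := dl_nonneg p 0
  have n2 := dl_nonneg q 0
  have n3 := dl_nonneg q p
  by_cases hx : x = 0
  · left
    refine ⟨hx, ?_⟩
    by_contra hne
    push Not at hne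
    rw [hx, dl_ne hne.1, dl_ne hne.2] at hp
    linarith
  · by_cases hy : y = 0
    · right; left
      refine ⟨hy, ?_⟩
      by_contra hne
      push Not at hne
      rw [hy, dl_ne hne.1, dl_ne hne.2] at hp
      linarith
    · by_cases hz : z = 0
      · right; right
        refine ⟨hz, ?_⟩
        by_contra hne
        push Not at hne
        rw [hz, dl_ne hne.1, dl_ne hne.2] at hp
        linarith
      · rw [dl_ne hx, dl_ne hy, dl_ne hz] at h0
        linarith

variable {a b c : ℤ}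

/-- the monomial of a class -/
noncomputable abbrev XX (a : ℤ) : LaurentPolynomial ℤ := T (-4 * a)

theorem co_T' (n k : ℤ) : (T n : LaurentPolynomial ℤ).coeff k = dl n k := co_T n k

theorem solve_ooo (h : (dd ^ 2 - 1) * (1 - (XX a * XX b + XX a * XX c + XX b * XX c) +
    (dd ^ 2 - 2) * (XX a * XX b * XX c)) = 0) :
    (a = 1 ∧ b = -1) ∨ (a = -1 ∧ b = 1) ∨ (a = 1 ∧ c = -1) ∨ (a = -1 ∧ c = 1) ∨
      (b = 1 ∧ c = -1) ∨ (b = -1 ∧ c = 1) := by
  have h1 := (mul_eq_zero.1 h).resolve_left dd_sq_sub_one_ne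
  rw [dd_sq] at h1
  have h2 : (T 0 + T (4 + (-4 * a + -4 * b + -4 * c)) + T (-4 + (-4 * a + -4 * b + -4 * c)) :
      LaurentPolynomial ℤ) = T (-4 * a + -4 * b) + T (-4 * a + -4 * c) + T (-4 * b + -4 * c) := by
    simp only [T_add, T_zero]
    linear_combination h1
  have hk : ∀ k : ℤ, _ := fun k => congrArg (fun p : LaurentPolynomial ℤ => p.coeff k) h2
  simp only [co_add, co_T'] at hk
  have h3 := tri hk
  omega

theorem solve_eee (h : (dd ^ 2 - 1) * (1 - (XX a * XX b + XX a * XX c + XX b * XX c) +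
    2 * (XX a * XX b * XX c)) = 0) :
    (a = 0 ∧ b = 0) ∨ (a = 0 ∧ c = 0) ∨ (b = 0 ∧ c = 0) := by
  have h1 := (mul_eq_zero.1 h).resolve_left dd_sq_sub_one_ne
  have h2 : (T 0 + T (-4 * a + -4 * b + -4 * c) + T (-4 * a + -4 * b + -4 * c) :
      LaurentPolynomial ℤ) = T (-4 * a + -4 * b) + T (-4 * a + -4 * c) + T (-4 * b + -4 * c) := by
    simp only [T_add, T_zero]
    linear_combination h1
  have hk : ∀ k : ℤ, _ := fun k => congrArg (fun p : LaurentPolynomial ℤ => p.coeff k) h2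
  simp only [co_add, co_T'] at hk
  have h3 := tri hk
  omega

theorem five {s y z p q : ℤ} (hs : 4 ∣ s) (hy : 4 ∣ y) (hz : 4 ∣ z) (hp : 4 ∣ p) (hq : 4 ∣ q)
    (h : ∀ k, dl 0 k + dl (2 + s) k + dl (-2 + s) k + dl y k + dl z k =
      dl 2 k + dl (-2) k + dl s k + dl p k + dl q k) :
    s = 0 ∧ (y = p ∨ z = p) := by
  have h2 := h 2
  have h2' := h (-2)
  rw [dl_ne (x := 0) (k := 2) (by omega), dl_ne (x := y) (k := 2) (by omega),
    dl_ne (x := z) (k := 2) (by omega), dl_self, dl_ne (x := -2) (k := 2) (by omega),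
    dl_ne (x := s) (k := 2) (by omega), dl_ne (x := p) (k := 2) (by omega),
    dl_ne (x := q) (k := 2) (by omega)] at h2
  rw [dl_ne (x := 0) (k := -2) (by omega), dl_ne (x := y) (k := -2) (by omega),
    dl_ne (x := z) (k := -2) (by omega), dl_self, dl_ne (x := 2) (k := -2) (by omega),
    dl_ne (x := s) (k := -2) (by omega), dl_ne (x := p) (k := -2) (by omega),
    dl_ne (x := q) (k := -2) (by omega)] at h2'
  have hs0 : s = 0 := by
    by_contra hne
    have a1 : dl (2 + s) 2 = 0 := dl_ne (by omega)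
    have a2 : dl (-2 + s) (-2) = 0 := dl_ne (by omega)
    rw [a1] at h2
    rw [a2] at h2'
    have b1 : -2 + s = 2 := by
      by_contra hb
      rw [dl_ne hb] at h2
      omega
    have b2 : 2 + s = -2 := by
      by_contra hb
      rw [dl_ne hb] at h2'
      omega
    omega
  refine ⟨hs0, ?_⟩
  by_contra hne
  push Not at hne
  have hp' := h p
  rw [hs0, dl_ne hne.1, dl_ne hne.2, dl_self, dl_ne (x := 2 + 0) (k := p) (by omega),
    dl_ne (x := -2 + 0) (k := p) (by omega)] at hp'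
  have n1 := dl_nonneg q p
  have n2 := dl_nonneg 2 p
  have n3 := dl_nonneg (-2) p
  linarith

theorem solve_ooe (h : (dd - 1) * ((dd + 1) * (1 - XX a * XX b) + XX a * XX c + XX b * XX c -
    (dd ^ 2 - 2) * (XX a * XX b * XX c)) = 0) :
    (a = 1 ∧ b = -1) ∨ (a = -1 ∧ b = 1) := by
  have h1 := (mul_eq_zero.1 h).resolve_left dd_sub_one_ne
  rw [dd_sq] at h1
  have h2 : (T 0 + T (2 + (-4 * a + -4 * b)) + T (-2 + (-4 * a + -4 * b)) +
      T (-4 * a + -4 * c) + T (-4 * b + -4 * c) :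
      LaurentPolynomial ℤ) = T 2 + T (-2) + T (-4 * a + -4 * b) +
      T (4 + (-4 * a + -4 * b + -4 * c)) + T (-4 + (-4 * a + -4 * b + -4 * c)) := by
    unfold dd at h1
    simp only [T_add, T_zero]
    linear_combination h1
  have hk : ∀ k : ℤ, _ := fun k => congrArg (fun p : LaurentPolynomial ℤ => p.coeff k) h2
  simp only [co_add, co_T'] at hk
  have h3 := five (by omega) (by omega) (by omega) (by omega) (by omega) hk
  omega

theorem solve_oee (h : (dd - 1) * ((dd + 1) * (1 - XX b * XX c) + XX a * XX b + XX a * XX c -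
    2 * (XX a * XX b * XX c)) = 0) :
    b = 0 ∧ c = 0 := by
  have h1 := (mul_eq_zero.1 h).resolve_left dd_sub_one_ne
  have h2 : (T 0 + T (2 + (-4 * b + -4 * c)) + T (-2 + (-4 * b + -4 * c)) +
      T (-4 * a + -4 * b) + T (-4 * a + -4 * c) :
      LaurentPolynomial ℤ) = T 2 + T (-2) + T (-4 * b + -4 * c) +
      T (-4 * a + -4 * b + -4 * c) + T (-4 * a + -4 * b + -4 * c) := by
    unfold dd at h1
    simp only [T_add, T_zero]
    linear_combination h1
  have hk : ∀ k : ℤ, _ := fun k => congrArg (fun p : LaurentPolynomial ℤ => p.coeff k) h2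
  simp only [co_add, co_T'] at hk
  have h3 := five (by omega) (by omega) (by omega) (by omega) (by omega) hk
  omega

end Solve

namespace GaussDiagram

variable {n : ℕ} (D : GaussDiagram n)

/-- the class sums of a diagram of canonical genus one with `f = 1` -/
theorem classes_of_f {v : Fin n → V2} (hv : ∀ c f, D.lam c f = wdg (v c) (v f))
    (hf : D.normalizedBracket = 1) :
    ∃ i j : Fin 3, i ≠ j ∧
      ((parv v i = true ∧ parv v j = true ∧ D.asum v i = 1 ∧ D.asum v j = -1) ∨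
        (parv v i = false ∧ parv v j = false ∧ D.asum v i = 0 ∧ D.asum v j = 0)) := by
  have h := D.f_genus_one hv
  rw [hf, one_mul, uu_eq, uu_eq, uu_eq] at h
  rcases h0 : parv v 0 <;> rcases h1 : parv v 1 <;> rcases h2 : parv v 2 <;>
    simp only [h0, h1, h2, mpair, mtriple, if_true, if_false, Bool.false_eq_true, Bool.and_true,
      Bool.and_false, Bool.or_false, Bool.or_true, Bool.false_or, Bool.true_or, Bool.true_and,
      Bool.false_and, Bool.true_eq_false, pow_one, one_mul] at h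
  · -- eee
    rcases solve_eee (a := D.asum v 0) (b := D.asum v 1) (c := D.asum v 2)
      (by linear_combination h) with h' | h' | h'
    · exact ⟨0, 1, by decide, Or.inr ⟨h0, h1, h'.1, h'.2⟩⟩
    · exact ⟨0, 2, by decide, Or.inr ⟨h0, h2, h'.1, h'.2⟩⟩
    · exact ⟨1, 2, by decide, Or.inr ⟨h1, h2, h'.1, h'.2⟩⟩
  · -- eeo
    have h' := solve_oee (a := D.asum v 2) (b := D.asum v 0) (c := D.asum v 1)
      (by linear_combination h)
    exact ⟨0, 1, by decide, Or.inr ⟨h0, h1, h'.1, h'.2⟩⟩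
  · -- eoe
    have h' := solve_oee (a := D.asum v 1) (b := D.asum v 0) (c := D.asum v 2)
      (by linear_combination h)
    exact ⟨0, 2, by decide, Or.inr ⟨h0, h2, h'.1, h'.2⟩⟩
  · -- eoo
    rcases solve_ooe (a := D.asum v 1) (b := D.asum v 2) (c := D.asum v 0)
      (by linear_combination h) with h' | h'
    · exact ⟨1, 2, by decide, Or.inl ⟨h1, h2, h'.1, h'.2⟩⟩
    · exact ⟨2, 1, by decide, Or.inl ⟨h2, h1, h'.2, h'.1⟩⟩
  · -- oee
    have h' := solve_oee (a := D.asum v 0) (b := D.asum v 1) (c := D.asum v 2)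
      (by linear_combination h)
    exact ⟨1, 2, by decide, Or.inr ⟨h1, h2, h'.1, h'.2⟩⟩
  · -- oeo
    rcases solve_ooe (a := D.asum v 0) (b := D.asum v 2) (c := D.asum v 1)
      (by linear_combination h) with h' | h'
    · exact ⟨0, 2, by decide, Or.inl ⟨h0, h2, h'.1, h'.2⟩⟩
    · exact ⟨2, 0, by decide, Or.inl ⟨h2, h0, h'.2, h'.1⟩⟩
  · -- ooe
    rcases solve_ooe (a := D.asum v 0) (b := D.asum v 1) (c := D.asum v 2)
      (by linear_combination h) with h' | h'
    · exact ⟨0, 1, by decide, Or.inl ⟨h0, h1, h'.1, h'.2⟩⟩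
    · exact ⟨1, 0, by decide, Or.inl ⟨h1, h0, h'.2, h'.1⟩⟩
  · -- ooo
    rcases solve_ooo (a := D.asum v 0) (b := D.asum v 1) (c := D.asum v 2)
      (by linear_combination h) with h' | h' | h' | h' | h' | h'
    · exact ⟨0, 1, by decide, Or.inl ⟨h0, h1, h'.1, h'.2⟩⟩
    · exact ⟨1, 0, by decide, Or.inl ⟨h1, h0, h'.2, h'.1⟩⟩
    · exact ⟨0, 2, by decide, Or.inl ⟨h0, h2, h'.1, h'.2⟩⟩
    · exact ⟨2, 0, by decide, Or.inl ⟨h2, h0, h'.2, h'.1⟩⟩
    · exact ⟨1, 2, by decide, Or.inl ⟨h1, h2, h'.1, h'.2⟩⟩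
    · exact ⟨2, 1, by decide, Or.inl ⟨h2, h1, h'.2, h'.1⟩⟩

end GaussDiagram

end Pool.Agent.Helper16.Knotoid
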