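import Pool.Agent.Helper16.Knotoid.Switch
import Pool.Agent.Helper16.Knotoid.Solve
import Pool.Agent.Helper16.Knotoid.ExtDefs

set_option autoImplicit false

/-!
# The normalized bracket of a knotoid diagram of height at most one
-/

namespace Pool.Agent.Helper16.Knotoid

open LaurentPolynomial Module

namespace GaussDiagram

variable {n : ℕ}

theorem ite_mul_aux (p : Prop) [Decidable p] (x : ZMod 2) :
    (if p then (0 : ZMod 2) else 1) * x = if p then 0 else x := by
  split_ifs <;> simp

/-- `E` is obtained from `D` by adding a last crossing -/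
structure IsExt (D : GaussDiagram n) (E : GaussDiagram (n + 1)) : Prop where
  sign : ∀ c : Fin n, E.sign c.castSucc = D.sign c
  lam : ∀ c d : Fin n, E.lam c.castSucc d.castSucc = D.lam c d

/-- the state of `E` which is `s` on the crossings of `D` -/
def ext (s : Fin n → Bool) (b : Bool) : Fin (n + 1) → Bool :=
  Fin.snoc (α := fun _ => Bool) s b

theorem ext_castSucc (s : Fin n → Bool) (b : Bool) (c : Fin n) : ext s b c.castSucc = s c := by
  unfold ext
  rw [Fin.snoc_castSucc]

theorem ext_last (s : Fin n → Bool) (b : Bool) : ext s b (Fin.last n) = b := by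
  unfold ext
  rw [Fin.snoc_last]

theorem swc_ext (s : Fin n → Bool) (b : Bool) : swc (ext s b) (Fin.last n) = ext s (!b) := by
  funext c
  refine Fin.lastCases ?_ (fun c => ?_) c
  · unfold swc
    rw [Function.update_self, ext_last, ext_last]
  · unfold swc
    rw [Function.update_of_ne (Fin.castSucc_lt_last c).ne, ext_castSucc, ext_castSucc]

section Ext

variable {D : GaussDiagram n} {E : GaussDiagram (n + 1)} (h : IsExt D E)

include h

theorem Lv_ext (x : Fin (n + 1) → ZMod 2) (hx : x (Fin.last n) = 0) (c : Fin n) :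
    Lv E.lam x c.castSucc = Lv D.lam (fun d => x d.castSucc) c := by
  unfold Lv
  rw [Fin.sum_univ_castSucc, hx, mul_zero, add_zero]
  exact Finset.sum_congr rfl fun d _ => by rw [h.lam]

/-- the kernels -/
theorem finrank_ext (hD : E.Planar) (hR : E.tailRegion = E.headRegion) (s : Fin n → Bool)
    (b : Bool) : D.comps s = finrank (ZMod 2) (E.K0 (ext s b) (Fin.last n)) + 1 := by
  have hc : D.comps s = 1 + finrank (ZMod 2) (D.Kz s) := D.comps_eq s
  rw [hc, add_comm]
  congr 1
  apply le_antisymm
  · -- extension by zero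
    have hmem : ∀ y : D.Kz s, (Fin.snoc (α := fun _ => ZMod 2) y.1 0 : Fin (n + 1) → ZMod 2) ∈
        E.K0 (ext s b) (Fin.last n) := by
      intro y
      have hy := (D.mem_ker_gmat s y.1).1 y.2
      set x : Fin (n + 1) → ZMod 2 := Fin.snoc (α := fun _ => ZMod 2) y.1 0 with hx
      have hx0 : x (Fin.last n) = 0 := by rw [hx, Fin.snoc_last]
      have hxc : ∀ c : Fin n, x c.castSucc = y.1 c := fun c => by rw [hx, Fin.snoc_castSucc]
      have hcs : ∀ c : Fin n, Lv E.lam x c.castSucc +
          (if ext s b c.castSucc = E.sign c.castSucc then 0 else x c.castSucc) = 0 := by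
        intro c
        rw [Lv_ext h x hx0, ext_castSucc, h.sign, hxc]
        have : (fun d : Fin n => x d.castSucc) = y.1 := funext hxc
        rw [this]
        exact hy c
      rw [mem_K0, mem_ker_gmat]
      refine ⟨fun c => ?_, hx0⟩
      refine Fin.lastCases ?_ hcs c
      by_contra hne
      rw [← ne_eq, zmod2_ne_zero] at hne
      refine E.no_unit hD hR (Fin.last n)
        (fun f => if ext s b f = E.sign f then 0 else 1) x hx0 fun f => ?_
      rw [ite_mul_aux]
      refine Fin.lastCases ?_ (fun c => ?_) f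
      · rw [hne, if_pos rfl]
      · rw [hcs c, if_neg (Fin.castSucc_lt_last c).ne]
    let L : D.Kz s →ₗ[ZMod 2] E.K0 (ext s b) (Fin.last n) :=
      { toFun := fun y => ⟨Fin.snoc (α := fun _ => ZMod 2) y.1 0, hmem y⟩
        map_add' := fun y z => by
          apply Subtype.ext
          funext c
          refine Fin.lastCases ?_ (fun c => ?_) c
          · show Fin.snoc (α := fun _ => ZMod 2) (y.1 + z.1) 0 (Fin.last n) =
              Fin.snoc (α := fun _ => ZMod 2) y.1 0 (Fin.last n) +
              Fin.snoc (α := fun _ => ZMod 2) z.1 0 (Fin.last n)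
            rw [Fin.snoc_last, Fin.snoc_last, Fin.snoc_last, add_zero]
          · show Fin.snoc (α := fun _ => ZMod 2) (y.1 + z.1) 0 c.castSucc =
              Fin.snoc (α := fun _ => ZMod 2) y.1 0 c.castSucc +
              Fin.snoc (α := fun _ => ZMod 2) z.1 0 c.castSucc
            rw [Fin.snoc_castSucc, Fin.snoc_castSucc, Fin.snoc_castSucc]
            rfl
        map_smul' := fun a y => by
          apply Subtype.ext
          funext c
          refine Fin.lastCases ?_ (fun c => ?_) c
          · show Fin.snoc (α := fun _ => ZMod 2) (a • y.1) 0 (Fin.last n) =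
              a * Fin.snoc (α := fun _ => ZMod 2) y.1 0 (Fin.last n)
            rw [Fin.snoc_last, Fin.snoc_last, mul_zero]
          · show Fin.snoc (α := fun _ => ZMod 2) (a • y.1) 0 c.castSucc =
              a * Fin.snoc (α := fun _ => ZMod 2) y.1 0 c.castSucc
            rw [Fin.snoc_castSucc, Fin.snoc_castSucc]
            rfl }
    have hL : Function.Injective L := by
      intro y z hyz
      have h1 := congrArg (fun w : E.K0 (ext s b) (Fin.last n) => w.1) hyz
      apply Subtype.ext
      funext c
      have h2 := congrFun h1 c.castSucc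
      change Fin.snoc (α := fun _ => ZMod 2) y.1 0 c.castSucc =
        Fin.snoc (α := fun _ => ZMod 2) z.1 0 c.castSucc at h2
      rwa [Fin.snoc_castSucc, Fin.snoc_castSucc] at h2
    exact LinearMap.finrank_le_finrank_of_injective hL
  · -- restriction
    have hmem : ∀ x : E.K0 (ext s b) (Fin.last n), (fun c : Fin n => x.1 c.castSucc) ∈ D.Kz s := by
      intro x
      obtain ⟨h1, h2⟩ := (E.mem_K0 _ _ _).1 x.2
      rw [mem_ker_gmat] at h1
      rw [mem_ker_gmat]
      intro c
      have h3 := h1 c.castSucc
      rwa [Lv_ext h _ h2, ext_castSucc, h.sign] at h3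
    let L : E.K0 (ext s b) (Fin.last n) →ₗ[ZMod 2] D.Kz s :=
      { toFun := fun x => ⟨fun c : Fin n => x.1 c.castSucc, hmem x⟩
        map_add' := fun _ _ => rfl
        map_smul' := fun _ _ => rfl }
    have hL : Function.Injective L := by
      intro x y hxy
      have h1 := congrArg (fun w : D.Kz s => w.1) hxy
      apply Subtype.ext
      funext c
      refine Fin.lastCases ?_ (fun c => ?_) c
      · rw [((E.mem_K0 _ _ _).1 x.2).2, ((E.mem_K0 _ _ _).1 y.2).2]
      · exact congrFun h1 c
    exact LinearMap.finrank_le_finrank_of_injective hL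

/-- the numbers of components of the two states extending a state -/
theorem comps_ext (hD : E.Planar) (hR : E.tailRegion = E.headRegion) (s : Fin n → Bool)
    (b : Bool) :
    (E.comps (ext s b) = D.comps s ∧ E.comps (ext s (!b)) = D.comps s + 1) ∨
    (E.comps (ext s b) = D.comps s + 1 ∧ E.comps (ext s (!b)) = D.comps s) := by
  have h1 := finrank_ext h hD hR s b
  have h2 := E.switch_dim hD hR (ext s b) (Fin.last n)
  rw [swc_ext] at h2
  omega

theorem wt_ext (c : Fin n) (b : Bool) : E.wt c.castSucc b = D.wt c b := by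
  unfold wt sgn
  rw [h.sign]

/-- the state sum of the extension -/
theorem f_ext : E.normalizedBracket = ∑ s : Fin n → Bool, (∏ c, D.wt c (s c)) *
    (E.wt (Fin.last n) (E.sign (Fin.last n)) * dd ^ (E.comps (ext s (E.sign (Fin.last n))) - 1) +
      E.wt (Fin.last n) (!E.sign (Fin.last n)) *
        dd ^ (E.comps (ext s (!E.sign (Fin.last n))) - 1)) := by
  rw [f_eq, ← (Fin.snocEquiv (fun _ => Bool)).sum_comp, Fintype.sum_prod_type, Fintype.sum_bool,
    ← Finset.sum_add_distrib]
  refine Finset.sum_congr rfl fun s _ => ?_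
  have h1 : ∀ b : Bool, (∏ c, E.wt c ((Fin.snocEquiv (fun _ : Fin (n + 1) => Bool)) (b, s) c)) *
      dd ^ (E.comps ((Fin.snocEquiv (fun _ : Fin (n + 1) => Bool)) (b, s)) - 1) =
      (∏ c, D.wt c (s c)) * (E.wt (Fin.last n) b * dd ^ (E.comps (ext s b) - 1)) := by
    intro b
    have h2 : (Fin.snocEquiv (fun _ : Fin (n + 1) => Bool)) (b, s) = ext s b := rfl
    rw [h2, Fin.prod_univ_castSucc, ext_last, mul_assoc]
    congr 1
    refine Finset.prod_congr rfl fun c _ => ?_
    rw [ext_castSucc, wt_ext h]
  rw [h1, h1, ← mul_add]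
  congr 1
  cases E.sign (Fin.last n)
  · rw [Bool.not_false, add_comm]
  · rw [Bool.not_true]

end Ext

/-- the value at the last crossing -/
theorem last_or (E : GaussDiagram (n + 1)) (k : ℕ) :
    E.wt (Fin.last n) (E.sign (Fin.last n)) * dd ^ (k + 1) +
      E.wt (Fin.last n) (!E.sign (Fin.last n)) * dd ^ k = dd ^ k := by
  rw [pow_succ', ← mul_assoc, wt_or, wt_un]
  ring

theorem last_un (E : GaussDiagram (n + 1)) (k : ℕ) :
    E.wt (Fin.last n) (E.sign (Fin.last n)) * dd ^ k +
      E.wt (Fin.last n) (!E.sign (Fin.last n)) * dd ^ (k + 1) =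
      T (-6 * E.sgn (Fin.last n)) * dd ^ k := by
  have h1 : E.wt (Fin.last n) (E.sign (Fin.last n)) = -T (-2 * E.sgn (Fin.last n)) := by
    unfold wt
    rw [if_pos rfl]
  have h2 : E.wt (Fin.last n) (!E.sign (Fin.last n)) = -T (-4 * E.sgn (Fin.last n)) := by
    rw [wt_un]
    rfl
  have h3 : -T (-2 * E.sgn (Fin.last n)) + -T (-4 * E.sgn (Fin.last n)) * dd =
      (T (-6 * E.sgn (Fin.last n)) : LaurentPolynomial ℤ) := by
    have h4 : (T (-4) * T 2 : LaurentPolynomial ℤ) = T (-2) := by rw [← T_add]; norm_num
    have h5 : (T (-4) * T (-2) : LaurentPolynomial ℤ) = T (-6) := by rw [← T_add]; norm_num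
    have h6 : (T 4 * T 2 : LaurentPolynomial ℤ) = T 6 := by rw [← T_add]; norm_num
    have h7 : (T 4 * T (-2) : LaurentPolynomial ℤ) = T 2 := by rw [← T_add]; norm_num
    unfold sgn dd
    cases E.sign (Fin.last n)
    · simp only [Bool.false_eq_true, if_false]
      norm_num
      linear_combination h6 + h7
    · simp only [if_true]
      norm_num
      linear_combination h4 + h5
  rw [h1, h2, pow_succ', ← mul_assoc, ← add_mul, h3]

end GaussDiagram

end Pool.Agent.Helper16.Knotoid
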