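import Pool.Agent.Helper16.Knotoid.Terminal
import Pool.Agent.Helper16.Knotoid.Solve

set_option autoImplicit false

/-!
# The reduction of planar diagrams of canonical genus one
-/

namespace Pool.Agent.Helper16.Knotoid

namespace GaussDiagram

variable {n : ℕ} (D : GaussDiagram n)

theorem v2_add_ne : ∀ p q : V2, p ≠ q → p + q ≠ 0 := by decide

theorem v2_wdg : ∀ p q : V2, p ≠ 0 → q ≠ 0 → p ≠ q → wdg p q = 1 := by decide

theorem v2_other : ∀ p q c : V2, wdg p q = 1 → c ≠ p → c ≠ q → c = 0 ∨ c = p + q := by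
  decide

theorem v2_rest : ∀ w : V2, wdg 0 w = 0 ∧ wdg w 0 = 0 ∧ wdg w w = 0 := by decide

theorem v2_not {p q c d : V2} (hp : p ≠ 0) (hq : q ≠ 0) (hpq : p ≠ q) (h1 : c ≠ p) (h2 : c ≠ q)
    (h3 : d ≠ p) (h4 : d ≠ q) : wdg c d ≠ 1 := by
  have h0 : (0 : ZMod 2) ≠ 1 := by decide
  rcases v2_other p q c (v2_wdg p q hp hq hpq) h1 h2 with rfl | rfl
  · rw [(v2_rest d).1]
    exact h0
  · rcases v2_other p q d (v2_wdg p q hp hq hpq) h3 h4 with rfl | rfl
    · rw [(v2_rest _).2.1]
      exact h0
    · rw [(v2_rest _).2.2]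
      exact h0

/-- the sum of the signs in a class -/
def csum (v : Fin n → V2) (S : Finset (Fin n)) (w : V2) : ℤ :=
  ∑ c ∈ S, if v c = w then D.sgn c else 0

/-- the parity of a class -/
def cpar {n : ℕ} (v : Fin n → V2) (S : Finset (Fin n)) (w : V2) : ZMod 2 :=
  ∑ c ∈ S, if v c = w then 1 else 0

theorem sgn_ne {x y : Fin n} (h : D.sign x ≠ D.sign y) : D.sgn x + D.sgn y = 0 := by
  unfold sgn
  revert h
  cases D.sign x <;> cases D.sign y <;> simp

theorem csum_two (v : Fin n → V2) {S : Finset (Fin n)} {x y : Fin n} (hx : x ∈ S) (hy : y ∈ S)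
    (hne : x ≠ y) (hv : v x = v y) (hs : D.sign x ≠ D.sign y) (w : V2) :
    D.csum v ((S.erase x).erase y) w = D.csum v S w := by
  unfold csum
  rw [← Finset.add_sum_erase S _ hx,
    ← Finset.add_sum_erase (S.erase x) _ (Finset.mem_erase.2 ⟨Ne.symm hne, hy⟩), ← add_assoc, hv]
  have : (if v y = w then D.sgn x else 0) + (if v y = w then D.sgn y else 0) = 0 := by
    split_ifs
    · exact D.sgn_ne hs
    · rfl
  rw [this, zero_add]

theorem cpar_two (v : Fin n → V2) {S : Finset (Fin n)} {x y : Fin n} (hx : x ∈ S) (hy : y ∈ S)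
    (hne : x ≠ y) (hv : v x = v y) (w : V2) :
    cpar v ((S.erase x).erase y) w = cpar v S w := by
  unfold cpar
  rw [← Finset.add_sum_erase S _ hx,
    ← Finset.add_sum_erase (S.erase x) _ (Finset.mem_erase.2 ⟨Ne.symm hne, hy⟩), ← add_assoc, hv,
    CharTwo.add_self_eq_zero, zero_add]

theorem csum_one (v : Fin n → V2) {S : Finset (Fin n)} {x : Fin n} (hx : x ∈ S) (hv : v x = 0)
    {w : V2} (hw : w ≠ 0) : D.csum v (S.erase x) w = D.csum v S w := by
  unfold csum
  rw [← Finset.add_sum_erase S _ hx, if_neg, zero_add]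
  rw [hv]
  exact Ne.symm hw

theorem cpar_one (v : Fin n → V2) {S : Finset (Fin n)} {x : Fin n} (hx : x ∈ S) (hv : v x = 0)
    {w : V2} (hw : w ≠ 0) : cpar v (S.erase x) w = cpar v S w := by
  unfold cpar
  rw [← Finset.add_sum_erase S _ hx, if_neg, zero_add]
  rw [hv]
  exact Ne.symm hw

/-- if a class does not contain both signs its sum is plus or minus its cardinality -/
theorem csum_same (v : Fin n → V2) {S : Finset (Fin n)} {w : V2}
    (h : ¬ ∃ c ∈ S, ∃ d ∈ S, v c = w ∧ v d = w ∧ D.sign c ≠ D.sign d) :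
    (D.csum v S w).natAbs = (S.filter fun c => v c = w).card := by
  unfold csum
  rw [← Finset.sum_filter]
  rcases (S.filter fun c => v c = w).eq_empty_or_nonempty with h0 | ⟨c, hc⟩
  · rw [h0]
    simp
  · have h1 : ∀ d ∈ S.filter (fun c => v c = w), D.sgn d = D.sgn c := by
      intro d hd
      rw [Finset.mem_filter] at hc hd
      by_contra hne
      apply h
      refine ⟨c, hc.1, d, hd.1, hc.2, hd.2, fun h' => hne ?_⟩
      unfold sgn
      rw [h']
    rw [Finset.sum_congr rfl h1, Finset.sum_const, nsmul_eq_mul, Int.natAbs_mul,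
      Int.natAbs_natCast]
    have : (D.sgn c).natAbs = 1 := by
      unfold sgn
      cases D.sign c <;> simp
    rw [this, mul_one]

section Classes

variable {v : Fin n → V2} (hv : ∀ c f, D.lam c f = wdg (v c) (v f))

include hv

/-- an adjacent chord is isolated, so of class zero if there are interlaced chords -/
theorem adj_zero {S : Finset (Fin n)} {x : Fin n} (hx : D.Adj1 S x)
    (hI : ∃ a ∈ S, ∃ b ∈ S, a ≠ b ∧ D.Il a b) : v x = 0 := by
  have hiso : ∀ d ∈ S, wdg (v x) (v d) = 0 := by
    intro d hd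
    by_cases hxd : x = d
    · rw [← hxd]
      have key : ∀ a : V2, wdg a a = 0 := by decide
      exact key _
    · have h1 : ¬ D.Il x d := by
        obtain ⟨h2, h3⟩ := hx.2 d hd
        unfold Il
        omega
      rw [← hv]
      exact (D.lam_zero_iff hxd).2 h1
  obtain ⟨a, ha, b, hb, hab, hil⟩ := hI
  have h1 := (D.Il_iff hv hab).1 hil
  have h2 := hiso a ha
  have h3 := hiso b hb
  have key : ∀ u a b : V2, wdg a b = 1 → wdg u a = 0 → wdg u b = 0 → u = 0 := by decide
  exact key _ _ _ h1 h2 h3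

/-- the main reduction -/
theorem reduce_main {p q : V2} (hp : p ≠ 0) (hq : q ≠ 0) (hpq : p ≠ q)
    (hnp : ∀ c d, v c = p → v d = p → ¬ D.hi c < D.lo d)
    (hnq : ∀ c d, v c = q → v d = q → ¬ D.hi c < D.lo d) (S : Finset (Fin n)) (hPL : D.PL S)
    (hsum : (D.csum v S p = 1 ∧ D.csum v S q = -1 ∧ cpar v S (p + q) = 0) ∨
      (D.csum v S p = 0 ∧ D.csum v S q = 0)) :
    R12Trivial D.sign (D.codeS S) := by
  generalize hk : S.card = k
  induction k using Nat.strong_induction_on generalizing S with
  | _ k ih =>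
    by_cases hI : ∃ a ∈ S, ∃ b ∈ S, a ≠ b ∧ D.Il a b
    swap
    · refine D.r12_of_noninter S fun c hc d hd hcd hil => hI ⟨c, hc, d, hd, hcd, hil⟩
    have hpq0 : p + q ≠ 0 := v2_add_ne p q hpq
    by_cases hadj : ∃ c, D.Adj1 S c
    · obtain ⟨c, hc⟩ := hadj
      have h0 := D.adj_zero hv hc hI
      refine D.step_one hc.1 hc.2 (ih (S.erase c).card ?_ (S.erase c) (D.PL_one hPL hc) ?_ rfl)
      · rw [Finset.card_erase_of_mem hc.1]
        have := Finset.card_pos.2 ⟨c, hc.1⟩
        omega
      · rw [D.csum_one v hc.1 h0 hp, D.csum_one v hc.1 h0 hq, cpar_one v hc.1 h0 hpq0]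
        exact hsum
    push Not at hadj
    -- step with two chords of the same class
    have step : ∀ w : V2, w ≠ 0 → (∀ c d, v c = w → v d = w → ¬ D.hi c < D.lo d) →
        (∃ c ∈ S, ∃ d ∈ S, v c = w ∧ v d = w ∧ D.sign c ≠ D.sign d) →
        R12Trivial D.sign (D.codeS S) := by
      intro w hw hnest hboth
      obtain ⟨x, y, hA, vx, vy, hs, hb⟩ := D.nest_step hv hPL hadj hI hw
        (fun c _ d _ h1 h2 => hnest c d h1 h2) hboth
      have hvxy : v x = v y := by rw [vx, vy]
      refine D.step_two' hA hs hb (ih ((S.erase x).erase y).card ?_ _ (D.PL_two hPL hA) ?_ rfl)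
      · rw [Finset.card_erase_of_mem (Finset.mem_erase.2 ⟨Ne.symm hA.2.2.1, hA.2.1⟩),
          Finset.card_erase_of_mem hA.1]
        have := Finset.card_pos.2 ⟨x, hA.1⟩
        omega
      · rw [D.csum_two v hA.1 hA.2.1 hA.2.2.1 hvxy hs, D.csum_two v hA.1 hA.2.1 hA.2.2.1 hvxy hs,
          cpar_two v hA.1 hA.2.1 hA.2.2.1 hvxy]
        exact hsum
    by_cases hbp : ∃ c ∈ S, ∃ d ∈ S, v c = p ∧ v d = p ∧ D.sign c ≠ D.sign d
    · exact step p hp hnp hbp
    by_cases hbq : ∃ c ∈ S, ∃ d ∈ S, v c = q ∧ v d = q ∧ D.sign c ≠ D.sign d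
    · exact step q hq hnq hbq
    have hcp := D.csum_same v hbp
    have hcq := D.csum_same v hbq
    rcases hsum with ⟨h1, h2, h3⟩ | ⟨h1, h2⟩
    · -- terminal step
      rw [h1] at hcp
      rw [h2] at hcq
      obtain ⟨x, hx⟩ := Finset.card_eq_one.1 (show (S.filter fun c => v c = p).card = 1 by
        rw [← hcp]; rfl)
      obtain ⟨y, hy⟩ := Finset.card_eq_one.1 (show (S.filter fun c => v c = q).card = 1 by
        rw [← hcq]; rfl)
      have hx' : x ∈ S.filter fun c => v c = p := by rw [hx]; exact Finset.mem_singleton_self x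
      have hy' : y ∈ S.filter fun c => v c = q := by rw [hy]; exact Finset.mem_singleton_self y
      rw [Finset.mem_filter] at hx' hy'
      have hx1 : ∀ e ∈ S, v e = v x → e = x := by
        intro e he hve
        have : e ∈ S.filter fun c => v c = p := Finset.mem_filter.2 ⟨he, hve.trans hx'.2⟩
        rw [hx] at this
        exact Finset.mem_singleton.1 this
      have hy1 : ∀ e ∈ S, v e = v y → e = y := by
        intro e he hve
        have : e ∈ S.filter fun c => v c = q := Finset.mem_filter.2 ⟨he, hve.trans hy'.2⟩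
        rw [hy] at this
        exact Finset.mem_singleton.1 this
      have hnxy : x ≠ y := fun h => hpq (by rw [← hx'.2, ← hy'.2, h])
      have hsxy : D.sign x ≠ D.sign y := by
        have e1 : D.sgn x = 1 := by
          rw [← h1]
          unfold csum
          rw [← Finset.sum_filter, hx, Finset.sum_singleton]
        have e2 : D.sgn y = -1 := by
          rw [← h2]
          unfold csum
          rw [← Finset.sum_filter, hy, Finset.sum_singleton]
        intro h
        unfold sgn at e1 e2
        rw [h, e2] at e1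
        exact absurd e1 (by decide)
      have hwdg : wdg p q = 1 := v2_wdg p q hp hq hpq
      have hwdg' : wdg q p = 1 := v2_wdg q p hq hp (Ne.symm hpq)
      -- what is left has no interlaced chords
      have hrest : ∀ c ∈ (S.erase x).erase y, ∀ d ∈ (S.erase x).erase y, c ≠ d → ¬ D.Il c d := by
        intro c hc d hd hcd
        rw [Finset.mem_erase, Finset.mem_erase] at hc hd
        rw [D.Il_iff hv hcd]
        have c1 : v c ≠ p := fun h => hc.2.1 (hx1 c hc.2.2 (h.trans hx'.2.symm))
        have c2 : v c ≠ q := fun h => hc.1 (hy1 c hc.2.2 (h.trans hy'.2.symm))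
        have d1 : v d ≠ p := fun h => hd.2.1 (hx1 d hd.2.2 (h.trans hx'.2.symm))
        have d2 : v d ≠ q := fun h => hd.1 (hy1 d hd.2.2 (h.trans hy'.2.symm))
        exact v2_not hp hq hpq c1 c2 d1 d2
      have hrest' : ∀ c ∈ (S.erase y).erase x, ∀ d ∈ (S.erase y).erase x, c ≠ d →
          ¬ D.Il c d := by
        have : (S.erase y).erase x = (S.erase x).erase y := Finset.erase_right_comm
        rw [this]
        exact hrest
      have hp1 := D.pos_ne hnxy
      rcases Nat.lt_or_gt_of_ne hp1.1 with hlt | hlt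
      · obtain ⟨hA, hb⟩ := D.terminal_step hv hPL hadj hx'.1 hy'.1 hlt
          (by rw [hx'.2, hy'.2]; exact hwdg) hx1 hy1 (by rw [hx'.2, hy'.2]; exact h3)
        exact D.step_two' hA hsxy hb (D.r12_of_noninter _ hrest)
      · obtain ⟨hA, hb⟩ := D.terminal_step hv hPL hadj hy'.1 hx'.1 hlt
          (by rw [hx'.2, hy'.2]; exact hwdg') hy1 hx1
          (by rw [hx'.2, hy'.2, add_comm]; exact h3)
        exact D.step_two' hA (Ne.symm hsxy) hb (D.r12_of_noninter _ hrest')
    · -- both classes would be empty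
      exfalso
      rw [h1, Int.natAbs_zero] at hcp
      rw [h2, Int.natAbs_zero] at hcq
      have ep := Finset.card_eq_zero.1 hcp.symm
      have eq := Finset.card_eq_zero.1 hcq.symm
      obtain ⟨a, ha, b, hb, hab, hil⟩ := hI
      rw [D.Il_iff hv hab] at hil
      have a1 : v a ≠ p := fun h => by
        have : a ∈ S.filter fun c => v c = p := Finset.mem_filter.2 ⟨ha, h⟩
        rw [ep] at this
        exact absurd this (Finset.notMem_empty _)
      have a2 : v a ≠ q := fun h => by
        have : a ∈ S.filter fun c => v c = q := Finset.mem_filter.2 ⟨ha, h⟩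
        rw [eq] at this
        exact absurd this (Finset.notMem_empty _)
      have b1 : v b ≠ p := fun h => by
        have : b ∈ S.filter fun c => v c = p := Finset.mem_filter.2 ⟨hb, h⟩
        rw [ep] at this
        exact absurd this (Finset.notMem_empty _)
      have b2 : v b ≠ q := fun h => by
        have : b ∈ S.filter fun c => v c = q := Finset.mem_filter.2 ⟨hb, h⟩
        rw [eq] at this
        exact absurd this (Finset.notMem_empty _)
      exact v2_not hp hq hpq a1 a2 b1 b2 hil

end Classes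

end GaussDiagram

end Pool.Agent.Helper16.Knotoid
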