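import Pool.Agent.Helper16.Knotoid.Defs

set_option autoImplicit false

/-!
# Odd crossings, the odd writhe, and the regions of the endpoints of a knotoid diagram
-/

namespace Pool.Agent.Helper16.Knotoid

namespace GaussDiagram

variable {n : ℕ} (D : GaussDiagram n)

/-- The crossing `c` is odd: between its two passages through `c` the path goes through an odd
number of passages. -/
def OddCrossing (c : Fin n) : Prop :=
  Odd (Finset.Ioo (min (D.overPass c) (D.underPass c))
    (max (D.overPass c) (D.underPass c))).card

open Classical in
/-- The odd writhe `J`: the sum of the signs of the odd crossings. -/
noncomputable def oddWrithe : ℤ :=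
  ∑ c, if D.OddCrossing c then (if D.sign c then 1 else -1) else 0

/-- The region (face) of the diagram containing the tail. -/
def tailRegion : Quot D.Corner := Quot.mk _ (0, true)

/-- The region (face) of the diagram containing the head. -/
def headRegion : Quot D.Corner := Quot.mk _ (Fin.last (2 * n), true)

end GaussDiagram

end Pool.Agent.Helper16.Knotoid
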