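import Pool.Agent.Helper16.Knotoid.Region

set_option autoImplicit false

/-!
# Consequences of planarity for the interlacement of chords
-/

namespace Pool.Agent.Helper16.Knotoid

open Module

namespace GaussDiagram

variable {n : ℕ} (D : GaussDiagram n)

/-- first passage -/
def lo (c : Fin n) : ℕ := min (D.overPass c) (D.underPass c)

/-- second passage -/
def hi (c : Fin n) : ℕ := max (D.overPass c) (D.underPass c)

/-- `1` if the second passage is `fst` -/
def bet' (c : Fin n) : ZMod 2 := if (D.fst c : ℕ) = D.hi c then 1 else 0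

theorem lo_hi (c : Fin n) : (D.overPass c : ℕ) = D.lo c ∧ (D.underPass c : ℕ) = D.hi c ∨
    (D.overPass c : ℕ) = D.hi c ∧ (D.underPass c : ℕ) = D.lo c := by
  have h := D.over_ne_under c c
  unfold lo hi
  omega

theorem lo_lt_hi (c : Fin n) : D.lo c < D.hi c := by
  have h := D.over_ne_under c c
  unfold lo hi
  omega

theorem hi_lt (c : Fin n) : D.hi c < 2 * n := by
  unfold hi
  omega

theorem fst_snd (c : Fin n) : ((D.fst c : ℕ) = D.lo c ∧ (D.snd c : ℕ) = D.hi c ∧ D.bet' c = 0) ∨
    ((D.fst c : ℕ) = D.hi c ∧ (D.snd c : ℕ) = D.lo c ∧ D.bet' c = 1) := by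
  have hne := D.lo_lt_hi c
  have h1 := D.lo_hi c
  unfold bet'
  unfold overPass underPass at h1
  unfold fst snd
  cases D.sign c
  · simp only [Bool.not_false]
    rcases h1 with ⟨a, b⟩ | ⟨a, b⟩
    · right
      refine ⟨b, a, if_pos b⟩
    · left
      refine ⟨b, a, if_neg (by omega)⟩
  · simp only [Bool.not_true]
    rcases h1 with ⟨a, b⟩ | ⟨a, b⟩
    · left
      refine ⟨a, b, if_neg (by omega)⟩
    · right
      refine ⟨a, b, if_pos a⟩

theorem pos_ne {c d : Fin n} (h : c ≠ d) : D.lo c ≠ D.lo d ∧ D.lo c ≠ D.hi d ∧ D.hi c ≠ D.lo d ∧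
    D.hi c ≠ D.hi d := by
  have h1 := D.over_ne_over h
  have h2 := D.under_ne_under h
  have h3 := D.over_ne_under c d
  have h4 := D.over_ne_under d c
  unfold lo hi
  omega

/-- whether a position is strictly between the passages of a chord -/
def inn (c : Fin n) (p : ℕ) : ZMod 2 := if D.lo c < p ∧ p < D.hi c then 1 else 0

theorem cnt_eq (k : ℕ) (c : Fin n) : cnt D.overPass D.underPass k c =
    (if D.lo c < k then 1 else 0) + (if D.hi c < k then 1 else 0) := by
  unfold cnt
  rcases D.lo_hi c with ⟨a, b⟩ | ⟨a, b⟩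
  · rw [a, b]
  · rw [a, b, add_comm]

theorem cnt_inn {k : ℕ} {c : Fin n} (h : k ≠ D.hi c) :
    cnt D.overPass D.underPass k c = D.inn c k := by
  rw [cnt_eq]
  unfold inn
  have h1 := D.lo_lt_hi c
  by_cases h2 : D.lo c < k <;> by_cases h3 : D.hi c < k
  · rw [if_pos h2, if_pos h3, if_neg (by omega)]
    decide
  · rw [if_pos h2, if_neg h3, if_pos (by omega)]
    decide
  · omega
  · rw [if_neg h2, if_neg h3, if_neg (by omega)]
    decide

theorem cnt_succ_inn {k : ℕ} {c : Fin n} (h1 : k ≠ D.lo c) (h2 : k ≠ D.hi c) :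
    cnt D.overPass D.underPass (k + 1) c = D.inn c k := by
  rw [← D.cnt_inn h2, cnt_eq, cnt_eq]
  congr 1
  · refine if_congr ?_ rfl rfl
    omega
  · refine if_congr ?_ rfl rfl
    omega

theorem lam_eq {c d : Fin n} (h : c ≠ d) : D.lam c d = D.inn c (D.lo d) + D.inn c (D.hi d) := by
  have h1 := D.pos_ne h
  unfold lam gmat arcMat
  have h0 : ¬ ((D.sign c != D.sign c) = true) := by simp
  rw [if_neg h0]
  have key : ∀ a b : ZMod 2, a + b = b + a := by decide
  have sum : cnt D.overPass D.underPass (D.overPass c) d +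
      cnt D.overPass D.underPass ((D.underPass c : ℕ) + 1) d =
      D.inn d (D.lo c) + D.inn d (D.hi c) := by
    rcases D.lo_hi c with ⟨a, b⟩ | ⟨a, b⟩
    · rw [a, b, D.cnt_inn h1.2.1, D.cnt_succ_inn h1.2.2.1 h1.2.2.2]
    · rw [a, b, D.cnt_inn h1.2.2.2, D.cnt_succ_inn h1.1 h1.2.1, add_comm]
  rw [sum]
  unfold inn
  have a1 := D.lo_lt_hi c
  have a2 := D.lo_lt_hi d
  obtain ⟨b1, b2, b3, b4⟩ := h1
  by_cases c1 : D.lo d < D.lo c <;> by_cases c2 : D.lo c < D.hi d <;>
    by_cases c3 : D.lo d < D.hi c <;> by_cases c4 : D.hi c < D.hi d <;>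
    simp only [c1, c2, c3, c4, and_true, and_false, if_true, if_false, true_and, false_and] <;>
    first
    | (exfalso; omega)
    | skip
  all_goals
    first
    | decide
    | rw [if_pos (by omega), if_pos (by omega)]
    | rw [if_pos (by omega), if_neg (by omega)]
    | rw [if_neg (by omega), if_pos (by omega)]
    | rw [if_neg (by omega), if_neg (by omega)]
    | rw [if_neg (by omega)]
    | rw [if_pos (by omega)]
  all_goals first
    | rfl
    | decide

/-- the change of the left side of the arc along a passage -/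
theorem change_pass {ψ : Fin (2 * n + 1) × Bool → ZMod 2} (hψ : ψ ∈ compat D.Corner)
    {x : Fin n → ZMod 2} (hx : ∀ c, jump ψ (D.overPass c).castSucc +
      jump ψ (D.overPass c).succ = x c) (e : Fin n) :
    ψ ((D.fst e).castSucc, true) + ψ ((D.fst e).succ, true) =
      arcFun D.overPass D.underPass 0 x ((D.snd e : ℕ) + 1) ∧
    ψ ((D.snd e).castSucc, true) + ψ ((D.snd e).succ, true) =
      arcFun D.overPass D.underPass 0 x (D.fst e) := by
  have hx' : (fun c => jump ψ (D.overPass c).castSucc + jump ψ (D.overPass c).succ) = x :=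
    funext hx
  constructor
  · rw [D.change_fst hψ e, ← hx']
    exact D.jump_eq hψ ((D.snd e : ℕ) + 1) (by omega)
  · rw [D.change_snd hψ e, ← hx']
    exact D.jump_eq hψ (D.fst e) (by omega)

/-- the jumps at the crossings as a linear map -/
def jumpMap : compat D.Corner →ₗ[ZMod 2] (Fin n → ZMod 2) where
  toFun ψ := fun c => jump ψ.1 (D.overPass c).castSucc + jump ψ.1 (D.overPass c).succ
  map_add' φ ψ := by
    funext c
    simp only [jump, Submodule.coe_add, Pi.add_apply]
    ring
  map_smul' a ψ := by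
    funext c
    simp only [jump, Submodule.coe_smul, Pi.smul_apply, smul_eq_mul, RingHom.id_apply]
    ring

theorem arcFun_zero_zero (k : ℕ) :
    arcFun D.overPass D.underPass 0 (fun _ : Fin n => (0 : ZMod 2)) k = 0 := by
  unfold arcFun
  simp

theorem const_of_jump {ψ : Fin (2 * n + 1) × Bool → ZMod 2} (hψ : ψ ∈ compat D.Corner)
    (hx : ∀ c, jump ψ (D.overPass c).castSucc + jump ψ (D.overPass c).succ = 0) :
    ∀ k b, ψ (k, b) = ψ (0, true) := by
  have hx' : (fun c => jump ψ (D.overPass c).castSucc + jump ψ (D.overPass c).succ) =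
    fun _ => 0 := funext hx
  have h1 : ∀ k, jump ψ k = 0 := by
    intro k
    have := D.jump_eq hψ k k.2
    rw [hx', arcFun_zero_zero] at this
    exact this
  have key : ∀ a b : ZMod 2, a + b = 0 → b = a := by decide
  have h2 : ∀ p : Fin (2 * n), ψ (p.succ, true) = ψ (p.castSucc, true) := by
    intro p
    obtain ⟨⟨c, b⟩, rfl⟩ := D.pos.surjective p
    have h3 := D.change_pass hψ hx c
    rw [arcFun_zero_zero, arcFun_zero_zero] at h3
    unfold fst snd at h3
    by_cases hb : b = D.sign c
    · rw [hb]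
      exact key _ _ h3.1
    · have : b = !D.sign c := by
        revert hb
        cases b <;> cases D.sign c <;> simp
      rw [this]
      exact key _ _ h3.2
  have h3 : ∀ k : ℕ, ∀ hk : k < 2 * n + 1, ψ (⟨k, hk⟩, true) = ψ (0, true) := by
    intro k
    induction k with
    | zero => intro _; rfl
    | succ k ih =>
      intro hk
      rw [← ih (by omega)]
      exact h2 ⟨k, by omega⟩
  intro k b
  cases b
  · have := h1 k
    unfold jump at this
    rw [key _ _ this]
    exact h3 k k.2
  · exact h3 k k.2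

theorem exists_face_function (hD : D.Planar) (x : Fin n → ZMod 2) :
    ∃ ψ ∈ compat D.Corner,
      ∀ c, jump ψ (D.overPass c).castSucc + jump ψ (D.overPass c).succ = x c := by
  have h1 : finrank (ZMod 2) (compat D.Corner) = n + 1 := by
    rw [finrank_compat]
    exact hD
  have h2 : finrank (ZMod 2) (LinearMap.ker D.jumpMap) ≤ 1 := by
    set ev0 : LinearMap.ker D.jumpMap →ₗ[ZMod 2] ZMod 2 :=
      { toFun := fun ψ => ψ.1.1 (0, true)
        map_add' := fun _ _ => rfl
        map_smul' := fun _ _ => rfl } with hev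
    have hinj : Function.Injective ev0 := by
      rw [← LinearMap.ker_eq_bot, LinearMap.ker_eq_bot']
      intro ψ hψ
      have hψ' : ψ.1.1 (0, true) = 0 := hψ
      have hk := LinearMap.mem_ker.1 ψ.2
      have := D.const_of_jump ψ.1.2 (fun c => congrFun hk c)
      apply Subtype.ext
      apply Subtype.ext
      funext ⟨k, b⟩
      rw [this k b, hψ']
      rfl
    have := LinearMap.finrank_le_finrank_of_injective hinj
    rw [finrank_self] at this
    exact this
  have h3 := LinearMap.finrank_range_add_finrank_ker D.jumpMap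
  rw [h1] at h3
  have h4 : LinearMap.range D.jumpMap = ⊤ := by
    apply Submodule.eq_top_of_finrank_eq
    have h5 : finrank (ZMod 2) (LinearMap.range D.jumpMap) ≤ finrank (ZMod 2) (Fin n → ZMod 2) :=
      Submodule.finrank_le _
    rw [finrank_fintype_fun_eq_card, Fintype.card_fin] at h5 ⊢
    omega
  obtain ⟨ψ, hψ⟩ := LinearMap.range_eq_top.1 h4 x
  exact ⟨ψ.1, ψ.2, fun c => congrFun hψ c⟩

/-- number of pairs of passages -/
def NN (S : Finset (Fin n)) (c d : Fin n) : ZMod 2 :=
  ∑ e ∈ (S.erase c).erase d, (D.inn d (D.lo e) * D.inn c (D.hi e) +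
    D.inn d (D.hi e) * D.inn c (D.lo e))

theorem arcFun_single (c : Fin n) (k : ℕ) :
    arcFun D.overPass D.underPass 0 (Pi.single c (1 : ZMod 2)) k =
      cnt D.overPass D.underPass k c := by
  unfold arcFun
  rw [zero_add, Finset.sum_eq_single c]
  · simp
  · intro b _ hb
    rw [Pi.single_eq_of_ne hb, zero_mul]
  · simp

theorem planar_id (hD : D.Planar) {c d : Fin n} (hcd : c ≠ d) :
    D.NN Finset.univ c d = D.lam c d * (1 + D.bet' c + D.bet' d) := by
  obtain ⟨ψ, hψ, hx⟩ := D.exists_face_function hD (Pi.single c 1)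
  have hz : ∀ k : ℕ, ∀ hk : k < 2 * n + 1, jump ψ ⟨k, hk⟩ =
      cnt D.overPass D.underPass k c := by
    intro k hk
    have := D.jump_eq hψ k hk
    rw [funext hx, arcFun_single] at this
    exact this
  have hch := D.change_pass hψ hx
  simp only [arcFun_single] at hch
  set g : ℕ → ZMod 2 := fun k => if hk : k < 2 * n + 1 then ψ (⟨k, hk⟩, true) else 0 with hg
  have hgc : ∀ p : Fin (2 * n), g p = ψ (p.castSucc, true) := by
    intro p
    rw [hg]
    simp only
    rw [dif_pos (by omega)]
    rfl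
  have hgs : ∀ p : Fin (2 * n), g ((p : ℕ) + 1) = ψ (p.succ, true) := by
    intro p
    rw [hg]
    simp only
    rw [dif_pos (by omega)]
    rfl
  have hpos := D.pos_ne hcd
  have hlh := D.lo_lt_hi d
  have hhi := D.hi_lt d
  -- telescoping
  have tel : ∀ a m : ℕ, ∑ k ∈ Finset.Ico a (a + m), (g k + g (k + 1)) = g a + g (a + m) := by
    intro a m
    induction m with
    | zero => simp [CharTwo.add_self_eq_zero]
    | succ m ih =>
      rw [← add_assoc, Finset.sum_Ico_succ_top (by omega), ih]
      have key : ∀ a b c : ZMod 2, a + b + (b + c) = a + c := by decide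
      exact key _ _ _
  have h1 : ∑ p : Fin (2 * n), D.inn d p * (g p + g ((p : ℕ) + 1)) =
      g (D.lo d + 1) + g (D.hi d) := by
    rw [Fin.sum_univ_eq_sum_range (fun k => D.inn d k * (g k + g (k + 1))) (2 * n)]
    have h2 := tel (D.lo d + 1) (D.hi d - (D.lo d + 1))
    have e : D.lo d + 1 + (D.hi d - (D.lo d + 1)) = D.hi d := by omega
    rw [e] at h2
    rw [← h2]
    symm
    have h3 : Finset.Ico (D.lo d + 1) (D.hi d) =
        (Finset.range (2 * n)).filter (fun k => D.lo d < k ∧ k < D.hi d) := by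
      ext k
      simp only [Finset.mem_Ico, Finset.mem_filter, Finset.mem_range]
      omega
    rw [h3, Finset.sum_filter]
    refine Finset.sum_congr rfl fun k _ => ?_
    unfold inn
    split_ifs <;> simp
  -- the corners at the crossing d
  have h2 : g (D.lo d + 1) + g (D.hi d) =
      (1 + D.bet' d) * (D.inn c (D.lo d) + D.inn c (D.hi d)) := by
    rw [mem_compat] at hψ
    rcases D.fst_snd d with ⟨a, b, hb⟩ | ⟨a, b, hb⟩
    · rw [hb, add_zero, one_mul, ← a, ← b, hgs, hgc]
      have k1 := hz ((D.fst d : ℕ) + 1) (by omega)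
      have k2 := hz (D.snd d) (by omega)
      rw [D.cnt_succ_inn (by omega) (by omega)] at k1
      rw [D.cnt_inn (by omega)] at k2
      rw [← k1, ← k2]
      have e1 : (⟨(D.fst d : ℕ) + 1, by omega⟩ : Fin (2 * n + 1)) = (D.fst d).succ := rfl
      have e2 : (⟨(D.snd d : ℕ), by omega⟩ : Fin (2 * n + 1)) = (D.snd d).castSucc := rfl
      rw [e1, e2]
      unfold jump
      rw [hψ _ _ (Corner.ne d)]
      have key : ∀ a b c : ZMod 2, a + b = a + c + (b + c) := by decide
      exact key _ _ _
    · rw [hb]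
      have e : (1 : ZMod 2) + 1 = 0 := by decide
      rw [e, zero_mul, ← a, ← b, hgs, hgc, hψ _ _ (Corner.sw d)]
      exact CharTwo.add_self_eq_zero _
  -- the sum over the crossings
  have h3 : ∑ p : Fin (2 * n), D.inn d p * (g p + g ((p : ℕ) + 1)) =
      ∑ e : Fin n, (D.inn d (D.fst e) * cnt D.overPass D.underPass ((D.snd e : ℕ) + 1) c +
        D.inn d (D.snd e) * cnt D.overPass D.underPass (D.fst e) c) := by
    rw [← D.pos.sum_comp, Fintype.sum_prod_type]
    refine Finset.sum_congr rfl fun e _ => ?_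
    have h4 : ∀ q : Bool → ZMod 2, ∑ b : Bool, q b = q (D.sign e) + q (!D.sign e) := by
      intro q
      rw [Fintype.sum_bool]
      cases D.sign e
      · exact add_comm _ _
      · rfl
    rw [h4 (fun b => D.inn d (D.pos (e, b)) * (g (D.pos (e, b)) + g ((D.pos (e, b) : ℕ) + 1)))]
    simp only [hgc, hgs]
    have h5 := hch e
    unfold fst snd at h5 ⊢
    rw [h5.1, h5.2]
  have h4 : ∀ e : Fin n, e ≠ c → e ≠ d →
      D.inn d (D.fst e) * cnt D.overPass D.underPass ((D.snd e : ℕ) + 1) c +
        D.inn d (D.snd e) * cnt D.overPass D.underPass (D.fst e) c =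
      D.inn d (D.lo e) * D.inn c (D.hi e) + D.inn d (D.hi e) * D.inn c (D.lo e) := by
    intro e hec _
    have hp := D.pos_ne hec
    rcases D.fst_snd e with ⟨a, b, -⟩ | ⟨a, b, -⟩
    · rw [a, b, D.cnt_succ_inn (by omega) (by omega), D.cnt_inn (by omega)]
    · rw [a, b, D.cnt_succ_inn (by omega) (by omega), D.cnt_inn (by omega), add_comm]
  have h5 : D.inn d (D.fst d) * cnt D.overPass D.underPass ((D.snd d : ℕ) + 1) c +
        D.inn d (D.snd d) * cnt D.overPass D.underPass (D.fst d) c = 0 := by
    have a1 : D.inn d (D.lo d) = 0 := by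
      unfold inn
      rw [if_neg (by omega)]
    have a2 : D.inn d (D.hi d) = 0 := by
      unfold inn
      rw [if_neg (by omega)]
    rcases D.fst_snd d with ⟨a, b, -⟩ | ⟨a, b, -⟩
    · rw [a, b, a1, a2]; ring
    · rw [a, b, a1, a2]; ring
  have h6 : D.inn d (D.fst c) * cnt D.overPass D.underPass ((D.snd c : ℕ) + 1) c +
        D.inn d (D.snd c) * cnt D.overPass D.underPass (D.fst c) c =
      D.bet' c * (D.inn d (D.lo c) + D.inn d (D.hi c)) := by
    have hc := D.lo_lt_hi c
    rcases D.fst_snd c with ⟨a, b, hb⟩ | ⟨a, b, hb⟩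
    · rw [a, b, hb, cnt_eq, cnt_eq, if_pos (by omega), if_pos (by omega), if_neg (by omega),
        if_neg (by omega)]
      have e : (1 : ZMod 2) + 1 = 0 := by decide
      rw [e]
      ring
    · rw [a, b, hb, cnt_eq, cnt_eq, if_pos (by omega), if_neg (by omega), if_pos (by omega),
        if_neg (by omega)]
      ring
  have hsymm := D.lam_symm c d
  rw [D.lam_eq hcd, D.lam_eq (Ne.symm hcd)] at hsymm
  have h7 : ∑ e : Fin n, (D.inn d (D.fst e) * cnt D.overPass D.underPass ((D.snd e : ℕ) + 1) c +
        D.inn d (D.snd e) * cnt D.overPass D.underPass (D.fst e) c) =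
      D.bet' c * (D.inn c (D.lo d) + D.inn c (D.hi d)) + D.NN Finset.univ c d := by
    unfold NN
    rw [← Finset.add_sum_erase _ _ (Finset.mem_univ c), h6, ← hsymm]
    congr 1
    rw [← Finset.add_sum_erase _ _ (Finset.mem_erase.2 ⟨Ne.symm hcd, Finset.mem_univ d⟩), h5,
      zero_add]
    refine Finset.sum_congr rfl fun e he => ?_
    rw [Finset.mem_erase, Finset.mem_erase] at he
    exact h4 e he.2.1 he.1
  rw [h3, h7, h2] at h1
  rw [D.lam_eq hcd]
  generalize D.inn c (D.lo d) + D.inn c (D.hi d) = L at h1 ⊢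
  generalize D.NN Finset.univ c d = N at h1 ⊢
  generalize D.bet' c = x at h1 ⊢
  generalize D.bet' d = y at h1 ⊢
  revert L N x y
  decide

end GaussDiagram

end Pool.Agent.Helper16.Knotoid
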