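import Pool.Agent.Helper16.Knotoid.OddDefs

set_option autoImplicit false

/-!
# Reductions of signed Gauss codes by Reidemeister moves of types I and II
-/

namespace Pool.Agent.Helper16.Knotoid

/-- The signed Gauss code: the passages in the order of the path, each recorded by its crossing and
by `true` if it is the over-passage, `false` if it is the under-passage. -/
def GaussDiagram.code {n : ℕ} (D : GaussDiagram n) : List (Fin n × Bool) :=
  List.ofFn fun p : Fin (2 * n) => D.pos.symm p

/-- A signed Gauss code is `R12Trivial` if it is obtained from the empty code by inserting
successively, as in Reidemeister moves of type I and type II, either the two passages of a new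
crossing `a` next to each other, or two new crossings `a`, `b` of opposite signs which are passed
one right after the other at two places, both over at one place and both under at the other (in
the same or in the opposite order). -/
inductive R12Trivial {α : Type*} (sign : α → Bool) : List (α × Bool) → Prop
  | nil : R12Trivial sign []
  | one (u v : List (α × Bool)) (a : α) (o : Bool) :
      R12Trivial sign (u ++ v) → R12Trivial sign (u ++ (a, o) :: (a, !o) :: v)
  | two (u v w : List (α × Bool)) (a b : α) (o : Bool) (h : sign a ≠ sign b) :
      R12Trivial sign (u ++ v ++ w) →
        R12Trivial sign (u ++ (a, o) :: (b, o) :: v ++ (a, !o) :: (b, !o) :: w)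
  | two' (u v w : List (α × Bool)) (a b : α) (o : Bool) (h : sign a ≠ sign b) :
      R12Trivial sign (u ++ v ++ w) →
        R12Trivial sign (u ++ (a, o) :: (b, o) :: v ++ (b, !o) :: (a, !o) :: w)

end Pool.Agent.Helper16.Knotoid
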