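import Pool.Agent.Helper16.Knotoid.Steps
import Pool.Agent.Helper16.Knotoid.Count

set_option autoImplicit false

/-!
# Reduction of planar diagrams of canonical genus one
-/

namespace Pool.Agent.Helper16.Knotoid

namespace GaussDiagram

variable {n : ℕ} (D : GaussDiagram n)

theorem inn_eq (c : Fin n) (p : ℕ) : D.inn c p = 1 ↔ D.lo c < p ∧ p < D.hi c := by
  unfold inn
  split_ifs with h
  · simp [h]
  · simp [h]

theorem inn_zero (c : Fin n) (p : ℕ) : D.inn c p = 0 ↔ ¬ (D.lo c < p ∧ p < D.hi c) := by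
  unfold inn
  split_ifs with h
  · simp [h]
  · simp [h]

/-- interlaced chords -/
def Il (c d : Fin n) : Prop := (D.lo c < D.lo d ∧ D.lo d < D.hi c ∧ D.hi c < D.hi d) ∨
  (D.lo d < D.lo c ∧ D.lo c < D.hi d ∧ D.hi d < D.hi c)

theorem lam_one_iff {c d : Fin n} (h : c ≠ d) : D.lam c d = 1 ↔ D.Il c d := by
  have h1 := D.pos_ne h
  have h2 := D.lo_lt_hi c
  have h3 := D.lo_lt_hi d
  rw [D.lam_eq h]
  unfold inn Il
  by_cases a1 : D.lo c < D.lo d ∧ D.lo d < D.hi c
  · by_cases a2 : D.lo c < D.hi d ∧ D.hi d < D.hi c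
    · rw [if_pos a1, if_pos a2]
      constructor
      · intro h'
        exact absurd h' (by decide)
      · intro h'
        omega
    · rw [if_pos a1, if_neg a2]
      constructor
      · intro _
        omega
      · intro _
        decide
  · by_cases a2 : D.lo c < D.hi d ∧ D.hi d < D.hi c
    · rw [if_neg a1, if_pos a2]
      constructor
      · intro _
        omega
      · intro _
        decide
    · rw [if_neg a1, if_neg a2]
      constructor
      · intro h'
        exact absurd h' (by decide)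
      · intro h'
        omega

theorem lam_zero_iff {c d : Fin n} (h : c ≠ d) : D.lam c d = 0 ↔ ¬ D.Il c d := by
  rw [← D.lam_one_iff h]
  generalize D.lam c d = x
  revert x
  decide

theorem Il_symm {c d : Fin n} (h : D.Il c d) : D.Il d c := by
  unfold Il at *
  omega

/-- a single chord is adjacent in `S` -/
def Adj1 (S : Finset (Fin n)) (c : Fin n) : Prop := c ∈ S ∧ D.Clear S (D.lo c) (D.hi c)

/-- if no chord is adjacent then a segment whose chords are isolated and contained is empty -/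
theorem seg_empty {S : Finset (Fin n)} (hadj : ∀ c, ¬ D.Adj1 S c) {a b : ℕ}
    (h : ∀ z ∈ S, ((a < D.lo z ∧ D.lo z < b) ∨ (a < D.hi z ∧ D.hi z < b)) →
      a < D.lo z ∧ D.hi z < b ∧ ∀ z' ∈ S, z' ≠ z → ¬ D.Il z z') : D.Clear S a b := by
  by_contra hcl
  have hcl' : ∃ z ∈ S, (a < D.lo z ∧ D.lo z < b) ∨ (a < D.hi z ∧ D.hi z < b) := by
    by_contra hno
    apply hcl
    intro z hz
    constructor
    · intro h1
      exact hno ⟨z, hz, Or.inl h1⟩
    · intro h1
      exact hno ⟨z, hz, Or.inr h1⟩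
  set T := S.filter (fun z => a < D.lo z ∧ D.hi z < b) with hT
  have hne : T.Nonempty := by
    obtain ⟨z, hz, h1⟩ := hcl'
    obtain ⟨h2, h3, -⟩ := h z hz h1
    exact ⟨z, Finset.mem_filter.2 ⟨hz, h2, h3⟩⟩
  obtain ⟨z, hzT, hmin⟩ := Finset.exists_min_image T (fun z => D.hi z - D.lo z) hne
  rw [hT, Finset.mem_filter] at hzT
  have hzl := D.lo_lt_hi z
  apply hadj z
  refine ⟨hzT.1, fun w hw => ?_⟩
  by_contra hcon
  have hwz : w ≠ z := by
    intro hwz
    rw [hwz] at hcon
    apply hcon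
    constructor <;> omega
  have hwl := D.lo_lt_hi w
  obtain ⟨-, -, hil⟩ := h z hzT.1 (Or.inl (by omega))
  have hil' := hil w hw hwz
  have hw1 : D.lo z < D.lo w ∧ D.hi w < D.hi z := by
    have hp := D.pos_ne hwz
    unfold Il at hil'
    omega
  have hwT : w ∈ T := Finset.mem_filter.2 ⟨hw, by omega, by omega⟩
  have := hmin w hwT
  omega

/-- no interlaced chords: the code reduces -/
theorem r12_of_noninter (S : Finset (Fin n)) (h : ∀ c ∈ S, ∀ d ∈ S, c ≠ d → ¬ D.Il c d) :
    R12Trivial D.sign (D.codeS S) := by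
  generalize hk : S.card = k
  induction k using Nat.strong_induction_on generalizing S with
  | _ k ih =>
    rcases S.eq_empty_or_nonempty with rfl | hne
    · have : D.codeS ∅ = [] := by
        unfold codeS plist
        simp
      rw [this]
      exact R12Trivial.nil
    · by_cases hadj : ∃ c, D.Adj1 S c
      · obtain ⟨c, hc, hcl⟩ := hadj
        refine D.step_one hc hcl (ih (S.erase c).card ?_ (S.erase c) ?_ rfl)
        · rw [Finset.card_erase_of_mem hc]
          have := Finset.card_pos.2 hne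
          omega
        · intro a ha b hb
          exact h a (Finset.mem_of_mem_erase ha) b (Finset.mem_of_mem_erase hb)
      · push Not at hadj
        obtain ⟨z, hz⟩ := hne
        exfalso
        apply hadj z
        refine ⟨hz, D.seg_empty hadj fun w hw hcon => ?_⟩
        have hwz : w ≠ z := by
          intro hwz
          rw [hwz] at hcon
          omega
        have hp := D.pos_ne hwz
        have hwl := D.lo_lt_hi w
        have hzl := D.lo_lt_hi z
        have hil := h w hw z hz hwz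
        refine ⟨?_, ?_, fun z' hz' hne' => h w hw z' hz' (Ne.symm hne')⟩
        · unfold Il at hil
          omega
        · unfold Il at hil
          omega

/-- the planarity identities relative to a set of chords -/
def PL (S : Finset (Fin n)) : Prop :=
  ∀ c ∈ S, ∀ d ∈ S, c ≠ d → D.NN S c d = D.lam c d * (1 + D.bet' c + D.bet' d)

/-- the summand of `NN` -/
def tt (c d e : Fin n) : ZMod 2 :=
  D.inn d (D.lo e) * D.inn c (D.hi e) + D.inn d (D.hi e) * D.inn c (D.lo e)

theorem NN_eq (S : Finset (Fin n)) (c d : Fin n) :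
    D.NN S c d = ∑ e ∈ (S.erase c).erase d, D.tt c d e := rfl

theorem NN_erase {S : Finset (Fin n)} {c d x : Fin n} (hx : x ∈ S) (hxc : x ≠ c) (hxd : x ≠ d) :
    D.NN S c d = D.tt c d x + D.NN (S.erase x) c d := by
  rw [NN_eq, NN_eq]
  have h1 : ((S.erase x).erase c).erase d = ((S.erase c).erase d).erase x := by
    ext e
    simp only [Finset.mem_erase]
    tauto
  rw [h1, Finset.add_sum_erase]
  rw [Finset.mem_erase, Finset.mem_erase]
  exact ⟨hxd, hxc, hx⟩

theorem inn_clear {S : Finset (Fin n)} {a b : ℕ} (hab : a < b) (hcl : D.Clear S a b) {c : Fin n}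
    (hc : c ∈ S) (h1 : D.lo c ≠ a) (h2 : D.lo c ≠ b) (h3 : D.hi c ≠ a) (h4 : D.hi c ≠ b) :
    D.inn c a = D.inn c b := by
  obtain ⟨h5, h6⟩ := hcl c hc
  unfold inn
  refine if_congr ?_ rfl rfl
  omega

theorem PL_one {S : Finset (Fin n)} (h : D.PL S) {x : Fin n} (hx : D.Adj1 S x) :
    D.PL (S.erase x) := by
  intro c hc d hd hcd
  rw [Finset.mem_erase] at hc hd
  rw [← h c hc.2 d hd.2 hcd, D.NN_erase hx.1 (Ne.symm hc.1) (Ne.symm hd.1)]
  have hxl := D.lo_lt_hi x
  have hpc := D.pos_ne hc.1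
  have hpd := D.pos_ne hd.1
  have e1 : D.inn c (D.lo x) = D.inn c (D.hi x) :=
    D.inn_clear hxl hx.2 hc.2 (by omega) (by omega) (by omega) (by omega)
  have e2 : D.inn d (D.lo x) = D.inn d (D.hi x) :=
    D.inn_clear hxl hx.2 hd.2 (by omega) (by omega) (by omega) (by omega)
  have : D.tt c d x = 0 := by
    unfold tt
    rw [e1, e2]
    exact CharTwo.add_self_eq_zero _
  rw [this, zero_add]

/-- the passages of two chords are next to each other at two places -/
def Adj2 (S : Finset (Fin n)) (x y : Fin n) : Prop :=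
  x ∈ S ∧ y ∈ S ∧ x ≠ y ∧ D.lo x < D.lo y ∧ D.lo y < D.hi x ∧ D.Clear S (D.lo x) (D.lo y) ∧
    ((D.hi y < D.hi x ∧ D.Clear S (D.hi y) (D.hi x)) ∨
      (D.hi x < D.hi y ∧ D.Clear S (D.hi x) (D.hi y)))

theorem inn_two {S : Finset (Fin n)} {x y : Fin n} (h4 : D.lo x < D.lo y)
    (h5 : D.Clear S (D.lo x) (D.lo y))
    (h6 : (D.hi y < D.hi x ∧ D.Clear S (D.hi y) (D.hi x)) ∨
      (D.hi x < D.hi y ∧ D.Clear S (D.hi x) (D.hi y))) {c : Fin n}
    (hc : c ∈ S) (hcx : c ≠ x) (hcy : c ≠ y) :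
    D.inn c (D.lo x) = D.inn c (D.lo y) ∧ D.inn c (D.hi x) = D.inn c (D.hi y) := by
  obtain ⟨p1, p2, p3, p4⟩ := D.pos_ne hcx
  obtain ⟨q1, q2, q3, q4⟩ := D.pos_ne hcy
  refine ⟨?_, ?_⟩
  · apply D.inn_clear h4 h5 hc <;> assumption
  · rcases h6 with ⟨h7, h8⟩ | ⟨h7, h8⟩
    · symm
      apply D.inn_clear h7 h8 hc <;> assumption
    · apply D.inn_clear h7 h8 hc <;> assumption

theorem tt_two {S : Finset (Fin n)} {x y : Fin n} (hxy : D.Adj2 S x y) {c d : Fin n}
    (hc : c ∈ S) (hd : d ∈ S) (hcx : c ≠ x) (hcy : c ≠ y) (hdx : d ≠ x) (hdy : d ≠ y) :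
    D.tt c d x = D.tt c d y := by
  obtain ⟨-, -, -, h4, -, h5, h6⟩ := hxy
  obtain ⟨a1, a2⟩ := D.inn_two h4 h5 h6 hc hcx hcy
  obtain ⟨b1, b2⟩ := D.inn_two h4 h5 h6 hd hdx hdy
  unfold tt
  rw [a1, a2, b1, b2]

theorem PL_two {S : Finset (Fin n)} (h : D.PL S) {x y : Fin n} (hxy : D.Adj2 S x y) :
    D.PL ((S.erase x).erase y) := by
  intro c hc d hd hcd
  rw [Finset.mem_erase, Finset.mem_erase] at hc hd
  rw [← h c hc.2.2 d hd.2.2 hcd, D.NN_erase hxy.1 (Ne.symm hc.2.1) (Ne.symm hd.2.1),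
    D.NN_erase (S := S.erase x) (x := y) (Finset.mem_erase.2 ⟨Ne.symm hxy.2.2.1, hxy.2.1⟩)
      (Ne.symm hc.1) (Ne.symm hd.1),
    D.tt_two hxy hc.2.2 hd.2.2 hc.2.1 hc.1 hd.2.1 hd.1, ← add_assoc,
    CharTwo.add_self_eq_zero, zero_add]

/-- the second move in terms of adjacency -/
theorem step_two' {S : Finset (Fin n)} {x y : Fin n} (hxy : D.Adj2 S x y)
    (hsign : D.sign x ≠ D.sign y) (hbet : D.bet' x + D.bet' y = 1)
    (h : R12Trivial D.sign (D.codeS ((S.erase x).erase y))) : R12Trivial D.sign (D.codeS S) := by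
  obtain ⟨hx, hy, hne, h1, h2, h3, h4⟩ := hxy
  have hov := D.ov_eq hsign hbet
  have hyl := D.lo_lt_hi y
  have t1 : D.loF x < D.loF y := by
    show (D.loF x : ℕ) < D.loF y
    rw [loF_val, loF_val]
    exact h1
  have t2 : D.Clear S (D.loF x) (D.loF y) := by
    rw [loF_val, loF_val]
    exact h3
  rcases h4 with ⟨h4, h5⟩ | ⟨h4, h5⟩
  · refine D.step_two hx hy hne hsign hov (q₁ := D.hiF y) (q₂ := D.hiF x) (Or.inr ⟨rfl, rfl⟩)
      t1 ?_ ?_ t2 ?_ h
    · exact D.loF_lt_hiF y
    · show (D.hiF y : ℕ) < D.hiF x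
      rw [hiF_val, hiF_val]
      exact h4
    · rw [hiF_val, hiF_val]
      exact h5
  · refine D.step_two hx hy hne hsign hov (q₁ := D.hiF x) (q₂ := D.hiF y) (Or.inl ⟨rfl, rfl⟩)
      t1 ?_ ?_ t2 ?_ h
    · show (D.loF y : ℕ) < D.hiF x
      rw [loF_val, hiF_val]
      exact h2
    · show (D.hiF x : ℕ) < D.hiF y
      rw [hiF_val, hiF_val]
      exact h4
    · rw [hiF_val, hiF_val]
      exact h5

section Classes

variable {v : Fin n → V2} (hv : ∀ c f, D.lam c f = wdg (v c) (v f))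

include hv

theorem Il_iff {c d : Fin n} (h : c ≠ d) : D.Il c d ↔ wdg (v c) (v d) = 1 := by
  rw [← D.lam_one_iff h, hv]

/-- a pair of nested chords of opposite signs in a class can be removed -/
theorem nest_step {S : Finset (Fin n)} (hPL : D.PL S) (hadj : ∀ c, ¬ D.Adj1 S c)
    (hI : ∃ a ∈ S, ∃ b ∈ S, a ≠ b ∧ D.Il a b) {w : V2} (hw : w ≠ 0)
    (hnest : ∀ c ∈ S, ∀ d ∈ S, v c = w → v d = w → ¬ D.hi c < D.lo d)
    (hboth : ∃ c ∈ S, ∃ d ∈ S, v c = w ∧ v d = w ∧ D.sign c ≠ D.sign d) :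
    ∃ x y, D.Adj2 S x y ∧ v x = w ∧ v y = w ∧ D.sign x ≠ D.sign y ∧
      D.bet' x + D.bet' y = 1 := by
  classical
  -- the closest pair
  set P := (S ×ˢ S).filter (fun p => v p.1 = w ∧ v p.2 = w ∧ D.sign p.1 ≠ D.sign p.2 ∧
    D.lo p.1 < D.lo p.2) with hP
  have hPne : P.Nonempty := by
    obtain ⟨c, hc, d, hd, h1, h2, h3⟩ := hboth
    have hcd : c ≠ d := fun h => h3 (by rw [h])
    have hp := D.pos_ne hcd
    rcases Nat.lt_or_gt_of_ne hp.1 with h4 | h4
    · exact ⟨(c, d), Finset.mem_filter.2 ⟨Finset.mem_product.2 ⟨hc, hd⟩, h1, h2, h3, h4⟩⟩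
    · exact ⟨(d, c), Finset.mem_filter.2 ⟨Finset.mem_product.2 ⟨hd, hc⟩, h2, h1, Ne.symm h3, h4⟩⟩
  obtain ⟨⟨x, y⟩, hxy, hmin⟩ := Finset.exists_min_image P (fun p => D.lo p.2 - D.lo p.1) hPne
  rw [hP, Finset.mem_filter, Finset.mem_product] at hxy
  obtain ⟨⟨hx, hy⟩, vx, vy, hsign, hlt⟩ := hxy
  simp only at hx hy vx vy hsign hlt
  have hne : x ≠ y := fun h => hsign (by rw [h])
  have hpxy := D.pos_ne hne
  have xl := D.lo_lt_hi x
  have yl := D.lo_lt_hi y
  have hself : ∀ u : V2, wdg u u = 0 := by decide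
  have hnil : ¬ D.Il x y := by
    rw [D.Il_iff hv hne, vx, vy, hself]
    decide
  have hnd := hnest x hx y hy vx vy
  have hnested : D.lo x < D.lo y ∧ D.hi y < D.hi x := by
    unfold Il at hnil
    omega
  -- nothing of the class in between
  have hbetween : ∀ z ∈ S, v z = w → ¬ (D.lo x < D.lo z ∧ D.lo z < D.lo y) := by
    rintro z hz vz ⟨h1, h2⟩
    by_cases h3 : D.sign z = D.sign x
    · have h4 : (z, y) ∈ P := by
        rw [hP, Finset.mem_filter, Finset.mem_product]
        exact ⟨⟨hz, hy⟩, vz, vy, by rw [h3]; exact hsign, h2⟩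
      have := hmin _ h4
      simp only at this
      omega
    · have h4 : (x, z) ∈ P := by
        rw [hP, Finset.mem_filter, Finset.mem_product]
        exact ⟨⟨hx, hz⟩, vx, vz, Ne.symm h3, h1⟩
      have := hmin _ h4
      simp only at this
      omega
  -- a chord interlaced with both
  obtain ⟨e, heS, hex, hey⟩ : ∃ e ∈ S, wdg (v e) w = 1 ∧ e ≠ x := by
    obtain ⟨a, ha, b, hb, hab, hil⟩ := hI
    rw [D.Il_iff hv hab] at hil
    have key : ∀ a b w : V2, wdg a b = 1 → w ≠ 0 → wdg a w = 1 ∨ wdg b w = 1 := by decide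
    rcases key _ _ _ hil hw with h | h
    · refine ⟨a, ha, h, fun h' => ?_⟩
      rw [h', vx, hself] at h
      exact absurd h (by decide)
    · refine ⟨b, hb, h, fun h' => ?_⟩
      rw [h', vx, hself] at h
      exact absurd h (by decide)
  have hex' : e ≠ x := hey
  have hey' : e ≠ y := fun h' => by
    rw [h', vy, hself] at hex
    exact absurd hex (by decide)
  have ilx : D.Il e x := by rw [D.Il_iff hv hex', vx]; exact hex
  have ily : D.Il e y := by rw [D.Il_iff hv hey', vy]; exact hex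
  -- analysis of a chord with a passage between
  have hanal : ∀ z ∈ S, z ≠ x → z ≠ y →
      ((D.lo x < D.lo z ∧ D.lo z < D.lo y) ∨ (D.lo x < D.hi z ∧ D.hi z < D.lo y) ∨
        (D.hi y < D.lo z ∧ D.lo z < D.hi x) ∨ (D.hi y < D.hi z ∧ D.hi z < D.hi x)) →
      ((D.lo x < D.lo z ∧ D.hi z < D.lo y) ∨ (D.hi y < D.lo z ∧ D.hi z < D.hi x)) ∧
        v z = 0 := by
    intro z hz hzx hzy hpos
    have zl := D.lo_lt_hi z
    have pzx := D.pos_ne hzx
    have pzy := D.pos_ne hzy
    have hiff : D.Il z x ↔ D.Il z y := by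
      rw [D.Il_iff hv hzx, D.Il_iff hv hzy, vx, vy]
    have h0 : ¬ D.Il z x := by
      intro h1
      have h2 := hiff.1 h1
      unfold Il at h1 h2
      omega
    have h0' : ¬ D.Il z y := fun h => h0 (hiff.2 h)
    have hvz : v z = 0 ∨ v z = w := by
      rw [D.Il_iff hv hzx, vx] at h0
      have key : ∀ a w : V2, ¬ wdg a w = 1 → w ≠ 0 → a = 0 ∨ a = w := by decide
      exact key _ _ h0 hw
    have hcases : (D.lo x < D.lo z ∧ D.hi z < D.lo y) ∨ (D.hi y < D.lo z ∧ D.hi z < D.hi x) ∨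
        (D.lo x < D.lo z ∧ D.lo z < D.lo y ∧ D.hi y < D.hi z ∧ D.hi z < D.hi x) := by
      unfold Il at h0 h0'
      omega
    rcases hcases with h1 | h1 | h1
    · refine ⟨Or.inl h1, hvz.resolve_right fun h2 => ?_⟩
      exact hnest z hz y hy h2 vy h1.2
    · refine ⟨Or.inr h1, hvz.resolve_right fun h2 => ?_⟩
      exact hnest y hy z hz vy h2 h1.1
    · exfalso
      rcases hvz with h2 | h2
      · -- z would be interlaced with e
        have hez : e ≠ z := by
          intro h'
          rw [h', h2] at hex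
          have key : ∀ w : V2, wdg 0 w = 0 := by decide
          rw [key] at hex
          exact absurd hex (by decide)
        have h3 : ¬ D.Il e z := by
          rw [D.Il_iff hv hez, h2]
          have key : ∀ w : V2, wdg w 0 = 0 := by decide
          rw [key]
          decide
        have pez := D.pos_ne hez
        have pex := D.pos_ne hex'
        have pey := D.pos_ne hey'
        have el := D.lo_lt_hi e
        unfold Il at h3 ilx ily
        omega
      · exact hbetween z hz h2 ⟨h1.1, h1.2.1⟩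
  have hzero : ∀ z ∈ S, v z = 0 → ∀ z' ∈ S, z' ≠ z → ¬ D.Il z z' := by
    intro z _ hz0 z' _ hne'
    rw [D.Il_iff hv (Ne.symm hne'), hz0]
    have key : ∀ w : V2, wdg 0 w = 0 := by decide
    rw [key]
    decide
  have c1 : D.Clear S (D.lo x) (D.lo y) := by
    refine D.seg_empty hadj fun z hz hpos => ?_
    have hzx : z ≠ x := by
      rintro rfl
      omega
    have hzy : z ≠ y := by
      rintro rfl
      omega
    obtain ⟨h1, h2⟩ := hanal z hz hzx hzy (by omega)
    have zl := D.lo_lt_hi z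
    exact ⟨by omega, by omega, hzero z hz h2⟩
  have c2 : D.Clear S (D.hi y) (D.hi x) := by
    refine D.seg_empty hadj fun z hz hpos => ?_
    have hzx : z ≠ x := by
      rintro rfl
      omega
    have hzy : z ≠ y := by
      rintro rfl
      omega
    obtain ⟨h1, h2⟩ := hanal z hz hzx hzy (by omega)
    have zl := D.lo_lt_hi z
    exact ⟨by omega, by omega, hzero z hz h2⟩
  have hA : D.Adj2 S x y :=
    ⟨hx, hy, hne, hnested.1, by omega, c1, Or.inl ⟨hnested.2, c2⟩⟩
  refine ⟨x, y, hA, vx, vy, hsign, ?_⟩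
  -- the bits
  have e1 := hPL x hx e heS (Ne.symm hex')
  have e2 := hPL y hy e heS (Ne.symm hey')
  rw [(D.lam_one_iff (Ne.symm hex')).2 (D.Il_symm ilx), one_mul,
    D.NN_erase hy (Ne.symm hne) (Ne.symm hey')] at e1
  rw [(D.lam_one_iff (Ne.symm hey')).2 (D.Il_symm ily), one_mul,
    D.NN_erase hx hne (Ne.symm hex')] at e2
  have s1 : D.tt x e y = 1 := by
    unfold tt
    have a1 : D.inn x (D.lo y) = 1 := (D.inn_eq _ _).2 ⟨by omega, by omega⟩
    have a2 : D.inn x (D.hi y) = 1 := (D.inn_eq _ _).2 ⟨by omega, by omega⟩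
    rw [a1, a2, mul_one, mul_one, ← D.lam_eq hey']
    exact (D.lam_one_iff hey').2 ily
  have s2 : D.tt y e x = 0 := by
    unfold tt
    have a1 : D.inn y (D.lo x) = 0 := (D.inn_zero _ _).2 (by omega)
    have a2 : D.inn y (D.hi x) = 0 := (D.inn_zero _ _).2 (by omega)
    rw [a1, a2]
    ring
  have s3 : D.NN (S.erase y) x e = D.NN (S.erase x) y e := by
    rw [NN_eq, NN_eq]
    have h1 : ((S.erase y).erase x).erase e = ((S.erase x).erase y).erase e := by
      ext z
      simp only [Finset.mem_erase]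
      tauto
    rw [h1]
    refine Finset.sum_congr rfl fun z hz => ?_
    rw [Finset.mem_erase, Finset.mem_erase, Finset.mem_erase] at hz
    obtain ⟨hze, hzy, hzx, hzS⟩ := hz
    have pzx := D.pos_ne hzx
    have pzy := D.pos_ne hzy
    obtain ⟨b1, b2⟩ := c1 z hzS
    obtain ⟨b3, b4⟩ := c2 z hzS
    have i1 : D.inn x (D.lo z) = D.inn y (D.lo z) := by
      unfold inn
      refine if_congr ?_ rfl rfl
      omega
    have i2 : D.inn x (D.hi z) = D.inn y (D.hi z) := by
      unfold inn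
      refine if_congr ?_ rfl rfl
      omega
    unfold tt
    rw [i1, i2]
  rw [s1, s3] at e1
  rw [s2] at e2
  generalize D.NN (S.erase x) y e = N at e1 e2
  generalize D.bet' x = p at e1 ⊢
  generalize D.bet' y = q at e2 ⊢
  generalize D.bet' e = r at e1 e2
  revert N p q r
  decide

end Classes

end GaussDiagram

end Pool.Agent.Helper16.Knotoid
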