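import Pool.Agent.Helper16.Knotoid.OddWrithe

set_option autoImplicit false

/-!
# A diagram without odd crossings has both endpoints in one region
-/

namespace Pool.Agent.Helper16.Knotoid

namespace GaussDiagram

variable {n : ℕ} (D : GaussDiagram n)

/-- the jump across an edge -/
def jump (ψ : Fin (2 * n + 1) × Bool → ZMod 2) (k : Fin (2 * n + 1)) : ZMod 2 :=
  ψ (k, true) + ψ (k, false)

theorem jump_fst_snd {ψ : Fin (2 * n + 1) × Bool → ZMod 2} (hψ : ψ ∈ compat D.Corner)
    (c : Fin n) : jump ψ (D.fst c).castSucc + jump ψ (D.fst c).succ =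
      jump ψ (D.snd c).castSucc + jump ψ (D.snd c).succ := by
  rw [mem_compat] at hψ
  unfold jump
  rw [hψ _ _ (Corner.sw c), hψ _ _ (Corner.nw c), hψ _ _ (Corner.ne c), hψ _ _ (Corner.se c)]
  ring

theorem jump_over_under {ψ : Fin (2 * n + 1) × Bool → ZMod 2} (hψ : ψ ∈ compat D.Corner)
    (c : Fin n) : jump ψ (D.overPass c).castSucc + jump ψ (D.overPass c).succ =
      jump ψ (D.underPass c).castSucc + jump ψ (D.underPass c).succ := by
  have h := D.jump_fst_snd hψ c
  unfold fst snd at h
  unfold overPass underPass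
  cases hs : D.sign c
  · rw [hs] at h
    exact h.symm
  · rw [hs] at h
    exact h

/-- the jump of an edge in terms of the jumps at the crossings -/
theorem jump_eq {ψ : Fin (2 * n + 1) × Bool → ZMod 2} (hψ : ψ ∈ compat D.Corner) :
    ∀ k : ℕ, ∀ hk : k < 2 * n + 1, jump ψ ⟨k, hk⟩ =
      arcFun D.overPass D.underPass 0
        (fun c => jump ψ (D.overPass c).castSucc + jump ψ (D.overPass c).succ) k := by
  intro k
  induction k with
  | zero =>
    intro hk
    rw [arcFun_zero]
    have h := (mem_compat.1 hψ) _ _ Corner.tail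
    unfold jump
    have h0 : (⟨0, hk⟩ : Fin (2 * n + 1)) = 0 := rfl
    rw [h0, h]
    exact CharTwo.add_self_eq_zero _
  | succ k ih =>
    intro hk
    have ih' := ih (by omega)
    have hk' : k < 2 * n := by omega
    have e1 : ∀ p : Fin (2 * n), (p : ℕ) = k → (⟨k, by omega⟩ : Fin (2 * n + 1)) = p.castSucc :=
      fun p hp => by
      ext
      simp [hp]
    have e2 : ∀ p : Fin (2 * n), (p : ℕ) = k → (⟨k + 1, hk⟩ : Fin (2 * n + 1)) = p.succ :=
      fun p hp => by
      ext
      simp [hp]
    have key : ∀ a b : ZMod 2, b = a + (a + b) := by decide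
    rcases D.pass_surj ⟨k, hk'⟩ with ⟨c, hc⟩ | ⟨c, hc⟩
    · have hp : (D.overPass c : ℕ) = k := by rw [hc]
      have h := arcFun_succ_P D.pass_inj 0
        (fun c => jump ψ (D.overPass c).castSucc + jump ψ (D.overPass c).succ) c
      rw [hp, ← ih'] at h
      rw [h, e1 _ hp, e2 _ hp]
      exact key _ _
    · have hp : (D.underPass c : ℕ) = k := by rw [hc]
      have h := arcFun_succ_Q D.pass_inj 0
        (fun c => jump ψ (D.overPass c).castSucc + jump ψ (D.overPass c).succ) c
      rw [hp, ← ih'] at h
      rw [h, e1 _ hp, e2 _ hp]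
      rw [D.jump_over_under hψ c]
      exact key _ _

/-- the change of a function on the faces across the passages of a crossing -/
theorem change_fst {ψ : Fin (2 * n + 1) × Bool → ZMod 2} (hψ : ψ ∈ compat D.Corner)
    (c : Fin n) : ψ ((D.fst c).castSucc, true) + ψ ((D.fst c).succ, true) =
      jump ψ (D.snd c).succ := by
  rw [mem_compat] at hψ
  unfold jump
  rw [hψ _ _ (Corner.sw c), hψ _ _ (Corner.nw c)]

theorem change_snd {ψ : Fin (2 * n + 1) × Bool → ZMod 2} (hψ : ψ ∈ compat D.Corner)
    (c : Fin n) : ψ ((D.snd c).castSucc, true) + ψ ((D.snd c).succ, true) =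
      jump ψ (D.fst c).castSucc := by
  rw [mem_compat] at hψ
  unfold jump
  rw [hψ _ _ (Corner.sw c), hψ _ _ (Corner.se c), add_comm]

theorem change_over_under {ψ : Fin (2 * n + 1) × Bool → ZMod 2} (hψ : ψ ∈ compat D.Corner)
    (c : Fin n) : (ψ ((D.overPass c).castSucc, true) + ψ ((D.overPass c).succ, true)) +
      (ψ ((D.underPass c).castSucc, true) + ψ ((D.underPass c).succ, true)) =
      jump ψ (D.overPass c).castSucc + jump ψ (D.underPass c).succ := by
  have h1 := D.change_fst hψ c
  have h2 := D.change_snd hψ c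
  have h3 := D.jump_over_under hψ c
  unfold fst snd at h1 h2
  unfold overPass underPass at h3 ⊢
  have key : ∀ a b c d : ZMod 2, a + b = c + d → c + b = a + d := by decide
  cases hs : D.sign c
  · rw [hs] at h1 h2
    simp only [Bool.not_false] at h1 h2
    rw [h1, h2]
    exact key _ _ _ _ h3
  · rw [hs] at h1 h2
    simp only [Bool.not_true] at h1 h2
    rw [h1, h2, add_comm]

theorem telescope (m : ℕ) (g : ℕ → ZMod 2) :
    ∑ k ∈ Finset.range m, (g k + g (k + 1)) = g 0 + g m := by
  induction m with
  | zero => simp [CharTwo.add_self_eq_zero]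
  | succ m ih =>
    rw [Finset.sum_range_succ, ih]
    have key : ∀ a b c : ZMod 2, a + b + (b + c) = a + c := by decide
    exact key _ _ _

theorem sides {ψ : Fin (2 * n + 1) × Bool → ZMod 2} (hψ : ψ ∈ compat D.Corner)
    (h : ∀ c, ¬ D.OddCrossing c) : ψ (0, true) = ψ (Fin.last (2 * n), true) := by
  set x : Fin n → ZMod 2 :=
    fun c => jump ψ (D.overPass c).castSucc + jump ψ (D.overPass c).succ with hx
  have h1 : ∑ p : Fin (2 * n), (ψ (p.castSucc, true) + ψ (p.succ, true)) =
      ψ (0, true) + ψ (Fin.last (2 * n), true) := by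
    set g : ℕ → ZMod 2 := fun k => if hk : k < 2 * n + 1 then ψ (⟨k, hk⟩, true) else 0 with hg
    have h2 := telescope (2 * n) g
    rw [← Fin.sum_univ_eq_sum_range (fun k => g k + g (k + 1)) (2 * n)] at h2
    have h3 : g 0 = ψ (0, true) := by
      rw [hg]
      simp only
      rw [dif_pos (by omega)]
      rfl
    have h4 : g (2 * n) = ψ (Fin.last (2 * n), true) := by
      rw [hg]
      simp only
      rw [dif_pos (by omega)]
      rfl
    rw [← h3, ← h4, ← h2]
    refine Finset.sum_congr rfl fun p _ => ?_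
    rw [hg]
    simp only
    rw [dif_pos (by omega), dif_pos (by omega)]
    rfl
  have h2 : ∑ p : Fin (2 * n), (ψ (p.castSucc, true) + ψ (p.succ, true)) =
      ∑ c, Lv D.lam x c := by
    rw [← D.pos.sum_comp, Fintype.sum_prod_type]
    refine Finset.sum_congr rfl fun c _ => ?_
    rw [Fintype.sum_bool]
    refine (D.change_over_under hψ c).trans ?_
    have h3 := D.jump_eq hψ (D.overPass c) (by omega)
    have h4 := D.jump_eq hψ ((D.underPass c : ℕ) + 1) (by omega)
    have h5 : (⟨(D.overPass c : ℕ), by omega⟩ : Fin (2 * n + 1)) = (D.overPass c).castSucc := rfl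
    have h6 : (⟨(D.underPass c : ℕ) + 1, by omega⟩ : Fin (2 * n + 1)) = (D.underPass c).succ := rfl
    rw [← h5, ← h6, h3, h4]
    have h7 := mulVec_arcMat (P := D.overPass) (Q := D.underPass)
      (fun c => D.sign c != D.sign c) 0 x c
    have h8 : ¬ ((D.sign c != D.sign c) = true) := by simp
    rw [if_neg h8] at h7
    rw [CharTwo.sub_eq_add] at h7
    rw [← h7]
    rfl
  have h3 : ∑ c, Lv D.lam x c = 0 := by
    rw [sum_Lv D.lam_symm]
    refine Finset.sum_eq_zero fun f _ => ?_
    rw [(D.Lv_one_eq_zero_iff f).2 (h f), zero_mul]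
  rw [h2, h3] at h1
  rw [← sub_eq_zero, CharTwo.sub_eq_add]
  exact h1.symm

/-- without odd crossings the endpoints are in the same region -/
theorem region_eq (h : ∀ c, ¬ D.OddCrossing c) : D.tailRegion = D.headRegion := by
  classical
  by_contra hne
  set ψ : Fin (2 * n + 1) × Bool → ZMod 2 :=
    fun y => if Quot.mk D.Corner y = D.tailRegion then 1 else 0 with hψ
  have hc : ψ ∈ compat D.Corner := by
    rw [mem_compat]
    intro a b hab
    rw [hψ]
    simp only
    rw [Quot.sound hab]
  have h1 := D.sides hc h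
  have h2 : ψ (0, true) = 1 := by
    rw [hψ]
    exact if_pos rfl
  have h3 : ψ (Fin.last (2 * n), true) = 0 := by
    rw [hψ]
    exact if_neg fun h' => hne h'.symm
  rw [h2, h3] at h1
  exact absurd h1 (by decide)

/-- if the odd crossings have the same sign and the odd writhe vanishes there are none -/
theorem no_odd (h : ∀ c d, D.OddCrossing c → D.OddCrossing d → D.sign c = D.sign d)
    (hJ : D.oddWrithe = 0) : ∀ c, ¬ D.OddCrossing c := by
  classical
  intro c hc
  have h1 : D.oddWrithe =
      (if D.sign c then 1 else -1) * ((Finset.univ.filter D.OddCrossing).card : ℤ) := by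
    unfold oddWrithe
    rw [← Finset.sum_filter, Finset.card_eq_sum_ones]
    push_cast
    rw [Finset.mul_sum]
    refine Finset.sum_congr rfl fun d hd => ?_
    rw [Finset.mem_filter] at hd
    rw [h d c hd.2 hc, mul_one]
  have h2 : 0 < (Finset.univ.filter D.OddCrossing).card :=
    Finset.card_pos.2 ⟨c, Finset.mem_filter.2 ⟨Finset.mem_univ c, hc⟩⟩
  rw [h1] at hJ
  split_ifs at hJ <;> omega

end GaussDiagram

end Pool.Agent.Helper16.Knotoid
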