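import Pool.Agent.Helper16.Knotoid.RDefs
import Pool.Agent.Helper16.Knotoid.PlanarId

set_option autoImplicit false

/-!
# Steps of the reduction of a Gauss code
-/

namespace Pool.Agent.Helper16.Knotoid

section Sorted

variable {N : ℕ}

theorem split_at (L : List (Fin N)) (hL : L.Pairwise (· < ·)) {a : Fin N} (ha : a ∈ L) :
    L = L.filter (fun x => decide (x < a)) ++ a :: L.filter (fun x => decide (a < x)) := by
  induction L with
  | nil => simp at ha
  | cons x L ih =>
    rw [List.pairwise_cons] at hL
    rcases lt_trichotomy x a with h | h | h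
    · have ha' : a ∈ L := by
        rcases List.mem_cons.1 ha with h' | h'
        · exact absurd h' (ne_of_gt h)
        · exact h'
      have h1 : ¬ a < x := not_lt.2 h.le
      rw [List.filter_cons_of_pos (by simpa using h), List.filter_cons_of_neg (by simpa using h1),
        List.cons_append, ← ih hL.2 ha']
    · subst h
      rw [List.filter_cons_of_neg (by simp), List.filter_cons_of_neg (by simp)]
      have h1 : L.filter (fun y => decide (y < x)) = [] := by
        rw [List.filter_eq_nil_iff]
        intro y hy
        have := hL.1 y hy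
        simpa using this.le
      have h2 : L.filter (fun y => decide (x < y)) = L := by
        rw [List.filter_eq_self]
        intro y hy
        simpa using hL.1 y hy
      rw [h1, h2]
      rfl
    · exfalso
      rcases List.mem_cons.1 ha with h' | h'
      · exact absurd h' (ne_of_lt h)
      · exact absurd (hL.1 a h') (not_lt.2 h.le)

theorem filter_gt_cons (L : List (Fin N)) (hL : L.Pairwise (· < ·)) {a b : Fin N} (hb : b ∈ L)
    (hab : a < b) (hno : ∀ x ∈ L, ¬ (a < x ∧ x < b)) :
    L.filter (fun x => decide (a < x)) = b :: L.filter (fun x => decide (b < x)) := by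
  have h1 : b ∈ L.filter (fun x => decide (a < x)) := by
    rw [List.mem_filter]
    exact ⟨hb, by simpa using hab⟩
  have h2 := split_at _ (hL.filter (fun x => decide (a < x))) h1
  have h3 : (L.filter (fun x => decide (a < x))).filter (fun x => decide (x < b)) = [] := by
    rw [List.filter_filter, List.filter_eq_nil_iff]
    intro x hx
    have := hno x hx
    simpa using fun h1 => not_lt.1 fun h2 => this ⟨h2, h1⟩
  have h4 : (L.filter (fun x => decide (a < x))).filter (fun x => decide (b < x)) =
      L.filter (fun x => decide (b < x)) := by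
    rw [List.filter_filter]
    refine List.filter_congr fun x _ => ?_
    by_cases h : b < x
    · simp [h, hab.trans h]
    · simp [h]
  rw [h3, h4] at h2
  exact h2

end Sorted

namespace GaussDiagram

variable {n : ℕ} (D : GaussDiagram n)

/-- the passages of the crossings of a set -/
def plist (S : Finset (Fin n)) : List (Fin (2 * n)) :=
  (List.finRange (2 * n)).filter fun p => decide ((D.pos.symm p).1 ∈ S)

/-- the code of the crossings of a set -/
def codeS (S : Finset (Fin n)) : List (Fin n × Bool) := (D.plist S).map D.pos.symm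

theorem code_eq : D.code = D.codeS Finset.univ := by
  unfold code codeS plist
  rw [List.ofFn_eq_map]
  congr 1
  symm
  rw [List.filter_eq_self]
  intro p _
  simp

theorem plist_sorted (S : Finset (Fin n)) : (D.plist S).Pairwise (· < ·) :=
  (List.pairwise_lt_finRange _).filter _

theorem mem_plist {S : Finset (Fin n)} {p : Fin (2 * n)} :
    p ∈ D.plist S ↔ (D.pos.symm p).1 ∈ S := by
  unfold plist
  rw [List.mem_filter]
  simp

theorem plist_sub {S S' : Finset (Fin n)} (h : S' ⊆ S) :
    D.plist S' = (D.plist S).filter fun p => decide ((D.pos.symm p).1 ∈ S') := by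
  unfold plist
  rw [List.filter_filter]
  refine List.filter_congr fun p _ => ?_
  by_cases h1 : (D.pos.symm p).1 ∈ S'
  · simp [h1, h h1]
  · simp [h1]

/-- first passage of a crossing -/
def loF (c : Fin n) : Fin (2 * n) := min (D.overPass c) (D.underPass c)

/-- second passage of a crossing -/
def hiF (c : Fin n) : Fin (2 * n) := max (D.overPass c) (D.underPass c)

theorem loF_val (c : Fin n) : (D.loF c : ℕ) = D.lo c := by
  unfold loF lo
  rcases le_total (D.overPass c) (D.underPass c) with h | h
  · rw [min_eq_left h, min_eq_left (by exact_mod_cast h)]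
  · rw [min_eq_right h, min_eq_right (by exact_mod_cast h)]

theorem hiF_val (c : Fin n) : (D.hiF c : ℕ) = D.hi c := by
  unfold hiF hi
  rcases le_total (D.overPass c) (D.underPass c) with h | h
  · rw [max_eq_right h, max_eq_right (by exact_mod_cast h)]
  · rw [max_eq_left h, max_eq_left (by exact_mod_cast h)]

/-- whether the first passage is the over-passage -/
def ov (c : Fin n) : Bool := decide (D.overPass c < D.underPass c)

theorem symm_loF (c : Fin n) : D.pos.symm (D.loF c) = (c, D.ov c) := by
  unfold loF ov
  by_cases h : D.overPass c < D.underPass c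
  · rw [min_eq_left h.le, decide_eq_true h]
    unfold overPass
    rw [Equiv.symm_apply_apply]
  · rw [min_eq_right (not_lt.1 h), decide_eq_false h]
    unfold underPass
    rw [Equiv.symm_apply_apply]

theorem symm_hiF (c : Fin n) : D.pos.symm (D.hiF c) = (c, !D.ov c) := by
  unfold hiF ov
  by_cases h : D.overPass c < D.underPass c
  · rw [max_eq_right h.le, decide_eq_true h]
    unfold underPass
    rw [Equiv.symm_apply_apply]
    rfl
  · rw [max_eq_left (not_lt.1 h), decide_eq_false h]
    unfold overPass
    rw [Equiv.symm_apply_apply]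
    rfl

theorem eq_loF_or_hiF (p : Fin (2 * n)) :
    p = D.loF (D.pos.symm p).1 ∨ p = D.hiF (D.pos.symm p).1 := by
  have h1 := D.symm_loF (D.pos.symm p).1
  have h2 := D.symm_hiF (D.pos.symm p).1
  by_cases h : (D.pos.symm p).2 = D.ov (D.pos.symm p).1
  · left
    apply D.pos.symm.injective
    rw [h1]
    exact Prod.ext rfl h
  · right
    apply D.pos.symm.injective
    rw [h2]
    refine Prod.ext rfl ?_
    revert h
    cases (D.pos.symm p).2 <;> cases D.ov (D.pos.symm p).1 <;> simp

theorem loF_lt_hiF (c : Fin n) : D.loF c < D.hiF c := by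
  have h := D.lo_lt_hi c
  rw [← loF_val, ← hiF_val] at h
  exact h

/-- no passage of a crossing of `S` is strictly between `a` and `b` -/
def Clear (S : Finset (Fin n)) (a b : ℕ) : Prop :=
  ∀ z ∈ S, ¬ (a < D.lo z ∧ D.lo z < b) ∧ ¬ (a < D.hi z ∧ D.hi z < b)

theorem clear_mem {S : Finset (Fin n)} {a b : Fin (2 * n)} (h : D.Clear S a b) :
    ∀ x ∈ D.plist S, ¬ (a < x ∧ x < b) := by
  rintro x hx ⟨h1, h2⟩
  rw [mem_plist] at hx
  obtain ⟨h3, h4⟩ := h _ hx
  rcases D.eq_loF_or_hiF x with h5 | h5
  · apply h3
    rw [← loF_val, ← h5]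
    exact ⟨h1, h2⟩
  · apply h4
    rw [← hiF_val, ← h5]
    exact ⟨h1, h2⟩

theorem bet'_eq (c : Fin n) : D.bet' c = if D.ov c = D.sign c then 0 else 1 := by
  have hne := D.over_ne_under c c
  rcases D.fst_snd c with ⟨a, -, b⟩ | ⟨a, -, b⟩
  · rw [b]
    symm
    apply if_pos
    unfold fst at a
    unfold ov
    unfold lo overPass underPass at *
    cases hs : D.sign c
    · rw [hs] at a
      apply decide_eq_false
      intro h
      have : ((D.pos (c, true) : Fin (2 * n)) : ℕ) < D.pos (c, false) := h
      omega
    · rw [hs] at a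
      apply decide_eq_true
      show ((D.pos (c, true) : Fin (2 * n)) : ℕ) < D.pos (c, false)
      omega
  · rw [b]
    symm
    apply if_neg
    unfold fst at a
    unfold ov
    unfold hi overPass underPass at *
    cases hs : D.sign c
    · rw [hs] at a
      rw [decide_eq_false_iff_not, not_not]
      show ((D.pos (c, true) : Fin (2 * n)) : ℕ) < D.pos (c, false)
      omega
    · rw [hs] at a
      rw [decide_eq_true_iff]
      intro h
      have : ((D.pos (c, true) : Fin (2 * n)) : ℕ) < D.pos (c, false) := h
      omega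

theorem ov_eq {a b : Fin n} (h1 : D.sign a ≠ D.sign b) (h2 : D.bet' a + D.bet' b = 1) :
    D.ov a = D.ov b := by
  rw [bet'_eq, bet'_eq] at h2
  revert h1 h2
  cases D.ov a <;> cases D.ov b <;> cases D.sign a <;> cases D.sign b <;> simp

/-- the first Reidemeister move -/
theorem step_one {S : Finset (Fin n)} {c : Fin n} (hc : c ∈ S) (hcl : D.Clear S (D.lo c) (D.hi c))
    (h : R12Trivial D.sign (D.codeS (S.erase c))) : R12Trivial D.sign (D.codeS S) := by
  have hlo : D.loF c ∈ D.plist S := by
    rw [mem_plist, symm_loF]
    exact hc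
  have hhi : D.hiF c ∈ D.plist S := by
    rw [mem_plist, symm_hiF]
    exact hc
  have hcl' : D.Clear S (D.loF c) (D.hiF c) := by
    rw [loF_val, hiF_val]
    exact hcl
  have h1 := split_at _ (D.plist_sorted S) hlo
  have h2 := filter_gt_cons _ (D.plist_sorted S) hhi (D.loF_lt_hiF c) (D.clear_mem hcl')
  rw [h2] at h1
  have hmem : ∀ x, (D.pos.symm x).1 = c → x = D.loF c ∨ x = D.hiF c := by
    intro x hx
    have := D.eq_loF_or_hiF x
    rw [hx] at this
    exact this
  have h3 : D.plist (S.erase c) = (D.plist S).filter (fun x => decide (x < D.loF c)) ++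
      (D.plist S).filter (fun x => decide (D.hiF c < x)) := by
    rw [D.plist_sub (Finset.erase_subset c S)]
    conv_lhs => rw [h1]
    rw [List.filter_append, List.filter_cons_of_neg, List.filter_cons_of_neg, List.filter_filter,
      List.filter_filter]
    · congr 1
      · refine List.filter_congr fun x hx => ?_
        rw [mem_plist] at hx
        by_cases hlt : x < D.loF c
        · have : (D.pos.symm x).1 ≠ c := by
            intro h'
            rcases hmem x h' with h'' | h''
            · exact absurd h'' (ne_of_lt hlt)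
            · exact absurd (h'' ▸ hlt) (not_lt.2 (D.loF_lt_hiF c).le)
          simp [hlt, this, hx]
        · simp [hlt]
      · refine List.filter_congr fun x hx => ?_
        rw [mem_plist] at hx
        by_cases hlt : D.hiF c < x
        · have : (D.pos.symm x).1 ≠ c := by
            intro h'
            rcases hmem x h' with h'' | h''
            · exact absurd (h'' ▸ hlt) (not_lt.2 (D.loF_lt_hiF c).le)
            · exact absurd h'' (ne_of_gt hlt)
          simp [hlt, this, hx]
        · simp [hlt]
    · rw [symm_hiF]
      simp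
    · rw [symm_loF]
      simp
  unfold codeS at h ⊢
  rw [h3, List.map_append] at h
  rw [h1, List.map_append, List.map_cons, List.map_cons, symm_loF, symm_hiF]
  exact R12Trivial.one _ _ _ _ h

/-- the second Reidemeister move -/
theorem step_two {S : Finset (Fin n)} {x y : Fin n} (hx : x ∈ S) (hy : y ∈ S) (hxy : x ≠ y)
    (hsign : D.sign x ≠ D.sign y) (hov : D.ov x = D.ov y) {q₁ q₂ : Fin (2 * n)}
    (hq : (q₁ = D.hiF x ∧ q₂ = D.hiF y) ∨ (q₁ = D.hiF y ∧ q₂ = D.hiF x))
    (l1 : D.loF x < D.loF y) (l2 : D.loF y < q₁) (l3 : q₁ < q₂)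
    (c1 : D.Clear S (D.loF x) (D.loF y)) (c2 : D.Clear S q₁ q₂)
    (h : R12Trivial D.sign (D.codeS ((S.erase x).erase y))) : R12Trivial D.sign (D.codeS S) := by
  have mlx : D.loF x ∈ D.plist S := by
    rw [mem_plist, symm_loF]
    exact hx
  have mly : D.loF y ∈ D.plist S := by
    rw [mem_plist, symm_loF]
    exact hy
  have mhx : D.hiF x ∈ D.plist S := by
    rw [mem_plist, symm_hiF]
    exact hx
  have mhy : D.hiF y ∈ D.plist S := by
    rw [mem_plist, symm_hiF]
    exact hy
  have mq1 : q₁ ∈ D.plist S := by
    rcases hq with ⟨h1, -⟩ | ⟨h1, -⟩ <;> rw [h1] <;> assumption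
  have mq2 : q₂ ∈ D.plist S := by
    rcases hq with ⟨-, h1⟩ | ⟨-, h1⟩ <;> rw [h1] <;> assumption
  have hsort := D.plist_sorted S
  have h1 := split_at _ hsort mlx
  have h2 := filter_gt_cons _ hsort mly l1 (D.clear_mem c1)
  rw [h2] at h1
  have mq1' : q₁ ∈ (D.plist S).filter (fun z => decide (D.loF y < z)) := by
    rw [List.mem_filter]
    exact ⟨mq1, by simpa using l2⟩
  have h3 := split_at _ (hsort.filter (fun z => decide (D.loF y < z))) mq1'
  have h4 : ((D.plist S).filter (fun z => decide (D.loF y < z))).filter
      (fun z => decide (q₁ < z)) = (D.plist S).filter (fun z => decide (q₁ < z)) := by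
    rw [List.filter_filter]
    refine List.filter_congr fun z _ => ?_
    by_cases hz : q₁ < z
    · simp [hz, l2.trans hz]
    · simp [hz]
  have h5 := filter_gt_cons _ hsort mq2 l3 (D.clear_mem c2)
  rw [h4, h5] at h3
  rw [h3] at h1
  set A := (D.plist S).filter (fun z => decide (z < D.loF x)) with hA
  set M := ((D.plist S).filter (fun z => decide (D.loF y < z))).filter
    (fun z => decide (z < q₁)) with hM
  set B := (D.plist S).filter (fun z => decide (q₂ < z)) with hB
  -- the passages of x and y
  have hchord : ∀ z, (D.pos.symm z).1 = x ∨ (D.pos.symm z).1 = y →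
      z = D.loF x ∨ z = D.loF y ∨ z = q₁ ∨ z = q₂ := by
    intro z hz
    have h6 := D.eq_loF_or_hiF z
    rcases hz with hz | hz <;> rw [hz] at h6 <;> rcases hq with ⟨a1, a2⟩ | ⟨a1, a2⟩ <;>
      rcases h6 with h6 | h6 <;> rw [a1, a2] <;> tauto
  have keep : ∀ z ∈ D.plist S, z ≠ D.loF x → z ≠ D.loF y → z ≠ q₁ → z ≠ q₂ →
      (D.pos.symm z).1 ∈ (S.erase x).erase y := by
    intro z hz n1 n2 n3 n4
    rw [mem_plist] at hz
    rw [Finset.mem_erase, Finset.mem_erase]
    refine ⟨fun h' => ?_, fun h' => ?_, hz⟩
    · rcases hchord z (Or.inr h') with h'' | h'' | h'' | h'' <;> contradiction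
    · rcases hchord z (Or.inl h') with h'' | h'' | h'' | h'' <;> contradiction
  have drop : ∀ z, z = D.loF x ∨ z = D.loF y ∨ z = q₁ ∨ z = q₂ →
      (D.pos.symm z).1 ∉ (S.erase x).erase y := by
    intro z hz hmem
    rw [Finset.mem_erase, Finset.mem_erase] at hmem
    rcases hz with rfl | rfl | rfl | rfl
    · rw [symm_loF] at hmem
      exact hmem.2.1 rfl
    · rw [symm_loF] at hmem
      exact hmem.1 rfl
    · rcases hq with ⟨a1, -⟩ | ⟨a1, -⟩ <;> rw [a1, symm_hiF] at hmem
      · exact hmem.2.1 rfl
      · exact hmem.1 rfl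
    · rcases hq with ⟨-, a1⟩ | ⟨-, a1⟩ <;> rw [a1, symm_hiF] at hmem
      · exact hmem.1 rfl
      · exact hmem.2.1 rfl
  have h6 : D.plist ((S.erase x).erase y) = A ++ M ++ B := by
    rw [D.plist_sub ((Finset.erase_subset y _).trans (Finset.erase_subset x S))]
    conv_lhs => rw [h1]
    have fA : A.filter (fun p => decide ((D.pos.symm p).1 ∈ (S.erase x).erase y)) = A := by
      rw [List.filter_eq_self]
      intro z hz
      rw [hA, List.mem_filter] at hz
      have hlt : z < D.loF x := by simpa using hz.2
      exact decide_eq_true (keep z hz.1 (ne_of_lt hlt) (ne_of_lt (hlt.trans l1))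
        (ne_of_lt ((hlt.trans l1).trans l2)) (ne_of_lt (((hlt.trans l1).trans l2).trans l3)))
    have fB : B.filter (fun p => decide ((D.pos.symm p).1 ∈ (S.erase x).erase y)) = B := by
      rw [List.filter_eq_self]
      intro z hz
      rw [hB, List.mem_filter] at hz
      have hlt : q₂ < z := by simpa using hz.2
      exact decide_eq_true (keep z hz.1 (ne_of_gt (((l1.trans l2).trans l3).trans hlt))
        (ne_of_gt ((l2.trans l3).trans hlt)) (ne_of_gt (l3.trans hlt)) (ne_of_gt hlt))
    have fM : M.filter (fun p => decide ((D.pos.symm p).1 ∈ (S.erase x).erase y)) = M := by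
      rw [List.filter_eq_self]
      intro z hz
      rw [hM, List.mem_filter, List.mem_filter] at hz
      have hlt1 : D.loF y < z := by simpa using hz.1.2
      have hlt2 : z < q₁ := by simpa using hz.2
      exact decide_eq_true (keep z hz.1.1 (ne_of_gt (l1.trans hlt1)) (ne_of_gt hlt1)
        (ne_of_lt hlt2) (ne_of_lt (hlt2.trans l3)))
    rw [List.filter_append, fA, List.filter_cons_of_neg, List.filter_cons_of_neg,
      List.filter_append, fM, List.filter_cons_of_neg, List.filter_cons_of_neg, fB,
      List.append_assoc]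
    · simpa using drop q₂ (by tauto)
    · simpa using drop q₁ (by tauto)
    · simpa using drop (D.loF y) (by tauto)
    · simpa using drop (D.loF x) (by tauto)
  unfold codeS at h ⊢
  rw [h6, List.map_append, List.map_append] at h
  rw [h1, List.map_append, List.map_cons, List.map_cons, List.map_append, List.map_cons,
    List.map_cons, symm_loF, symm_loF, ← hov]
  rcases hq with ⟨a1, a2⟩ | ⟨a1, a2⟩
  · rw [a1, a2, symm_hiF, symm_hiF, ← hov]
    have := R12Trivial.two _ _ _ x y (D.ov x) hsign h
    simpa using this
  · rw [a1, a2, symm_hiF, symm_hiF, ← hov]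
    have := R12Trivial.two' _ _ _ x y (D.ov x) hsign h
    simpa using this

end GaussDiagram

end Pool.Agent.Helper16.Knotoid
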