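import Pool.Agent.Helper16.Knotoid.Reduce

set_option autoImplicit false

/-!
# The terminal step of the reduction
-/

namespace Pool.Agent.Helper16.Knotoid

namespace GaussDiagram

variable {n : ℕ} (D : GaussDiagram n)

theorem inn_self_lo (c : Fin n) : D.inn c (D.lo c) = 0 := (D.inn_zero _ _).2 (by omega)

theorem inn_self_hi (c : Fin n) : D.inn c (D.hi c) = 0 := (D.inn_zero _ _).2 (by omega)

theorem tt_left (c d : Fin n) : D.tt c d c = 0 := by
  unfold tt
  rw [inn_self_lo, inn_self_hi]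
  ring

theorem tt_right (c d : Fin n) : D.tt c d d = 0 := by
  unfold tt
  rw [inn_self_lo, inn_self_hi]
  ring

theorem NN_full {S : Finset (Fin n)} {c d : Fin n} (hc : c ∈ S) (hd : d ∈ S) (hcd : c ≠ d) :
    D.NN S c d = ∑ e ∈ S, D.tt c d e := by
  rw [NN_eq, ← Finset.add_sum_erase S _ hc, tt_left, zero_add,
    ← Finset.add_sum_erase (S.erase c) _ (Finset.mem_erase.2 ⟨Ne.symm hcd, hd⟩), tt_right,
    zero_add]

/-- chords not interlaced have their two passages on the same side -/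
theorem inn_of_not_Il {c e : Fin n} (h : e ≠ c) (hil : ¬ D.Il c e) :
    D.inn c (D.lo e) = D.inn c (D.hi e) := by
  have h1 := (D.lam_zero_iff (Ne.symm h)).2 hil
  rw [D.lam_eq (Ne.symm h)] at h1
  have key : ∀ a b : ZMod 2, a + b = 0 → a = b := by decide
  exact key _ _ h1

theorem inn_of_Il {c e : Fin n} (h : e ≠ c) (hil : D.Il c e) :
    D.inn c (D.lo e) + D.inn c (D.hi e) = 1 := by
  have h1 := (D.lam_one_iff (Ne.symm h)).2 hil
  rwa [D.lam_eq (Ne.symm h)] at h1

theorem tt_of_not_Il {c d e : Fin n} (hc : e ≠ c) (hd : e ≠ d) (h1 : ¬ D.Il c e)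
    (h2 : ¬ D.Il d e) : D.tt c d e = 0 := by
  unfold tt
  rw [D.inn_of_not_Il hc h1, D.inn_of_not_Il hd h2]
  exact CharTwo.add_self_eq_zero _

section Classes

variable {v : Fin n → V2} (hv : ∀ c f, D.lam c f = wdg (v c) (v f))

include hv

/-- third class -/
theorem cross_count {S : Finset (Fin n)} {x y z : Fin n} (hx : x ∈ S) (hy : y ∈ S) (hz : z ∈ S)
    (hxz : D.lo x < D.lo z) (hzy : D.lo z < D.lo y) (hyx : D.lo y < D.hi x)
    (hxz' : D.hi x < D.hi z) (hzy' : D.hi z < D.hi y)
    (hx1 : ∀ e ∈ S, v e = v x → e = x) (hy1 : ∀ e ∈ S, v e = v y → e = y)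
    (hvz : v z = v x + v y) :
    D.NN S x y + D.NN S x z + D.NN S z y =
      ∑ e ∈ S, (if v e = v x + v y then (1 : ZMod 2) else 0) := by
  have nxy : x ≠ y := fun h => by rw [h] at hxz; omega
  have nxz : x ≠ z := fun h => by rw [h] at hxz; omega
  have nzy : z ≠ y := fun h => by rw [h] at hzy; omega
  have ixy : D.Il x y := by unfold Il; omega
  have ixz : D.Il x z := by unfold Il; omega
  have izy : D.Il z y := by unfold Il; omega
  have wxy := (D.Il_iff hv nxy).1 ixy
  rw [D.NN_full hx hy nxy, D.NN_full hx hz nxz, D.NN_full hz hy nzy, ← Finset.sum_add_distrib,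
    ← Finset.sum_add_distrib]
  refine Finset.sum_congr rfl fun e he => ?_
  by_cases hex : e = x
  · rw [hex, tt_left, tt_left, if_neg]
    · unfold tt
      rw [(D.inn_zero y (D.lo x)).2 (by omega), (D.inn_zero z (D.lo x)).2 (by omega)]
      ring
    · intro h
      have key : ∀ a b : V2, wdg a b = 1 → a ≠ a + b := by decide
      exact key _ _ wxy h
  by_cases hey : e = y
  · rw [hey, tt_right, tt_right, if_neg]
    · unfold tt
      rw [(D.inn_zero x (D.hi y)).2 (by omega), (D.inn_zero z (D.hi y)).2 (by omega)]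
      ring
    · intro h
      have key : ∀ a b : V2, wdg a b = 1 → b ≠ a + b := by decide
      exact key _ _ wxy h
  by_cases hez : e = z
  · rw [hez, tt_right, tt_left, if_pos hvz]
    unfold tt
    rw [(D.inn_zero y (D.lo z)).2 (by omega), (D.inn_eq y (D.hi z)).2 (by omega),
      (D.inn_eq x (D.lo z)).2 (by omega)]
    ring
  have key4 : ∀ a b c : V2, wdg a b = 1 → c ≠ a → c ≠ b → c = 0 ∨ c = a + b := by decide
  have hcase := key4 _ _ (v e) wxy (fun h => hex (hx1 e he h)) (fun h => hey (hy1 e he h))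
  rcases hcase with h0 | h3
  · have k1 : ∀ w, w ≠ e → ¬ D.Il w e := by
      intro w hw
      rw [D.Il_iff hv hw, h0]
      have key : ∀ w : V2, wdg w 0 = 0 := by decide
      rw [key]
      decide
    rw [D.tt_of_not_Il hex hey (k1 _ (Ne.symm hex)) (k1 _ (Ne.symm hey)),
      D.tt_of_not_Il hex hez (k1 _ (Ne.symm hex)) (k1 _ (Ne.symm hez)),
      D.tt_of_not_Il hez hey (k1 _ (Ne.symm hez)) (k1 _ (Ne.symm hey)), if_neg]
    · ring
    · rw [h0]
      intro h
      have key : ∀ a b : V2, wdg a b = 1 → (0 : V2) ≠ a + b := by decide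
      exact key _ _ wxy h
  · rw [if_pos h3]
    have kk : ∀ a b : V2, wdg a b = 1 → wdg a (a + b) = 1 ∧ wdg b (a + b) = 1 ∧
      wdg (a + b) (a + b) = 0 := by decide
    obtain ⟨k1, k2, k3⟩ := kk _ _ wxy
    have i1 : D.Il x e := by rw [D.Il_iff hv (Ne.symm hex), h3]; exact k1
    have i2 : D.Il y e := by rw [D.Il_iff hv (Ne.symm hey), h3]; exact k2
    have i3 : ¬ D.Il z e := by
      rw [D.Il_iff hv (Ne.symm hez), h3, hvz, k3]
      decide
    have p1 := D.pos_ne hex
    have p2 := D.pos_ne hey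
    have p3 := D.pos_ne hez
    have el := D.lo_lt_hi e
    -- `e` has type 1
    have t : D.lo x < D.lo e ∧ D.lo e < D.lo y ∧ D.hi x < D.hi e ∧ D.hi e < D.hi y := by
      unfold Il at i1 i2 i3
      omega
    have a1 : D.inn x (D.lo e) = 1 := (D.inn_eq _ _).2 (by omega)
    have a2 : D.inn x (D.hi e) = 0 := (D.inn_zero _ _).2 (by omega)
    have a3 : D.inn y (D.lo e) = 0 := (D.inn_zero _ _).2 (by omega)
    have a4 : D.inn y (D.hi e) = 1 := (D.inn_eq _ _).2 (by omega)
    have a5 := D.inn_of_not_Il hez i3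
    unfold tt
    rw [a1, a2, a3, a4, a5]
    generalize D.inn z (D.hi e) = u
    revert u
    decide

/-- the two remaining chords of opposite signs can be removed -/
theorem terminal_step {S : Finset (Fin n)} (hPL : D.PL S) (hadj : ∀ c, ¬ D.Adj1 S c)
    {x y : Fin n} (hx : x ∈ S) (hy : y ∈ S) (hxy : D.lo x < D.lo y) (hw : wdg (v x) (v y) = 1)
    (hx1 : ∀ e ∈ S, v e = v x → e = x) (hy1 : ∀ e ∈ S, v e = v y → e = y)
    (heven : ∑ e ∈ S, (if v e = v x + v y then (1 : ZMod 2) else 0) = 0) :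
    D.Adj2 S x y ∧ D.bet' x + D.bet' y = 1 := by
  have nxy : x ≠ y := fun h => by rw [h] at hxy; omega
  have ixy : D.Il x y := (D.Il_iff hv nxy).2 hw
  have xl := D.lo_lt_hi x
  have yl := D.lo_lt_hi y
  have hord : D.lo y < D.hi x ∧ D.hi x < D.hi y := by
    unfold Il at ixy
    omega
  have key4 : ∀ a b c : V2, wdg a b = 1 → c ≠ a → c ≠ b → c = 0 ∨ c = a + b := by decide
  have kk : ∀ a b : V2, wdg a b = 1 → wdg a (a + b) = 1 ∧ wdg b (a + b) = 1 ∧
    wdg (a + b) (a + b) = 0 := by decide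
  obtain ⟨k1, k2, k3⟩ := kk _ _ hw
  -- no chord of the third class in the segments
  have hno : ∀ z ∈ S, v z = v x + v y → ¬ ((D.lo x < D.lo z ∧ D.lo z < D.lo y) ∨
      (D.lo x < D.hi z ∧ D.hi z < D.lo y) ∨ (D.hi x < D.lo z ∧ D.lo z < D.hi y) ∨
      (D.hi x < D.hi z ∧ D.hi z < D.hi y)) := by
    intro z hz hvz hpos
    have nxz : x ≠ z := by
      intro h
      rw [← h] at hvz
      have key : ∀ a b : V2, wdg a b = 1 → a ≠ a + b := by decide
      exact key _ _ hw hvz
    have nyz : y ≠ z := by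
      intro h
      rw [← h] at hvz
      have key : ∀ a b : V2, wdg a b = 1 → b ≠ a + b := by decide
      exact key _ _ hw hvz
    have i1 : D.Il x z := by rw [D.Il_iff hv nxz, hvz]; exact k1
    have i2 : D.Il y z := by rw [D.Il_iff hv nyz, hvz]; exact k2
    have p1 := D.pos_ne nxz
    have p2 := D.pos_ne nyz
    have zl := D.lo_lt_hi z
    have t : D.lo x < D.lo z ∧ D.lo z < D.lo y ∧ D.hi x < D.hi z ∧ D.hi z < D.hi y := by
      unfold Il at i1 i2
      omega
    have hc := D.cross_count hv hx hy hz t.1 t.2.1 hord.1 t.2.2.1 t.2.2.2 hx1 hy1 hvz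
    rw [heven, hPL x hx y hy nxy, hPL x hx z hz nxz, hPL z hz y hy (Ne.symm nyz),
      (D.lam_one_iff nxy).2 ixy, (D.lam_one_iff nxz).2 i1,
      (D.lam_one_iff (Ne.symm nyz)).2 (D.Il_symm i2)] at hc
    generalize D.bet' x = p at hc
    generalize D.bet' y = q at hc
    generalize D.bet' z = r at hc
    revert p q r
    decide
  have hzero : ∀ z ∈ S, v z = 0 → ∀ z' ∈ S, z' ≠ z → ¬ D.Il z z' := by
    intro z _ hz0 z' _ hne'
    rw [D.Il_iff hv (Ne.symm hne'), hz0]
    have key : ∀ w : V2, wdg 0 w = 0 := by decide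
    rw [key]
    decide
  have hseg : ∀ z ∈ S, z ≠ x → z ≠ y → ((D.lo x < D.lo z ∧ D.lo z < D.lo y) ∨
      (D.lo x < D.hi z ∧ D.hi z < D.lo y) ∨ (D.hi x < D.lo z ∧ D.lo z < D.hi y) ∨
      (D.hi x < D.hi z ∧ D.hi z < D.hi y)) → v z = 0 := by
    intro z hz hzx hzy hpos
    rcases key4 _ _ (v z) hw (fun h => hzx (hx1 z hz h)) (fun h => hzy (hy1 z hz h)) with h | h
    · exact h
    · exact absurd hpos (hno z hz h)
  have c1 : D.Clear S (D.lo x) (D.lo y) := by
    refine D.seg_empty hadj fun z hz hpos => ?_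
    have hzx : z ≠ x := by
      rintro rfl
      omega
    have hzy : z ≠ y := by
      rintro rfl
      omega
    have h0 := hseg z hz hzx hzy (by omega)
    have hz' := hzero z hz h0
    have i1 := hz' x hx (Ne.symm hzx)
    have i2 := hz' y hy (Ne.symm hzy)
    have p1 := D.pos_ne hzx
    have p2 := D.pos_ne hzy
    have zl := D.lo_lt_hi z
    unfold Il at i1 i2
    exact ⟨by omega, by omega, hz'⟩
  have c2 : D.Clear S (D.hi x) (D.hi y) := by
    refine D.seg_empty hadj fun z hz hpos => ?_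
    have hzx : z ≠ x := by
      rintro rfl
      omega
    have hzy : z ≠ y := by
      rintro rfl
      omega
    have h0 := hseg z hz hzx hzy (by omega)
    have hz' := hzero z hz h0
    have i1 := hz' x hx (Ne.symm hzx)
    have i2 := hz' y hy (Ne.symm hzy)
    have p1 := D.pos_ne hzx
    have p2 := D.pos_ne hzy
    have zl := D.lo_lt_hi z
    unfold Il at i1 i2
    exact ⟨by omega, by omega, hz'⟩
  refine ⟨⟨hx, hy, nxy, hxy, hord.1, c1, Or.inr ⟨hord.2, c2⟩⟩, ?_⟩
  have h1 := hPL x hx y hy nxy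
  rw [(D.lam_one_iff nxy).2 ixy, D.NN_full hx hy nxy] at h1
  have h2 : ∑ e ∈ S, D.tt x y e = 0 := by
    refine Finset.sum_eq_zero fun e he => ?_
    by_cases hex : e = x
    · rw [hex, tt_left]
    by_cases hey : e = y
    · rw [hey, tt_right]
    have p1 := D.pos_ne hex
    have p2 := D.pos_ne hey
    obtain ⟨b1, b2⟩ := c1 e he
    obtain ⟨b3, b4⟩ := c2 e he
    have e1 : D.inn x (D.lo e) = D.inn y (D.lo e) := by
      unfold inn
      refine if_congr ?_ rfl rfl
      omega
    have e2 : D.inn x (D.hi e) = D.inn y (D.hi e) := by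
      unfold inn
      refine if_congr ?_ rfl rfl
      omega
    unfold tt
    rw [e1, e2]
    generalize D.inn y (D.lo e) = u
    generalize D.inn y (D.hi e) = w
    revert u w
    decide
  rw [h2] at h1
  generalize D.bet' x = p at h1 ⊢
  generalize D.bet' y = q at h1 ⊢
  revert p q
  decide

end Classes

end GaussDiagram

end Pool.Agent.Helper16.Knotoid
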