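import Pool.Agent.Helper16.Knotoid.Induct
import Pool.Agent.Helper16.Knotoid.Bound

set_option autoImplicit false

/-!
# Planar diagrams of canonical genus at most one
-/

namespace Pool.Agent.Helper16.Knotoid

namespace GaussDiagram

variable {n : ℕ} (D : GaussDiagram n)

theorem det4 (p q r s t : ZMod 2) (h : ¬ t = p * s + q * r) :
    (!![0, 1, p, q; 1, 0, r, s; p, r, 0, t; q, s, t, 0] :
      Matrix (Fin 4) (Fin 4) (ZMod 2)).det ≠ 0 := by
  have : (!![0, 1, p, q; 1, 0, r, s; p, r, 0, t; q, s, t, 0] :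
      Matrix (Fin 4) (Fin 4) (ZMod 2)).det = (t + p * s + q * r) ^ 2 := by
    rw [Matrix.det_succ_row_zero]
    simp [Fin.sum_univ_succ, Matrix.det_fin_three, Matrix.submatrix, Fin.succAbove]
    revert p q r s t
    decide
  rw [this]
  revert p q r s t
  decide

/-- a diagram of canonical genus less than two has interlacement matrix of rank at most two -/
theorem exists_wedge (h : n ≤ D.comps D.sign + 2) :
    ∃ v : Fin n → V2, ∀ c f, D.lam c f = wdg (v c) (v f) := by
  by_cases h0 : ∀ c f, D.lam c f = 0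
  · refine ⟨fun _ => 0, fun c f => ?_⟩
    rw [h0, (v2_rest _).1]
  · push Not at h0
    obtain ⟨a, b, hab⟩ := h0
    rw [zmod2_ne_zero] at hab
    refine ⟨fun c => (D.lam c b, D.lam c a), fun c d => ?_⟩
    unfold wdg
    simp only
    have hr : (D.gmat D.sign).rank ≤ 3 := by
      have := D.comps_add_rank D.sign
      omega
    by_contra hne
    have h3 : 4 ≤ rk (D.gmat D.sign) Finset.univ := by
      refine minor_le (k := 4) ![a, b, c, d] ![a, b, c, d]
        (fun _ => Finset.mem_univ _) (fun _ => Finset.mem_univ _) ?_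
      have hM : (D.gmat D.sign).submatrix ![a, b, c, d] ![a, b, c, d] =
          !![0, 1, D.lam a c, D.lam a d; 1, 0, D.lam b c, D.lam b d;
            D.lam a c, D.lam b c, 0, D.lam c d; D.lam a d, D.lam b d, D.lam c d, 0] := by
        have hba : D.lam b a = 1 := by rw [D.lam_symm]; exact hab
        ext i j
        fin_cases i <;> fin_cases j
        · exact D.lam_self a
        · exact hab
        · rfl
        · rfl
        · exact hba
        · exact D.lam_self b
        · rfl
        · rfl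
        · exact D.lam_symm c a
        · exact D.lam_symm c b
        · exact D.lam_self c
        · rfl
        · exact D.lam_symm d a
        · exact D.lam_symm d b
        · exact D.lam_symm d c
        · exact D.lam_self d
      rw [hM]
      refine det4 _ _ _ _ _ fun h' => hne ?_
      rw [h', D.lam_symm c b, D.lam_symm c a, D.lam_symm d b, D.lam_symm d a]
      ring
    have h4 : rk (D.gmat D.sign) Finset.univ ≤ (D.gmat D.sign).rank := by
      unfold rk psub
      exact Matrix.rank_submatrix_le _ _ _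
    omega

theorem vsum_one (v : Fin n → V2) :
    vsum v 1 = (cpar v Finset.univ (ev 0) + cpar v Finset.univ (ev 2),
      cpar v Finset.univ (ev 1) + cpar v Finset.univ (ev 2)) := by
  unfold vsum cpar
  simp only [Pi.one_apply, one_mul]
  rw [← Finset.sum_add_distrib, ← Finset.sum_add_distrib]
  have k1 : ∀ w : V2, w.1 = (if w = ev 0 then (1 : ZMod 2) else 0) +
    (if w = ev 2 then (1 : ZMod 2) else 0) := by decide
  have k2 : ∀ w : V2, w.2 = (if w = ev 1 then (1 : ZMod 2) else 0) +
    (if w = ev 2 then (1 : ZMod 2) else 0) := by decide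
  exact congrArg₂ Prod.mk (Finset.sum_congr rfl fun f _ => k1 (v f))
    (Finset.sum_congr rfl fun f _ => k2 (v f))

theorem cpar_eq (v : Fin n → V2) (i : Fin 3) :
    cpar v Finset.univ (ev i) = if parv v i = true then 1 else 0 := by
  unfold cpar parv
  rw [← Finset.sum_filter, Finset.sum_const, nsmul_eq_mul, mul_one]
  change ((cla v i).card : ZMod 2) = _
  by_cases h : Odd (cla v i).card
  · rw [if_pos (decide_eq_true h)]
    exact ZMod.natCast_eq_one_iff_odd.2 h
  · rw [if_neg (by simpa using h)]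
    exact ZMod.natCast_eq_zero_iff_even.2 (Nat.not_odd_iff_even.1 h)

theorem csum_univ (v : Fin n → V2) (i : Fin 3) :
    D.csum v Finset.univ (ev i) = D.asum v i := by
  unfold csum asum cla
  rw [Finset.sum_filter]

theorem V_eq {P : V2 → ZMod 2} {i j : Fin 3} (hij : i ≠ j) {t : ZMod 2} (hi : P (ev i) = t)
    (hj : P (ev j) = t) (hV : (P (ev 0) + P (ev 2), P (ev 1) + P (ev 2)) ≠ (0 : V2)) :
    (P (ev 0) + P (ev 2), P (ev 1) + P (ev 2)) = ev i + ev j ∧ P (ev i + ev j) = t + 1 := by
  have h01 : ev 0 + ev 1 = ev 2 := by decide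
  have h02 : ev 0 + ev 2 = ev 1 := by decide
  have h12 : ev 1 + ev 2 = ev 0 := by decide
  have h10 : ev 1 + ev 0 = ev 2 := by decide
  have h20 : ev 2 + ev 0 = ev 1 := by decide
  have h21 : ev 2 + ev 1 = ev 0 := by decide
  have key : ∀ a b : ZMod 2, (∀ t : ZMod 2, ((t + b, t + b) : V2) ≠ 0 →
      ((t + b, t + b) : V2) = ev 2 ∧ b = t + 1) ∧
      (∀ t : ZMod 2, ((t + t, b + t) : V2) ≠ 0 → ((t + t, b + t) : V2) = ev 1 ∧ b = t + 1) ∧
      (∀ t : ZMod 2, ((b + t, t + t) : V2) ≠ 0 → ((b + t, t + t) : V2) = ev 0 ∧ b = t + 1) := by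
    decide
  fin_cases i <;> fin_cases j
  · exact absurd rfl hij
  · change P (ev 0) = t at hi
    change P (ev 1) = t at hj
    change _ = ev 0 + ev 1 ∧ P (ev 0 + ev 1) = _
    rw [h01]
    rw [hi, hj] at hV ⊢
    exact (key 0 _).1 t hV
  · change P (ev 0) = t at hi
    change P (ev 2) = t at hj
    change _ = ev 0 + ev 2 ∧ P (ev 0 + ev 2) = _
    rw [h02]
    rw [hi, hj] at hV ⊢
    exact (key 0 _).2.1 t hV
  · change P (ev 1) = t at hi
    change P (ev 0) = t at hj
    change _ = ev 1 + ev 0 ∧ P (ev 1 + ev 0) = _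
    rw [h10]
    rw [hi, hj] at hV ⊢
    exact (key 0 _).1 t hV
  · exact absurd rfl hij
  · change P (ev 1) = t at hi
    change P (ev 2) = t at hj
    change _ = ev 1 + ev 2 ∧ P (ev 1 + ev 2) = _
    rw [h12]
    rw [hi, hj] at hV ⊢
    exact (key 0 _).2.2 t hV
  · change P (ev 2) = t at hi
    change P (ev 0) = t at hj
    change _ = ev 2 + ev 0 ∧ P (ev 2 + ev 0) = _
    rw [h20]
    rw [hi, hj] at hV ⊢
    exact (key 0 _).2.1 t hV
  · change P (ev 2) = t at hi
    change P (ev 1) = t at hj
    change _ = ev 2 + ev 1 ∧ P (ev 2 + ev 1) = _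
    rw [h21]
    rw [hi, hj] at hV ⊢
    exact (key 0 _).2.2 t hV
  · exact absurd rfl hij

section Classes

variable {v : Fin n → V2} (hv : ∀ c f, D.lam c f = wdg (v c) (v f))

include hv

/-- two disjoint chords of the same class -/
theorem disjoint_pair (hD : D.Planar) {c d : Fin n} (hcd : v c = v d) (hlt : D.hi c < D.lo d) :
    wdg (v c) (vsum v 1) = 0 := by
  have cl := D.lo_lt_hi c
  have dl := D.lo_lt_hi d
  have hne : c ≠ d := by
    intro h
    rw [h] at hlt
    omega
  have h1 := D.planar_id hD hne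
  have h0 : D.lam c d = 0 := by
    rw [hv, hcd]
    exact (v2_rest _).2.2
  rw [h0, zero_mul, D.NN_full (Finset.mem_univ _) (Finset.mem_univ _) hne] at h1
  rw [← Lv_eq_wdg v hv]
  unfold Lv
  rw [← h1]
  refine Finset.sum_congr rfl fun e _ => ?_
  rw [Pi.one_apply, mul_one]
  by_cases hec : e = c
  · rw [hec, tt_left, D.lam_self]
  by_cases hed : e = d
  · rw [hed, tt_right, h0]
  have hsame : D.lam c e = D.lam d e := by rw [hv, hv, hcd]
  by_cases hil : D.Il c e
  · have h2 := (D.lam_one_iff (Ne.symm hec)).2 hil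
    have hil' : D.Il d e := (D.lam_one_iff (Ne.symm hed)).1 (by rw [← hsame, h2])
    rw [h2]
    have p1 := D.pos_ne hec
    have p2 := D.pos_ne hed
    have el := D.lo_lt_hi e
    have t : D.lo c < D.lo e ∧ D.lo e < D.hi c ∧ D.lo d < D.hi e ∧ D.hi e < D.hi d := by
      unfold Il at hil hil'
      omega
    unfold tt
    rw [(D.inn_eq c (D.lo e)).2 (by omega), (D.inn_eq d (D.hi e)).2 (by omega),
      (D.inn_zero c (D.hi e)).2 (by omega)]
    ring
  · have h2 := (D.lam_zero_iff (Ne.symm hec)).2 hil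
    have hil' : ¬ D.Il d e := (D.lam_zero_iff (Ne.symm hed)).1 (by rw [← hsame, h2])
    rw [h2, D.tt_of_not_Il hec hed hil hil']

theorem top_of_wedge (hD : D.Planar) (hf : D.normalizedBracket = 1) :
    R12Trivial D.sign D.code ∨ D.tailRegion = D.headRegion := by
  by_cases hV : vsum v 1 = 0
  · right
    refine D.region_eq fun c => ?_
    rw [← Lv_one_eq_zero_iff, Lv_eq_wdg v hv, hV]
    exact (v2_rest _).2.1
  · left
    rw [D.code_eq]
    obtain ⟨i, j, hij, hcl⟩ := D.classes_of_f hv hf
    have hinj : Function.Injective ev := by decide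
    have hne0 : ∀ i, ev i ≠ 0 := by decide
    have hVt : ∀ t : ZMod 2, cpar v Finset.univ (ev i) = t → cpar v Finset.univ (ev j) = t →
        vsum v 1 = ev i + ev j ∧ cpar v Finset.univ (ev i + ev j) = t + 1 := by
      intro t hi hj
      have h1 := vsum_one v
      rw [h1] at hV
      have h2 := V_eq (P := cpar v Finset.univ) hij hi hj hV
      rw [← h1] at h2
      exact h2
    have hmain : vsum v 1 = ev i + ev j ∧
        ((D.csum v Finset.univ (ev i) = 1 ∧ D.csum v Finset.univ (ev j) = -1 ∧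
          cpar v Finset.univ (ev i + ev j) = 0) ∨
        (D.csum v Finset.univ (ev i) = 0 ∧ D.csum v Finset.univ (ev j) = 0)) := by
      rw [D.csum_univ, D.csum_univ]
      rcases hcl with ⟨h1, h2, h3, h4⟩ | ⟨h1, h2, h3, h4⟩
      · obtain ⟨h5, h6⟩ := hVt 1 (by rw [cpar_eq, h1]; rfl) (by rw [cpar_eq, h2]; rfl)
        exact ⟨h5, Or.inl ⟨h3, h4, h6⟩⟩
      · obtain ⟨h5, h6⟩ := hVt 0 (by rw [cpar_eq, h1]; rfl) (by rw [cpar_eq, h2]; rfl)
        exact ⟨h5, Or.inr ⟨h3, h4⟩⟩
    obtain ⟨hVij, hsum⟩ := hmain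
    have hwij : wdg (ev i) (ev i + ev j) = 1 ∧ wdg (ev j) (ev i + ev j) = 1 := by
      have key : ∀ i j, i ≠ j → wdg (ev i) (ev i + ev j) = 1 ∧ wdg (ev j) (ev i + ev j) = 1 := by
        decide
      exact key i j hij
    refine D.reduce_main hv (hne0 i) (hne0 j) (fun h => hij (hinj h)) ?_ ?_ Finset.univ
      (fun c _ d _ hcd => D.planar_id hD hcd) hsum
    · intro c d hc hd hlt
      have h1 := D.disjoint_pair hv hD (hc.trans hd.symm) hlt
      rw [hc, hVij, hwij.1] at h1
      exact absurd h1 (by decide)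
    · intro c d hc hd hlt
      have h1 := D.disjoint_pair hv hD (hc.trans hd.symm) hlt
      rw [hc, hVij, hwij.2] at h1
      exact absurd h1 (by decide)

end Classes

/-- canonical genus less than two -/
theorem genus_le_one (hD : D.Planar) (hf : D.normalizedBracket = 1)
    (hg : n ≤ D.comps D.sign + 2) :
    R12Trivial D.sign D.code ∨ D.tailRegion = D.headRegion := by
  obtain ⟨v, hv⟩ := D.exists_wedge hg
  exact D.top_of_wedge hv hD hf

/-- the theorem -/
theorem small_genus (hD : D.Planar) (hf : D.normalizedBracket = 1)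
    (h : n + 1 ≤ D.comps D.sign + 2 ∨
      (∃ b, 4 * (Finset.univ.filter fun c => D.sign c = b).card + D.comps D.sign ≤ n + 1) ∨
      ∃ b, (Finset.univ.filter fun c => D.sign c = b).card ≤ 1) :
    R12Trivial D.sign D.code ∨ D.tailRegion = D.headRegion := by
  by_cases hg : n ≤ D.comps D.sign + 2
  · exact D.genus_le_one hD hf hg
  · exfalso
    rcases h with h | ⟨b, h⟩ | ⟨b, h⟩
    · omega
    · exact D.not_one_of_few (b := b) h (by omega) hf
    · refine D.not_one_of_few (b := b) ?_ (by omega) hf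
      unfold ofSign
      omega

end GaussDiagram

end Pool.Agent.Helper16.Knotoid
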